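import Pool.Agent.ISO.GForms
import Pool.Agent.CLU.Defs

/-!
# ISB / Defs: isotrivial pencils of cubic surfaces contain nodal quartics

Conventions of `Pool.Agent.ISO.Defs`: cubic forms are symmetric tensors `T : T3`, coordinates
`x, y, z, w` = indices `0, 1, 2, 3`, `act T g` is the form `T (g x)`, `lie T X` the derivative of `T`
along the linear vector field `X x`, `mon3 a b c` the monomial `x_a x_b x_c`.
`G4 κ = x² w + y³ + z³ + κ w³`; `G4 0` is the normal form of a cubic surface with a `D4` point.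
-/

set_option autoImplicit false

noncomputable section

namespace Pool.Agent.ISB

open MvPolynomial Matrix Pool.Agent.ISO

/-- The polynomial of a tensor. -/
def poly (T : T3) : CLU.S := ∑ i, ∑ j, ∑ k, C (T i j k) * X i * X j * X k

/-- Some quartic `L0 T0 + L1 T1` with linear forms `L0`, `L1` is a nodal quartic. -/
def NQ (T0 T1 : T3) : Prop :=
  ∃ L0 L1 : CLU.S, L0.IsHomogeneous 1 ∧ L1.IsHomogeneous 1 ∧
    CLU.NodalQuartic (L0 * poly T0 + L1 * poly T1)

/-- The coefficients of the second generator of a pencil at a `D4` member in normal form. -/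
structure Par where
  (e A B1 B2 D1 D2 r0 r1 r2 r3 r11 r22 s1 s2 s3 : ℂ)

/-- `w³ + e x w² + w (A x² + B1 x y + B2 x z + D1 y² + D2 z²) + r0 y³ + r1 y² z + r2 y z² + r3 z³
+ x (r11 y² + r22 z²) + x² (s1 y + s2 z) + s3 x³`. -/
def Par.T (p : Par) : T3 :=
  mon3 3 3 3 + p.e • mon3 0 3 3 +
    (p.A • mon3 0 0 3 + p.B1 • mon3 0 1 3 + p.B2 • mon3 0 2 3 + p.D1 • mon3 1 1 3 +
      p.D2 • mon3 2 2 3) +
    (p.r0 • mon3 1 1 1 + p.r1 • mon3 1 1 2 + p.r2 • mon3 1 2 2 + p.r3 • mon3 2 2 2) +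
    (p.r11 • mon3 0 1 1 + p.r22 • mon3 0 2 2) + (p.s1 • mon3 0 0 1 + p.s2 • mon3 0 0 2) +
    p.s3 • mon3 0 0 0

/-- Exchange of `y` and `z`. -/
def Par.swap (p : Par) : Par :=
  ⟨p.e, p.A, p.B2, p.B1, p.D2, p.D1, p.r3, p.r2, p.r1, p.r0, p.r22, p.r11, p.s2, p.s1, p.s3⟩

/-- Diagonal tensors `∑ l_i x_i³`. -/
def dg (l : Fin 4 → ℂ) : T3 := fun i j k => if i = j ∧ j = k then l i else 0

/-- The columns of `U` are the vertices of the Fermat cubic `T`. -/
structure Fr (T : T3) (U : M4) (l : Fin 4 → ℂ) : Prop where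
  det : U.det ≠ 0
  ne : ∀ i, l i ≠ 0
  eq : act T U = dg l

/-- The function `Q = ∏_{i ≠ j} f_iij / ∏ l_i³` (`f` is the second generator in the frame of the
vertices of the first one). -/
def qv (f : T3) (l : Fin 4 → ℂ) : ℂ :=
  (∏ i, ∏ j ∈ Finset.univ.erase i, f i i j) / (∏ i, l i) ^ 3

/-- The function `Ψ = ∑_{i ≠ j} f_iij² / (l_i f_jji)`. -/
def pv (f : T3) (l : Fin 4 → ℂ) : ℂ :=
  ∑ i, ∑ j ∈ Finset.univ.erase i, f i i j ^ 2 / (l i * f j j i)

/-- The residue `diag(-1/6, 0, 0, 1/3)`. -/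
def Rm : M4 := Matrix.diagonal ![-(1 / 6 : ℂ), 0, 0, 1 / 3]

end Pool.Agent.ISB
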