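import Pool.Agent.ISB.Defs
import Pool.Agent.ISO.Main

/-!
# ISB / All4: all singular members have a `D4` point, there are exactly eight

PROOF.  `PR2 T`: two linearly independent vectors have polar quadrics of rank `≤ 1` (all `2 × 2` minors
vanish).  `pr2_act` as `pr1_act` (`g⁻¹ p`, `g⁻¹ p'` are independent).  `PR2 fermat`: `e_0`, `e_1`.
`not_pr2_G6`: the matrix (times `3`) of the polar quadric of `p` for `G6 γ κ` has the entries
`xx: p3, xz: γ p2, xw: p0, yy: 3 p1, zz: γ p0, ww: 3 κ p3`, others `0`.  The minors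
`xx ww - xw²: 3 κ p3² - p0²`, `zz ww - zw²: 3 κ γ p0 p3`, `xx zz - xz²: γ p3 p0 - γ² p2²` give
`p0 = p3 = p2 = 0`: all such `p` are multiples of `e_1`.
`all4`: as in `ISO.main1` (copy its proof): `Z`, `m`, `G` from `local_at`, `∑ m z = 32` (`sum_mult`),
all `G z` are in the orbit of `T0` (`limit_mem_orbit`, `orbit_all`), and `T0` is in the orbit of `fermat`
(`main1`), so `PR2 (G z)`; `G5` is excluded by `not_pr1_G5` (`PR2 → PR1`), `G6` by `not_pr2_G6`.  So all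
`m z = 4` and `IsD4` holds for all `z ∈ Z`; `4 card Z = 32`.
-/

set_option autoImplicit false

noncomputable section

namespace Pool.Agent.ISB

open Matrix Filter Topology Pool.Agent.ISO

/-- Two independent vectors with polar quadrics of rank at most one. -/
def PR2 (T : T3) : Prop :=
  ∃ p p' : Fin 4 → ℂ, LinearIndependent ℂ ![p, p'] ∧
    (∀ i j k l, pol T p i k * pol T p j l = pol T p i l * pol T p j k) ∧
    ∀ i j k l, pol T p' i k * pol T p' j l = pol T p' i l * pol T p' j k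

private theorem min_act (T : T3) (g : M4) (p : Fin 4 → ℂ)
    (hm : ∀ i j k l, pol T p i k * pol T p j l = pol T p i l * pol T p j k) :
    ∀ i j k l, (g.transpose * pol T p * g) i k * (g.transpose * pol T p * g) j l =
      (g.transpose * pol T p * g) i l * (g.transpose * pol T p * g) j k := by
  by_cases hz : ∀ a b, pol T p a b = 0
  · have hM : pol T p = 0 := by
      ext a b
      exact hz a b
    intro i j k l
    rw [hM]
    simp
  · push Not at hz
    obtain ⟨i0, k0, hne⟩ := hz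
    have key : ∀ i k, (g.transpose * pol T p * g) i k * pol T p i0 k0 =
        (∑ a, g a i * pol T p a k0) * (∑ b, pol T p i0 b * g b k) := by
      intro i k
      rw [Matrix.mul_apply, Finset.sum_mul_sum, Finset.sum_mul, Finset.sum_comm]
      refine Finset.sum_congr rfl fun b _ => ?_
      rw [Matrix.mul_apply, Finset.sum_mul, Finset.sum_mul]
      refine Finset.sum_congr rfl fun a _ => ?_
      rw [Matrix.transpose_apply]
      linear_combination g a i * g b k * hm a i0 b k0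
    intro i j k l
    have h2 : pol T p i0 k0 * pol T p i0 k0 ≠ 0 := mul_ne_zero hne hne
    apply mul_right_cancel₀ h2
    calc (g.transpose * pol T p * g) i k * (g.transpose * pol T p * g) j l *
          (pol T p i0 k0 * pol T p i0 k0) =
        ((g.transpose * pol T p * g) i k * pol T p i0 k0) *
          ((g.transpose * pol T p * g) j l * pol T p i0 k0) := by ring
      _ = ((g.transpose * pol T p * g) i l * pol T p i0 k0) *
          ((g.transpose * pol T p * g) j k * pol T p i0 k0) := by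
        rw [key, key, key, key]
        ring
      _ = _ := by ring

theorem pr2_act (T : T3) (g : M4) (hg : g.det ≠ 0) (h : PR2 T) : PR2 (act T g) := by
  obtain ⟨p, p', hp, hm, hm'⟩ := h
  have hu : IsUnit g.det := isUnit_iff_ne_zero.2 hg
  have hgq : ∀ q : Fin 4 → ℂ, g.mulVec (g⁻¹.mulVec q) = q := fun q => by
    rw [Matrix.mulVec_mulVec, Matrix.mul_nonsing_inv g hu, Matrix.one_mulVec]
  refine ⟨g⁻¹.mulVec p, g⁻¹.mulVec p', ?_, ?_, ?_⟩
  · rw [LinearIndependent.pair_iff] at hp ⊢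
    intro a b hab
    apply hp
    have h1 := congrArg g.mulVec hab
    rw [Matrix.mulVec_add, Matrix.mulVec_smul, Matrix.mulVec_smul, hgq, hgq,
      Matrix.mulVec_zero] at h1
    exact h1
  · rw [pol_act, hgq]
    exact min_act T g p hm
  · rw [pol_act, hgq]
    exact min_act T g p' hm'

private theorem pol_fermat (p : Fin 4 → ℂ) (j k : Fin 4) :
    pol fermat p j k = if j = k then p j else 0 := by
  simp only [pol, Matrix.of_apply, fermat, Fin.sum_univ_four, Pi.add_apply, mon3]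
  fin_cases j <;> fin_cases k <;> simp
  all_goals ring

private theorem ind_e01 : LinearIndependent ℂ
    ![(Pi.single 0 1 : Fin 4 → ℂ), (Pi.single 1 1 : Fin 4 → ℂ)] := by
  rw [LinearIndependent.pair_iff]
  intro a b hab
  have h0 := congrFun hab 0
  have h1 := congrFun hab 1
  simp at h0 h1
  exact ⟨h0, h1⟩

theorem pr2_fermat : PR2 fermat := by
  have key : ∀ a : Fin 4, ∀ j k : Fin 4, pol fermat (Pi.single a 1) j k =
      (if j = a then 1 else 0) * (if k = a then 1 else 0) := by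
    intro a j k
    rw [pol_fermat]
    by_cases hj : j = a
    · subst hj
      by_cases hk : k = j
      · subst hk
        simp
      · simp [hk, Ne.symm hk]
    · simp [hj]
  refine ⟨Pi.single 0 1, Pi.single 1 1, ind_e01, ?_, ?_⟩
  · intro i j k l
    rw [key, key, key, key]
    ring
  · intro i j k l
    rw [key, key, key, key]
    ring

theorem pr1_of_pr2 {T : T3} (h : PR2 T) : PR1 T := by
  obtain ⟨p, p', hp, hm, -⟩ := h
  exact ⟨p, by simpa using hp.ne_zero 0, hm⟩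

private theorem pr2_G6_aux (γ κ : ℂ) (hγ : γ ≠ 0) (hκ : κ ≠ 0) (p : Fin 4 → ℂ)
    (hm : ∀ i j k l, pol (G6 γ κ) p i k * pol (G6 γ κ) p j l =
      pol (G6 γ κ) p i l * pol (G6 γ κ) p j k) : p 0 = 0 ∧ p 2 = 0 ∧ p 3 = 0 := by
  have e00 : pol (G6 γ κ) p 0 0 = p 3 / 3 := by
    simp [pol, G6, mon3, Fin.sum_univ_four]
    try ring
  have e02 : pol (G6 γ κ) p 0 2 = γ * p 2 / 3 := by
    simp [pol, G6, mon3, Fin.sum_univ_four]
    try ring
  have e20 : pol (G6 γ κ) p 2 0 = γ * p 2 / 3 := by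
    simp [pol, G6, mon3, Fin.sum_univ_four]
    try ring
  have e03 : pol (G6 γ κ) p 0 3 = p 0 / 3 := by
    simp [pol, G6, mon3, Fin.sum_univ_four]
    try ring
  have e30 : pol (G6 γ κ) p 3 0 = p 0 / 3 := by
    simp [pol, G6, mon3, Fin.sum_univ_four]
    try ring
  have e22 : pol (G6 γ κ) p 2 2 = γ * p 0 / 3 := by
    simp [pol, G6, mon3, Fin.sum_univ_four]
    try ring
  have e23 : pol (G6 γ κ) p 2 3 = 0 := by
    simp [pol, G6, mon3, Fin.sum_univ_four]
  have e33 : pol (G6 γ κ) p 3 3 = κ * p 3 := by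
    simp [pol, G6, mon3, Fin.sum_univ_four]
    try left
    try ring
  have m1 := hm 0 3 0 3
  have m2 := hm 2 3 2 3
  have m3 := hm 0 2 0 2
  rw [e00, e33, e03, e30] at m1
  rw [e22, e33, e23] at m2
  rw [e00, e22, e02, e20] at m3
  have f1 : 3 * κ * (p 3 * p 3) = p 0 * p 0 := by linear_combination 9 * m1
  have f2 : γ * κ * (p 0 * p 3) = 0 := by linear_combination 3 * m2
  have f3 : γ * (p 0 * p 3) = γ * γ * (p 2 * p 2) := by linear_combination 9 * m3
  have e03 : p 0 * p 3 = 0 := (mul_eq_zero.1 f2).resolve_left (mul_ne_zero hγ hκ)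
  have hd : p 0 = 0 ∧ p 3 = 0 := by
    rcases mul_eq_zero.1 e03 with h | h
    · refine ⟨h, ?_⟩
      have h2 : κ * (p 3 * p 3) = 0 := by linear_combination (1 / 3) * f1 + (1 / 3) * p 0 * h
      exact mul_self_eq_zero.1 ((mul_eq_zero.1 h2).resolve_left hκ)
    · refine ⟨?_, h⟩
      have h2 : p 0 * p 0 = 0 := by linear_combination 3 * κ * p 3 * h - f1
      exact mul_self_eq_zero.1 h2
  obtain ⟨e0, e3⟩ := hd
  have e2 : p 2 = 0 := by
    have h2 : γ * γ * (p 2 * p 2) = 0 := by linear_combination γ * e03 - f3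
    exact mul_self_eq_zero.1 ((mul_eq_zero.1 h2).resolve_left (mul_ne_zero hγ hγ))
  exact ⟨e0, e2, e3⟩

theorem not_pr2_G6 (γ κ : ℂ) (hγ : γ ≠ 0) (hκ : κ ≠ 0) : ¬ PR2 (G6 γ κ) := by
  rintro ⟨p, p', hp, hm, hm'⟩
  obtain ⟨a0, a2, a3⟩ := pr2_G6_aux γ κ hγ hκ p hm
  obtain ⟨b0, b2, b3⟩ := pr2_G6_aux γ κ hγ hκ p' hm'
  have hne : p ≠ 0 := by simpa using hp.ne_zero 0
  rw [LinearIndependent.pair_iff] at hp
  have h1 : p' 1 • p + (-p 1) • p' = 0 := by
    funext i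
    fin_cases i
    · simp [a0, b0]
    · simp
      ring
    · simp [a2, b2]
    · simp [a3, b3]
  obtain ⟨-, h2⟩ := hp _ _ h1
  apply hne
  funext i
  fin_cases i
  · exact a0
  · exact neg_eq_zero.1 h2
  · exact a2
  · exact a3

private theorem iso_erase' (Z : Finset ℂ) (z : ℂ) :
    ∃ ε : ℝ, 0 < ε ∧ ∀ t : ℂ, t ≠ 0 → ‖t‖ < ε → z + t ∉ Z := by
  classical
  have h1 : IsClosed ((Z.erase z : Finset ℂ) : Set ℂ) := (Finset.finite_toSet _).isClosed
  have h2 : z ∈ ((Z.erase z : Finset ℂ) : Set ℂ)ᶜ := by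
    intro h3
    exact (Finset.mem_erase.1 (Finset.mem_coe.1 h3)).1 rfl
  obtain ⟨ε, hε, hb⟩ := Metric.isOpen_iff.1 h1.isOpen_compl z h2
  refine ⟨ε, hε, fun t ht htε hmem => ?_⟩
  have h3 : z + t ∈ Metric.ball z ε := by
    rw [Metric.mem_ball, dist_eq_norm, add_sub_cancel_left]
    exact htε
  refine hb h3 (Finset.mem_coe.2 (Finset.mem_erase.2 ⟨?_, hmem⟩))
  intro h4
  exact ht (add_eq_left.1 h4)

theorem all4 {T0 T1 : T3} (h : Pen T0 T1) (h0 : Sm T0) (h1 : Sm T1) :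
    ∃ Z : Finset ℂ, Z.card = 8 ∧ (∀ t : ℂ, t ∈ Z ↔ ¬ Sm (T0 + t • T1)) ∧
      ∀ z ∈ Z, IsD4 (T0 + z • T1) T1 := by
  classical
  obtain ⟨c, hc⟩ := exists_c
  obtain ⟨⟨y, hy, hy2⟩, hfin, -, -⟩ := main1 h h0 h1
  obtain ⟨Z, hZd⟩ : ∃ Z : Finset ℂ, ∀ t, t ∈ Z ↔ ¬ Sm (T0 + t • T1) :=
    ⟨hfin.toFinset, fun t => by rw [Set.Finite.mem_toFinset]; rfl⟩
  have hZ : ∀ t : ℂ, t ∉ Z → Sm (T0 + t • T1) := by
    intro t ht
    by_contra hcon
    exact ht ((hZd t).2 hcon)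
  have h0Z : (0 : ℂ) ∉ Z := by
    intro h2
    rw [hZd, zero_smul, add_zero] at h2
    exact h2 h0
  have H : ∀ z : ℂ, ∃ (m : ℕ) (G : T3), z ∈ Z → LocalLim (T0 + z • T1) T1 m G ∧
      ((m = 4 ∧ (∃ κ : ℂ, κ ≠ 0 ∧ G = G4 κ) ∧ IsD4 (T0 + z • T1) T1) ∨
        (m = 5 ∧ ∃ γ κ : ℂ, γ ≠ 0 ∧ κ ≠ 0 ∧ G = G5 γ κ) ∨
        (m = 6 ∧ ∃ γ κ : ℂ, γ ≠ 0 ∧ κ ≠ 0 ∧ G = G6 γ κ)) := by
    intro z
    by_cases hz : z ∈ Z
    · obtain ⟨m, G, h2⟩ := local_at h z ((hZd z).1 hz)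
      exact ⟨m, G, fun _ => h2⟩
    · exact ⟨0, T0, fun h2 => absurd h2 hz⟩
  choose m G hmG using H
  have hsum : ∑ z ∈ Z, m z = 32 :=
    sum_mult hc T0 T1 h.s0 h1 Z hZ m fun z hz => ⟨G z, (hmG z hz).1⟩
  have htan : ∀ s : ℂ, s ∉ Z → ∃ X : M4, T1 = lie (T0 + s • T1) X := fun s hs =>
    tangent hc T0 T1 h.s0 h1 Z hZ (fun z hz => ⟨m z, G z, (hmG z hz).1⟩) s hs
  have horb : ∀ t : ℂ, t ∉ Z → ∃ x : M4, x.det ≠ 0 ∧ T0 + t • T1 = act T0 x := by
    intro t ht
    obtain ⟨x, hx, hx2⟩ := orbit_all T0 T1 h.s0 h.s1 Z (fun t ht => ⟨hZ t ht, htan t ht⟩) 0 t h0Z ht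
    rw [zero_smul, add_zero] at hx2
    exact ⟨x, hx, hx2⟩
  have hG : ∀ z ∈ Z, ∃ x : M4, x.det ≠ 0 ∧ G z = act T0 x := by
    intro z hz
    obtain ⟨ε, hε, hb⟩ := iso_erase' Z z
    refine limit_mem_orbit (T0 + z • T1) T1 T0 h0 (m z) (G z) (hmG z hz).1 ε hε fun t ht htε => ?_
    obtain ⟨x, hx, hx2⟩ := horb (z + t) (hb t ht htε)
    refine ⟨x, hx, ?_⟩
    rw [← hx2, add_smul, add_assoc]
  have hpr : ∀ z ∈ Z, PR2 (G z) := by
    intro z hz
    obtain ⟨x, hx, hx2⟩ := hG z hz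
    rw [hx2, hy2]
    exact pr2_act _ x hx (pr2_act _ y hy pr2_fermat)
  have hall : ∀ z ∈ Z, m z = 4 ∧ IsD4 (T0 + z • T1) T1 := by
    intro z hz
    rcases (hmG z hz).2 with h2 | ⟨-, γ, κ, hγ, hκ, hG5⟩ | ⟨-, γ, κ, hγ, hκ, hG6⟩
    · exact ⟨h2.1, h2.2.2⟩
    · have h3 := hpr z hz
      rw [hG5] at h3
      exact absurd (pr1_of_pr2 h3) (not_pr1_G5 γ κ hγ hκ)
    · have h3 := hpr z hz
      rw [hG6] at h3
      exact absurd h3 (not_pr2_G6 γ κ hγ hκ)
  refine ⟨Z, ?_, hZd, fun z hz => (hall z hz).2⟩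
  rw [Finset.sum_congr rfl fun z hz => (hall z hz).1, Finset.sum_const, smul_eq_mul] at hsum
  omega

end Pool.Agent.ISB
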