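import Mathlib

/-!
# ISB / Glob: the global contradiction (Liouville)

PROOF.  Let `P(t) = ∏_{z ∈ Z} (t - z)` and `H = P³ q`.  By `hqz` `H` is bounded near every `z ∈ Z` and
analytic elsewhere, so it extends to an entire function (removable singularities, one point after the other:
`Complex.differentiableOn_update_limUnder_of_bddAbove` or
`Complex.differentiableOn_update_limUnder_insert_of_isLittleO`; or by induction on `Z`).  At infinity
`H(1/s) = s^(-24) ∏ (1 - s z)³ s^24 qh(s) → qh(0)`, so `H` is bounded and constant (Liouville,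
`Differentiable.apply_eq_apply_of_bounded`): `H = c` off `Z`, `c = qh 0`.
If `c = 0` then `q = 0` off `Z`: the claim.  If `c ≠ 0`: `q t ≠ 0` for all `t ∉ Z`, so `ψ` is analytic off
`Z`; for `z ∈ Z` the limit of `(t - z)³ q t` is `c / ∏_{z' ≠ z} (z - z')³ ≠ 0`, so `(t - z) ψ t → -1/2`.
Let `G t = ψ t + (1/2) ∑_{z ∈ Z} 1 / (t - z)`: analytic off `Z`, `(t - z) G t → 0` at `z ∈ Z`, so `G`
extends to an entire function (removable singularity:
`Complex.differentiableOn_update_limUnder_insert_of_isLittleO`).  At infinity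
`G(1/s) = - s² ph(s) + (s/2) ∑ 1 / (1 - s z) → 0`, `ph` bounded near `0` (`qh 0 = c ≠ 0`).  So `G = 0`
(Liouville and limit `0`).  But `G(1/s) / s → card Z / 2 = 4 ≠ 0`, contradiction.
-/

set_option autoImplicit false

noncomputable section

namespace Pool.Agent.ISB

open Filter Topology

private theorem const_of_inv {E : ℂ → ℂ} (hE : Differentiable ℂ E) {L : ℂ}
    (h : Tendsto (fun s => E s⁻¹) (𝓝[≠] 0) (𝓝 L)) (t : ℂ) : E t = L := by
  refine hE.apply_eq_of_tendsto_cocompact t ?_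
  rw [← Metric.cobounded_eq_cocompact]
  have h1 := h.comp (tendsto_inv₀_cobounded' (α := ℂ))
  refine h1.congr fun t => ?_
  simp

private theorem exists_ext (Z : Finset ℂ) (H : ℂ → ℂ) (hd : ∀ t ∉ Z, DifferentiableAt ℂ H t)
    (hz : ∀ z ∈ Z, Tendsto (fun t => (t - z) * H t) (𝓝[≠] z) (𝓝 0)) :
    ∃ E : ℂ → ℂ, Differentiable ℂ E ∧ ∀ t ∉ Z, E t = H t := by
  classical
  refine ⟨fun t => if t ∈ Z then limUnder (𝓝[≠] t) H else H t, fun t => ?_, fun t ht => if_neg ht⟩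
  by_cases ht : t ∈ Z
  · have hs : ((Z.erase t : Finset ℂ) : Set ℂ)ᶜ ∈ 𝓝 t := by
      refine (Z.erase t).finite_toSet.isClosed.isOpen_compl.mem_nhds ?_
      simp
    have h1 : DifferentiableOn ℂ H (((Z.erase t : Finset ℂ) : Set ℂ)ᶜ \ {t}) := by
      intro x hx
      refine (hd x fun hxZ => ?_).differentiableWithinAt
      have h2 : x ∉ Z.erase t := fun h => hx.1 (Finset.mem_coe.2 h)
      exact h2 (Finset.mem_erase.2 ⟨hx.2, hxZ⟩)
    have h2 : (fun z => H z - H t) =o[𝓝[≠] t] fun z => (z - t)⁻¹ := by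
      rw [Asymptotics.isLittleO_iff_tendsto']
      · have h3 : Tendsto (fun z => (z - t) * H z - (z - t) * H t) (𝓝[≠] t) (𝓝 (0 - 0)) := by
          refine (hz t ht).sub ?_
          have h4 : Tendsto (fun z : ℂ => (z - t) * H t) (𝓝 t) (𝓝 ((t - t) * H t)) :=
            ((continuous_id.sub continuous_const).mul continuous_const).tendsto t
          rw [sub_self, zero_mul] at h4
          exact h4.mono_left nhdsWithin_le_nhds
        rw [sub_zero] at h3
        refine h3.congr fun z => ?_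
        rw [div_inv_eq_mul]
        ring
      · filter_upwards [self_mem_nhdsWithin] with z hz' h0
        exact absurd (sub_eq_zero.1 (inv_eq_zero.1 h0)) hz'
    have h3 := Complex.differentiableOn_update_limUnder_of_isLittleO hs h1 h2
    have h4 := h3.differentiableAt hs
    refine h4.congr_of_eventuallyEq ?_
    filter_upwards [hs] with x hx
    by_cases hxt : x = t
    · subst hxt
      rw [Function.update_self, if_pos ht]
    · have hxZ : x ∉ Z := fun h => hx (Finset.mem_coe.2 (Finset.mem_erase.2 ⟨hxt, h⟩))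
      rw [Function.update_of_ne hxt, if_neg hxZ]
  · refine (hd t ht).congr_of_eventuallyEq ?_
    have hs : ((Z : Finset ℂ) : Set ℂ)ᶜ ∈ 𝓝 t :=
      Z.finite_toSet.isClosed.isOpen_compl.mem_nhds fun h => ht (Finset.mem_coe.1 h)
    filter_upwards [hs] with x hx
    exact if_neg fun h => hx (Finset.mem_coe.2 h)

private theorem tends_one_sub (z : ℂ) :
    Tendsto (fun s : ℂ => 1 - s * z) (𝓝[≠] 0) (𝓝 1) := by
  have h : Tendsto (fun s : ℂ => 1 - s * z) (𝓝 0) (𝓝 (1 - 0 * z)) :=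
    (continuous_const.sub (continuous_id.mul continuous_const)).tendsto 0
  rw [zero_mul, sub_zero] at h
  exact h.mono_left nhdsWithin_le_nhds

private theorem ev_ne (Z : Finset ℂ) : ∀ᶠ s in 𝓝[≠] (0 : ℂ), ∀ z ∈ Z, 1 - s * z ≠ 0 := by
  rw [Filter.eventually_all_finset]
  intro z _
  exact (tends_one_sub z).eventually_ne one_ne_zero

private theorem inv_not_mem {Z : Finset ℂ} {s : ℂ} (hs : s ≠ 0)
    (h : ∀ z ∈ Z, 1 - s * z ≠ 0) : s⁻¹ ∉ Z := by
  intro hm
  apply h _ hm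
  rw [mul_inv_cancel₀ hs, sub_self]

theorem glob (Z : Finset ℂ) (hZ : Z.card = 8) (q ψ : ℂ → ℂ) (hq : ∀ t ∉ Z, AnalyticAt ℂ q t)
    (hψ : ∀ t ∉ Z, q t ≠ 0 → AnalyticAt ℂ ψ t)
    (hqz : ∀ z ∈ Z, ∃ C : ℝ, ∀ᶠ t in 𝓝[≠] z, ‖(t - z) ^ 3 * q t‖ ≤ C)
    (hψz : ∀ z ∈ Z, ∀ c : ℂ, c ≠ 0 → Tendsto (fun t => (t - z) ^ 3 * q t) (𝓝[≠] z) (𝓝 c) →
      Tendsto (fun t => (t - z) * ψ t) (𝓝[≠] z) (𝓝 (-(1 / 2))))
    (qh ph : ℂ → ℂ) (hqh : AnalyticAt ℂ qh 0) (hph : qh 0 ≠ 0 → AnalyticAt ℂ ph 0)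
    (hinf : ∀ᶠ s in 𝓝[≠] (0 : ℂ), q s⁻¹ = s ^ 24 * qh s ∧ ψ s⁻¹ = -(s ^ 2 * ph s)) :
    ∀ t ∉ Z, q t = 0 := by
  classical
  have hfact : ∀ z ∈ Z, ∀ t, ∏ w ∈ Z, (t - w) = (t - z) * ∏ w ∈ Z.erase z, (t - w) :=
    fun z hz t => (Finset.mul_prod_erase Z (fun w => t - w) hz).symm
  have hRc : ∀ z : ℂ, Continuous fun t : ℂ => ∏ w ∈ Z.erase z, (t - w) := fun z =>
    continuous_finsetProd _ fun w _ => continuous_id.sub continuous_const
  have hPd : Differentiable ℂ fun t : ℂ => ∏ w ∈ Z, (t - w) := by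
    intro t
    exact DifferentiableAt.fun_finsetProd fun w _ => differentiableAt_id.sub_const w
  -- the first entire function
  obtain ⟨E, hE, hEq⟩ := exists_ext Z (fun t => (∏ w ∈ Z, (t - w)) ^ 3 * q t)
    (fun t ht => ((hPd t).pow 3).mul (hq t ht).differentiableAt)
    (fun z hz => by
      obtain ⟨C, hC⟩ := hqz z hz
      have h1 : Tendsto (fun t : ℂ => (t - z) * (∏ w ∈ Z.erase z, (t - w)) ^ 3) (𝓝[≠] z) (𝓝 0) := by
        have h2 : Tendsto (fun t : ℂ => (t - z) * (∏ w ∈ Z.erase z, (t - w)) ^ 3) (𝓝 z)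
            (𝓝 ((z - z) * (∏ w ∈ Z.erase z, (z - w)) ^ 3)) :=
          ((continuous_id.sub continuous_const).mul ((hRc z).pow 3)).tendsto z
        rw [sub_self, zero_mul] at h2
        exact h2.mono_left nhdsWithin_le_nhds
      have h3 : IsBoundedUnder (· ≤ ·) (𝓝[≠] z) ((‖·‖) ∘ fun t => (t - z) ^ 3 * q t) :=
        isBoundedUnder_of_eventually_le hC
      refine (h1.zero_mul_isBoundedUnder_le h3).congr fun t => ?_
      rw [hfact z hz t]
      ring)
  have hEinf : Tendsto (fun s => E s⁻¹) (𝓝[≠] 0) (𝓝 (qh 0)) := by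
    have h1 : Tendsto (fun s : ℂ => (∏ w ∈ Z, (1 - s * w)) ^ 3 * qh s) (𝓝[≠] 0)
        (𝓝 ((∏ w ∈ Z, (1 : ℂ)) ^ 3 * qh 0)) :=
      ((tendsto_finsetProd Z fun w _ => tends_one_sub w).pow 3).mul
        (hqh.continuousAt.tendsto.mono_left nhdsWithin_le_nhds)
    rw [Finset.prod_const_one, one_pow, one_mul] at h1
    refine h1.congr' ?_
    filter_upwards [hinf, ev_ne Z, self_mem_nhdsWithin] with s hs hne hs0
    have hs0' : s ≠ 0 := hs0
    rw [hEq _ (inv_not_mem hs0' hne), hs.1]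
    have h2 : ∏ w ∈ Z, (s⁻¹ - w) = s⁻¹ ^ 8 * ∏ w ∈ Z, (1 - s * w) := by
      rw [← hZ, ← Finset.prod_const, ← Finset.prod_mul_distrib]
      refine Finset.prod_congr rfl fun w _ => ?_
      field_simp
    rw [h2]
    field_simp
  have hEc : ∀ t, E t = qh 0 := fun t => const_of_inv hE hEinf t
  have hPq : ∀ t ∉ Z, (∏ w ∈ Z, (t - w)) ^ 3 * q t = qh 0 := fun t ht => by
    rw [← hEq t ht, hEc]
  have hP0 : ∀ t ∉ Z, ∏ w ∈ Z, (t - w) ≠ 0 := fun t ht =>
    Finset.prod_ne_zero_iff.2 fun w hw h => ht (by rw [sub_eq_zero.1 h]; exact hw)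
  by_cases hc : qh 0 = 0
  · intro t ht
    have h1 := hPq t ht
    rw [hc] at h1
    exact (mul_eq_zero.1 h1).resolve_left (pow_ne_zero 3 (hP0 t ht))
  exfalso
  have hq0 : ∀ t ∉ Z, q t ≠ 0 := fun t ht h => hc (by rw [← hPq t ht, h, mul_zero])
  have hR0 : ∀ z ∈ Z, ∏ w ∈ Z.erase z, (z - w) ≠ 0 := fun z _ =>
    Finset.prod_ne_zero_iff.2 fun w hw h => (Finset.mem_erase.1 hw).1 (sub_eq_zero.1 h).symm
  have hnear : ∀ z : ℂ, ∀ᶠ t in 𝓝[≠] z, t ∉ Z := by
    intro z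
    have hs : ((Z.erase z : Finset ℂ) : Set ℂ)ᶜ ∈ 𝓝 z := by
      refine (Z.erase z).finite_toSet.isClosed.isOpen_compl.mem_nhds ?_
      simp
    filter_upwards [mem_nhdsWithin_of_mem_nhds hs, self_mem_nhdsWithin] with t ht ht' h
    exact ht (Finset.mem_coe.2 (Finset.mem_erase.2 ⟨ht', h⟩))
  have hψl : ∀ z ∈ Z, Tendsto (fun t => (t - z) * ψ t) (𝓝[≠] z) (𝓝 (-(1 / 2))) := by
    intro z hz
    refine hψz z hz (qh 0 / (∏ w ∈ Z.erase z, (z - w)) ^ 3)
      (div_ne_zero hc (pow_ne_zero 3 (hR0 z hz))) ?_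
    have h1 : Tendsto (fun t : ℂ => qh 0 / (∏ w ∈ Z.erase z, (t - w)) ^ 3) (𝓝[≠] z)
        (𝓝 (qh 0 / (∏ w ∈ Z.erase z, (z - w)) ^ 3)) :=
      (tendsto_const_nhds.div (((hRc z).pow 3).tendsto z) (pow_ne_zero 3 (hR0 z hz))).mono_left
        nhdsWithin_le_nhds
    refine h1.congr' ?_
    filter_upwards [hnear z] with t ht
    have h2 := hPq t ht
    have h3 := hP0 t ht
    rw [hfact z hz t] at h2 h3
    have h4 : ∏ w ∈ Z.erase z, (t - w) ≠ 0 := right_ne_zero_of_mul h3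
    rw [← h2]
    field_simp
  -- the second entire function
  obtain ⟨F, hF, hFq⟩ := exists_ext Z (fun t => ψ t + 1 / 2 * ∑ w ∈ Z, (t - w)⁻¹)
    (fun t ht => (hψ t ht (hq0 t ht)).differentiableAt.add
      ((DifferentiableAt.fun_sum fun w hw => (differentiableAt_id.sub_const w).inv
        (sub_ne_zero.2 fun h => ht (by rw [show t = w from h]; exact hw))).const_mul _))
    (fun z hz => by
      have h1 : Tendsto (fun t : ℂ => (t - z) * ψ t + 1 / 2 * (1 +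
          (t - z) * ∑ w ∈ Z.erase z, (t - w)⁻¹)) (𝓝[≠] z)
          (𝓝 (-(1 / 2) + 1 / 2 * (1 + (z - z) * ∑ w ∈ Z.erase z, (z - w)⁻¹))) := by
        refine (hψl z hz).add (tendsto_const_nhds.mul (tendsto_const_nhds.add ?_))
        refine Tendsto.mono_left (Tendsto.mul ?_ ?_) nhdsWithin_le_nhds
        · exact (continuous_id.sub continuous_const).tendsto z
        · refine tendsto_finsetSum _ fun w hw => ?_
          have h2 : Tendsto (fun t : ℂ => t - w) (𝓝 z) (𝓝 (z - w)) :=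
            (continuous_id.sub continuous_const).tendsto z
          exact h2.inv₀ (sub_ne_zero.2 (Finset.mem_erase.1 hw).1.symm)
      rw [sub_self, zero_mul, add_zero, mul_one, neg_add_cancel] at h1
      refine h1.congr' ?_
      filter_upwards [self_mem_nhdsWithin] with t ht
      have h3 : t - z ≠ 0 := sub_ne_zero.2 ht
      rw [← Finset.add_sum_erase Z (fun w => (t - w)⁻¹) hz, mul_add (t - z), mul_left_comm (t - z),
        mul_add (t - z), mul_inv_cancel₀ h3])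
  have hsum : Tendsto (fun s : ℂ => ∑ w ∈ Z, (1 - s * w)⁻¹) (𝓝[≠] 0) (𝓝 8) := by
    have h1 : Tendsto (fun s : ℂ => ∑ w ∈ Z, (1 - s * w)⁻¹) (𝓝[≠] 0)
        (𝓝 (∑ w ∈ Z, (1 : ℂ)⁻¹)) :=
      tendsto_finsetSum _ fun w _ => (tends_one_sub w).inv₀ one_ne_zero
    rw [inv_one, Finset.sum_const, hZ, nsmul_eq_mul, mul_one] at h1
    exact_mod_cast h1
  have hid : Tendsto (fun s : ℂ => s) (𝓝[≠] 0) (𝓝 0) := tendsto_id.mono_left nhdsWithin_le_nhds
  have hpl : Tendsto ph (𝓝[≠] 0) (𝓝 (ph 0)) :=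
    (hph hc).continuousAt.tendsto.mono_left nhdsWithin_le_nhds
  have hform : ∀ᶠ s in 𝓝[≠] (0 : ℂ), s * (-(s * ph s) + 1 / 2 * ∑ w ∈ Z, (1 - s * w)⁻¹) = F s⁻¹ := by
    filter_upwards [hinf, ev_ne Z, self_mem_nhdsWithin] with s hs hne hs0
    have hs0' : s ≠ 0 := hs0
    rw [hFq _ (inv_not_mem hs0' hne), hs.2]
    have h2 : ∑ w ∈ Z, (s⁻¹ - w)⁻¹ = s * ∑ w ∈ Z, (1 - s * w)⁻¹ := by
      rw [Finset.mul_sum]
      refine Finset.sum_congr rfl fun w hw => ?_
      have h3 := hne w hw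
      have h4 : s⁻¹ - w = s⁻¹ * (1 - s * w) := by field_simp
      rw [h4, mul_inv, inv_inv]
    rw [h2]
    ring
  have hlim : Tendsto (fun s : ℂ => -(s * ph s) + 1 / 2 * ∑ w ∈ Z, (1 - s * w)⁻¹) (𝓝[≠] 0)
      (𝓝 (-(0 * ph 0) + 1 / 2 * 8)) :=
    ((hid.mul hpl).neg).add (tendsto_const_nhds.mul hsum)
  have hF0 : ∀ t, F t = 0 := fun t => const_of_inv hF (by
    have h1 := hid.mul hlim
    rw [zero_mul (-(0 * ph 0) + 1 / 2 * 8)] at h1
    exact h1.congr' hform) t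
  have h0 : Tendsto (fun s : ℂ => -(s * ph s) + 1 / 2 * ∑ w ∈ Z, (1 - s * w)⁻¹) (𝓝[≠] 0)
      (𝓝 0) := by
    refine tendsto_const_nhds.congr' ?_
    filter_upwards [hform, self_mem_nhdsWithin] with s hs hs0
    rw [hF0] at hs
    exact ((mul_eq_zero.1 hs).resolve_left hs0).symm
  have h1 := tendsto_nhds_unique hlim h0
  norm_num at h1

end Pool.Agent.ISB
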