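import Pool.Agent.ISB.Qfun

/-!
# ISB / Inf: behaviour at infinity

PROOF.  Let `qh`, `ph` be the functions of the pencil `(T1, T0)` (`exists_isQ`); they are analytic at
`s = 0` since `T1` is smooth (`isQ_analytic`, for `ph` if `qh 0 ≠ 0`).  For `s ≠ 0` small `T1 + s T0` is
smooth, so it has a frame `U`, `l` (`act fermat x` with `U = x⁻¹`).  `T0 + s⁻¹ T1 = s⁻¹ (T1 + s T0)`
has the frame `U`, `s⁻¹ l`.  For `i ≠ j`, `act (T1 + s T0) U` has the entry `(i, i, j)` equal to `0`: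
`f i i j = - s g i i j` with `f = act T1 U`, `g = act T0 U`.  So
`qv f (s⁻¹ l) = (∏ (- s g_iij)) / (s⁻⁴ ∏ l)³ = s^12 s^12 qv g l = s^24 qh s` (12 factors, sign `+1`), and
`pv f (s⁻¹ l) = ∑ s² g_iij² / (s⁻¹ l_i (- s) g_jji) = - s² pv g l = - s² ph s`.
-/

set_option autoImplicit false

noncomputable section

namespace Pool.Agent.ISB

open Matrix Filter Topology Pool.Agent.ISO

/-- the values in a frame of `T1 + s T0` -/
private theorem inf_frame {T0 T1 : T3} {U : M4} {s : ℂ} (hs : s ≠ 0)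
    (h : act (T1 + s • T0) U = dg (fun _ => 1)) :
    qv (act T1 U) (fun _ => s⁻¹) = s ^ 24 * qv (act T0 U) (fun _ => 1) ∧
      pv (act T1 U) (fun _ => s⁻¹) = -(s ^ 2 * pv (act T0 U) (fun _ => 1)) := by
  have hf : ∀ i j : Fin 4, j ∈ Finset.univ.erase i →
      act T1 U i i j = -s * act T0 U i i j := by
    intro i j hj
    have hij : i ≠ j := fun h => (Finset.ne_of_mem_erase hj) h.symm
    have h1 := congrFun (congrFun (congrFun h i) i) j
    rw [act_add, act_smul] at h1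
    have h2 : dg (fun _ => 1) i i j = 0 := if_neg (fun h3 => hij h3.2)
    rw [h2] at h1
    have h3 : act T1 U i i j + s * act T0 U i i j = 0 := h1
    linear_combination h3
  constructor
  · unfold qv
    have e1 : ∏ i, ∏ j ∈ Finset.univ.erase i, act T1 U i i j =
        s ^ 12 * ∏ i, ∏ j ∈ Finset.univ.erase i, act T0 U i i j := by
      have e2 : ∀ i : Fin 4, ∏ j ∈ Finset.univ.erase i, act T1 U i i j =
          (-s) ^ 3 * ∏ j ∈ Finset.univ.erase i, act T0 U i i j := by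
        intro i
        rw [Finset.prod_congr rfl (hf i), Finset.prod_mul_distrib, Finset.prod_const,
          Finset.card_erase_of_mem (Finset.mem_univ i), Finset.card_univ, Fintype.card_fin]
      rw [Finset.prod_congr rfl fun i _ => e2 i, Finset.prod_mul_distrib, Finset.prod_const,
        Finset.card_univ, Fintype.card_fin]
      congr 1
      ring
    rw [e1, Finset.prod_const, Finset.prod_const, Finset.card_univ, Fintype.card_fin, one_pow,
      one_pow, div_one]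
    field_simp
  · unfold pv
    rw [Finset.mul_sum, ← Finset.sum_neg_distrib]
    refine Finset.sum_congr rfl fun i _ => ?_
    rw [Finset.mul_sum, ← Finset.sum_neg_distrib]
    refine Finset.sum_congr rfl fun j hj => ?_
    have hj' : i ∈ Finset.univ.erase j :=
      Finset.mem_erase.2 ⟨fun h => (Finset.ne_of_mem_erase hj) h.symm, Finset.mem_univ i⟩
    rw [hf i j hj, hf j i hj']
    have e3 : s⁻¹ * (-s * act T0 U j j i) = -act T0 U j j i := by
      field_simp
    rw [e3, one_mul, div_neg]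
    ring

theorem at_infinity {T0 T1 : T3} {q ψ : ℂ → ℂ} (hq : IsQ T0 T1 q ψ) (h0 : IsSym T0) (h1 : Sm T1)
    (horb : ∀ s : ℂ, Sm (T1 + s • T0) → ∃ x : M4, x.det ≠ 0 ∧ T1 + s • T0 = act fermat x) :
    ∃ qh ph : ℂ → ℂ, AnalyticAt ℂ qh 0 ∧ (qh 0 ≠ 0 → AnalyticAt ℂ ph 0) ∧
      ∀ᶠ s in 𝓝[≠] (0 : ℂ), q s⁻¹ = s ^ 24 * qh s ∧ ψ s⁻¹ = -(s ^ 2 * ph s) := by
  obtain ⟨qh, ph, hqh⟩ := exists_isQ T1 T0
  have hs0 : Sm (T1 + (0 : ℂ) • T0) := by
    rw [zero_smul, add_zero]
    exact h1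
  obtain ⟨ha, hb⟩ := isQ_analytic hqh h1.1 h0 horb 0 hs0
  refine ⟨qh, ph, ha, hb, ?_⟩
  have hc : Filter.Tendsto (fun s : ℂ => T1 + s • T0) (𝓝 0) (𝓝 T1) := by
    have h2 : Continuous (fun s : ℂ => T1 + s • T0) :=
      continuous_const.add (continuous_id.smul continuous_const)
    have h3 := h2.tendsto 0
    rwa [zero_smul, add_zero] at h3
  have hsm : ∀ᶠ s in 𝓝[≠] (0 : ℂ), Sm (T1 + s • T0) := by
    refine Filter.Eventually.filter_mono nhdsWithin_le_nhds ?_
    filter_upwards [hc.eventually (sm_open h1)] with s hs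
    exact hs (isSym_add h1.1 (isSym_smul h0 s))
  filter_upwards [hsm, self_mem_nhdsWithin] with s hs hne
  have hne' : s ≠ 0 := hne
  obtain ⟨x, hx, hxT⟩ := horb s hs
  have hu : IsUnit x.det := isUnit_iff_ne_zero.2 hx
  have hU : act (T1 + s • T0) x⁻¹ = dg (fun _ => 1) := by
    rw [hxT, act_act, Matrix.mul_nonsing_inv x hu, act_one, dg_one]
  have hdet : (x⁻¹).det ≠ 0 := by
    intro h2
    have h3 : x.det * (x⁻¹).det = 1 := by
      rw [← Matrix.det_mul, Matrix.mul_nonsing_inv x hu, Matrix.det_one]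
    rw [h2, mul_zero] at h3
    exact zero_ne_one h3
  have hF1 : Fr (T1 + s • T0) x⁻¹ (fun _ => 1) := ⟨hdet, fun _ => one_ne_zero, hU⟩
  have hF2 : Fr (T0 + s⁻¹ • T1) x⁻¹ (fun _ => s⁻¹) := by
    refine ⟨hdet, fun _ => inv_ne_zero hne', ?_⟩
    have e1 : T0 + s⁻¹ • T1 = s⁻¹ • (T1 + s • T0) := by
      rw [smul_add, smul_smul, inv_mul_cancel₀ hne', one_smul, add_comm]
    rw [e1, act_smul, hU]
    funext i j k
    show s⁻¹ * dg (fun _ => 1) i j k = dg (fun _ => s⁻¹) i j k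
    unfold dg
    by_cases h2 : i = j ∧ j = k
    · rw [if_pos h2, if_pos h2, mul_one]
    · rw [if_neg h2, if_neg h2, mul_zero]
  obtain ⟨e1, e2⟩ := hq s⁻¹ x⁻¹ _ hF2
  obtain ⟨e3, e4⟩ := hqh s x⁻¹ _ hF1
  obtain ⟨e5, e6⟩ := inf_frame hne' hU
  rw [e1, e2, e3, e4]
  exact ⟨e5, e6⟩

end Pool.Agent.ISB
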