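import Pool.Agent.ISB.QAs

/-!
# ISB / PAs: the residue of `Ψ` at a bad `D4` member is `-1/2`

PROOF.  If the limit of `t³ q t` is nonzero then by `q_lim` (uniqueness of limits) `B1, D1, D2, r1, r2` are
nonzero, and `s2 = - D2²/9` (`Bad`).  By `psi_formula` it suffices to show (`t = θ²/3`) that
`(θ²/3) * pv (act (φ (θ²/3)) (Mf θ)) (lf (θ²/3)) → -1/2` as `θ → 0`, `θ ≠ 0` (given `t ≠ 0` choose `θ` with
`θ² = 3 t`; `‖θ‖` small iff `‖t‖` small).  With the entries from `Mf_entries` (`phi_tan`), the twelve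
terms `t f_iij² / (l_i f_jji)`, `E1 = act _ 0 0 1 → 1`, `E2 = act _ 1 1 0 → 1`:
* `(0,1)`, `(1,0)`: `E1² / (4 E2)`, `E2² / (4 E1)`: limit `1/4` each;
* `(0,2)`, `(1,2)`: `(2 θ² φ001 ± 2 θ φ013)² / (4 (φ113 ± θ φ011)) → 0` (`D1 ≠ 0`);
* `(0,3)`, `(1,3)`: `(2 θ² φ002 ± 2 θ φ023)² / (4 (φ223 ± θ φ022)) → 0` (`D2 ≠ 0`);
* `(2,0)`, `(2,1)`: `(θ²/3) (φ113 ± θ φ011)² / (2 θ² φ001 ± 2 θ φ013) =
  (θ/6) (..)² / (θ φ001 ± φ013) → 0` (`φ013 → B1/6 ≠ 0`);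
* `(3,0)`, `(3,1)`: `(θ²/3) (φ223 ± θ φ022)² / (2 θ² φ002 ± 2 θ φ023) =
  (1/6) (..)² / (φ002 ± φ023/θ) → (1/6) (D2/3)² / (s2/3) = D2² / (18 s2) = -1/2` each, since
  `φ023 (t) = O(t)` (`p.B2 = 0`), so `φ023/θ → 0`;
* `(2,3)`, `(3,2)`: `t φ112² / φ122 → 0`, `t φ122² / φ112 → 0` (`r1, r2 ≠ 0`).
Sum: `1/4 + 1/4 - 1/2 - 1/2 = -1/2`.
-/

set_option autoImplicit false

noncomputable section

namespace Pool.Agent.ISB

open Matrix Filter Topology Pool.Agent.ISO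

private theorem pas1 {t b : ℂ} (x : ℂ) (ht : t ≠ 0) : t * (x / (4 * t * b)) = x / (4 * b) := by
  rw [← mul_div_assoc, show 4 * t * b = t * (4 * b) by ring, mul_div_mul_left _ _ ht]

private theorem pas2 {t θ : ℂ} (x u v : ℂ) (hθ : θ ≠ 0) (h : θ ^ 2 = 3 * t) :
    t * (x ^ 2 / (1 * (2 * θ ^ 2 * u + 2 * θ * v))) = θ * x ^ 2 / 3 / (2 * (θ * u + v)) := by
  have ht : t = θ * (θ / 3) := by linear_combination (-1 / 3 : ℂ) * h
  rw [← mul_div_assoc, show 1 * (2 * θ ^ 2 * u + 2 * θ * v) = θ * (2 * (θ * u + v)) by ring,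
    show t * x ^ 2 = θ * (θ * x ^ 2 / 3) by rw [ht]; ring, mul_div_mul_left _ _ hθ]

private theorem pas3 {t θ : ℂ} (x u v : ℂ) (hθ : θ ≠ 0) (h : θ ^ 2 = 3 * t) :
    t * (x ^ 2 / (1 * (2 * θ ^ 2 * u + 2 * θ * v))) = x ^ 2 / 3 / (2 * (u + v / θ)) := by
  have ht : t = θ ^ 2 * (1 / 3) := by linear_combination (-1 / 3 : ℂ) * h
  have e : 1 * (2 * θ ^ 2 * u + 2 * θ * v) = θ ^ 2 * (2 * (u + v / θ)) := by
    field_simp
  rw [← mul_div_assoc, e, show t * x ^ 2 = θ ^ 2 * (x ^ 2 / 3) by rw [ht]; ring,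
    mul_div_mul_left _ _ (pow_ne_zero 2 hθ)]

private theorem pas_pv (f : T3) (l : Fin 4 → ℂ) : pv f l =
    f 0 0 1 ^ 2 / (l 0 * f 1 1 0) + f 0 0 2 ^ 2 / (l 0 * f 2 2 0) +
      f 0 0 3 ^ 2 / (l 0 * f 3 3 0) +
    (f 1 1 0 ^ 2 / (l 1 * f 0 0 1) + f 1 1 2 ^ 2 / (l 1 * f 2 2 1) +
      f 1 1 3 ^ 2 / (l 1 * f 3 3 1)) +
    (f 2 2 0 ^ 2 / (l 2 * f 0 0 2) + f 2 2 1 ^ 2 / (l 2 * f 1 1 2) +
      f 2 2 3 ^ 2 / (l 2 * f 3 3 2)) +
    (f 3 3 0 ^ 2 / (l 3 * f 0 0 3) + f 3 3 1 ^ 2 / (l 3 * f 1 1 3) +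
      f 3 3 2 ^ 2 / (l 3 * f 2 2 3)) := by
  have e0 : (Finset.univ.erase (0 : Fin 4)) = {1, 2, 3} := by decide
  have e1 : (Finset.univ.erase (1 : Fin 4)) = {0, 2, 3} := by decide
  have e2 : (Finset.univ.erase (2 : Fin 4)) = {0, 1, 3} := by decide
  have e3 : (Finset.univ.erase (3 : Fin 4)) = {0, 1, 2} := by decide
  have hs : ∀ (g : Fin 4 → ℂ) (a b c : Fin 4), a ≠ b → a ≠ c → b ≠ c →
      ∑ j ∈ ({a, b, c} : Finset (Fin 4)), g j = g a + g b + g c := by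
    intro g a b c h1 h2 h3
    rw [Finset.sum_insert (by simp [h1, h2]), Finset.sum_insert (by simp [h3]),
      Finset.sum_singleton]
    ring
  unfold pv
  rw [Fin.sum_univ_four, e0, e1, e2, e3, hs _ 1 2 3 (by decide) (by decide) (by decide),
    hs _ 0 2 3 (by decide) (by decide) (by decide), hs _ 0 1 3 (by decide) (by decide) (by decide),
    hs _ 0 1 2 (by decide) (by decide) (by decide)]

/-- The twelve terms. -/
private theorem pas_val (f : T3) (hf : IsSym f) (θ t : ℂ) (hθ : θ ^ 2 = 3 * t) (ht : t ≠ 0)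
    (h1 : f 1 3 3 = 3 * t * f 0 0 1) (h2 : f 2 3 3 = 3 * t * f 0 0 2) :
    t * pv (act f (Mf θ)) (lf t) =
      (f 3 3 3 - θ ^ 2 * f 0 0 3 + θ * f 0 3 3 - θ ^ 3 * f 0 0 0) ^ 2 /
        (4 * (f 3 3 3 - θ ^ 2 * f 0 0 3 - θ * f 0 3 3 + θ ^ 3 * f 0 0 0)) +
      (2 * θ ^ 2 * f 0 0 1 + 2 * θ * f 0 1 3) ^ 2 / (4 * (f 1 1 3 + θ * f 0 1 1)) +
      (2 * θ ^ 2 * f 0 0 2 + 2 * θ * f 0 2 3) ^ 2 / (4 * (f 2 2 3 + θ * f 0 2 2)) +
      ((f 3 3 3 - θ ^ 2 * f 0 0 3 - θ * f 0 3 3 + θ ^ 3 * f 0 0 0) ^ 2 /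
        (4 * (f 3 3 3 - θ ^ 2 * f 0 0 3 + θ * f 0 3 3 - θ ^ 3 * f 0 0 0)) +
      (2 * θ ^ 2 * f 0 0 1 - 2 * θ * f 0 1 3) ^ 2 / (4 * (f 1 1 3 - θ * f 0 1 1)) +
      (2 * θ ^ 2 * f 0 0 2 - 2 * θ * f 0 2 3) ^ 2 / (4 * (f 2 2 3 - θ * f 0 2 2))) +
      (θ * (f 1 1 3 + θ * f 0 1 1) ^ 2 / 3 / (2 * (θ * f 0 0 1 + f 0 1 3)) +
        θ * (f 1 1 3 - θ * f 0 1 1) ^ 2 / 3 / (2 * (θ * f 0 0 1 + -f 0 1 3)) +
        t * (f 1 1 2 ^ 2 / f 1 2 2)) +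
      ((f 2 2 3 + θ * f 0 2 2) ^ 2 / 3 / (2 * (f 0 0 2 + f 0 2 3 / θ)) +
        (f 2 2 3 - θ * f 0 2 2) ^ 2 / 3 / (2 * (f 0 0 2 + -f 0 2 3 / θ)) +
        t * (f 1 2 2 ^ 2 / f 1 1 2)) := by
  have hθ0 : θ ≠ 0 := by
    rintro rfl
    apply ht
    linear_combination (-1 / 3 : ℂ) * hθ
  obtain ⟨m001, m110, m002, m112, m003, m113, m220, m221, m330, m331, m223, m332⟩ :=
    Mf_entries f hf θ t hθ h1 h2
  have l0 : lf t 0 = 4 * t := rfl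
  have l1 : lf t 1 = 4 * t := rfl
  have l2 : lf t 2 = 1 := rfl
  have l3 : lf t 3 = 1 := rfl
  rw [pas_pv, m001, m110, m002, m112, m003, m113, m220, m221, m330, m331, m223, m332, l0, l1, l2,
    l3]
  simp only [mul_add t]
  have s1 : 2 * θ ^ 2 * f 0 0 1 - 2 * θ * f 0 1 3 =
      2 * θ ^ 2 * f 0 0 1 + 2 * θ * (-f 0 1 3) := by ring
  have s2 : 2 * θ ^ 2 * f 0 0 2 - 2 * θ * f 0 2 3 =
      2 * θ ^ 2 * f 0 0 2 + 2 * θ * (-f 0 2 3) := by ring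
  rw [pas1 _ ht, pas1 _ ht, pas1 _ ht, pas1 _ ht, pas1 _ ht, pas1 _ ht, pas2 _ _ _ hθ0 hθ,
    pas3 _ _ _ hθ0 hθ, s1, s2, pas2 _ _ _ hθ0 hθ, pas3 _ _ _ hθ0 hθ, one_mul, one_mul]

theorem psi_lim {p : Par} {k : ℂ → M4} (hk : Std p k) {q ψ : ℂ → ℂ} (hq : IsQ (G4 0) p.T q ψ)
    (hX : ∀ᶠ t in 𝓝[≠] (0 : ℂ), ∃ X, p.T = lie (G4 0 + t • p.T) X) (hB : Bad p) (c : ℂ)
    (hc : c ≠ 0) (hlim : Tendsto (fun t => t ^ 3 * q t) (𝓝[≠] 0) (𝓝 c)) :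
    Tendsto (fun t => t * ψ t) (𝓝[≠] 0) (𝓝 (-(1 / 2))) := by
  have hB2 : p.B2 = 0 := hB.1
  have hs2 : p.s2 = -(p.D2 ^ 2) / 9 := hB.2.2.1
  have hc' := tendsto_nhds_unique hlim (q_lim hk hq hX hB2)
  have hB1 : p.B1 ≠ 0 := by
    intro h
    apply hc
    rw [hc', h]
    ring
  have hD1 : p.D1 ≠ 0 := by
    intro h
    apply hc
    rw [hc', h]
    ring
  have hD2 : p.D2 ≠ 0 := by
    intro h
    apply hc
    rw [hc', h]
    ring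
  have hr1 : p.r1 ≠ 0 := by
    intro h
    apply hc
    rw [hc', h]
    ring
  have hr2 : p.r2 ≠ 0 := by
    intro h
    apply hc
    rw [hc', h]
    ring
  choose θ hθ using fun t : ℂ => IsAlgClosed.exists_pow_nat_eq (3 * t) (by norm_num : 0 < 2)
  have hθ0 : Tendsto θ (𝓝[≠] 0) (𝓝 0) := by
    rw [tendsto_zero_iff_norm_tendsto_zero]
    have h1 : ∀ t, ‖θ t‖ = Real.sqrt (3 * ‖t‖) := by
      intro t
      have h2 : ‖θ t‖ ^ 2 = 3 * ‖t‖ := by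
        rw [← norm_pow, hθ, norm_mul]
        norm_num
      rw [← h2, Real.sqrt_sq (norm_nonneg _)]
    simp only [h1]
    have h3 : Continuous fun t : ℂ => Real.sqrt (3 * ‖t‖) := by fun_prop
    have h4 := h3.tendsto 0
    simp only [norm_zero, mul_zero, Real.sqrt_zero] at h4
    exact h4.mono_left nhdsWithin_le_nhds
  have hid : Tendsto (fun t : ℂ => t) (𝓝[≠] 0) (𝓝 0) := tendsto_id.mono_left nhdsWithin_le_nhds
  obtain ⟨psym, p333, p033, p003, p013, p023, p113, p223, p111, p112, p122, p222, p011, p022,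
    p001, p002, p000, p133, p233, p123, p012⟩ := parT p
  have hφ : ∀ i j l, Tendsto (fun t => act p.T (k t) i j l) (𝓝[≠] 0) (𝓝 (p.T i j l)) := by
    intro i j l
    obtain ⟨h1, h2⟩ := phi_an hk i j l
    have h3 := h1.continuousAt.tendsto
    rw [h2] at h3
    exact h3.mono_left nhdsWithin_le_nhds
  have f333 := hφ 3 3 3
  have f003 := hφ 0 0 3
  have f033 := hφ 0 3 3
  have f000 := hφ 0 0 0
  have f001 := hφ 0 0 1
  have f013 := hφ 0 1 3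
  have f113 := hφ 1 1 3
  have f011 := hφ 0 1 1
  have f002 := hφ 0 0 2
  have f023 := hφ 0 2 3
  have f223 := hφ 2 2 3
  have f022 := hφ 0 2 2
  have f112 := hφ 1 1 2
  have f122 := hφ 1 2 2
  rw [p333] at f333
  rw [p013] at f013
  rw [p113] at f113
  rw [p002] at f002
  rw [p023, hB2, zero_div] at f023
  rw [p223] at f223
  rw [p112] at f112
  rw [p122] at f122
  -- the quotient
  have hquo : Tendsto (fun t => act p.T (k t) 0 2 3 / θ t) (𝓝[≠] 0) (𝓝 0) := by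
    obtain ⟨h1, h2⟩ := phi_an hk 0 2 3
    have h3 := hasDerivAt_iff_tendsto_slope.1 h1.differentiableAt.hasDerivAt
    have h4 := (h3.mul hθ0).div_const 3
    rw [mul_zero, zero_div] at h4
    refine h4.congr' ?_
    filter_upwards [self_mem_nhdsWithin] with t ht
    have ht0 : t ≠ 0 := ht
    have hne : θ t ≠ 0 := by
      intro h5
      apply ht0
      have h6 := hθ t
      rw [h5] at h6
      linear_combination (-1 / 3 : ℂ) * h6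
    rw [slope_def_field, h2, p023, hB2, zero_div, sub_zero, sub_zero]
    have h6 := hθ t
    have h7 : t = θ t ^ 2 / 3 := by linear_combination (-1 / 3 : ℂ) * h6
    have h8 : act p.T (k t) 0 2 3 / t * θ t / 3 =
        act p.T (k t) 0 2 3 / (θ t ^ 2 / 3) * θ t / 3 := by
      rw [← h7]
    rw [h8]
    field_simp
  have hE1 : Tendsto (fun t => act p.T (k t) 3 3 3 - θ t ^ 2 * act p.T (k t) 0 0 3 +
      θ t * act p.T (k t) 0 3 3 - θ t ^ 3 * act p.T (k t) 0 0 0) (𝓝[≠] 0) (𝓝 1) := by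
    have h1 := ((f333.sub ((hθ0.pow 2).mul f003)).add (hθ0.mul f033)).sub ((hθ0.pow 3).mul f000)
    simpa using h1
  have hE2 : Tendsto (fun t => act p.T (k t) 3 3 3 - θ t ^ 2 * act p.T (k t) 0 0 3 -
      θ t * act p.T (k t) 0 3 3 + θ t ^ 3 * act p.T (k t) 0 0 0) (𝓝[≠] 0) (𝓝 1) := by
    have h1 := ((f333.sub ((hθ0.pow 2).mul f003)).sub (hθ0.mul f033)).add ((hθ0.pow 3).mul f000)
    simpa using h1
  have a2 : Tendsto (fun t => 2 * θ t ^ 2 * act p.T (k t) 0 0 1 +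
      2 * θ t * act p.T (k t) 0 1 3) (𝓝[≠] 0) (𝓝 0) := by
    have h1 := (((hθ0.pow 2).const_mul 2).mul f001).add ((hθ0.const_mul 2).mul f013)
    simpa using h1
  have a2' : Tendsto (fun t => 2 * θ t ^ 2 * act p.T (k t) 0 0 1 -
      2 * θ t * act p.T (k t) 0 1 3) (𝓝[≠] 0) (𝓝 0) := by
    have h1 := (((hθ0.pow 2).const_mul 2).mul f001).sub ((hθ0.const_mul 2).mul f013)
    simpa using h1
  have a3 : Tendsto (fun t => 2 * θ t ^ 2 * act p.T (k t) 0 0 2 +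
      2 * θ t * act p.T (k t) 0 2 3) (𝓝[≠] 0) (𝓝 0) := by
    have h1 := (((hθ0.pow 2).const_mul 2).mul f002).add ((hθ0.const_mul 2).mul f023)
    simpa using h1
  have a3' : Tendsto (fun t => 2 * θ t ^ 2 * act p.T (k t) 0 0 2 -
      2 * θ t * act p.T (k t) 0 2 3) (𝓝[≠] 0) (𝓝 0) := by
    have h1 := (((hθ0.pow 2).const_mul 2).mul f002).sub ((hθ0.const_mul 2).mul f023)
    simpa using h1
  have b1 : Tendsto (fun t => act p.T (k t) 1 1 3 + θ t * act p.T (k t) 0 1 1)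
      (𝓝[≠] 0) (𝓝 (p.D1 / 3)) := by
    have h1 := f113.add (hθ0.mul f011)
    simpa using h1
  have b1' : Tendsto (fun t => act p.T (k t) 1 1 3 - θ t * act p.T (k t) 0 1 1)
      (𝓝[≠] 0) (𝓝 (p.D1 / 3)) := by
    have h1 := f113.sub (hθ0.mul f011)
    simpa using h1
  have b2 : Tendsto (fun t => act p.T (k t) 2 2 3 + θ t * act p.T (k t) 0 2 2)
      (𝓝[≠] 0) (𝓝 (p.D2 / 3)) := by
    have h1 := f223.add (hθ0.mul f022)
    simpa using h1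
  have b2' : Tendsto (fun t => act p.T (k t) 2 2 3 - θ t * act p.T (k t) 0 2 2)
      (𝓝[≠] 0) (𝓝 (p.D2 / 3)) := by
    have h1 := f223.sub (hθ0.mul f022)
    simpa using h1
  have c1 : Tendsto (fun t => θ t * act p.T (k t) 0 0 1 + act p.T (k t) 0 1 3)
      (𝓝[≠] 0) (𝓝 (p.B1 / 6)) := by
    have h1 := (hθ0.mul f001).add f013
    simpa using h1
  have c1' : Tendsto (fun t => θ t * act p.T (k t) 0 0 1 + -act p.T (k t) 0 1 3)
      (𝓝[≠] 0) (𝓝 (-(p.B1 / 6))) := by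
    have h1 := (hθ0.mul f001).add f013.neg
    simpa using h1
  have c2 : Tendsto (fun t => act p.T (k t) 0 0 2 + act p.T (k t) 0 2 3 / θ t)
      (𝓝[≠] 0) (𝓝 (p.s2 / 3)) := by
    have h1 := f002.add hquo
    simpa using h1
  have c2' : Tendsto (fun t => act p.T (k t) 0 0 2 + -act p.T (k t) 0 2 3 / θ t)
      (𝓝[≠] 0) (𝓝 (p.s2 / 3)) := by
    have h1 := f002.sub hquo
    rw [sub_zero] at h1
    refine h1.congr fun t => ?_
    rw [neg_div, sub_eq_add_neg]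
  have hs20 : p.s2 / 3 ≠ 0 := by
    rw [hs2]
    exact div_ne_zero (div_ne_zero (neg_ne_zero.2 (pow_ne_zero 2 hD2)) (by norm_num))
      (by norm_num)
  have n4 : (4 : ℂ) ≠ 0 := by norm_num
  have n2 : (2 : ℂ) ≠ 0 := by norm_num
  have n3 : (3 : ℂ) ≠ 0 := by norm_num
  have n6 : (6 : ℂ) ≠ 0 := by norm_num
  have t1 := (hE1.pow 2).div (hE2.const_mul 4) (mul_ne_zero n4 one_ne_zero)
  have t2 := (a2.pow 2).div (b1.const_mul 4) (mul_ne_zero n4 (div_ne_zero hD1 n3))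
  have t3 := (a3.pow 2).div (b2.const_mul 4) (mul_ne_zero n4 (div_ne_zero hD2 n3))
  have t4 := (hE2.pow 2).div (hE1.const_mul 4) (mul_ne_zero n4 one_ne_zero)
  have t5 := (a2'.pow 2).div (b1'.const_mul 4) (mul_ne_zero n4 (div_ne_zero hD1 n3))
  have t6 := (a3'.pow 2).div (b2'.const_mul 4) (mul_ne_zero n4 (div_ne_zero hD2 n3))
  have t7 := ((hθ0.mul (b1.pow 2)).div_const 3).div (c1.const_mul 2)
    (mul_ne_zero n2 (div_ne_zero hB1 n6))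
  have t8 := ((hθ0.mul (b1'.pow 2)).div_const 3).div (c1'.const_mul 2)
    (mul_ne_zero n2 (neg_ne_zero.2 (div_ne_zero hB1 n6)))
  have t9 := hid.mul ((f112.pow 2).div f122 (div_ne_zero hr2 n3))
  have t10 := ((b2.pow 2).div_const 3).div (c2.const_mul 2) (mul_ne_zero n2 hs20)
  have t11 := ((b2'.pow 2).div_const 3).div (c2'.const_mul 2) (mul_ne_zero n2 hs20)
  have t12 := hid.mul ((f122.pow 2).div f112 (div_ne_zero hr1 n3))
  have hsum := ((((t1.add t2).add t3).add ((t4.add t5).add t6)).add ((t7.add t8).add t9)).add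
    ((t10.add t11).add t12)
  have hval : (1 : ℂ) ^ 2 / (4 * 1) + 0 ^ 2 / (4 * (p.D1 / 3)) + 0 ^ 2 / (4 * (p.D2 / 3)) +
      (1 ^ 2 / (4 * 1) + 0 ^ 2 / (4 * (p.D1 / 3)) + 0 ^ 2 / (4 * (p.D2 / 3))) +
      (0 * (p.D1 / 3) ^ 2 / 3 / (2 * (p.B1 / 6)) + 0 * (p.D1 / 3) ^ 2 / 3 / (2 * -(p.B1 / 6)) +
        0 * ((p.r1 / 3) ^ 2 / (p.r2 / 3))) +
      ((p.D2 / 3) ^ 2 / 3 / (2 * (p.s2 / 3)) + (p.D2 / 3) ^ 2 / 3 / (2 * (p.s2 / 3)) +
        0 * ((p.r2 / 3) ^ 2 / (p.r1 / 3))) = -(1 / 2) := by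
    rw [hs2]
    field_simp
    ring
  rw [hval] at hsum
  refine hsum.congr' ?_
  have hs : IsSym p.T := psym
  filter_upwards [self_mem_nhdsWithin, psi_formula hk hq, phi_tan hk hX] with t ht h1 h2
  have ht0 : t ≠ 0 := ht
  rw [h1 (θ t) (hθ t), pas_val (act p.T (k t)) (isSym_act hs _) (θ t) t (hθ t) ht0 h2.1 h2.2.1]
  rfl

end Pool.Agent.ISB
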