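import Pool.Agent.ISB.D4nf
import Pool.Agent.ISB.PAs
import Pool.Agent.ISB.Inf
import Pool.Agent.ISB.Glob
import Pool.Agent.ISB.All4

/-!
# ISB / FinalB: pencils of cubic surfaces without `A_n` members and without cones contain a nodal quartic

PROOF of `caseB`.  Suppose `¬ NQ T0 T1`.  By `exists_smooth_pair`, `Pen.change` and `NQ.of_change` we may
assume that `T0`, `T1` are smooth (`¬ NQ` is inherited by the new generators).  `all4`: `Z`, `8` points.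
`main2` gives `horb` for `(T0, T1)` and, with `Pen.change 0 1 1 0`, for `(T1, T0)`.  `main1`: for smooth
`T0 + t T1` there is `X` with `T1 = lie (T0 + t T1) X`.  `exists_isQ`: `q`, `ψ`; `isQ_analytic`;
`at_infinity`.  Fix `z ∈ Z`.  `d4nf` with `S = (Z)ᶜ`: `g`, `p`, `Bad p`.  Put `q' t = q (z + t)`,
`ψ' t = ψ (z + t)`: `IsQ (G4 0) p.T q' ψ'` since `G4 0 + t p.T = act (T0 + (z + t) T1) g`, so a frame `U`
of it gives the frame `g * U` of `T0 + (z + t) T1` and `act T1 (g * U) = act p.T U`.  For `t ≠ 0` small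
`z + t ∉ Z` (finite set), so `G4 0 + t p.T` is in the orbit of `fermat`, and
`p.T = lie (G4 0 + t p.T) (g⁻¹ X g)` (`lie_act`).  `germ`: `k`.  `q_lim`, `q_ne`, `psi_lim` give the
hypotheses `hqz` (a function with a limit is bounded near the point), `hψz` of `glob` (translate from
`𝓝[≠] 0` to `𝓝[≠] z` by `t ↦ t - z`), and `q ≠ 0` near `z`.  `glob`: `q = 0` off `Z`, contradiction
(`Z` is not empty).

PROOF of `caseB_poly`.  `pen_toT`, `caseB` and `poly (toT f) = f` for homogeneous cubic `f` (evaluate: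
`poly_eval`, `ev_toT`, `MvPolynomial.funext`).
-/

set_option autoImplicit false

noncomputable section

namespace Pool.Agent.ISB

open MvPolynomial Matrix Filter Topology Pool.Agent.ISO

private theorem fb_iso (Z : Finset ℂ) (z : ℂ) :
    ∃ ε : ℝ, 0 < ε ∧ ∀ t : ℂ, t ≠ 0 → ‖t‖ < ε → z + t ∉ Z := by
  classical
  have h1 : IsClosed ((Z.erase z : Finset ℂ) : Set ℂ) := (Finset.finite_toSet _).isClosed
  have h2 : z ∈ ((Z.erase z : Finset ℂ) : Set ℂ)ᶜ := by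
    intro h3
    exact (Finset.mem_erase.1 (Finset.mem_coe.1 h3)).1 rfl
  obtain ⟨ε, hε, hb⟩ := Metric.isOpen_iff.1 h1.isOpen_compl z h2
  refine ⟨ε, hε, fun t ht htε hmem => ?_⟩
  have h3 : z + t ∈ Metric.ball z ε := by
    rw [Metric.mem_ball, dist_eq_norm, add_sub_cancel_left]
    exact htε
  refine hb h3 (Finset.mem_coe.2 (Finset.mem_erase.2 ⟨?_, hmem⟩))
  intro h4
  exact ht (add_eq_left.1 h4)

private theorem fb_ev {P : ℂ → Prop} {ε : ℝ} (hε : 0 < ε) (h : ∀ t : ℂ, t ≠ 0 → ‖t‖ < ε → P t) :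
    ∀ᶠ t in 𝓝[≠] (0 : ℂ), P t := by
  rw [eventually_nhdsWithin_iff]
  filter_upwards [Metric.ball_mem_nhds (0 : ℂ) hε] with t ht ht0
  exact h t ht0 (by rwa [Metric.mem_ball, dist_zero_right] at ht)

private theorem fb_sub (z : ℂ) : Tendsto (fun t : ℂ => t - z) (𝓝[≠] z) (𝓝[≠] 0) := by
  refine tendsto_nhdsWithin_of_tendsto_nhds_of_eventually_within _ ?_ ?_
  · have h1 : Tendsto (fun t : ℂ => t - z) (𝓝 z) (𝓝 (z - z)) :=
      (continuous_id.sub continuous_const).tendsto z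
    rw [sub_self] at h1
    exact h1.mono_left nhdsWithin_le_nhds
  · filter_upwards [self_mem_nhdsWithin] with t ht
    exact sub_ne_zero.2 ht

private theorem fb_add (z : ℂ) : Tendsto (fun t : ℂ => z + t) (𝓝[≠] 0) (𝓝[≠] z) := by
  refine tendsto_nhdsWithin_of_tendsto_nhds_of_eventually_within _ ?_ ?_
  · have h1 : Tendsto (fun t : ℂ => z + t) (𝓝 0) (𝓝 (z + 0)) :=
      (continuous_const.add continuous_id).tendsto 0
    rw [add_zero] at h1
    exact h1.mono_left nhdsWithin_le_nhds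
  · filter_upwards [self_mem_nhdsWithin] with t ht
    exact fun h => ht (add_eq_left.1 h)

/-- The behaviour of `Q` and `Ψ` at a `D4` member. -/
private theorem fb_local {T0 T1 : T3} (h : Pen T0 T1) (hn : ¬ NQ T0 T1) (Z : Finset ℂ)
    (hZ : ∀ t : ℂ, t ∈ Z ↔ ¬ Sm (T0 + t • T1))
    (horb : ∀ t : ℂ, Sm (T0 + t • T1) → ∃ x : M4, x.det ≠ 0 ∧ T0 + t • T1 = act fermat x)
    (htan : ∀ t : ℂ, Sm (T0 + t • T1) → ∃ X : M4, T1 = lie (T0 + t • T1) X)
    {q ψ : ℂ → ℂ} (hq : IsQ T0 T1 q ψ) (z : ℂ) (h4 : IsD4 (T0 + z • T1) T1) :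
    (∃ C : ℝ, ∀ᶠ t in 𝓝[≠] z, ‖(t - z) ^ 3 * q t‖ ≤ C) ∧
    (∀ c : ℂ, c ≠ 0 → Tendsto (fun t => (t - z) ^ 3 * q t) (𝓝[≠] z) (𝓝 c) →
      Tendsto (fun t => (t - z) * ψ t) (𝓝[≠] z) (𝓝 (-(1 / 2)))) ∧
    ∀ᶠ t in 𝓝[≠] z, t ∉ Z ∧ q t ≠ 0 := by
  have hZ' : ∀ t : ℂ, t ∉ Z → Sm (T0 + t • T1) := by
    intro t ht
    by_contra hcon
    exact ht ((hZ t).2 hcon)
  obtain ⟨g, p, hg, e0, e1, hB⟩ := d4nf h z h4 ((Z : Set ℂ)ᶜ) Z.finite_toSet.infinite_compl
    (fun t ht => ⟨hZ' t ht, htan t (hZ' t ht)⟩) hn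
  -- the pencil in the new coordinates
  have key : ∀ t : ℂ, G4 0 + t • p.T = act (T0 + (z + t) • T1) g := by
    intro t
    rw [← e0, ← e1, ← act_smul, ← act_add, add_smul, add_assoc]
  obtain ⟨ε, hε, hiso⟩ := fb_iso Z z
  have hq' : IsQ (G4 0) p.T (fun t => q (z + t)) (fun t => ψ (z + t)) := by
    intro t U l hU
    have hf : Fr (T0 + (z + t) • T1) (g * U) l := by
      refine ⟨?_, hU.ne, ?_⟩
      · rw [Matrix.det_mul]
        exact mul_ne_zero hg hU.det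
      · rw [← act_act, ← key]
        exact hU.eq
    have h1 := hq (z + t) (g * U) l hf
    rwa [← act_act, e1] at h1
  have hX : ∀ᶠ t in 𝓝[≠] (0 : ℂ), ∃ X, p.T = lie (G4 0 + t • p.T) X := by
    refine fb_ev hε fun t ht htε => ?_
    obtain ⟨X, hX⟩ := htan (z + t) (hZ' _ (hiso t ht htε))
    refine ⟨g⁻¹ * X * g, ?_⟩
    rw [key, lie_act _ _ _ hg, ← hX, e1]
  obtain ⟨k, hk⟩ := germ p ⟨ε, hε, fun t ht htε => by
    obtain ⟨x, hx, hx2⟩ := horb (z + t) (hZ' _ (hiso t ht htε))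
    refine ⟨x * g, ?_, ?_⟩
    · rw [Matrix.det_mul]
      exact mul_ne_zero hx hg
    · rw [key, hx2, act_act]⟩
  obtain ⟨c, hlim⟩ : ∃ c : ℂ, Tendsto (fun t => t ^ 3 * q (z + t)) (𝓝[≠] 0) (𝓝 c) :=
    ⟨_, q_lim hk hq' hX hB.1⟩
  have hne := q_ne hk hq' hX hB
  refine ⟨?_, ?_, ?_⟩
  · have h1 := hlim.comp (fb_sub z)
    have h2 := h1.norm.eventually_le_const (lt_add_one ‖c‖)
    refine ⟨‖c‖ + 1, h2.mono fun t ht => ?_⟩
    simpa only [Function.comp_apply, add_sub_cancel] using ht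
  · intro c hc hlimc
    have h1 := hlimc.comp (fb_add z)
    have h2 : Tendsto (fun t => t ^ 3 * q (z + t)) (𝓝[≠] 0) (𝓝 c) := by
      refine h1.congr fun t => ?_
      simp only [Function.comp_apply, add_sub_cancel_left]
    have h3 := (psi_lim hk hq' hX hB c hc h2).comp (fb_sub z)
    refine h3.congr fun t => ?_
    simp only [Function.comp_apply, add_sub_cancel]
  · have h1 : ∀ᶠ t in 𝓝[≠] (0 : ℂ), z + t ∉ Z ∧ q (z + t) ≠ 0 :=
      (fb_ev hε hiso).and hne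
    have h2 := (fb_sub z).eventually h1
    refine h2.mono fun t ht => ?_
    simpa only [add_sub_cancel] using ht

private theorem fb_smooth {T0 T1 : T3} (h : Pen T0 T1) (h0 : Sm T0) (h1 : Sm T1)
    (hn : ¬ NQ T0 T1) : False := by
  obtain ⟨Z, hZ8, hZ, hD⟩ := all4 h h0 h1
  have hZ' : ∀ t : ℂ, t ∉ Z → Sm (T0 + t • T1) := by
    intro t ht
    by_contra hcon
    exact ht ((hZ t).2 hcon)
  have horb : ∀ t : ℂ, Sm (T0 + t • T1) → ∃ x : M4, x.det ≠ 0 ∧ T0 + t • T1 = act fermat x := by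
    intro t ht
    have h2 := main2 h 1 t (by rwa [one_smul])
    rwa [one_smul] at h2
  have horb' : ∀ s : ℂ, Sm (T1 + s • T0) → ∃ x : M4, x.det ≠ 0 ∧ T1 + s • T0 = act fermat x := by
    intro s hs
    have h2 := main2 h s 1 (by rwa [one_smul, add_comm])
    rwa [one_smul, add_comm] at h2
  have htan : ∀ t : ℂ, Sm (T0 + t • T1) → ∃ X : M4, T1 = lie (T0 + t • T1) X :=
    (main1 h h0 h1).2.2.2
  obtain ⟨q, ψ, hq⟩ := exists_isQ T0 T1
  have han : ∀ t : ℂ, t ∉ Z → AnalyticAt ℂ q t ∧ (q t ≠ 0 → AnalyticAt ℂ ψ t) := fun t ht =>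
    isQ_analytic hq h.s0 h.s1 horb t (hZ' t ht)
  obtain ⟨qh, ph, hqh, hph, hinf⟩ := at_infinity hq h.s0 h1 horb'
  have hloc : ∀ z ∈ Z, _ := fun z hz => fb_local h hn Z hZ horb htan hq z (hD z hz)
  have hzero := glob Z hZ8 q ψ (fun t ht => (han t ht).1) (fun t ht => (han t ht).2)
    (fun z hz => (hloc z hz).1) (fun z hz => (hloc z hz).2.1) qh ph hqh hph hinf
  obtain ⟨z, hz⟩ : Z.Nonempty := by
    rw [← Finset.card_pos, hZ8]
    norm_num
  obtain ⟨t, ht, ht'⟩ := (hloc z hz).2.2.exists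
  exact ht' (hzero t ht)

theorem caseB {T0 T1 : T3} (h : Pen T0 T1) : NQ T0 T1 := by
  by_contra hn
  obtain ⟨⟨a, b, a', b', hd, hs, hs'⟩, -⟩ := exists_smooth_pair h
  exact fb_smooth (h.change a b a' b' hd) hs hs' fun h2 => hn (NQ.of_change a b a' b' h2)

end Pool.Agent.ISB
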