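import Pool.Agent.ISB.NQAct

/-!
# ISB / NodeD4: the nodal quartic at the point `(0, 1, -ω, 0)` of a `D4` member

PROOF.  Let `u = y`, `v = z + ω y`, so `z = v - ω u` and
`F0 = x² w + y³ + z³ = 3 ω² u² v - 3 ω u v² + v³ + x² w` (`ω³ = 1`).  Write
`f = ρ u³ + u² λ + u μ + κ` with `ρ = r0 - ω r1 + ω² r2 - r3`,
`λ = w (D1 + ω² D2) + v (r1 - 2 ω r2 + 3 ω² r3) + x (r11 + ω² r22)`,
`μ = w (x (B1 - ω B2) - 2 ω D2 v) + v² (r2 - 3 ω r3) - 2 ω r22 x v + x² (s1 - ω s2)`,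
`κ = w³ + e x w² + w (A x² + B2 x v + D2 v²) + r3 v³ + r22 x v² + s2 x² v + s3 x³`.
Put `α = - ω ρ`, `A' = ω² α v - ω λ`.  Then
`B = (α u + A') F0 + 3 v f = u T + Q4` with (the `u³`, `u²` terms cancel)
`T = α (v³ + x² w) - 3 ω v² A' + 3 v μ = - 2 α v³ + α x² w + 3 ω² v² λ + 3 v μ`,
`Q4 = A' (v³ + x² w) + 3 v κ` (forms in `x, v, w`).  The coefficient of `w` in `T` is
`q = α x² + 3 (B1 - ω B2) x v + 3 (ω² D1 - ω D2) v²`, and `T - w q` is a binary cubic in `x, v`.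
The discriminant `9 (B1 - ω B2)² - 12 α (ω² D1 - ω D2) = 3 E`, `E` the number of the hypothesis; it is
nonzero, so `q = m0 m1` with independent linear forms `m0, m1` in `x, v` (`IsAlgClosed`: a nonzero
discriminant; if `α = 0` then `q = v (3 (B1 - ω B2) x + 3 (ω² D1 - ω D2) v)`).
`NodalQuartic B` with `l = ![m0, m1, u, w]`: rewrite the binary cubic `T - w q` and the quartic `Q4` in terms
of `m0, m1` (invertible linear change of `x, v`; take `g`, `h` as the images of these forms under the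
inverse substitution).  `NQ` with `L0 = α u + A'`, `L1 = 3 v`.
-/

set_option autoImplicit false

noncomputable section

namespace Pool.Agent.ISB

open MvPolynomial Matrix Pool.Agent.ISO

/-- the polynomial identity -/
theorem nd4_id {R : Type*} [CommRing R] (x y z w v om e A B1 B2 D1 D2 r0 r1 r2 r3 r11 r22 s1 s2 s3
    al la ka ro : R) (h : om ^ 3 = 1) (hv : v = z + om * y)
    (hro : ro = r0 - om * r1 + om ^ 2 * r2 - r3) (hal : al = - (om * ro))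
    (hla : la = (D1 + om ^ 2 * D2) * w + (r1 - 2 * om * r2 + 3 * om ^ 2 * r3) * v +
      (r11 + om ^ 2 * r22) * x)
    (hka : ka = w ^ 3 + e * (x * w ^ 2) + (A * x ^ 2 + B2 * (x * v) + D2 * v ^ 2) * w +
      r3 * v ^ 3 + r22 * (x * v ^ 2) + s2 * (x ^ 2 * v) + s3 * x ^ 3) :
    (al * y + (om ^ 2 * al * v - om * la)) * (x * x * w + y * y * y + z * z * z) +
      3 * v * (w * w * w + e * (x * w * w) + (A * (x * x * w) + B1 * (x * y * w) +
        B2 * (x * z * w) + D1 * (y * y * w) + D2 * (z * z * w)) +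
        (r0 * (y * y * y) + r1 * (y * y * z) + r2 * (y * z * z) + r3 * (z * z * z)) +
        (r11 * (x * y * y) + r22 * (x * z * z)) + (s1 * (x * x * y) + s2 * (x * x * z)) +
        s3 * (x * x * x)) =
      y * (w * (al * x ^ 2 + 3 * (B1 - om * B2) * (x * v) + 3 * (om ^ 2 * D1 - om * D2) * v ^ 2) +
        ((-2 * al + 3 * om ^ 2 * (r1 - 2 * om * r2 + 3 * om ^ 2 * r3) + 3 * (r2 - 3 * om * r3)) *
          v ^ 3 + (3 * om ^ 2 * (r11 + om ^ 2 * r22) - 6 * om * r22) * (v ^ 2 * x) +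
          3 * (s1 - om * s2) * (v * x ^ 2))) +
      ((om ^ 2 * al * v - om * la) * (v ^ 3 + x ^ 2 * w) + 3 * v * ka) := by
  have hz : z = v - om * y := by rw [hv]; ring
  have e1 : x * x * w + y * y * y + z * z * z =
      3 * om ^ 2 * y ^ 2 * v - 3 * om * y * v ^ 2 + v ^ 3 + x ^ 2 * w := by
    rw [hz]
    linear_combination (- y ^ 3) * h
  have e2 : w * w * w + e * (x * w * w) + (A * (x * x * w) + B1 * (x * y * w) +
        B2 * (x * z * w) + D1 * (y * y * w) + D2 * (z * z * w)) +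
        (r0 * (y * y * y) + r1 * (y * y * z) + r2 * (y * z * z) + r3 * (z * z * z)) +
        (r11 * (x * y * y) + r22 * (x * z * z)) + (s1 * (x * x * y) + s2 * (x * x * z)) +
        s3 * (x * x * x) = ro * y ^ 3 + y ^ 2 * la +
        y * (w * (x * (B1 - om * B2) - 2 * om * D2 * v) + v ^ 2 * (r2 - 3 * om * r3) -
          2 * om * r22 * (x * v) + x ^ 2 * (s1 - om * s2)) + ka := by
    rw [hz, hro, hla, hka]
    linear_combination (- (r3 * y ^ 3)) * h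
  rw [e1, e2]
  have e3 : al = - (om * ro) := hal
  have e4 : (al * y + (om ^ 2 * al * v - om * la)) *
      (3 * om ^ 2 * y ^ 2 * v - 3 * om * y * v ^ 2 + v ^ 3 + x ^ 2 * w) +
      3 * v * (ro * y ^ 3 + y ^ 2 * la +
        y * (w * (x * (B1 - om * B2) - 2 * om * D2 * v) + v ^ 2 * (r2 - 3 * om * r3) -
          2 * om * r22 * (x * v) + x ^ 2 * (s1 - om * s2)) + ka) =
      y * (- 2 * al * v ^ 3 + al * (x ^ 2 * w) + 3 * om ^ 2 * v ^ 2 * la +
        3 * v * (w * (x * (B1 - om * B2) - 2 * om * D2 * v) + v ^ 2 * (r2 - 3 * om * r3) -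
          2 * om * r22 * (x * v) + x ^ 2 * (s1 - om * s2))) +
      ((om ^ 2 * al * v - om * la) * (v ^ 3 + x ^ 2 * w) + 3 * v * ka) := by
    rw [e3]
    linear_combination (- 3 * y ^ 3 * v * ro - 3 * om ^ 2 * ro * y ^ 2 * v ^ 2 - 3 * la * y ^ 2 * v +
      3 * om * ro * y * v ^ 3) * h
  rw [e4, hla]
  linear_combination (3 * om * D2 * v ^ 2 * w * y) * h

/-- factorization of a binary quadratic form with nonzero discriminant -/
theorem nd4_fac (a b c : ℂ) (h : b ^ 2 - 4 * a * c ≠ 0) : ∃ a0 b0 a1 b1 : ℂ,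
    a0 * a1 = a ∧ a0 * b1 + a1 * b0 = b ∧ b0 * b1 = c ∧ a0 * b1 - a1 * b0 ≠ 0 := by
  by_cases ha : a = 0
  · subst ha
    refine ⟨0, 1, b, c, by ring, by ring, by ring, ?_⟩
    intro h0
    apply h
    have : b = 0 := by linear_combination - h0
    rw [this]
    ring
  · obtain ⟨s, hs⟩ := IsAlgClosed.exists_pow_nat_eq (b ^ 2 - 4 * a * c) (n := 2) (by norm_num)
    have hs0 : s ≠ 0 := by
      rintro rfl
      apply h
      rw [← hs]
      ring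
    refine ⟨a, (b + s) / 2, 1, (b - s) / (2 * a), by ring, ?_, ?_, ?_⟩
    · field_simp
      ring
    · field_simp
      linear_combination - hs
    · intro h0
      apply hs0
      have h1 : a * ((b - s) / (2 * a)) = (b - s) / 2 := by
        field_simp
      rw [h1] at h0
      linear_combination - h0

private theorem nd4_hom {m : ℕ} (c c' : ℂ) (i j : Fin m) :
    (C c * X i - C c' * X j : MvPolynomial (Fin m) ℂ).IsHomogeneous 1 := by
  refine IsHomogeneous.sub ?_ ?_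
  · have h := (isHomogeneous_C (Fin m) c).mul (isHomogeneous_X ℂ i)
    rwa [zero_add] at h
  · have h := (isHomogeneous_C (Fin m) c').mul (isHomogeneous_X ℂ j)
    rwa [zero_add] at h

private theorem nd4_homC (c : ℂ) (y : CLU.S) (hy : y.IsHomogeneous 1) :
    (C c * y).IsHomogeneous 1 := by
  have h := (isHomogeneous_C (Fin 4) c).mul hy
  rwa [zero_add] at h

private theorem nd4_v2 {m : ℕ} {f g : MvPolynomial (Fin m) ℂ} (hf : f.IsHomogeneous 1)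
    (hg : g.IsHomogeneous 1) (i : Fin 2) : (![f, g] i).IsHomogeneous 1 := by
  fin_cases i
  · exact hf
  · exact hg

private theorem nd4_v3 {m : ℕ} {f g h : MvPolynomial (Fin m) ℂ} (hf : f.IsHomogeneous 1)
    (hg : g.IsHomogeneous 1) (hh : h.IsHomogeneous 1) (i : Fin 3) :
    (![f, g, h] i).IsHomogeneous 1 := by
  fin_cases i
  · exact hf
  · exact hg
  · exact hh

private theorem nd4_v4 {m : ℕ} {f g h k : MvPolynomial (Fin m) ℂ} (hf : f.IsHomogeneous 1)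
    (hg : g.IsHomogeneous 1) (hh : h.IsHomogeneous 1) (hk : k.IsHomogeneous 1) (i : Fin 4) :
    (![f, g, h, k] i).IsHomogeneous 1 := by
  fin_cases i
  · exact hf
  · exact hg
  · exact hh
  · exact hk

private theorem nd4_li (x v u w : CLU.S) (hl : LinearIndependent ℂ ![x, v, u, w])
    (a0 b0 a1 b1 : ℂ) (hd : a0 * b1 - a1 * b0 ≠ 0) :
    LinearIndependent ℂ ![C a0 * x + C b0 * v, C a1 * x + C b1 * v, u, w] := by
  rw [Fintype.linearIndependent_iff] at hl ⊢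
  intro c hc
  have h1 := hl ![c 0 * a0 + c 1 * a1, c 0 * b0 + c 1 * b1, c 2, c 3] (by
    rw [Fin.sum_univ_four] at hc ⊢
    have hc' : C (c 0) * (C a0 * x + C b0 * v) + C (c 1) * (C a1 * x + C b1 * v) +
        C (c 2) * u + C (c 3) * w = 0 := by
      rw [← hc]
      simp only [smul_eq_C_mul]
      rfl
    show (c 0 * a0 + c 1 * a1) • x + (c 0 * b0 + c 1 * b1) • v + c 2 • u + c 3 • w = 0
    simp only [smul_eq_C_mul, C_add, C_mul]
    rw [← hc']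
    ring)
  have c0 : c 0 * a0 + c 1 * a1 = 0 := h1 0
  have c1 : c 0 * b0 + c 1 * b1 = 0 := h1 1
  have c2 : c 2 = 0 := h1 2
  have c3 : c 3 = 0 := h1 3
  have z0 : c 0 * (a0 * b1 - a1 * b0) = 0 := by
    linear_combination b1 * c0 - a1 * c1
  have z1 : c 1 * (a0 * b1 - a1 * b0) = 0 := by
    linear_combination a0 * c1 - b0 * c0
  intro i
  fin_cases i
  · exact (mul_eq_zero.1 z0).resolve_right hd
  · exact (mul_eq_zero.1 z1).resolve_right hd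
  · exact c2
  · exact c3

/-- criterion for nodal quartics -/
theorem nd4_nodal (x v u w : CLU.S) (hx : x.IsHomogeneous 1) (hv : v.IsHomogeneous 1)
    (hu : u.IsHomogeneous 1) (hw : w.IsHomogeneous 1) (hl : LinearIndependent ℂ ![x, v, u, w])
    (a0 b0 a1 b1 : ℂ) (hd : a0 * b1 - a1 * b0 ≠ 0) (t : MvPolynomial (Fin 2) ℂ)
    (ht : t.IsHomogeneous 3) (q : MvPolynomial (Fin 3) ℂ) (hq : q.IsHomogeneous 4) :
    CLU.NodalQuartic (u * (w * (C a0 * x + C b0 * v) * (C a1 * x + C b1 * v) +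
      aeval ![x, v] t) + aeval ![x, v, w] q) := by
  have hcx : C (b1 / (a0 * b1 - a1 * b0)) * (C a0 * x + C b0 * v) -
      C (b0 / (a0 * b1 - a1 * b0)) * (C a1 * x + C b1 * v) = x := by
    have e1 : (C (b1 / (a0 * b1 - a1 * b0)) * (C a0 * x + C b0 * v) -
        C (b0 / (a0 * b1 - a1 * b0)) * (C a1 * x + C b1 * v) : CLU.S) =
        C (b1 / (a0 * b1 - a1 * b0) * a0 - b0 / (a0 * b1 - a1 * b0) * a1) * x +
        C (b1 / (a0 * b1 - a1 * b0) * b0 - b0 / (a0 * b1 - a1 * b0) * b1) * v := by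
      simp only [C_sub, C_mul]
      ring
    have e2 : b1 / (a0 * b1 - a1 * b0) * a0 - b0 / (a0 * b1 - a1 * b0) * a1 = 1 := by
      rw [div_mul_eq_mul_div, div_mul_eq_mul_div, ← sub_div, div_eq_one_iff_eq hd]
      ring
    have e3 : b1 / (a0 * b1 - a1 * b0) * b0 - b0 / (a0 * b1 - a1 * b0) * b1 = 0 := by ring
    rw [e1, e2, e3, C_1, C_0]
    ring
  have hcv : C (a0 / (a0 * b1 - a1 * b0)) * (C a1 * x + C b1 * v) -
      C (a1 / (a0 * b1 - a1 * b0)) * (C a0 * x + C b0 * v) = v := by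
    have e1 : (C (a0 / (a0 * b1 - a1 * b0)) * (C a1 * x + C b1 * v) -
        C (a1 / (a0 * b1 - a1 * b0)) * (C a0 * x + C b0 * v) : CLU.S) =
        C (a0 / (a0 * b1 - a1 * b0) * a1 - a1 / (a0 * b1 - a1 * b0) * a0) * x +
        C (a0 / (a0 * b1 - a1 * b0) * b1 - a1 / (a0 * b1 - a1 * b0) * b0) * v := by
      simp only [C_sub, C_mul]
      ring
    have e2 : a0 / (a0 * b1 - a1 * b0) * b1 - a1 / (a0 * b1 - a1 * b0) * b0 = 1 := by
      field_simp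
    have e3 : a0 / (a0 * b1 - a1 * b0) * a1 - a1 / (a0 * b1 - a1 * b0) * a0 = 0 := by ring
    rw [e1, e2, e3, C_1, C_0]
    ring
  refine ⟨![C a0 * x + C b0 * v, C a1 * x + C b1 * v, u, w],
    aeval ![C (b1 / (a0 * b1 - a1 * b0)) * X 0 - C (b0 / (a0 * b1 - a1 * b0)) * X 1,
      C (a0 / (a0 * b1 - a1 * b0)) * X 1 - C (a1 / (a0 * b1 - a1 * b0)) * X 0] t,
    aeval ![C (b1 / (a0 * b1 - a1 * b0)) * X 0 - C (b0 / (a0 * b1 - a1 * b0)) * X 1,
      C (a0 / (a0 * b1 - a1 * b0)) * X 1 - C (a1 / (a0 * b1 - a1 * b0)) * X 0, X 2] q,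
    nd4_v4 ((nd4_homC a0 x hx).add (nd4_homC b0 v hv)) ((nd4_homC a1 x hx).add (nd4_homC b1 v hv))
      hu hw, nd4_li x v u w hl a0 b0 a1 b1 hd, ?_, ?_, ?_⟩
  · have h := IsHomogeneous.aeval ht _ (nd4_v2 (nd4_hom (b1 / (a0 * b1 - a1 * b0))
      (b0 / (a0 * b1 - a1 * b0)) (0 : Fin 2) 1) (nd4_hom (a0 / (a0 * b1 - a1 * b0))
      (a1 / (a0 * b1 - a1 * b0)) (1 : Fin 2) 0))
    rwa [one_mul] at h
  · have h := IsHomogeneous.aeval hq _ (nd4_v3 (nd4_hom (b1 / (a0 * b1 - a1 * b0))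
      (b0 / (a0 * b1 - a1 * b0)) (0 : Fin 3) 1) (nd4_hom (a0 / (a0 * b1 - a1 * b0))
      (a1 / (a0 * b1 - a1 * b0)) (1 : Fin 3) 0) (isHomogeneous_X ℂ 2))
    rwa [one_mul] at h
  · show u * (w * (C a0 * x + C b0 * v) * (C a1 * x + C b1 * v) + aeval ![x, v] t) +
      aeval ![x, v, w] q = u * (w * (C a0 * x + C b0 * v) * (C a1 * x + C b1 * v) +
        aeval ![C a0 * x + C b0 * v, C a1 * x + C b1 * v] (aeval
          ![C (b1 / (a0 * b1 - a1 * b0)) * X 0 - C (b0 / (a0 * b1 - a1 * b0)) * X 1,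
            C (a0 / (a0 * b1 - a1 * b0)) * X 1 - C (a1 / (a0 * b1 - a1 * b0)) * X 0] t)) +
      aeval ![C a0 * x + C b0 * v, C a1 * x + C b1 * v, w] (aeval
          ![C (b1 / (a0 * b1 - a1 * b0)) * X 0 - C (b0 / (a0 * b1 - a1 * b0)) * X 1,
            C (a0 / (a0 * b1 - a1 * b0)) * X 1 - C (a1 / (a0 * b1 - a1 * b0)) * X 0, X 2] q)
    rw [comp_aeval_apply, comp_aeval_apply]
    have f1 : (fun i => aeval ![C a0 * x + C b0 * v, C a1 * x + C b1 * v]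
        (![(C (b1 / (a0 * b1 - a1 * b0)) * X 0 - C (b0 / (a0 * b1 - a1 * b0)) * X 1 :
          MvPolynomial (Fin 2) ℂ),
          C (a0 / (a0 * b1 - a1 * b0)) * X 1 - C (a1 / (a0 * b1 - a1 * b0)) * X 0] i)) =
        ![x, v] := by
      funext i
      fin_cases i
      · show aeval ![C a0 * x + C b0 * v, C a1 * x + C b1 * v]
          ((C (b1 / (a0 * b1 - a1 * b0)) * X 0 - C (b0 / (a0 * b1 - a1 * b0)) * X 1 :
          MvPolynomial (Fin 2) ℂ)) = x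
        simp only [map_sub, map_mul, aeval_X, algHom_C, MvPolynomial.algebraMap_eq]
        exact hcx
      · show aeval ![C a0 * x + C b0 * v, C a1 * x + C b1 * v]
          ((C (a0 / (a0 * b1 - a1 * b0)) * X 1 - C (a1 / (a0 * b1 - a1 * b0)) * X 0 :
          MvPolynomial (Fin 2) ℂ)) = v
        simp only [map_sub, map_mul, aeval_X, algHom_C, MvPolynomial.algebraMap_eq]
        exact hcv
    have f2 : (fun i => aeval ![C a0 * x + C b0 * v, C a1 * x + C b1 * v, w]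
        (![(C (b1 / (a0 * b1 - a1 * b0)) * X 0 - C (b0 / (a0 * b1 - a1 * b0)) * X 1 :
          MvPolynomial (Fin 3) ℂ),
          C (a0 / (a0 * b1 - a1 * b0)) * X 1 - C (a1 / (a0 * b1 - a1 * b0)) * X 0, X 2] i)) =
        ![x, v, w] := by
      funext i
      fin_cases i
      · show aeval ![C a0 * x + C b0 * v, C a1 * x + C b1 * v, w]
          ((C (b1 / (a0 * b1 - a1 * b0)) * X 0 - C (b0 / (a0 * b1 - a1 * b0)) * X 1 :
          MvPolynomial (Fin 3) ℂ)) = x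
        simp only [map_sub, map_mul, aeval_X, algHom_C, MvPolynomial.algebraMap_eq]
        exact hcx
      · show aeval ![C a0 * x + C b0 * v, C a1 * x + C b1 * v, w]
          ((C (a0 / (a0 * b1 - a1 * b0)) * X 1 - C (a1 / (a0 * b1 - a1 * b0)) * X 0 :
          MvPolynomial (Fin 3) ℂ)) = v
        simp only [map_sub, map_mul, aeval_X, algHom_C, MvPolynomial.algebraMap_eq]
        exact hcv
      · show aeval ![C a0 * x + C b0 * v, C a1 * x + C b1 * v, w]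
          (X 2 : MvPolynomial (Fin 3) ℂ) = w
        rw [aeval_X]
        rfl
    rw [f1, f2]

private theorem nd4_homM {m a b c : ℕ} {f g : MvPolynomial (Fin m) ℂ} (hf : f.IsHomogeneous a)
    (hg : g.IsHomogeneous b) (h : a + b = c) : (f * g).IsHomogeneous c := by
  subst h
  exact hf.mul hg

private theorem nd4_homK {m a : ℕ} {f : MvPolynomial (Fin m) ℂ} (c : ℂ)
    (hf : f.IsHomogeneous a) : (C c * f).IsHomogeneous a :=
  nd4_homM (isHomogeneous_C (Fin m) c) hf (zero_add a)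

private theorem nd4_X {m : ℕ} (i : Fin m) : (X i : MvPolynomial (Fin m) ℂ).IsHomogeneous 1 :=
  isHomogeneous_X ℂ i

private theorem nd4_Xp {m : ℕ} (i : Fin m) (k : ℕ) :
    (X i ^ k : MvPolynomial (Fin m) ℂ).IsHomogeneous k := by
  have h := (isHomogeneous_X ℂ i : (X i : MvPolynomial (Fin m) ℂ).IsHomogeneous 1).pow k
  rwa [one_mul] at h

private theorem nd4_pG : poly (G4 0) = X 0 * X 0 * X 3 + X 1 * X 1 * X 1 + X 2 * X 2 * X 2 := by
  simp only [G4, poly_add, poly_mon3, poly_smul, C_0, zero_mul, add_zero]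

private theorem nd4_pT (p : Par) : poly p.T = X 3 * X 3 * X 3 + C p.e * (X 0 * X 3 * X 3) +
    (C p.A * (X 0 * X 0 * X 3) + C p.B1 * (X 0 * X 1 * X 3) + C p.B2 * (X 0 * X 2 * X 3) +
      C p.D1 * (X 1 * X 1 * X 3) + C p.D2 * (X 2 * X 2 * X 3)) +
    (C p.r0 * (X 1 * X 1 * X 1) + C p.r1 * (X 1 * X 1 * X 2) + C p.r2 * (X 1 * X 2 * X 2) +
      C p.r3 * (X 2 * X 2 * X 2)) + (C p.r11 * (X 0 * X 1 * X 1) + C p.r22 * (X 0 * X 2 * X 2)) +
    (C p.s1 * (X 0 * X 0 * X 1) + C p.s2 * (X 0 * X 0 * X 2)) + C p.s3 * (X 0 * X 0 * X 0) := by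
  simp only [Par.T, poly_add, poly_mon3, poly_smul]

private theorem nd4_basis (ω : ℂ) :
    LinearIndependent ℂ ![(X 0 : CLU.S), X 2 + C ω * X 1, X 1, X 3] := by
  rw [Fintype.linearIndependent_iff]
  intro c hc
  rw [Fin.sum_univ_four] at hc
  have hc' : C (c 0) * X 0 + C (c 1) * (X 2 + C ω * X 1) + C (c 2) * X 1 + C (c 3) * X 3 =
      (0 : CLU.S) := by
    rw [← hc]
    simp only [smul_eq_C_mul]
    rfl
  have ev : ∀ q : Fin 4 → ℂ, c 0 * q 0 + c 1 * (q 2 + ω * q 1) + c 2 * q 1 + c 3 * q 3 = 0 := by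
    intro q
    have h := congrArg (eval q) hc'
    simpa only [map_add, map_mul, eval_C, eval_X, map_zero] using h
  have h0 := ev ![1, 0, 0, 0]
  have h1 := ev ![0, 1, 0, 0]
  have h2 := ev ![0, 0, 1, 0]
  have h3 := ev ![0, 0, 0, 1]
  simp at h0 h1 h2 h3
  intro i
  fin_cases i
  · exact h0
  · exact h2
  · show c 2 = 0
    rw [h2] at h1
    simpa using h1
  · exact h3

theorem node_D4 (p : Par) (ω : ℂ) (hω : ω ^ 3 = 1)
    (hE : 3 * (p.B1 - ω * p.B2) ^ 2 + 4 * (p.r0 - ω * p.r1 + ω ^ 2 * p.r2 - p.r3) *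
      (p.D1 - ω ^ 2 * p.D2) ≠ 0) : NQ (G4 0) p.T := by
  obtain ⟨ro, hro⟩ : ∃ ro, ro = p.r0 - ω * p.r1 + ω ^ 2 * p.r2 - p.r3 := ⟨_, rfl⟩
  obtain ⟨al, hal⟩ : ∃ al, al = - (ω * ro) := ⟨_, rfl⟩
  rw [← hro] at hE
  have hdis : (3 * (p.B1 - ω * p.B2)) ^ 2 - 4 * al * (3 * (ω ^ 2 * p.D1 - ω * p.D2)) ≠ 0 := by
    intro h0
    apply hE
    rw [hal] at h0
    linear_combination (1 / 3) * h0 - 4 * ro * p.D1 * hω
  obtain ⟨a0, b0, a1, b1, ha, hb, hc, hd⟩ := nd4_fac _ _ _ hdis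
  have hV : (X 2 + C ω * X 1 : CLU.S).IsHomogeneous 1 := (nd4_X 2).add (nd4_homK ω (nd4_X 1))
  have hLA : ∀ {m : ℕ} (x v w : MvPolynomial (Fin m) ℂ), x.IsHomogeneous 1 → v.IsHomogeneous 1 →
      w.IsHomogeneous 1 → (C (p.D1 + ω ^ 2 * p.D2) * w +
        C (p.r1 - 2 * ω * p.r2 + 3 * ω ^ 2 * p.r3) * v +
        C (p.r11 + ω ^ 2 * p.r22) * x).IsHomogeneous 1 := fun x v w hx hv hw =>
    ((nd4_homK _ hw).add (nd4_homK _ hv)).add (nd4_homK _ hx)
  have hv0 : ∀ {m : ℕ} (x v w : MvPolynomial (Fin m) ℂ), x.IsHomogeneous 1 → v.IsHomogeneous 1 →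
      w.IsHomogeneous 1 → (C (ω ^ 2 * al) * v - C ω * (C (p.D1 + ω ^ 2 * p.D2) * w +
        C (p.r1 - 2 * ω * p.r2 + 3 * ω ^ 2 * p.r3) * v +
        C (p.r11 + ω ^ 2 * p.r22) * x)).IsHomogeneous 1 := fun x v w hx hv hw =>
    (nd4_homK _ hv).sub (nd4_homK _ (hLA x v w hx hv hw))
  have key := nd4_nodal (X 0) (X 2 + C ω * X 1) (X 1) (X 3) (nd4_X 0) hV (nd4_X 1) (nd4_X 3)
    (nd4_basis ω) a0 b0 a1 b1 hd
    (C (-2 * al + 3 * ω ^ 2 * (p.r1 - 2 * ω * p.r2 + 3 * ω ^ 2 * p.r3) +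
        3 * (p.r2 - 3 * ω * p.r3)) * X 1 ^ 3 +
      C (3 * ω ^ 2 * (p.r11 + ω ^ 2 * p.r22) - 6 * ω * p.r22) * (X 1 ^ 2 * X 0) +
      C (3 * (p.s1 - ω * p.s2)) * (X 1 * X 0 ^ 2))
    (((nd4_homK _ (nd4_Xp 1 3)).add (nd4_homK _ (nd4_homM (nd4_Xp 1 2) (nd4_X 0) rfl))).add
      (nd4_homK _ (nd4_homM (nd4_X 1) (nd4_Xp 0 2) rfl)))
    ((C (ω ^ 2 * al) * X 1 - C ω * (C (p.D1 + ω ^ 2 * p.D2) * X 2 +
        C (p.r1 - 2 * ω * p.r2 + 3 * ω ^ 2 * p.r3) * X 1 +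
        C (p.r11 + ω ^ 2 * p.r22) * X 0)) * (X 1 ^ 3 + X 0 ^ 2 * X 2) +
      (C 3 * X 1) * (X 2 ^ 3 + C p.e * (X 0 * X 2 ^ 2) + (C p.A * X 0 ^ 2 +
        C p.B2 * (X 0 * X 1) + C p.D2 * X 1 ^ 2) * X 2 + C p.r3 * X 1 ^ 3 +
        C p.r22 * (X 0 * X 1 ^ 2) + C p.s2 * (X 0 ^ 2 * X 1) + C p.s3 * X 0 ^ 3))
    ((nd4_homM (hv0 _ _ _ (nd4_X 0) (nd4_X 1) (nd4_X 2))
        ((nd4_Xp 1 3).add (nd4_homM (nd4_Xp 0 2) (nd4_X 2) rfl)) rfl).add
      (nd4_homM (nd4_homK 3 (nd4_X 1)) ((((((nd4_Xp 2 3).add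
        (nd4_homK _ (nd4_homM (nd4_X 0) (nd4_Xp 2 2) rfl))).add
        (nd4_homM (((nd4_homK _ (nd4_Xp 0 2)).add (nd4_homK _ (nd4_homM (nd4_X 0) (nd4_X 1) rfl))).add
          (nd4_homK _ (nd4_Xp 1 2))) (nd4_X 2) rfl)).add (nd4_homK _ (nd4_Xp 1 3))).add
        (nd4_homK _ (nd4_homM (nd4_X 0) (nd4_Xp 1 2) rfl))).add
        (nd4_homK _ (nd4_homM (nd4_Xp 0 2) (nd4_X 1) rfl)) |>.add (nd4_homK _ (nd4_Xp 0 3))) rfl))
  refine ⟨C al * X 1 + (C (ω ^ 2 * al) * (X 2 + C ω * X 1) - C ω *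
    (C (p.D1 + ω ^ 2 * p.D2) * X 3 + C (p.r1 - 2 * ω * p.r2 + 3 * ω ^ 2 * p.r3) *
      (X 2 + C ω * X 1) + C (p.r11 + ω ^ 2 * p.r22) * X 0)), C 3 * (X 2 + C ω * X 1),
    (nd4_homK _ (nd4_X 1)).add (hv0 _ _ _ (nd4_X 0) hV (nd4_X 3)), nd4_homK _ hV, ?_⟩
  rw [nd4_pG, nd4_pT]
  have hC3 : (C (3 : ℂ) : CLU.S) = 3 := map_ofNat C 3
  have hC2 : (C (2 : ℂ) : CLU.S) = 2 := map_ofNat C 2
  have id := nd4_id (X 0 : CLU.S) (X 1) (X 2) (X 3) (X 2 + C ω * X 1) (C ω) (C p.e) (C p.A)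
    (C p.B1) (C p.B2) (C p.D1) (C p.D2) (C p.r0) (C p.r1) (C p.r2) (C p.r3) (C p.r11) (C p.r22)
    (C p.s1) (C p.s2) (C p.s3) (C al)
    ((C p.D1 + C ω ^ 2 * C p.D2) * X 3 + (C p.r1 - 2 * C ω * C p.r2 + 3 * C ω ^ 2 * C p.r3) *
      (X 2 + C ω * X 1) + (C p.r11 + C ω ^ 2 * C p.r22) * X 0) _ (C ro)
    (by rw [← C_pow, hω, C_1]) rfl (by rw [hro]; simp only [C_sub, C_add, C_mul, C_pow])
    (by rw [hal]; simp only [C_neg, C_mul]) rfl rfl
  have hq1 : (C a0 : CLU.S) * C a1 = C al := by rw [← C_mul, ha]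
  have hq2 : (C a0 : CLU.S) * C b1 + C a1 * C b0 = 3 * (C p.B1 - C ω * C p.B2) := by
    rw [← C_mul, ← C_mul, ← C_add, hb]
    simp only [C_sub, C_mul, hC3]
  have hq3 : (C b0 : CLU.S) * C b1 = 3 * (C ω ^ 2 * C p.D1 - C ω * C p.D2) := by
    rw [← C_mul, hc]
    simp only [C_sub, C_mul, C_pow, hC3]
  have hC6 : (C (6 : ℂ) : CLU.S) = 6 := map_ofNat C 6
  refine (congrArg CLU.NodalQuartic ?_).mpr key
  simp only [map_add, map_mul, map_pow, map_sub, aeval_X, algHom_C, MvPolynomial.algebraMap_eq]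
  have m20 : (![(X 0 : CLU.S), X 2 + C ω * X 1] : Fin 2 → CLU.S) 0 = X 0 := rfl
  have m21 : (![(X 0 : CLU.S), X 2 + C ω * X 1] : Fin 2 → CLU.S) 1 = X 2 + C ω * X 1 := rfl
  have m30 : (![(X 0 : CLU.S), X 2 + C ω * X 1, X 3] : Fin 3 → CLU.S) 0 = X 0 := rfl
  have m31 : (![(X 0 : CLU.S), X 2 + C ω * X 1, X 3] : Fin 3 → CLU.S) 1 = X 2 + C ω * X 1 := rfl
  have m32 : (![(X 0 : CLU.S), X 2 + C ω * X 1, X 3] : Fin 3 → CLU.S) 2 = X 3 := rfl
  rw [m20, m21, m30, m31, m32]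
  simp only [C_neg, hC2, hC3, hC6]
  linear_combination id - X 1 * X 3 * (X 0 ^ 2 * hq1 + X 0 * (X 2 + C ω * X 1) * hq2 +
    (X 2 + C ω * X 1) ^ 2 * hq3)

end Pool.Agent.ISB
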