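import Pool.Agent.ISB.Cons2
import Pool.Agent.ISB.NodeD4

/-!
# ISB / Alg: classification of the `D4` members without nodal quartic

PROOF of `bad1`.  `node_D4` for the three cube roots of unity: the polynomial
`3 (B1 - ω B2)² + 4 (r0 - ω r1 + ω² r2 - r3) (D1 - ω² D2)` vanishes for `ω ∈ {1, ζ, ζ²}`
(`ζ² + ζ + 1 = 0`).  Reduced modulo `ω³ = 1` its coefficients are, with `ρ = r0 - r3`,
`1`: `3 B1² + 4 ρ D1 + 4 r1 D2`; `ω`: `- 6 B1 B2 - 4 r1 D1 - 4 r2 D2`; `ω²`: `3 B2² - 4 ρ D2 + 4 r2 D1`;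
they all vanish (Vandermonde).  With `3 B1 B2 + 4 (D1 r1 + D2 r2) = 0` (`cons1`): `B1 B2 = 0` and
`D1 r1 + D2 r2 = 0`.

PROOF of `bad2` (`B2 = 0`; `a: r2 D1 = ρ D2`, `b: D1 r1 + D2 r2 = 0`, `c: 3 B1² + 4 ρ D1 + 4 r1 D2 = 0`,
`s2 = - D2²/9`, `s1 = -D1²/9 - e B1/6`, `II: 3 s2 B1 + 2 (r1 r11 + r2 r22) = 0`).
* `D1 ≠ 0`, `D2 ≠ 0`.  If `r2 = 0`: `ρ = 0`, `r1 = 0`, `B1 = 0`, contradiction by `cons_a`.  So
  `r2 ≠ 0` and `r1 ≠ 0` (b).  If `B1 = 0` then `s1 = -D1²/9 ≠ 0`.  First alternative.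
* `D1 = 0`, `D2 ≠ 0`, `B1 ≠ 0`: `ρ = 0`, `r2 = 0`, `r1 ≠ 0` (c), `r11 ≠ 0` (II), `cons_b`.  Second.
* `D1 = 0`, `D2 ≠ 0`, `B1 = 0`: `ρ = 0`, `r2 = 0`, `r1 = 0`, `r11 = 0` (`cons_y`), `s1 = 0`.  Third.
* `D2 = 0`, `D1 ≠ 0`: `r2 = 0`, `r1 = 0`, `r22 = 0` (`cons_z`), `s2 = 0`.  Fourth.
* `D1 = D2 = 0`: `B1 = 0` (c), `r22 = 0`, `r11 = 0`, `s1 = s2 = 0`.  Fifth.
-/

set_option autoImplicit false

noncomputable section

namespace Pool.Agent.ISB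

open Matrix Pool.Agent.ISO

private theorem exists_z3_h75 : ∃ z : ℂ, z ^ 2 + z + 1 = 0 := by
  obtain ⟨s, hs⟩ := IsAlgClosed.exists_pow_nat_eq (-3 : ℂ) (by norm_num : 0 < 2)
  exact ⟨(-1 + s) / 2, by linear_combination (1 / 4 : ℂ) * hs⟩

theorem bad1 (p : Par) (h : Jt p.T) (hn : ¬ NQ (G4 0) p.T) :
    p.B1 * p.B2 = 0 ∧ p.D1 * p.r1 + p.D2 * p.r2 = 0 ∧
    3 * p.B1 ^ 2 + 4 * (p.r0 - p.r3) * p.D1 + 4 * p.r1 * p.D2 = 0 ∧
    3 * p.B2 ^ 2 - 4 * (p.r0 - p.r3) * p.D2 + 4 * p.r2 * p.D1 = 0 := by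
  obtain ⟨z, hz⟩ := exists_z3_h75
  have key : ∀ ω : ℂ, ω ^ 3 = 1 → 3 * (p.B1 - ω * p.B2) ^ 2 + 4 * (p.r0 - ω * p.r1 + ω ^ 2 * p.r2 - p.r3) *
      (p.D1 - ω ^ 2 * p.D2) = 0 := by
    intro ω hω
    by_contra hE
    exact hn (node_D4 p ω hω hE)
  have hz3 : z ^ 3 = 1 := by linear_combination (z - 1) * hz
  have hz6 : (z ^ 2) ^ 3 = 1 := by
    rw [← pow_mul, show 2 * 3 = 3 * 2 from rfl, pow_mul, hz3, one_pow]
  have red : ∀ ω : ℂ, ω ^ 3 = 1 → (3 * p.B1 ^ 2 + 4 * (p.r0 - p.r3) * p.D1 + 4 * p.r1 * p.D2) +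
      ω * (-6 * p.B1 * p.B2 - 4 * (p.D1 * p.r1 + p.D2 * p.r2)) +
      ω ^ 2 * (3 * p.B2 ^ 2 - 4 * (p.r0 - p.r3) * p.D2 + 4 * p.r2 * p.D1) = 0 := by
    intro ω hω
    have h1 := key ω hω
    linear_combination h1 + (-4 * p.r1 * p.D2 + 4 * ω * p.r2 * p.D2) * hω
  have e1 := red 1 (one_pow 3)
  have e2 := red z hz3
  have e3 := red (z ^ 2) hz6
  set c0 := 3 * p.B1 ^ 2 + 4 * (p.r0 - p.r3) * p.D1 + 4 * p.r1 * p.D2 with hc0
  set c1 := -6 * p.B1 * p.B2 - 4 * (p.D1 * p.r1 + p.D2 * p.r2) with hc1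
  set c2 := 3 * p.B2 ^ 2 - 4 * (p.r0 - p.r3) * p.D2 + 4 * p.r2 * p.D1 with hc2
  have f0 : c0 = 0 := by
    have : 3 * c0 = 0 := by
      linear_combination e1 + e2 + e3 - c1 * hz - c2 * hz - c2 * z * hz3
    simpa using this
  have f1 : c1 = 0 := by
    have : 3 * c1 = 0 := by
      linear_combination e1 + z ^ 2 * e2 + z * e3 - c0 * hz - 2 * c1 * hz3 - c2 * hz - 2 * c2 * z * hz3 -
        c2 * (z ^ 2 - z) * hz3
    simpa using this
  have f2 : c2 = 0 := by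
    rw [f0, f1] at e1
    linear_combination e1
  obtain ⟨-, -, h3, -⟩ := cons1 p h
  have g1 : p.B1 * p.B2 = 0 := by
    have : 3 * (p.B1 * p.B2) = 0 := by linear_combination (-1 : ℂ) * f1 - h3
    simpa using this
  refine ⟨g1, ?_, f0, f2⟩
  have : 4 * (p.D1 * p.r1 + p.D2 * p.r2) = 0 := by linear_combination h3 - 3 * g1
  simpa using this

/-- The two remaining types of bad `D4` members (with `B2 = 0`). -/
def Bad (p : Par) : Prop :=
  p.B2 = 0 ∧ p.D2 ≠ 0 ∧ p.s2 = -(p.D2 ^ 2) / 9 ∧ p.r1 ≠ 0 ∧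
    ((p.D1 ≠ 0 ∧ p.r2 ≠ 0 ∧ (p.B1 = 0 → p.s1 ≠ 0)) ∨
      (p.D1 = 0 ∧ p.r2 = 0 ∧ p.B1 ≠ 0 ∧ p.r11 ≠ 0 ∧ 3 * p.r22 = p.e * p.D2 ∧
        p.s1 = -(p.e * p.B1) / 6))

theorem bad2 (p : Par) (h : Jt p.T) (hn : ¬ NQ (G4 0) p.T) (hB2 : p.B2 = 0) :
    Bad p ∨
    (p.B1 = 0 ∧ p.D1 = 0 ∧ p.r0 = p.r3 ∧ p.r1 = 0 ∧ p.r2 = 0 ∧ p.r11 = 0 ∧ p.s1 = 0) ∨
    (p.D2 = 0 ∧ p.r1 = 0 ∧ p.r2 = 0 ∧ p.r22 = 0 ∧ p.s2 = 0) ∨
    (p.B1 = 0 ∧ p.D1 = 0 ∧ p.D2 = 0 ∧ p.r11 = 0 ∧ p.r22 = 0 ∧ p.s1 = 0 ∧ p.s2 = 0) := by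
  obtain ⟨-, hb, hc, ha⟩ := bad1 p h hn
  obtain ⟨hs1, hs2, -, hII⟩ := cons1 p h
  rw [hB2] at ha hs2 hII
  have hs2' : p.s2 = -(p.D2 ^ 2) / 9 := by rw [hs2]; ring
  by_cases hD2 : p.D2 = 0
  · rw [hD2] at ha hb hc hs2'
    have hs20 : p.s2 = 0 := by rw [hs2']; ring
    have hr22 := cons_z p h hB2 hD2
    by_cases hD1 : p.D1 = 0
    · rw [hD1] at hc hs1
      have hB1 : p.B1 = 0 := by
        have : 3 * p.B1 ^ 2 = 0 := by linear_combination hc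
        simpa using this
      have hr11 := cons_y p h hB1 hD1 hB2
      refine Or.inr (Or.inr (Or.inr ⟨hB1, hD1, hD2, hr11, hr22, ?_, hs20⟩))
      rw [hs1, hB1]
      ring
    · have hr2 : p.r2 = 0 := by
        have : p.r2 * p.D1 = 0 := by linear_combination (1 / 4 : ℂ) * ha
        exact (mul_eq_zero.1 this).resolve_right hD1
      have hr1 : p.r1 = 0 := by
        have : p.D1 * p.r1 = 0 := by linear_combination hb
        exact (mul_eq_zero.1 this).resolve_left hD1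
      exact Or.inr (Or.inr (Or.inl ⟨hD2, hr1, hr2, hr22, hs20⟩))
  · by_cases hD1 : p.D1 = 0
    · rw [hD1] at ha hb hc hs1
      have hr2 : p.r2 = 0 := by
        have : p.D2 * p.r2 = 0 := by linear_combination hb
        exact (mul_eq_zero.1 this).resolve_left hD2
      have hρ : p.r0 - p.r3 = 0 := by
        have : (p.r0 - p.r3) * p.D2 = 0 := by linear_combination (-1 / 4 : ℂ) * ha
        exact (mul_eq_zero.1 this).resolve_right hD2
      by_cases hB1 : p.B1 = 0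
      · have hr1 : p.r1 = 0 := by
          rw [hB1] at hc
          have : p.r1 * p.D2 = 0 := by linear_combination (1 / 4 : ℂ) * hc
          exact (mul_eq_zero.1 this).resolve_right hD2
        have hr11 := cons_y p h hB1 hD1 hB2
        refine Or.inr (Or.inl ⟨hB1, hD1, sub_eq_zero.1 hρ, hr1, hr2, hr11, ?_⟩)
        rw [hs1, hB1]
        ring
      · have hr1 : p.r1 ≠ 0 := by
          intro h0
          rw [h0] at hc
          have : 3 * p.B1 ^ 2 = 0 := by linear_combination hc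
          exact hB1 (by simpa using this)
        have hr11 : p.r11 ≠ 0 := by
          intro h0
          rw [h0, hr2, hs2'] at hII
          have : p.D2 ^ 2 * p.B1 = 0 := by linear_combination (-3 : ℂ) * hII
          rcases mul_eq_zero.1 this with h1 | h1
          · exact hD2 (pow_eq_zero_iff (by norm_num) |>.1 h1)
          · exact hB1 h1
        have hb' := cons_b p h hB2 hD1 hr2 (by linear_combination hc) hB1 hD2
        refine Or.inl ⟨hB2, hD2, hs2', hr1, Or.inr ⟨hD1, hr2, hB1, hr11, hb', ?_⟩⟩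
        rw [hs1]
        ring
    · have hr2 : p.r2 ≠ 0 := by
        intro h0
        rw [h0] at ha hb
        have hρ : p.r0 - p.r3 = 0 := by
          have : (p.r0 - p.r3) * p.D2 = 0 := by linear_combination (-1 / 4 : ℂ) * ha
          exact (mul_eq_zero.1 this).resolve_right hD2
        have hr1 : p.r1 = 0 := by
          have : p.D1 * p.r1 = 0 := by linear_combination hb
          exact (mul_eq_zero.1 this).resolve_left hD1
        rw [hρ, hr1] at hc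
        have hB1 : p.B1 = 0 := by
          have : 3 * p.B1 ^ 2 = 0 := by linear_combination hc
          simpa using this
        rcases mul_eq_zero.1 (cons_a p h hB1 hB2 hr1 h0) with h1 | h1
        · exact hD1 h1
        · exact hD2 h1
      have hr1 : p.r1 ≠ 0 := by
        intro h0
        rw [h0] at hb
        have : p.D2 * p.r2 = 0 := by linear_combination hb
        rcases mul_eq_zero.1 this with h1 | h1
        · exact hD2 h1
        · exact hr2 h1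
      refine Or.inl ⟨hB2, hD2, hs2', hr1, Or.inl ⟨hD1, hr2, fun hB1 h0 => ?_⟩⟩
      rw [hs1, hB1] at h0
      have : p.D1 ^ 2 = 0 := by linear_combination (-9 : ℂ) * h0
      exact hD1 (pow_eq_zero_iff (by norm_num) |>.1 this)

end Pool.Agent.ISB
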