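import Pool.Agent.ISB.Ker

/-!
# ISB / Cons1: constraints of order 0 and 1 at a `D4` member

`lie T X i j k = ∑ a, (T a j k X a i + T i a k X a j + T i j a X a k)`, `T` symmetric.

PROOF of `cons0`.  `lie f Rm i j k = (R i + R j + R k) f i j k` with `R = (-1/6, 0, 0, 1/3)`.  The entries
`1 3 3`, `2 3 3`, `1 2 3`, `0 1 2` of `lie (G4 0) X0` vanish (`lie_G4`), so
`(2/3 - 1) f 1 3 3 = 0` etc.: these four entries of `f` vanish.  Put
`p = ⟨3 f033, 3 f003, 6 f013, 6 f023, 3 f113, 3 f223, f111, 3 f112, 3 f122, f222, 3 f011, 3 f022,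
3 f001, 3 f002, f000⟩`; `f = p.T` by symmetry (`funext`, 64 cases).

PROOF of `X0_eq`: `lie (G4 0) X0 i j k = (1 - R i - R j - R k) f i j k`; read off the entries with `lie_G4`.

PROOF of `cons1`.  Entries of `lie p.T X0 = - lie (G4 0) X1`, which vanish by `lie_G4` (the entries
`133, 233, 123, 012`), with `X0` from `X0_eq`:
`133`: `9 * (...)`: `2 e B1 + (4/3) D1² + 12 s1 = 0`; `233`: `2 e B2 + (4/3) D2² + 12 s2 = 0`;
`123`: `(5/36) B1 B2 + (5/27) (D1 r1 + D2 r2) = 0`;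
`012`: `(13/36) (B1 s2 + B2 s1) + (13/54) (r1 r11 + r2 r22) = 0` (checked by computer algebra).
-/

set_option autoImplicit false

noncomputable section

namespace Pool.Agent.ISB

open Matrix Pool.Agent.ISO

/-- The first Laurent coefficients exist. -/
def Jt (f : T3) : Prop :=
  ∃ X0 X1 X2 : M4, lie (G4 0) X0 + lie f Rm = f ∧ lie (G4 0) X1 + lie f X0 = 0 ∧
    lie (G4 0) X2 + lie f X1 = 0

private theorem lie_Rm (f : T3) (i j k : Fin 4) :
    lie f Rm i j k = ((![-(1 / 6 : ℂ), 0, 0, 1 / 3] : Fin 4 → ℂ) i +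
      (![-(1 / 6 : ℂ), 0, 0, 1 / 3] : Fin 4 → ℂ) j +
      (![-(1 / 6 : ℂ), 0, 0, 1 / 3] : Fin 4 → ℂ) k) * f i j k := by
  simp only [lie, Rm, Matrix.diagonal_apply, mul_ite, mul_zero, Finset.sum_add_distrib,
    Finset.sum_ite_eq', Finset.mem_univ, if_true]
  ring

private theorem sym_add {f g : T3} (hf : IsSym f) (hg : IsSym g) : IsSym (f + g) := by
  intro i j k
  simp only [Pi.add_apply]
  exact ⟨by rw [(hf i j k).1, (hg i j k).1], by rw [(hf i j k).2, (hg i j k).2]⟩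

private theorem sym_smul {f : T3} (c : ℂ) (hf : IsSym f) : IsSym (c • f) := by
  intro i j k
  simp only [Pi.smul_apply]
  exact ⟨by rw [(hf i j k).1], by rw [(hf i j k).2]⟩

private theorem sym_mon (a b c : Fin 4) : IsSym (mon3 a b c) := by
  intro i j k
  have h : ∀ P Q R : Prop, (P ∧ Q ∧ R) = (Q ∧ P ∧ R) := fun P Q R => by
    apply propext
    tauto
  have h' : ∀ P Q R : Prop, (P ∧ Q ∧ R) = (P ∧ R ∧ Q) := fun P Q R => by
    apply propext
    tauto
  constructor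
  · unfold mon3
    congr 1
    simp only [h (i = _)]
    ring
  · unfold mon3
    congr 1
    simp only [h' (i = _)]
    ring

private theorem sym_ext {f g : T3} (hf : IsSym f) (hg : IsSym g)
    (h : ∀ i j k, i ≤ j → j ≤ k → f i j k = g i j k) : f = g := by
  funext i j k
  rcases le_total i j with h1 | h1
  · rcases le_total j k with h2 | h2
    · exact h i j k h1 h2
    · rcases le_total i k with h3 | h3
      · rw [(hf i j k).2, (hg i j k).2]
        exact h i k j h3 h2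
      · rw [(hf i j k).2, (hg i j k).2, (hf i k j).1, (hg i k j).1]
        exact h k i j h3 h1
  · rcases le_total i k with h2 | h2
    · rw [(hf i j k).1, (hg i j k).1]
      exact h j i k h1 h2
    · rcases le_total j k with h3 | h3
      · rw [(hf i j k).1, (hg i j k).1, (hf j i k).2, (hg j i k).2]
        exact h j k i h3 h2
      · rw [(hf i j k).2, (hg i j k).2, (hf i k j).1, (hg i k j).1, (hf k i j).2, (hg k i j).2]
        exact h k j i h3 h1

private theorem parSym (p : Par) : IsSym p.T := by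
  unfold Par.T
  refine sym_add (sym_add (sym_add (sym_add (sym_add (sym_add (sym_mon _ _ _) (sym_smul _
    (sym_mon _ _ _))) ?_) ?_) ?_) ?_) (sym_smul _ (sym_mon _ _ _))
  · exact sym_add (sym_add (sym_add (sym_add (sym_smul _ (sym_mon _ _ _)) (sym_smul _
      (sym_mon _ _ _))) (sym_smul _ (sym_mon _ _ _))) (sym_smul _ (sym_mon _ _ _)))
      (sym_smul _ (sym_mon _ _ _))
  · exact sym_add (sym_add (sym_add (sym_smul _ (sym_mon _ _ _)) (sym_smul _
      (sym_mon _ _ _))) (sym_smul _ (sym_mon _ _ _))) (sym_smul _ (sym_mon _ _ _))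
  · exact sym_add (sym_smul _ (sym_mon _ _ _)) (sym_smul _ (sym_mon _ _ _))
  · exact sym_add (sym_smul _ (sym_mon _ _ _)) (sym_smul _ (sym_mon _ _ _))

private theorem parT' (p : Par) : IsSym p.T ∧ p.T 3 3 3 = 1 ∧ p.T 0 3 3 = p.e / 3 ∧ p.T 0 0 3 = p.A / 3 ∧
    p.T 0 1 3 = p.B1 / 6 ∧ p.T 0 2 3 = p.B2 / 6 ∧ p.T 1 1 3 = p.D1 / 3 ∧ p.T 2 2 3 = p.D2 / 3 ∧
    p.T 1 1 1 = p.r0 ∧ p.T 1 1 2 = p.r1 / 3 ∧ p.T 1 2 2 = p.r2 / 3 ∧ p.T 2 2 2 = p.r3 ∧
    p.T 0 1 1 = p.r11 / 3 ∧ p.T 0 2 2 = p.r22 / 3 ∧ p.T 0 0 1 = p.s1 / 3 ∧ p.T 0 0 2 = p.s2 / 3 ∧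
    p.T 0 0 0 = p.s3 ∧ p.T 1 3 3 = 0 ∧ p.T 2 3 3 = 0 ∧ p.T 1 2 3 = 0 ∧ p.T 0 1 2 = 0 := by
  refine ⟨parSym p, ?_, ?_, ?_, ?_, ?_, ?_, ?_, ?_, ?_, ?_, ?_, ?_, ?_, ?_, ?_, ?_, ?_, ?_, ?_,
    ?_⟩ <;>
  · simp [Par.T, mon3]
    try ring

theorem cons0 (f : T3) (hf : IsSym f) (h3 : f 3 3 3 = 1) (X0 : M4)
    (h : lie (G4 0) X0 + lie f Rm = f) : ∃ p : Par, f = p.T := by
  have he : ∀ i j k, lie (G4 0) X0 i j k + lie f Rm i j k = f i j k := fun i j k =>
    congrFun (congrFun (congrFun h i) j) k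
  obtain ⟨g333, g133, g233, g123, g012, -⟩ := lie_G4 X0
  have z133 : f 1 3 3 = 0 := by
    have h1 := he 1 3 3
    rw [g133, lie_Rm] at h1
    simp at h1
    linear_combination -3 * h1
  have z233 : f 2 3 3 = 0 := by
    have h1 := he 2 3 3
    rw [g233, lie_Rm] at h1
    simp at h1
    linear_combination -3 * h1
  have z123 : f 1 2 3 = 0 := by
    have h1 := he 1 2 3
    rw [g123, lie_Rm] at h1
    simp at h1
    linear_combination -(3 / 2) * h1
  have z012 : f 0 1 2 = 0 := by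
    have h1 := he 0 1 2
    rw [g012, lie_Rm] at h1
    simp at h1
    linear_combination -(6 / 7) * h1
  obtain ⟨p, hp⟩ : ∃ p : Par, p = ⟨3 * f 0 3 3, 3 * f 0 0 3, 6 * f 0 1 3, 6 * f 0 2 3, 3 * f 1 1 3,
    3 * f 2 2 3, f 1 1 1, 3 * f 1 1 2, 3 * f 1 2 2, f 2 2 2, 3 * f 0 1 1, 3 * f 0 2 2,
    3 * f 0 0 1, 3 * f 0 0 2, f 0 0 0⟩ := ⟨_, rfl⟩
  refine ⟨p, sym_ext hf (parSym p) ?_⟩
  obtain ⟨-, e1, e2, e3, e4, e5, e6, e7, e8, e9, e10, e11, e12, e13, e14, e15, e16, e17, e18, e19,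
    e20⟩ := parT' p
  rw [hp] at e1 e2 e3 e4 e5 e6 e7 e8 e9 e10 e11 e12 e13 e14 e15 e16 e17 e18 e19 e20 ⊢
  simp only at e1 e2 e3 e4 e5 e6 e7 e8 e9 e10 e11 e12 e13 e14 e15 e16 e17 e18 e19 e20 ⊢
  intro i j k hij hjk
  fin_cases i <;> fin_cases j <;> first
    | exact absurd hij (by decide)
    | (fin_cases k <;> first
        | exact absurd hjk (by decide)
        | (simp only [Fin.zero_eta, Fin.mk_one, Fin.reduceFinMk]
           first
            | (rw [e1]; exact h3)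
            | (rw [e2]; ring)
            | (rw [e3]; ring)
            | (rw [e4]; ring)
            | (rw [e5]; ring)
            | (rw [e6]; ring)
            | (rw [e7]; ring)
            | (rw [e8])
            | (rw [e9]; ring)
            | (rw [e10]; ring)
            | (rw [e11])
            | (rw [e12]; ring)
            | (rw [e13]; ring)
            | (rw [e14]; ring)
            | (rw [e15]; ring)
            | (rw [e16])
            | (rw [e17]; exact z133)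
            | (rw [e18]; exact z233)
            | (rw [e19]; exact z123)
            | (rw [e20]; exact z012)))

/-- The entries of `p.T`. -/
theorem parT (p : Par) : IsSym p.T ∧ p.T 3 3 3 = 1 ∧ p.T 0 3 3 = p.e / 3 ∧ p.T 0 0 3 = p.A / 3 ∧
    p.T 0 1 3 = p.B1 / 6 ∧ p.T 0 2 3 = p.B2 / 6 ∧ p.T 1 1 3 = p.D1 / 3 ∧ p.T 2 2 3 = p.D2 / 3 ∧
    p.T 1 1 1 = p.r0 ∧ p.T 1 1 2 = p.r1 / 3 ∧ p.T 1 2 2 = p.r2 / 3 ∧ p.T 2 2 2 = p.r3 ∧
    p.T 0 1 1 = p.r11 / 3 ∧ p.T 0 2 2 = p.r22 / 3 ∧ p.T 0 0 1 = p.s1 / 3 ∧ p.T 0 0 2 = p.s2 / 3 ∧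
    p.T 0 0 0 = p.s3 ∧ p.T 1 3 3 = 0 ∧ p.T 2 3 3 = 0 ∧ p.T 1 2 3 = 0 ∧ p.T 0 1 2 = 0 := by
  exact parT' p

theorem X0_eq (p : Par) (X0 : M4) (h : lie (G4 0) X0 + lie p.T Rm = p.T) :
    X0 = !![X0 0 0, 5 / 12 * p.B1, 5 / 12 * p.B2, 1 / 4 * p.e;
      7 / 18 * p.r11, 1 / 3 * p.r0, 1 / 3 * p.r1, 2 / 9 * p.D1;
      7 / 18 * p.r22, 1 / 3 * p.r2, 1 / 3 * p.r3, 2 / 9 * p.D2;
      3 / 2 * p.s3, 4 / 3 * p.s1, 4 / 3 * p.s2, p.A - 2 * X0 0 0] := by
  have he : ∀ i j k, lie (G4 0) X0 i j k + lie p.T Rm i j k = p.T i j k := fun i j k =>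
    congrFun (congrFun (congrFun h i) j) k
  obtain ⟨-, e1, e2, e3, e4, e5, e6, e7, e8, e9, e10, e11, e12, e13, e14, e15, e16, e17, e18, e19,
    e20⟩ := parT p
  obtain ⟨g333, g133, g233, g123, g012, g000, g001, g002, g003, g013, g023, g033, g111, g222, g011,
    g112, g113, g022, g122, g223⟩ := lie_G4 X0
  have a30 : X0 3 0 = 3 / 2 * p.s3 := by
    have h1 := he 0 0 0
    rw [g000, lie_Rm, e16] at h1
    simp at h1
    linear_combination h1
  have a31 : X0 3 1 = 4 / 3 * p.s1 := by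
    have h1 := he 0 0 1
    rw [g001, lie_Rm, e14] at h1
    simp at h1
    linear_combination 3 * h1
  have a32 : X0 3 2 = 4 / 3 * p.s2 := by
    have h1 := he 0 0 2
    rw [g002, lie_Rm, e15] at h1
    simp at h1
    linear_combination 3 * h1
  have a33 : X0 3 3 = p.A - 2 * X0 0 0 := by
    have h1 := he 0 0 3
    rw [g003, lie_Rm, e3] at h1
    simp at h1
    linear_combination 3 * h1
  have a01 : X0 0 1 = 5 / 12 * p.B1 := by
    have h1 := he 0 1 3
    rw [g013, lie_Rm, e4] at h1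
    simp at h1
    linear_combination 3 * h1
  have a02 : X0 0 2 = 5 / 12 * p.B2 := by
    have h1 := he 0 2 3
    rw [g023, lie_Rm, e5] at h1
    simp at h1
    linear_combination 3 * h1
  have a03 : X0 0 3 = 1 / 4 * p.e := by
    have h1 := he 0 3 3
    rw [g033, lie_Rm, e2] at h1
    simp at h1
    linear_combination (3 / 2) * h1
  have a11 : X0 1 1 = 1 / 3 * p.r0 := by
    have h1 := he 1 1 1
    rw [g111, lie_Rm, e8] at h1
    simp at h1
    linear_combination (1 / 3) * h1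
  have a22 : X0 2 2 = 1 / 3 * p.r3 := by
    have h1 := he 2 2 2
    rw [g222, lie_Rm, e11] at h1
    simp at h1
    linear_combination (1 / 3) * h1
  have a10 : X0 1 0 = 7 / 18 * p.r11 := by
    have h1 := he 0 1 1
    rw [g011, lie_Rm, e12] at h1
    simp at h1
    linear_combination h1
  have a12 : X0 1 2 = 1 / 3 * p.r1 := by
    have h1 := he 1 1 2
    rw [g112, lie_Rm, e9] at h1
    simp at h1
    linear_combination h1
  have a13 : X0 1 3 = 2 / 9 * p.D1 := by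
    have h1 := he 1 1 3
    rw [g113, lie_Rm, e6] at h1
    simp at h1
    linear_combination h1
  have a20 : X0 2 0 = 7 / 18 * p.r22 := by
    have h1 := he 0 2 2
    rw [g022, lie_Rm, e13] at h1
    simp at h1
    linear_combination h1
  have a21 : X0 2 1 = 1 / 3 * p.r2 := by
    have h1 := he 1 2 2
    rw [g122, lie_Rm, e10] at h1
    simp at h1
    linear_combination h1
  have a23 : X0 2 3 = 2 / 9 * p.D2 := by
    have h1 := he 2 2 3
    rw [g223, lie_Rm, e7] at h1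
    simp at h1
    linear_combination h1
  ext i j
  fin_cases i <;> fin_cases j <;> first
    | exact rfl
    | exact a01
    | exact a02
    | exact a03
    | exact a10
    | exact a11
    | exact a12
    | exact a13
    | exact a20
    | exact a21
    | exact a22
    | exact a23
    | exact a30
    | exact a31
    | exact a32
    | exact a33

theorem cons1 (p : Par) (h : Jt p.T) :
    p.s1 = -(p.D1 ^ 2) / 9 - p.e * p.B1 / 6 ∧ p.s2 = -(p.D2 ^ 2) / 9 - p.e * p.B2 / 6 ∧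
    3 * p.B1 * p.B2 + 4 * (p.D1 * p.r1 + p.D2 * p.r2) = 0 ∧
    3 * (p.s1 * p.B2 + p.s2 * p.B1) + 2 * (p.r1 * p.r11 + p.r2 * p.r22) = 0 := by
  obtain ⟨X0, X1, X2, h0, h1, -⟩ := h
  have hX := X0_eq p X0 h0
  have he : ∀ i j k, lie (G4 0) X1 i j k + lie p.T X0 i j k = 0 := fun i j k =>
    congrFun (congrFun (congrFun h1 i) j) k
  obtain ⟨g333, g133, g233, g123, g012, -⟩ := lie_G4 X1
  have q133 := he 1 3 3
  have q233 := he 2 3 3
  have q123 := he 1 2 3
  have q012 := he 0 1 2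
  rw [g133, zero_add, hX] at q133
  rw [g233, zero_add, hX] at q233
  rw [g123, zero_add, hX] at q123
  rw [g012, zero_add, hX] at q012
  generalize X0 0 0 = t at q133 q233 q123 q012
  clear hX he h0 h1 g333 g133 g233 g123 g012
  simp [lie, Fin.sum_univ_four, Par.T, mon3] at q133 q233 q123 q012
  refine ⟨?_, ?_, ?_, ?_⟩
  · linear_combination (3 / 4) * q133
  · linear_combination (3 / 4) * q233
  · linear_combination (108 / 5) * q123
  · linear_combination (108 / 13) * q012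

end Pool.Agent.ISB
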