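import Pool.Agent.ISB.NearOrb
import Pool.Agent.ISB.Cons1

/-!
# ISB / Close: near a `D4` member the pencil is close to the standard germ `G4 t`

PROOF.  For `t ≠ 0` small choose `σ` with `σ ^ 6 = t` (`IsAlgClosed.exists_pow_nat_eq`), let
`n = (1, 0, 0, -2)` and `D = diagonal (σ ^ n_i)`.  By `act_diagonal`
`act (G4 0 + t • p.T) D i j k = σ^(n_i + n_j + n_k) ((G4 0) i j k + σ^6 p.T i j k)`: the entries of `G4 0`
are nonzero only in weight `0`, the entry `333` of `p.T` contributes `1`, and all other nonzero entries of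
`p.T` have `6 + n_i + n_j + n_k ≥ 3` (`033`: 3, `113, 223`: 4, `013, 023`: 5, ...; the entries `133`, `233`
vanish, see `parT`).  So `‖G_σ - G4 1‖ ≤ C0 ‖σ‖³` for `‖σ‖ ≤ 1`.  `G_σ` lies in the orbit of the smooth form
`G4 1` (both are in the orbit of `fermat`: `horb`, `fermat_G4`), so `orb_lip` gives `h` with
`‖h i j - 1 i j‖ ≤ C ‖σ‖³`, `G_σ = act (G4 1) h`.  `G4 1 = act (G4 t) D`, so
`G4 0 + t • p.T = act G_σ D⁻¹ = act (G4 t) (D h D⁻¹)`.  The entries of `g = D h D⁻¹` satisfy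
`‖g i j - 1 i j‖ ≤ C ‖σ‖^(3 + n_i - n_j)`; the exponent is `≥ 1` except for `(i, j) = (3, 0)`, where it is
`0`.  For this entry use the entry `000` of `G4 0 + t • p.T = act (G4 t) g`:
`t s3 = (g 0 0)² g 3 0 + (g 1 0)³ + (g 2 0)³ + t (g 3 0)³`, so `g 3 0 → 0` as `t → 0`
(`g 0 0 → 1`, `g 1 0, g 2 0 → 0`, `g 3 0` bounded).
-/

set_option autoImplicit false

noncomputable section

namespace Pool.Agent.ISB

open Matrix Filter Topology Pool.Agent.ISO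

private theorem act_mon42 (a b c : Fin 4) (d : Fin 4 → ℂ) :
    act (mon3 a b c) (Matrix.diagonal d) = (d a * d b * d c) • mon3 a b c := by
  have key : ∀ i j k a b c : Fin 4,
      (if i = a ∧ j = b ∧ k = c then (1 : ℂ) else 0) * (d i * d j * d k) =
        (if i = a ∧ j = b ∧ k = c then (1 : ℂ) else 0) * (d a * d b * d c) := by
    intro i j k a b c
    by_cases h : i = a ∧ j = b ∧ k = c
    · obtain ⟨rfl, rfl, rfl⟩ := h
      rfl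
    · rw [if_neg h, zero_mul, zero_mul]
  funext i j k
  rw [act_diagonal]
  show mon3 a b c i j k * d i * d j * d k = d a * d b * d c * mon3 a b c i j k
  unfold mon3
  have h1 := key i j k a b c
  have h2 := key i j k a c b
  have h3 := key i j k b a c
  have h4 := key i j k b c a
  have h5 := key i j k c a b
  have h6 := key i j k c b a
  linear_combination (h1 + h2 + h3 + h4 + h5 + h6) / 6

private theorem act_G42 (κ : ℂ) (d : Fin 4 → ℂ) (h1 : d 0 * d 0 * d 3 = 1)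
    (h2 : d 1 * d 1 * d 1 = 1) (h3 : d 2 * d 2 * d 2 = 1) :
    act (G4 κ) (Matrix.diagonal d) = G4 (κ * (d 3 * d 3 * d 3)) := by
  unfold G4
  rw [act_add, act_add, act_add, act_smul, act_mon42, act_mon42, act_mon42, act_mon42, h1, h2, h3,
    one_smul, one_smul, one_smul, smul_smul]

private theorem mon333_42 (i j k : Fin 4) :
    mon3 3 3 3 i j k = if i = 3 ∧ j = 3 ∧ k = 3 then 1 else 0 := by
  unfold mon3
  ring

/-- the weights -/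
private def ee42 : Fin 4 → ℕ := ![3, 2, 2, 0]

private theorem dec42 : ∀ i j k : Fin 4, 3 ≤ ee42 i + ee42 j + ee42 k ∨
    (i = 3 ∧ j = 3 ∧ k = 3) ∨ (i = 1 ∧ j = 3 ∧ k = 3) ∨ (i = 3 ∧ j = 1 ∧ k = 3) ∨
    (i = 3 ∧ j = 3 ∧ k = 1) ∨ (i = 2 ∧ j = 3 ∧ k = 3) ∨ (i = 3 ∧ j = 2 ∧ k = 3) ∨
    (i = 3 ∧ j = 3 ∧ k = 2) := by
  decide

private theorem dec42' : ∀ i j : Fin 4, 4 ≤ 3 + ee42 i - ee42 j ∨ 1 ≤ 3 + ee42 i - ee42 j ∨
    (i = 3 ∧ j = 0) := by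
  decide

private theorem ee42_le : ∀ i : Fin 4, ee42 i ≤ 3 := by
  decide

private theorem entry42 (p : Par) {σ : ℂ} (hσ : ‖σ‖ ≤ 1) (i j k : Fin 4) :
    ‖p.T i j k * σ ^ (ee42 i + ee42 j + ee42 k) - mon3 3 3 3 i j k‖ ≤ (‖p.T‖ + 1) * ‖σ‖ ^ 3 := by
  obtain ⟨hS, e333, -, -, -, -, -, -, -, -, -, -, -, -, -, -, -, e133, e233, -, -⟩ := parT p
  have hR : 0 ≤ (‖p.T‖ + 1) * ‖σ‖ ^ 3 := by positivity
  have hM : ‖p.T i j k‖ ≤ ‖p.T‖ :=
    (norm_le_pi_norm (p.T i j) k).trans ((norm_le_pi_norm (p.T i) j).trans (norm_le_pi_norm p.T i))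
  rcases dec42 i j k with h | h | h | h | h | h | h | h
  · have h1 : ¬ (i = 3 ∧ j = 3 ∧ k = 3) := by
      rintro ⟨rfl, rfl, rfl⟩
      revert h
      decide
    rw [mon333_42, if_neg h1, sub_zero, norm_mul, norm_pow]
    have h2 : ‖σ‖ ^ (ee42 i + ee42 j + ee42 k) ≤ ‖σ‖ ^ 3 :=
      pow_le_pow_of_le_one (norm_nonneg _) hσ h
    have h3 : 0 ≤ ‖σ‖ ^ 3 := by positivity
    calc ‖p.T i j k‖ * ‖σ‖ ^ (ee42 i + ee42 j + ee42 k) ≤ ‖p.T‖ * ‖σ‖ ^ 3 :=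
          mul_le_mul hM h2 (by positivity) (norm_nonneg _)
      _ ≤ (‖p.T‖ + 1) * ‖σ‖ ^ 3 := by nlinarith
  · obtain ⟨rfl, rfl, rfl⟩ := h
    have h0 : ee42 3 + ee42 3 + ee42 3 = 0 := by decide
    rw [mon333_42, if_pos ⟨rfl, rfl, rfl⟩, h0, pow_zero, mul_one, e333, sub_self, norm_zero]
    exact hR
  all_goals
    obtain ⟨rfl, rfl, rfl⟩ := h
    rw [mon333_42, if_neg (by decide)]
  · rw [e133, zero_mul, sub_zero, norm_zero]
    exact hR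
  · rw [(hS 3 1 3).1, e133, zero_mul, sub_zero, norm_zero]
    exact hR
  · rw [(hS 3 3 1).2, (hS 3 1 3).1, e133, zero_mul, sub_zero, norm_zero]
    exact hR
  · rw [e233, zero_mul, sub_zero, norm_zero]
    exact hR
  · rw [(hS 3 2 3).1, e233, zero_mul, sub_zero, norm_zero]
    exact hR
  · rw [(hS 3 3 2).2, (hS 3 2 3).1, e233, zero_mul, sub_zero, norm_zero]
    exact hR

private theorem lt42 {A B s : ℝ} (hA : 0 ≤ A) (hs : 0 ≤ s) (h : s < B / (A + 1)) : A * s < B := by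
  rw [lt_div_iff₀ (by linarith)] at h
  nlinarith

theorem close_D4 (p : Par)
    (horb : ∃ ε0 : ℝ, 0 < ε0 ∧ ∀ t : ℂ, t ≠ 0 → ‖t‖ < ε0 →
      ∃ x : M4, x.det ≠ 0 ∧ G4 0 + t • p.T = act fermat x) (ε : ℝ) (hε : 0 < ε) :
    ∃ δ : ℝ, 0 < δ ∧ ∀ t : ℂ, t ≠ 0 → ‖t‖ < δ →
      ∃ g : M4, (∀ i j, ‖g i j - (1 : M4) i j‖ < ε) ∧ G4 0 + t • p.T = act (G4 t) g := by
  obtain ⟨ε0, hε0, horb⟩ := horb
  obtain ⟨y, hy, hy'⟩ := fermat_G4 1 one_ne_zero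
  obtain ⟨C, δ1, hC, hδ1, hlip⟩ := orb_lip (sm_G4 1 one_ne_zero)
  obtain ⟨M, hM⟩ : ∃ M : ℝ, M = ‖p.T‖ + 1 := ⟨_, rfl⟩
  have hM0 : 0 < M := by
    rw [hM]
    positivity
  obtain ⟨K, hK⟩ : ∃ K : ℝ, K = C * M := ⟨_, rfl⟩
  have hK0 : 0 < K := by
    rw [hK]
    positivity
  obtain ⟨Q, hQ⟩ : ∃ Q : ℝ, Q = 4 * (M + 3 * K ^ 3) := ⟨_, rfl⟩
  have hQ0 : 0 < Q := by
    rw [hQ]
    positivity
  obtain ⟨η, hη⟩ : ∃ η : ℝ, η = min (min (min 1 ε0) (min (1 / (2 * K + 1)) (ε / (K + 1))))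
    (min (ε / (Q + 1)) (δ1 / (M + 1))) := ⟨_, rfl⟩
  have hη0 : 0 < η := by
    rw [hη]
    refine lt_min (lt_min (lt_min one_pos hε0) (lt_min ?_ ?_)) (lt_min ?_ ?_) <;> positivity
  refine ⟨η ^ 6, by positivity, fun t ht htn => ?_⟩
  obtain ⟨σ, hσ⟩ := IsAlgClosed.exists_pow_nat_eq t (n := 6) (by norm_num)
  have hσ0 : σ ≠ 0 := by
    rintro rfl
    apply ht
    rw [← hσ]
    norm_num
  have hs : ‖σ‖ < η := by
    rw [← hσ, norm_pow] at htn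
    exact lt_of_pow_lt_pow_left₀ 6 hη0.le htn
  have hs0 : 0 ≤ ‖σ‖ := norm_nonneg σ
  have hsp : 0 < ‖σ‖ := norm_pos_iff.2 hσ0
  have c1 : ‖σ‖ < 1 := hs.trans_le (by rw [hη]; exact (min_le_left _ _).trans ((min_le_left _ _).trans (min_le_left _ _)))
  have c2 : ‖σ‖ < ε0 := hs.trans_le (by rw [hη]; exact (min_le_left _ _).trans ((min_le_left _ _).trans (min_le_right _ _)))
  have c3 : 2 * K * ‖σ‖ < 1 := lt42 (by positivity) hs0 (hs.trans_le (by rw [hη]; exact (min_le_left _ _).trans ((min_le_right _ _).trans (min_le_left _ _))))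
  have c4 : K * ‖σ‖ < ε := lt42 hK0.le hs0 (hs.trans_le (by rw [hη]; exact (min_le_left _ _).trans ((min_le_right _ _).trans (min_le_right _ _))))
  have c5 : Q * ‖σ‖ < ε := lt42 hQ0.le hs0 (hs.trans_le (by rw [hη]; exact (min_le_right _ _).trans (min_le_left _ _)))
  have c6 : M * ‖σ‖ < δ1 := lt42 hM0.le hs0 (hs.trans_le (by rw [hη]; exact (min_le_right _ _).trans (min_le_right _ _)))
  have hpow : ∀ n : ℕ, 1 ≤ n → ‖σ‖ ^ n ≤ ‖σ‖ := fun n hn => by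
    calc ‖σ‖ ^ n ≤ ‖σ‖ ^ 1 := pow_le_pow_of_le_one hs0 c1.le hn
      _ = ‖σ‖ := pow_one _
  have htn' : ‖t‖ < ε0 := by
    rw [← hσ, norm_pow]
    exact (hpow 6 (by norm_num)).trans_lt c2
  obtain ⟨x, hx, hx'⟩ := horb t ht htn'
  -- the diagonal matrices
  obtain ⟨d, hd⟩ : ∃ d : Fin 4 → ℂ, d = ![σ, 1, 1, (σ ^ 2)⁻¹] := ⟨_, rfl⟩
  have d0 : d 0 = σ := by rw [hd]; rfl
  have d1 : d 1 = 1 := by rw [hd]; rfl
  have d2 : d 2 = 1 := by rw [hd]; rfl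
  have d3 : d 3 = (σ ^ 2)⁻¹ := by rw [hd]; rfl
  have hσ2 : σ ^ 2 ≠ 0 := pow_ne_zero 2 hσ0
  have hdn : ∀ i, d i ≠ 0 := by
    intro i
    fin_cases i
    · exact d0 ▸ hσ0
    · exact d1 ▸ one_ne_zero
    · exact d2 ▸ one_ne_zero
    · exact d3 ▸ inv_ne_zero hσ2
  have hde : ∀ i, σ ^ 2 * d i = σ ^ ee42 i := by
    intro i
    fin_cases i
    · show σ ^ 2 * d 0 = σ ^ 3
      rw [d0]
      ring
    · show σ ^ 2 * d 1 = σ ^ 2
      rw [d1, mul_one]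
    · show σ ^ 2 * d 2 = σ ^ 2
      rw [d2, mul_one]
    · show σ ^ 2 * d 3 = σ ^ 0
      rw [d3, mul_inv_cancel₀ hσ2, pow_zero]
  have q1 : d 0 * d 0 * d 3 = 1 := by
    rw [d0, d3]
    field_simp
  have q2 : d 1 * d 1 * d 1 = 1 := by rw [d1]; ring
  have q3 : d 2 * d 2 * d 2 = 1 := by rw [d2]; ring
  have q4 : t * (d 3 * d 3 * d 3) = 1 := by
    rw [d3, ← hσ]
    field_simp
  obtain ⟨Dm, hDm⟩ : ∃ Dm : M4, Dm = Matrix.diagonal d := ⟨_, rfl⟩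
  obtain ⟨Di, hDi⟩ : ∃ Di : M4, Di = Matrix.diagonal (fun i => (d i)⁻¹) := ⟨_, rfl⟩
  have hDD : Dm * Di = 1 := by
    rw [hDm, hDi, Matrix.diagonal_mul_diagonal]
    have h1 : (fun i => d i * (d i)⁻¹) = fun _ => (1 : ℂ) := funext fun i => mul_inv_cancel₀ (hdn i)
    rw [h1, Matrix.diagonal_one]
  have hG : act (G4 t) Dm = G4 1 := by
    rw [hDm, act_G42 t d q1 q2 q3, q4]
  have hG0 : act (G4 0) Dm = G4 0 := by
    rw [hDm, act_G42 0 d q1 q2 q3, zero_mul]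
  obtain ⟨Gs, hGs⟩ : ∃ Gs : T3, Gs = act (G4 0 + t • p.T) Dm := ⟨_, rfl⟩
  have hent : ∀ i j k, (Gs - G4 1) i j k =
      p.T i j k * σ ^ (ee42 i + ee42 j + ee42 k) - mon3 3 3 3 i j k := by
    intro i j k
    have h1 : Gs = G4 0 + t • act p.T Dm := by
      rw [hGs, act_add, act_smul, hG0]
    have h2 : Gs i j k = G4 0 i j k + t * (p.T i j k * d i * d j * d k) := by
      rw [h1, hDm]
      show G4 0 i j k + t * act p.T (Matrix.diagonal d) i j k = _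
      rw [act_diagonal]
    have h3 : G4 1 i j k = G4 0 i j k + mon3 3 3 3 i j k := by
      unfold G4
      rw [zero_smul, add_zero, one_smul]
      rfl
    show Gs i j k - G4 1 i j k = _
    rw [h2, h3, pow_add, pow_add, ← hde i, ← hde j, ← hde k, ← hσ]
    ring
  have hnorm : ‖Gs - G4 1‖ ≤ M * ‖σ‖ ^ 3 := by
    have hR : 0 ≤ M * ‖σ‖ ^ 3 := by positivity
    refine (pi_norm_le_iff_of_nonneg hR).2 fun i => (pi_norm_le_iff_of_nonneg hR).2 fun j =>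
      (pi_norm_le_iff_of_nonneg hR).2 fun k => ?_
    rw [hent, hM]
    exact entry42 p c1.le i j k
  -- the orbit
  have hyu : IsUnit y.det := isUnit_iff_ne_zero.2 hy
  have hor : ∃ g : M4, g.det ≠ 0 ∧ Gs = act (G4 1) g := by
    refine ⟨y⁻¹ * (x * Dm), ?_, ?_⟩
    · rw [Matrix.det_mul, Matrix.det_mul]
      refine mul_ne_zero ?_ (mul_ne_zero hx ?_)
      · rw [Matrix.det_nonsing_inv]
        exact (isUnit_iff_ne_zero.1 (hyu.ringInverse))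
      · intro h0
        have h1 := congrArg Matrix.det hDD
        rw [Matrix.det_mul, h0, zero_mul, Matrix.det_one] at h1
        exact zero_ne_one h1
    · rw [hGs, hx', hy', act_act, act_act, ← Matrix.mul_assoc y, Matrix.mul_nonsing_inv y hyu,
        Matrix.one_mul]
  obtain ⟨h, hh, hh'⟩ := hlip Gs (hnorm.trans_lt (by
    refine lt_of_le_of_lt ?_ c6
    exact mul_le_mul_of_nonneg_left (hpow 3 (by norm_num)) hM0.le)) hor
  have hh2 : ∀ i j, ‖h i j - (1 : M4) i j‖ ≤ K * ‖σ‖ ^ 3 := by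
    intro i j
    refine (hh i j).trans ?_
    rw [hK, mul_assoc]
    exact mul_le_mul_of_nonneg_left hnorm hC.le
  obtain ⟨g, hg⟩ : ∃ g : M4, g = Dm * h * Di := ⟨_, rfl⟩
  have hact : G4 0 + t • p.T = act (G4 t) g := by
    have h1 : act Gs Di = G4 0 + t • p.T := by
      rw [hGs, act_act, hDD, act_one]
    rw [← h1, hh', ← hG, act_act, act_act, hg, Matrix.mul_assoc]
  -- entries of `g - 1`
  have hge : ∀ i j, g i j - (1 : M4) i j = d i * (h i j - (1 : M4) i j) * (d j)⁻¹ := by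
    intro i j
    have h1 : g i j = d i * h i j * (d j)⁻¹ := by
      rw [hg, hDm, hDi, Matrix.mul_diagonal, Matrix.diagonal_mul]
    rw [h1]
    by_cases hij : i = j
    · subst hij
      rw [Matrix.one_apply_eq, mul_sub, sub_mul, mul_one, mul_inv_cancel₀ (hdn i)]
    · rw [Matrix.one_apply_ne hij, sub_zero, sub_zero]
  have hgn : ∀ i j, ‖g i j - (1 : M4) i j‖ ≤ K * ‖σ‖ ^ (3 + ee42 i - ee42 j) := by
    intro i j
    have h1 : d i * (h i j - (1 : M4) i j) * (d j)⁻¹ =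
        σ ^ ee42 i * (h i j - (1 : M4) i j) * (σ ^ ee42 j)⁻¹ := by
      have h9 : σ ^ 2 * (σ ^ 2)⁻¹ = 1 := mul_inv_cancel₀ hσ2
      rw [← hde i, ← hde j, mul_inv]
      linear_combination (-(d i * (h i j - (1 : M4) i j) * (d j)⁻¹)) * h9
    rw [hge, h1, norm_mul, norm_mul, norm_inv, norm_pow, norm_pow]
    have h2 : ‖σ‖ ^ (3 + ee42 i - ee42 j) = ‖σ‖ ^ ee42 i * ‖σ‖ ^ 3 * (‖σ‖ ^ ee42 j)⁻¹ := by
      have h3 : ee42 j ≤ 3 + ee42 i := (ee42_le j).trans (Nat.le_add_right _ _)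
      rw [pow_sub₀ _ hsp.ne' h3, pow_add]
      ring
    rw [h2]
    have h4 : 0 ≤ ‖σ‖ ^ ee42 i := by positivity
    have h5 : 0 ≤ (‖σ‖ ^ ee42 j)⁻¹ := by positivity
    calc ‖σ‖ ^ ee42 i * ‖h i j - (1 : M4) i j‖ * (‖σ‖ ^ ee42 j)⁻¹
        ≤ ‖σ‖ ^ ee42 i * (K * ‖σ‖ ^ 3) * (‖σ‖ ^ ee42 j)⁻¹ :=
          mul_le_mul_of_nonneg_right (mul_le_mul_of_nonneg_left (hh2 i j) h4) h5
      _ = K * (‖σ‖ ^ ee42 i * ‖σ‖ ^ 3 * (‖σ‖ ^ ee42 j)⁻¹) := by ring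
  have hgs : ∀ i j, 1 ≤ 3 + ee42 i - ee42 j → ‖g i j - (1 : M4) i j‖ ≤ K * ‖σ‖ := fun i j hij =>
    (hgn i j).trans (mul_le_mul_of_nonneg_left (hpow _ hij) hK0.le)
  have g00 : ‖g 0 0 - 1‖ ≤ K * ‖σ‖ := by
    have := hgs 0 0 (by decide)
    rwa [Matrix.one_apply_eq] at this
  have g10 : ‖g 1 0‖ ≤ K * ‖σ‖ := by
    have := hgs 1 0 (by decide)
    rwa [Matrix.one_apply_ne (by decide), sub_zero] at this
  have g20 : ‖g 2 0‖ ≤ K * ‖σ‖ := by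
    have := hgs 2 0 (by decide)
    rwa [Matrix.one_apply_ne (by decide), sub_zero] at this
  have g30 : ‖g 3 0‖ ≤ K := by
    have h1 := hgn 3 0
    rw [Matrix.one_apply_ne (by decide), sub_zero] at h1
    have h2 : 3 + ee42 3 - ee42 0 = 0 := by decide
    rwa [h2, pow_zero, mul_one] at h1
  -- the entry `000`
  have hev : act (G4 t) g 0 0 0 = g 0 0 * g 0 0 * g 3 0 + g 1 0 * g 1 0 * g 1 0 +
      g 2 0 * g 2 0 * g 2 0 + t * (g 3 0 * g 3 0 * g 3 0) := by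
    have h1 : act (G4 t) g 0 0 0 = ev (G4 t) (fun a => g a 0) := rfl
    have h2 : ∀ (T T' : T3) (v : Fin 4 → ℂ), ev (T + T') v = ev T v + ev T' v := by
      intro T T' v
      simp only [ev, Pi.add_apply, add_mul, Finset.sum_add_distrib]
    have h3 : ∀ (c : ℂ) (T : T3) (v : Fin 4 → ℂ), ev (c • T) v = c * ev T v := by
      intro c T v
      simp only [ev, Pi.smul_apply, smul_eq_mul, Finset.mul_sum, mul_assoc]
    rw [h1]
    unfold G4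
    rw [h2, h2, h2, h3, ev_mon3, ev_mon3, ev_mon3, ev_mon3]
  have hlhs : (G4 0 + t • p.T) 0 0 0 = t * p.T 0 0 0 := by
    have h1 : G4 0 0 0 0 = 0 := by
      simp [G4, mon3]
    show G4 0 0 0 0 + t * p.T 0 0 0 = _
    rw [h1, zero_add]
  have heq : g 0 0 * g 0 0 * g 3 0 = t * p.T 0 0 0 - g 1 0 * g 1 0 * g 1 0 -
      g 2 0 * g 2 0 * g 2 0 - t * (g 3 0 * g 3 0 * g 3 0) := by
    rw [hact, hev] at hlhs
    linear_combination hlhs
  have hP0 : ‖p.T 0 0 0‖ ≤ M := by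
    rw [hM]
    exact ((norm_le_pi_norm (p.T 0 0) 0).trans ((norm_le_pi_norm (p.T 0) 0).trans
      (norm_le_pi_norm p.T 0))).trans (by linarith)
  have hge0 : 1 / 2 ≤ ‖g 0 0‖ := by
    have h1 : ‖(1 : ℂ)‖ ≤ ‖g 0 0‖ + ‖g 0 0 - 1‖ := by
      calc ‖(1 : ℂ)‖ = ‖g 0 0 - (g 0 0 - 1)‖ := by rw [sub_sub_cancel]
        _ ≤ _ := norm_sub_le _ _
    rw [norm_one] at h1
    linarith
  have htσ : ‖t‖ ≤ ‖σ‖ := by
    rw [← hσ, norm_pow]
    exact hpow 6 (by norm_num)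
  have h30 : ‖g 3 0‖ ≤ Q * ‖σ‖ := by
    have e1 : ‖g 0 0 * g 0 0 * g 3 0‖ ≤ ‖t‖ * ‖p.T 0 0 0‖ + ‖g 1 0‖ ^ 3 + ‖g 2 0‖ ^ 3 +
        ‖t‖ * ‖g 3 0‖ ^ 3 := by
      rw [heq]
      refine (norm_sub_le _ _).trans (add_le_add ((norm_sub_le _ _).trans (add_le_add
        ((norm_sub_le _ _).trans (add_le_add ?_ ?_)) ?_)) ?_)
      · rw [norm_mul]
      · rw [norm_mul, norm_mul]
        exact le_of_eq (by ring)
      · rw [norm_mul, norm_mul]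
        exact le_of_eq (by ring)
      · rw [norm_mul, norm_mul, norm_mul]
        exact le_of_eq (by ring)
    have e2 : ‖t‖ * ‖p.T 0 0 0‖ ≤ ‖σ‖ * M :=
      mul_le_mul htσ hP0 (norm_nonneg _) hs0
    have e3 : ‖g 1 0‖ ^ 3 ≤ K ^ 3 * ‖σ‖ := by
      calc ‖g 1 0‖ ^ 3 ≤ (K * ‖σ‖) ^ 3 := pow_le_pow_left₀ (norm_nonneg _) g10 3
        _ = K ^ 3 * ‖σ‖ ^ 3 := by ring
        _ ≤ K ^ 3 * ‖σ‖ := mul_le_mul_of_nonneg_left (hpow 3 (by norm_num)) (by positivity)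
    have e4 : ‖g 2 0‖ ^ 3 ≤ K ^ 3 * ‖σ‖ := by
      calc ‖g 2 0‖ ^ 3 ≤ (K * ‖σ‖) ^ 3 := pow_le_pow_left₀ (norm_nonneg _) g20 3
        _ = K ^ 3 * ‖σ‖ ^ 3 := by ring
        _ ≤ K ^ 3 * ‖σ‖ := mul_le_mul_of_nonneg_left (hpow 3 (by norm_num)) (by positivity)
    have e5 : ‖t‖ * ‖g 3 0‖ ^ 3 ≤ ‖σ‖ * K ^ 3 :=
      mul_le_mul htσ (pow_le_pow_left₀ (norm_nonneg _) g30 3) (by positivity) hs0
    have e6 : (1 / 4) * ‖g 3 0‖ ≤ ‖g 0 0 * g 0 0 * g 3 0‖ := by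
      rw [norm_mul, norm_mul]
      refine mul_le_mul_of_nonneg_right ?_ (norm_nonneg _)
      nlinarith
    rw [hQ]
    linarith
  refine ⟨g, fun i j => ?_, hact⟩
  rcases dec42' i j with h1 | h1 | ⟨rfl, rfl⟩
  · exact (hgs i j (le_trans (by norm_num) h1)).trans_lt c4
  · exact (hgs i j h1).trans_lt c4
  · rw [Matrix.one_apply_ne (by decide), sub_zero]
    exact h30.trans_lt c5

end Pool.Agent.ISB
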