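import Pool.Agent.ISB.Cons1

/-!
# ISB / Cons2: some constraints of order 2 at a `D4` member

Let `X0`, `X1`, `X2` be as in `Jt p.T`; `X0` is given by `X0_eq` and
`X0 0 0 = A / 2 + e² / 24` (entry `333` of `lie p.T X0 = 0`: `e²/4 + 3 A - 6 X0 0 0 = 0`; not needed
below).  With `M = lie p.T X0` one has `X1 = - (solution)`: `lie_G4` gives
`X1 3 1 = -3 M 0 0 1`, `X1 3 2 = -3 M 0 0 2`, `X1 0 1 = -3 M 0 1 3`, `X1 0 2 = -3 M 0 2 3`,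
`X1 0 3 = -(3/2) M 0 3 3`, `X1 1 3 = - M 1 1 3`, `X1 2 3 = - M 2 2 3`, `X1 1 2 = - M 1 1 2`,
`X1 2 1 = - M 1 2 2`.  The entries `133`, `233`, `123` of `lie p.T X1 = - lie (G4 0) X2` vanish:

`133`: `(e/3) X1 0 1 + X1 3 1 + (B1/3) X1 0 3 + (2 D1/3) X1 1 3 = 0`;
`233`: `(e/3) X1 0 2 + X1 3 2 + (B2/3) X1 0 3 + (2 D2/3) X1 2 3 = 0`;
`123`: `(B1/6) X1 0 2 + (B2/6) X1 0 1 + (D1/3) X1 1 2 + (D2/3) X1 2 1 + (r1/3) X1 1 3 + (r2/3) X1 2 3 = 0`.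

`cons_y` (`B1 = D1 = B2 = 0`, so `s1 = 0`, `s2 = - D2² / 9`): `133` is
`(7/9) r11² - (1/27) D2² r2 = 0`, and `D2 r2 = 0` by `cons1`.
`cons_z` (`B2 = D2 = 0`, so `s2 = 0`, `s1 = - D1²/9 - e B1/6`): `233` is
`(7/9) r22² - (1/27) D1² r1 = 0`, and `D1 r1 = 0` by `cons1`.
`cons_a` (`B1 = B2 = r1 = r2 = 0`): `123` is `-(8/243) D1² D2² = 0`.
`cons_b` (`B2 = D1 = r2 = 0`): `123` is `-(35/648) e B1 D2² + (1/36) e r1 r11 + (2/27) B1² r1 +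
(4/27) B1 D2 r22 + (8/81) D2 r1² = 0` (up to sign); by `cons1` `r1 r11 = B1 D2² / 6` and by
hypothesis `3 B1² = - 4 r1 D2`; this gives `(4/27) B1 D2 (r22 - e D2 / 3) = 0`.
(All checked by computer algebra.)
-/

set_option autoImplicit false

noncomputable section

namespace Pool.Agent.ISB

open Matrix Pool.Agent.ISO

private theorem c2_lie (p : Par) (X : M4) :
    lie p.T X 0 0 1 =
      (1/3) * p.A * X 3 1 + (1/3) * p.B1 * X 3 0 + (2/3) * p.r11 * X 1 0 + (2/3) * p.s1 * X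
      0 0 + (1/3) * p.s1 * X 1 1 + (1/3) * p.s2 * X 2 1 + p.s3 * X 0 1 ∧
    lie p.T X 0 0 2 =
      (1/3) * p.A * X 3 2 + (1/3) * p.B2 * X 3 0 + (2/3) * p.r22 * X 2 0 + (1/3) * p.s1 * X
      1 2 + (2/3) * p.s2 * X 0 0 + (1/3) * p.s2 * X 2 2 + p.s3 * X 0 2 ∧
    lie p.T X 0 1 3 =
      (1/3) * p.A * X 0 1 + (1/6) * p.B1 * X 0 0 + (1/6) * p.B1 * X 1 1 + (1/6) * p.B1 * X 3
      3 + (1/6) * p.B2 * X 2 1 + (1/3) * p.D1 * X 1 0 + (1/3) * p.e * X 3 1 + (1/3) * p.r11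
      * X 1 3 + (1/3) * p.s1 * X 0 3 ∧
    lie p.T X 0 2 3 =
      (1/3) * p.A * X 0 2 + (1/6) * p.B1 * X 1 2 + (1/6) * p.B2 * X 0 0 + (1/6) * p.B2 * X 2
      2 + (1/6) * p.B2 * X 3 3 + (1/3) * p.D2 * X 2 0 + (1/3) * p.e * X 3 2 + (1/3) * p.r22
      * X 2 3 + (1/3) * p.s2 * X 0 3 ∧
    lie p.T X 0 3 3 =
      (2/3) * p.A * X 0 3 + (1/3) * p.B1 * X 1 3 + (1/3) * p.B2 * X 2 3 + (1/3) * p.e * X 0
      0 + (2/3) * p.e * X 3 3 + X 3 0 ∧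
    lie p.T X 1 1 3 =
      (1/3) * p.B1 * X 0 1 + (2/3) * p.D1 * X 1 1 + (1/3) * p.D1 * X 3 3 + p.r0 * X 1 3 +
      (1/3) * p.r1 * X 2 3 + (1/3) * p.r11 * X 0 3 ∧
    lie p.T X 2 2 3 =
      (1/3) * p.B2 * X 0 2 + (2/3) * p.D2 * X 2 2 + (1/3) * p.D2 * X 3 3 + (1/3) * p.r2 * X
      1 3 + (1/3) * p.r22 * X 0 3 + p.r3 * X 2 3 ∧
    lie p.T X 1 1 2 =
      (1/3) * p.D1 * X 3 2 + p.r0 * X 1 2 + (2/3) * p.r1 * X 1 1 + (1/3) * p.r1 * X 2 2 +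
      (1/3) * p.r11 * X 0 2 + (2/3) * p.r2 * X 2 1 ∧
    lie p.T X 1 2 2 =
      (1/3) * p.D2 * X 3 1 + (2/3) * p.r1 * X 1 2 + (1/3) * p.r2 * X 1 1 + (2/3) * p.r2 * X
      2 2 + (1/3) * p.r22 * X 0 1 + p.r3 * X 2 1 ∧
    lie p.T X 1 3 3 =
      (1/3) * p.B1 * X 0 3 + (2/3) * p.D1 * X 1 3 + (1/3) * p.e * X 0 1 + X 3 1 ∧
    lie p.T X 2 3 3 =
      (1/3) * p.B2 * X 0 3 + (2/3) * p.D2 * X 2 3 + (1/3) * p.e * X 0 2 + X 3 2 ∧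
    lie p.T X 1 2 3 =
      (1/6) * p.B1 * X 0 2 + (1/6) * p.B2 * X 0 1 + (1/3) * p.D1 * X 1 2 + (1/3) * p.D2 * X
      2 1 + (1/3) * p.r1 * X 1 3 + (1/3) * p.r2 * X 2 3 := by
  obtain ⟨hs, h333, h033, h003, h013, h023, h113, h223, h111, h112, h122, h222, h011, h022, h001, h002, h000, h133, h233, h123, h012⟩ := parT p
  have t010 : p.T 0 1 0 = p.s1 / 3 := by rw [(hs 0 1 0).2, h001]
  have t020 : p.T 0 2 0 = p.s2 / 3 := by rw [(hs 0 2 0).2, h002]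
  have t021 : p.T 0 2 1 = 0 := by rw [(hs 0 2 1).2, h012]
  have t030 : p.T 0 3 0 = p.A / 3 := by rw [(hs 0 3 0).2, h003]
  have t031 : p.T 0 3 1 = p.B1 / 6 := by rw [(hs 0 3 1).2, h013]
  have t032 : p.T 0 3 2 = p.B2 / 6 := by rw [(hs 0 3 2).2, h023]
  have t101 : p.T 1 0 1 = p.r11 / 3 := by rw [(hs 1 0 1).1, h011]
  have t102 : p.T 1 0 2 = 0 := by rw [(hs 1 0 2).1, h012]
  have t103 : p.T 1 0 3 = p.B1 / 6 := by rw [(hs 1 0 3).1, h013]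
  have t110 : p.T 1 1 0 = p.r11 / 3 := by rw [(hs 1 1 0).2, (hs 1 0 1).1, h011]
  have t120 : p.T 1 2 0 = 0 := by rw [(hs 1 2 0).2, (hs 1 0 2).1, h012]
  have t121 : p.T 1 2 1 = p.r1 / 3 := by rw [(hs 1 2 1).2, h112]
  have t130 : p.T 1 3 0 = p.B1 / 6 := by rw [(hs 1 3 0).2, (hs 1 0 3).1, h013]
  have t131 : p.T 1 3 1 = p.D1 / 3 := by rw [(hs 1 3 1).2, h113]
  have t132 : p.T 1 3 2 = 0 := by rw [(hs 1 3 2).2, h123]
  have t201 : p.T 2 0 1 = 0 := by rw [(hs 2 0 1).1, (hs 0 2 1).2, h012]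
  have t202 : p.T 2 0 2 = p.r22 / 3 := by rw [(hs 2 0 2).1, h022]
  have t203 : p.T 2 0 3 = p.B2 / 6 := by rw [(hs 2 0 3).1, h023]
  have t212 : p.T 2 1 2 = p.r2 / 3 := by rw [(hs 2 1 2).1, h122]
  have t213 : p.T 2 1 3 = 0 := by rw [(hs 2 1 3).1, h123]
  have t220 : p.T 2 2 0 = p.r22 / 3 := by rw [(hs 2 2 0).2, (hs 2 0 2).1, h022]
  have t221 : p.T 2 2 1 = p.r2 / 3 := by rw [(hs 2 2 1).2, (hs 2 1 2).1, h122]
  have t230 : p.T 2 3 0 = p.B2 / 6 := by rw [(hs 2 3 0).2, (hs 2 0 3).1, h023]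
  have t231 : p.T 2 3 1 = 0 := by rw [(hs 2 3 1).2, (hs 2 1 3).1, h123]
  have t232 : p.T 2 3 2 = p.D2 / 3 := by rw [(hs 2 3 2).2, h223]
  have t301 : p.T 3 0 1 = p.B1 / 6 := by rw [(hs 3 0 1).1, (hs 0 3 1).2, h013]
  have t302 : p.T 3 0 2 = p.B2 / 6 := by rw [(hs 3 0 2).1, (hs 0 3 2).2, h023]
  have t312 : p.T 3 1 2 = 0 := by rw [(hs 3 1 2).1, (hs 1 3 2).2, h123]
  have t313 : p.T 3 1 3 = 0 := by rw [(hs 3 1 3).1, h133]
  have t322 : p.T 3 2 2 = p.D2 / 3 := by rw [(hs 3 2 2).1, (hs 2 3 2).2, h223]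
  have t323 : p.T 3 2 3 = 0 := by rw [(hs 3 2 3).1, h233]
  refine ⟨?_, ?_, ?_, ?_, ?_, ?_, ?_, ?_, ?_, ?_, ?_, ?_⟩ <;>
    simp only [lie, Fin.sum_univ_four, h000, h001, h002, h003, t010, h011, h012, h013, t020,
      t021, h022, h023, t030, t031, t032, h033, t101, t102, t103, t110, h111, h112, h113, t120,
      t121, h122, h123, t130, t131, t132, h133, t201, t202, t203, t212, t213, t220, t221, h222,
      h223, t230, t231, t232, h233, t301, t302, t312, t313, t322, t323, h333] <;> ring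

private theorem c2_core (p : Par) (h : Jt p.T) : ∃ a : ℂ,
    (-13/18) * p.A * p.B1 * p.e + (-2/9) * p.A * p.D1 ^ 2 + (-4/3) * p.A * p.s1 + (-1/27) *
    p.B1 * p.B2 * p.D2 + (2/3) * p.B1 * a * p.e + (-1/18) * p.B1 * p.e * p.r0 + (-7/2) *
    p.B1 * p.s3 + (-7/54) * p.B1 ^ 2 * p.D1 + (-1/18) * p.B2 * p.e * p.r2 + (-4/81) * p.D1 *
    p.D2 * p.r1 + (-7/27) * p.D1 * p.e * p.r11 + (4/9) * p.D1 ^ 2 * a + (-8/27) * p.D1 ^ 2 *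
    p.r0 + (-2) * a * p.s1 + (-19/36) * p.e ^ 2 * p.s1 + (-1/3) * p.r0 * p.s1 + (-7/9) *
    p.r11 ^ 2 + (-1/3) * p.r2 * p.s2 = 0 ∧
    (-13/18) * p.A * p.B2 * p.e + (-2/9) * p.A * p.D2 ^ 2 + (-4/3) * p.A * p.s2 + (-1/27) *
    p.B1 * p.B2 * p.D1 + (-1/18) * p.B1 * p.e * p.r1 + (2/3) * p.B2 * a * p.e + (-1/18) *
    p.B2 * p.e * p.r3 + (-7/2) * p.B2 * p.s3 + (-7/54) * p.B2 ^ 2 * p.D2 + (-4/81) * p.D1 *
    p.D2 * p.r2 + (-7/27) * p.D2 * p.e * p.r22 + (4/9) * p.D2 ^ 2 * a + (-8/27) * p.D2 ^ 2 *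
    p.r3 + (-2) * a * p.s2 + (-19/36) * p.e ^ 2 * p.s2 + (-1/3) * p.r1 * p.s1 + (-7/9) *
    p.r22 ^ 2 + (-1/3) * p.r3 * p.s2 = 0 ∧
    (-11/36) * p.A * p.B1 * p.B2 + (-1/9) * p.A * p.D1 * p.r1 + (-1/9) * p.A * p.D2 * p.r2 +
    (1/6) * p.B1 * p.B2 * a + (-1/36) * p.B1 * p.B2 * p.r0 + (-1/36) * p.B1 * p.B2 * p.r3 +
    (-4/27) * p.B1 * p.D2 * p.r22 + (-19/72) * p.B1 * p.e * p.s2 + (-2/27) * p.B1 ^ 2 * p.r1
    + (-4/27) * p.B2 * p.D1 * p.r11 + (-19/72) * p.B2 * p.e * p.s1 + (-2/27) * p.B2 ^ 2 *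
    p.r2 + (2/9) * p.D1 * a * p.r1 + (-1/3) * p.D1 * p.r0 * p.r1 + (-1/27) * p.D1 * p.r1 *
    p.r3 + (-8/81) * p.D1 * p.r2 ^ 2 + (-4/27) * p.D1 ^ 2 * p.s2 + (2/9) * p.D2 * a * p.r2 +
    (-1/27) * p.D2 * p.r0 * p.r2 + (-8/81) * p.D2 * p.r1 ^ 2 + (-1/3) * p.D2 * p.r2 * p.r3 +
    (-4/27) * p.D2 ^ 2 * p.s1 + (-1/36) * p.e * p.r1 * p.r11 + (-1/36) * p.e * p.r2 * p.r22 = 0 := by
  obtain ⟨X0, X1, X2, h0, h1, h2⟩ := h
  have hX := X0_eq p X0 h0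
  have x01 : X0 0 1 = 5 / 12 * p.B1 := congrFun (congrFun hX 0) 1
  have x02 : X0 0 2 = 5 / 12 * p.B2 := congrFun (congrFun hX 0) 2
  have x03 : X0 0 3 = 1 / 4 * p.e := congrFun (congrFun hX 0) 3
  have x10 : X0 1 0 = 7 / 18 * p.r11 := congrFun (congrFun hX 1) 0
  have x11 : X0 1 1 = 1 / 3 * p.r0 := congrFun (congrFun hX 1) 1
  have x12 : X0 1 2 = 1 / 3 * p.r1 := congrFun (congrFun hX 1) 2
  have x13 : X0 1 3 = 2 / 9 * p.D1 := congrFun (congrFun hX 1) 3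
  have x20 : X0 2 0 = 7 / 18 * p.r22 := congrFun (congrFun hX 2) 0
  have x21 : X0 2 1 = 1 / 3 * p.r2 := congrFun (congrFun hX 2) 1
  have x22 : X0 2 2 = 1 / 3 * p.r3 := congrFun (congrFun hX 2) 2
  have x23 : X0 2 3 = 2 / 9 * p.D2 := congrFun (congrFun hX 2) 3
  have x30 : X0 3 0 = 3 / 2 * p.s3 := congrFun (congrFun hX 3) 0
  have x31 : X0 3 1 = 4 / 3 * p.s1 := congrFun (congrFun hX 3) 1
  have x32 : X0 3 2 = 4 / 3 * p.s2 := congrFun (congrFun hX 3) 2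
  have x33 : X0 3 3 = p.A - 2 * X0 0 0 := congrFun (congrFun hX 3) 3
  clear hX h0
  obtain ⟨m001, m002, m013, m023, m033, m113, m223, m112, m122, m133, m233, m123⟩ := c2_lie p X0
  obtain ⟨n001, n002, n013, n023, n033, n113, n223, n112, n122, n133, n233, n123⟩ := c2_lie p X1
  obtain ⟨-, -, -, -, -, -, g001, g002, -, g013, g023, g033, -, -, -, g112, g113, -, g122, g223⟩ := lie_G4 X1
  obtain ⟨-, f133, f233, f123, -, -, -, -, -, -, -, -, -, -, -, -, -, -, -, -⟩ := lie_G4 X2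
  have k001 : lie (G4 0) X1 0 0 1 + lie p.T X0 0 0 1 = 0 :=
    congrFun (congrFun (congrFun h1 0) 0) 1
  rw [g001, m001] at k001
  simp only [x01, x10, x11, x21, x30, x31] at k001
  have y31 : X1 3 1 =
      (-4/3) * p.A * p.s1 + (-11/4) * p.B1 * p.s3 + (-2) * X0 0 0 * p.s1 + (-1/3) * p.r0 *
      p.s1 + (-7/9) * p.r11 ^ 2 + (-1/3) * p.r2 * p.s2 := by
    linear_combination 3 * k001
  have k002 : lie (G4 0) X1 0 0 2 + lie p.T X0 0 0 2 = 0 :=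
    congrFun (congrFun (congrFun h1 0) 0) 2
  rw [g002, m002] at k002
  simp only [x02, x12, x20, x22, x30, x32] at k002
  have y32 : X1 3 2 =
      (-4/3) * p.A * p.s2 + (-11/4) * p.B2 * p.s3 + (-2) * X0 0 0 * p.s2 + (-1/3) * p.r1 *
      p.s1 + (-7/9) * p.r22 ^ 2 + (-1/3) * p.r3 * p.s2 := by
    linear_combination 3 * k002
  have k013 : lie (G4 0) X1 0 1 3 + lie p.T X0 0 1 3 = 0 :=
    congrFun (congrFun (congrFun h1 0) 1) 3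
  rw [g013, m013] at k013
  simp only [x01, x03, x10, x11, x13, x21, x31, x33] at k013
  have y01 : X1 0 1 =
      (-11/12) * p.A * p.B1 + (1/2) * p.B1 * X0 0 0 + (-1/6) * p.B1 * p.r0 + (-1/6) * p.B2 *
      p.r2 + (-11/18) * p.D1 * p.r11 + (-19/12) * p.e * p.s1 := by
    linear_combination 3 * k013
  have k023 : lie (G4 0) X1 0 2 3 + lie p.T X0 0 2 3 = 0 :=
    congrFun (congrFun (congrFun h1 0) 2) 3
  rw [g023, m023] at k023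
  simp only [x02, x03, x12, x20, x22, x23, x32, x33] at k023
  have y02 : X1 0 2 =
      (-11/12) * p.A * p.B2 + (-1/6) * p.B1 * p.r1 + (1/2) * p.B2 * X0 0 0 + (-1/6) * p.B2 *
      p.r3 + (-11/18) * p.D2 * p.r22 + (-19/12) * p.e * p.s2 := by
    linear_combination 3 * k023
  have k033 : lie (G4 0) X1 0 3 3 + lie p.T X0 0 3 3 = 0 :=
    congrFun (congrFun (congrFun h1 0) 3) 3
  rw [g033, m033] at k033
  simp only [x03, x13, x23, x30, x33] at k033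
  have y03 : X1 0 3 =
      (-5/4) * p.A * p.e + (-1/9) * p.B1 * p.D1 + (-1/9) * p.B2 * p.D2 + (3/2) * X0 0 0 *
      p.e + (-9/4) * p.s3 := by
    linear_combination (3 / 2) * k033
  have k113 : lie (G4 0) X1 1 1 3 + lie p.T X0 1 1 3 = 0 :=
    congrFun (congrFun (congrFun h1 1) 1) 3
  rw [g113, m113] at k113
  simp only [x01, x03, x11, x13, x23, x33] at k113
  have y13 : X1 1 3 =
      (-1/3) * p.A * p.D1 + (-5/36) * p.B1 ^ 2 + (2/3) * p.D1 * X0 0 0 + (-4/9) * p.D1 *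
      p.r0 + (-2/27) * p.D2 * p.r1 + (-1/12) * p.e * p.r11 := by
    linear_combination 1 * k113
  have k223 : lie (G4 0) X1 2 2 3 + lie p.T X0 2 2 3 = 0 :=
    congrFun (congrFun (congrFun h1 2) 2) 3
  rw [g223, m223] at k223
  simp only [x02, x03, x13, x22, x23, x33] at k223
  have y23 : X1 2 3 =
      (-1/3) * p.A * p.D2 + (-5/36) * p.B2 ^ 2 + (-2/27) * p.D1 * p.r2 + (2/3) * p.D2 * X0 0
      0 + (-4/9) * p.D2 * p.r3 + (-1/12) * p.e * p.r22 := by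
    linear_combination 1 * k223
  have k112 : lie (G4 0) X1 1 1 2 + lie p.T X0 1 1 2 = 0 :=
    congrFun (congrFun (congrFun h1 1) 1) 2
  rw [g112, m112] at k112
  simp only [x02, x11, x12, x21, x22, x32] at k112
  have y12 : X1 1 2 =
      (-5/36) * p.B2 * p.r11 + (-4/9) * p.D1 * p.s2 + (-5/9) * p.r0 * p.r1 + (-1/9) * p.r1 *
      p.r3 + (-2/9) * p.r2 ^ 2 := by
    linear_combination 1 * k112
  have k122 : lie (G4 0) X1 1 2 2 + lie p.T X0 1 2 2 = 0 :=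
    congrFun (congrFun (congrFun h1 1) 2) 2
  rw [g122, m122] at k122
  simp only [x01, x11, x12, x21, x22, x31] at k122
  have y21 : X1 2 1 =
      (-5/36) * p.B1 * p.r22 + (-4/9) * p.D2 * p.s1 + (-1/9) * p.r0 * p.r2 + (-2/9) * p.r1 ^
      2 + (-5/9) * p.r2 * p.r3 := by
    linear_combination 1 * k122
  refine ⟨X0 0 0, ?_, ?_, ?_⟩
  · have k : lie (G4 0) X2 1 3 3 + lie p.T X1 1 3 3 = 0 :=
      congrFun (congrFun (congrFun h2 1) 3) 3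
    rw [f133, n133, zero_add] at k
    simp only [y01, y03, y13, y31] at k
    linear_combination k
  · have k : lie (G4 0) X2 2 3 3 + lie p.T X1 2 3 3 = 0 :=
      congrFun (congrFun (congrFun h2 2) 3) 3
    rw [f233, n233, zero_add] at k
    simp only [y02, y03, y23, y32] at k
    linear_combination k
  · have k : lie (G4 0) X2 1 2 3 + lie p.T X1 1 2 3 = 0 :=
      congrFun (congrFun (congrFun h2 1) 2) 3
    rw [f123, n123, zero_add] at k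
    simp only [y01, y02, y12, y13, y21, y23] at k
    linear_combination k

theorem cons_y (p : Par) (h : Jt p.T) (hB1 : p.B1 = 0) (hD1 : p.D1 = 0) (hB2 : p.B2 = 0) :
    p.r11 = 0 := by
  obtain ⟨a, h1, -, -⟩ := c2_core p h
  obtain ⟨hs1, hs2, hc, -⟩ := cons1 p h
  rw [hB1, hD1] at hs1
  rw [hB2] at hs2
  rw [hB1, hD1] at hc
  simp only [hs1, hs2, hB1, hD1, hB2] at h1
  have h3 : p.r11 ^ 2 = 0 := by
    linear_combination (-(9 / 7 : ℂ)) * h1 + (1 / 84 : ℂ) * p.D2 * hc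
  exact pow_eq_zero_iff (two_ne_zero) |>.mp h3

theorem cons_z (p : Par) (h : Jt p.T) (hB2 : p.B2 = 0) (hD2 : p.D2 = 0) : p.r22 = 0 := by
  obtain ⟨a, -, h1, -⟩ := c2_core p h
  obtain ⟨hs1, hs2, hc, -⟩ := cons1 p h
  rw [hB2, hD2] at hs2
  rw [hB2, hD2] at hc
  simp only [hs1, hs2, hD2, hB2] at h1
  have h3 : p.r22 ^ 2 = 0 := by
    linear_combination (-(9 / 7 : ℂ)) * h1 + (1 / 84 : ℂ) * p.D1 * hc
  exact pow_eq_zero_iff (two_ne_zero) |>.mp h3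

theorem cons_a (p : Par) (h : Jt p.T) (hB1 : p.B1 = 0) (hB2 : p.B2 = 0) (hr1 : p.r1 = 0)
    (hr2 : p.r2 = 0) : p.D1 * p.D2 = 0 := by
  obtain ⟨a, -, -, h1⟩ := c2_core p h
  obtain ⟨hs1, hs2, -, -⟩ := cons1 p h
  simp only [hs1, hs2, hB1, hB2, hr1, hr2] at h1
  have h3 : (p.D1 * p.D2) ^ 2 = 0 := by
    linear_combination (243 / 8 : ℂ) * h1
  exact pow_eq_zero_iff (two_ne_zero) |>.mp h3

theorem cons_b (p : Par) (h : Jt p.T) (hB2 : p.B2 = 0) (hD1 : p.D1 = 0) (hr2 : p.r2 = 0)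
    (hc : 3 * p.B1 ^ 2 + 4 * p.r1 * p.D2 = 0) (hB1 : p.B1 ≠ 0) (hD2 : p.D2 ≠ 0) :
    3 * p.r22 = p.e * p.D2 := by
  obtain ⟨a, -, -, h1⟩ := c2_core p h
  obtain ⟨hs1, hs2, -, h4⟩ := cons1 p h
  rw [hs1, hs2] at h1
  simp only [hs1, hs2, hB2, hD1, hr2] at h1 h4
  have h3 : p.B1 * p.D2 * (3 * p.r22 - p.e * p.D2) = 0 := by
    linear_combination (-(81 / 4 : ℂ)) * h1 - (1 / 2 : ℂ) * p.r1 * hc - (9 / 32 : ℂ) * p.e * h4
  have h5 : 3 * p.r22 - p.e * p.D2 = 0 :=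
    (mul_eq_zero.mp h3).resolve_left (mul_ne_zero hB1 hD2)
  linear_combination h5

end Pool.Agent.ISB
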