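import Pool.Agent.ISB.DsC

/-!
# ISB / DsD: the second pencil

PROOF of `frame`.  Let `v = f.tri e e e ≠ 0`; choose `κ` with `κ³ = -a / v` (`IsAlgClosed.exists_pow_nat_eq`), `κ ≠ 0`
because `a ≠ 0`; `p = (κ e.1, κ e.2)`, so `f.tri p p p = κ³ v = -a` and `g.tri p p p = 0`.  Put
`L = f.tri p p (1, 0)`, `M = f.tri p p (0, 1)`, `q = (-M, L)`: `f.tri p p q = 0` and `det2 p q = p.1 L + p.2 M =
f.tri p p p = -a ≠ 0`.  For the symmetric bilinear form `f.tri p · ·`: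
`f.tri p p p * f.tri p q q - (f.tri p p q)² = (det2 p q)² * f.hes p` (`ring`), so with `c = f.tri p q q`:
`-a c = a² f.hes p`, `c = - a κ² f.hes e ≠ 0` (`f.hes p = κ² f.hes e`).  `f.sub p q = ⟨-a, 0, c, f.tri q q q⟩`, and
`(g.sub p q).a = g.tri p p p = 0`.

PROOF of `two_roots`.  `root`: a binary cubic has a root `e ≠ 0` (`a = 0`: `(1, 0)`; otherwise a root of the polynomial
`a X³ + 3 b X² + 3 c X + d`, `IsAlgClosed.exists_root`).  Let `e` be a root of `g`, `q` with `det2 e q ≠ 0`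
(`(0, 1)` or `(1, 0)`), `G = g.sub e q = ⟨0, b, c, d⟩`.  For `Q = (X e.1 + Y q.1, X e.2 + Y q.2)`:
`g.tri Q Q Q = Y (3 b X² + 3 c X Y + d Y²)`, `det2 e Q = Y det2 e q`.  If `b ≠ 0` take `Y = 1` and `X` a root of
`3 b X² + 3 c X + d` (quadratic formula with a square root of `9 c² - 12 b d`, `IsAlgClosed.exists_pow_nat_eq`).
If `b = 0`: `c ≠ 0` (otherwise `g.Kr e` by `kr_of`), take `X = -d`, `Y = 3 c`.  So there are roots `p, q` with
`det2 p q ≠ 0`: `g.sub p q = ⟨0, b, c, 0⟩`.  If `b = 0` and `c = 0` then `g.Kr p` (`kr_of`), excluded.  If `b = 0`, `c ≠ 0`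
exchange `p` and `q` (`g.sub q p = ⟨0, c, b, 0⟩`, `det2 q p = - det2 p q`).

PROOF of `nfB`.  `g` is not a cube (`NoK` with `(s, t) = (0, 1)`): `two_roots`: `g.sub p q = ⟨0, b, c, 0⟩`, `b ≠ 0`.
Suppose `f.hes e = 0` for all `e ≠ 0` with `g.tri e e e = 0`.  Let `F = f.sub p q = ⟨a, β, γ, δ⟩`; for
`Q = X p + Y q`: `F.hes (X, Y) = (det2 p q)² * f.hes Q` (`ring`).  `Q = p`: `a γ - β² = 0`; `Q = q`: `β δ - γ² = 0`.
If `c ≠ 0`: `Q = -c p + b q` is a root of `g` (`g.tri Q Q Q = 3 X Y (b X + c Y)`), so `F.hes (-c, b) = 0`,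
`(a δ - β γ) (-c b) = 0`, `a δ - β γ = 0`; then `f` is a cube: with `F`: if `(a, β) ≠ (0, 0)` the vector
`E = -β p + a q`, otherwise (`γ² = 0`) `E = p`, satisfies `f.Kr E` and `E ≠ 0`, contradiction to `NoK` (`kr_sub` below transports
`Kr` from `F` to `f`).  If `c = 0`: `g.sub p q = ⟨0, b, 0, 0⟩`.  `a δ - β γ ≠ 0` (else `f` is a cube as before).
If `β ≠ 0` then `a ≠ 0`, `γ = β²/a`, `δ = γ²/β = β³/a²`, `a δ = β γ`: contradiction.  So `β = 0`, `γ² = 0`, `γ = 0`, and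
`a δ ≠ 0`: second alternative.
`kr_sub`: if `det2 p q ≠ 0` and `(f.sub p q).Kr (x, y)` then `f.Kr (x p.1 + y q.1, x p.2 + y q.2)`: with `E` this vector,
`f.tri E u v = 0` for `u, v ∈ {p, q}`, solve the linear equations as in `kr_of`.
-/

set_option autoImplicit false

noncomputable section

namespace Pool.Agent.ISB

open Matrix Pool.Agent.ISO

theorem kr_sub {f : Bc} {p q : ℂ × ℂ} (hd : det2 p q ≠ 0) {x y : ℂ}
    (h : (f.sub p q).Kr (x, y)) : f.Kr (x * p.1 + y * q.1, x * p.2 + y * q.2) := by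
  obtain ⟨p1, p2⟩ := p
  obtain ⟨q1, q2⟩ := q
  obtain ⟨h1, h2, h3⟩ := h
  simp only [Bc.sub, Bc.tri] at h1 h2 h3
  simp only [det2] at hd
  refine ⟨?_, ?_, ?_⟩
  · refine mul_left_cancel₀ (pow_ne_zero 2 hd) ?_
    simp only
    linear_combination q2 ^ 2 * h1 - 2 * p2 * q2 * h2 + p2 ^ 2 * h3
  · refine mul_left_cancel₀ (pow_ne_zero 2 hd) ?_
    simp only
    linear_combination -(q1 * q2) * h1 + (q2 * p1 + p2 * q1) * h2 - p1 * p2 * h3
  · refine mul_left_cancel₀ (pow_ne_zero 2 hd) ?_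
    simp only
    linear_combination q1 ^ 2 * h1 - 2 * p1 * q1 * h2 + p1 ^ 2 * h3

private theorem dsd_hes (f : Bc) (p q : ℂ × ℂ) : f.tri p p p * f.tri p q q - f.tri p p q ^ 2 =
    det2 p q ^ 2 * f.hes p := by
  obtain ⟨p1, p2⟩ := p
  obtain ⟨q1, q2⟩ := q
  simp only [Bc.tri, det2, Bc.hes]
  ring

private theorem dsd_hes' (f : Bc) (p q : ℂ × ℂ) (x y : ℂ) :
    (f.tri p p p * f.tri p q q - f.tri p p q ^ 2) * x ^ 2 +
      (f.tri p p p * f.tri q q q - f.tri p p q * f.tri p q q) * (x * y) +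
      (f.tri p p q * f.tri q q q - f.tri p q q ^ 2) * y ^ 2 =
    det2 p q ^ 2 * f.hes (x * p.1 + y * q.1, x * p.2 + y * q.2) := by
  obtain ⟨p1, p2⟩ := p
  obtain ⟨q1, q2⟩ := q
  simp only [Bc.tri, det2, Bc.hes]
  ring

private theorem dsd_tri (g : Bc) (p q : ℂ × ℂ) (x y : ℂ) :
    g.tri (x * p.1 + y * q.1, x * p.2 + y * q.2) (x * p.1 + y * q.1, x * p.2 + y * q.2)
      (x * p.1 + y * q.1, x * p.2 + y * q.2) =
    g.tri p p p * x ^ 3 + 3 * g.tri p p q * x ^ 2 * y + 3 * g.tri p q q * x * y ^ 2 +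
      g.tri q q q * y ^ 3 := by
  obtain ⟨p1, p2⟩ := p
  obtain ⟨q1, q2⟩ := q
  simp only [Bc.tri]
  ring

private theorem dsd_det (p q : ℂ × ℂ) (x y : ℂ) :
    det2 p (x * p.1 + y * q.1, x * p.2 + y * q.2) = y * det2 p q := by
  simp only [det2]
  ring

private theorem dsd_det' (p q : ℂ × ℂ) (x y : ℂ) :
    det2 (x * p.1 + y * q.1, x * p.2 + y * q.2) q = x * det2 p q := by
  simp only [det2]
  ring

private theorem dsd_ne {p q : ℂ × ℂ} (h : det2 p q ≠ 0) : p ≠ 0 ∧ q ≠ 0 := by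
  constructor
  · rintro rfl
    exact h (by simp [det2])
  · rintro rfl
    exact h (by simp [det2])

private theorem dsd_compl {e : ℂ × ℂ} (he : e ≠ 0) : ∃ q : ℂ × ℂ, det2 e q ≠ 0 := by
  by_cases h1 : e.1 = 0
  · refine ⟨(1, 0), ?_⟩
    have h2 : e.2 ≠ 0 := fun h => he (Prod.ext h1 h)
    simpa [det2] using h2
  · refine ⟨(0, 1), ?_⟩
    simpa [det2] using h1

private theorem dsd_root (g : Bc) : ∃ e : ℂ × ℂ, e ≠ 0 ∧ g.tri e e e = 0 := by
  by_cases ha : g.a = 0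
  · refine ⟨(1, 0), fun h => one_ne_zero (congrArg Prod.fst h), ?_⟩
    simp [Bc.tri, ha]
  · have hdeg : (Polynomial.C g.a * Polynomial.X ^ 3 + Polynomial.C (3 * g.b) * Polynomial.X ^ 2 +
        Polynomial.C (3 * g.c) * Polynomial.X + Polynomial.C g.d).degree = 3 :=
      Polynomial.degree_cubic ha
    obtain ⟨x, hx⟩ := IsAlgClosed.exists_root _ (by rw [hdeg]; decide)
    refine ⟨(x, 1), fun h => one_ne_zero (congrArg Prod.snd h), ?_⟩
    simp only [Polynomial.IsRoot, Polynomial.eval_add, Polynomial.eval_mul, Polynomial.eval_C,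
      Polynomial.eval_pow, Polynomial.eval_X] at hx
    simp only [Bc.tri]
    linear_combination hx

/-- a form of rank one is a cube -/
private theorem dsd_cube {f : Bc} {p q : ℂ × ℂ} (hd : det2 p q ≠ 0)
    (h1 : f.tri p p p * f.tri p q q - f.tri p p q ^ 2 = 0)
    (h2 : f.tri p p p * f.tri q q q - f.tri p p q * f.tri p q q = 0)
    (h3 : f.tri p p q * f.tri q q q - f.tri p q q ^ 2 = 0) : ∃ e : ℂ × ℂ, e ≠ 0 ∧ f.Kr e := by
  by_cases hA : f.tri p p p = 0 ∧ f.tri p p q = 0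
  · obtain ⟨h4, h5⟩ := hA
    have h6 : f.tri p q q = 0 := by
      rw [h5, zero_mul, zero_sub, neg_eq_zero] at h3
      exact pow_eq_zero_iff two_ne_zero |>.1 h3
    exact ⟨p, (dsd_ne hd).1, kr_of hd h4 h5 h6⟩
  · have h4 : f.Kr (-f.tri p p q * p.1 + f.tri p p p * q.1, -f.tri p p q * p.2 + f.tri p p p * q.2) := by
      refine kr_sub hd ⟨?_, ?_, ?_⟩
      · show f.tri p p p * (-f.tri p p q) + f.tri p p q * f.tri p p p = 0
        ring
      · show f.tri p p q * (-f.tri p p q) + f.tri p q q * f.tri p p p = 0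
        linear_combination h1
      · show f.tri p q q * (-f.tri p p q) + f.tri q q q * f.tri p p p = 0
        linear_combination h2
    refine ⟨_, ?_, h4⟩
    intro h0
    apply hA
    have e1 := dsd_det p q (-f.tri p p q) (f.tri p p p)
    have e2 := dsd_det' p q (-f.tri p p q) (f.tri p p p)
    rw [h0] at e1 e2
    have e3 : det2 p 0 = 0 := by simp [det2]
    have e4 : det2 0 q = 0 := by simp [det2]
    rw [e3] at e1
    rw [e4] at e2
    refine ⟨?_, ?_⟩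
    · rcases mul_eq_zero.1 e1.symm with h | h
      · exact h
      · exact (hd h).elim
    · rcases mul_eq_zero.1 e2.symm with h | h
      · exact neg_eq_zero.1 h
      · exact (hd h).elim

theorem frame {f g : Bc} {e : ℂ × ℂ} {a : ℂ} (ha : a ≠ 0) (h0 : g.tri e e e = 0)
    (h1 : f.tri e e e ≠ 0) (h2 : f.hes e ≠ 0) :
    ∃ (p q : ℂ × ℂ) (c d b' c' d' : ℂ), det2 p q ≠ 0 ∧ c ≠ 0 ∧ f.sub p q = ⟨-a, 0, c, d⟩ ∧
      g.sub p q = ⟨0, b', c', d'⟩ := by
  obtain ⟨κ, hκ⟩ := IsAlgClosed.exists_pow_nat_eq (-a / f.tri e e e) (n := 3) (by norm_num)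
  have hκ0 : κ ≠ 0 := by
    rintro rfl
    rw [zero_pow three_ne_zero] at hκ
    exact div_ne_zero (neg_ne_zero.2 ha) h1 hκ.symm
  have hκ' : κ ^ 3 * f.tri e e e = -a := by
    rw [hκ, div_mul_cancel₀ _ h1]
  obtain ⟨p, hp⟩ : ∃ p : ℂ × ℂ, p = (κ * e.1, κ * e.2) := ⟨_, rfl⟩
  have hfp : f.tri p p p = -a := by
    rw [← hκ', hp]
    simp only [Bc.tri]
    ring
  have hgp : g.tri p p p = 0 := by
    have : g.tri p p p = κ ^ 3 * g.tri e e e := by
      rw [hp]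
      simp only [Bc.tri]
      ring
    rw [this, h0, mul_zero]
  have hhp : f.hes p ≠ 0 := by
    have : f.hes p = κ ^ 2 * f.hes e := by
      rw [hp]
      simp only [Bc.hes]
      ring
    rw [this]
    exact mul_ne_zero (pow_ne_zero 2 hκ0) h2
  obtain ⟨q, hq⟩ : ∃ q : ℂ × ℂ, q = (-f.tri p p (0, 1), f.tri p p (1, 0)) := ⟨_, rfl⟩
  have hpq : f.tri p p q = 0 := by
    rw [hq]
    simp only [Bc.tri]
    ring
  have hd : det2 p q = -a := by
    rw [← hfp, hq]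
    simp only [Bc.tri, det2]
    ring
  have hd0 : det2 p q ≠ 0 := by
    rw [hd]
    exact neg_ne_zero.2 ha
  refine ⟨p, q, f.tri p q q, f.tri q q q, g.tri p p q, g.tri p q q, g.tri q q q, hd0, ?_, ?_, ?_⟩
  · intro hc
    have h3 := dsd_hes f p q
    rw [hc, hpq, mul_zero, zero_pow two_ne_zero, sub_zero] at h3
    rcases mul_eq_zero.1 h3.symm with h | h
    · exact pow_ne_zero 2 hd0 h
    · exact hhp h
  · show Bc.mk _ _ _ _ = _
    rw [hfp, hpq]
  · show Bc.mk _ _ _ _ = _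
    rw [hgp]

theorem two_roots {g : Bc} (h : ∀ e : ℂ × ℂ, e ≠ 0 → ¬ g.Kr e) :
    ∃ (p q : ℂ × ℂ) (b c : ℂ), det2 p q ≠ 0 ∧ b ≠ 0 ∧ g.sub p q = ⟨0, b, c, 0⟩ := by
  obtain ⟨e, he, hge⟩ := dsd_root g
  obtain ⟨q, hq⟩ := dsd_compl he
  obtain ⟨x, y, hy, hxy⟩ : ∃ x y : ℂ, y ≠ 0 ∧
      g.tri e e e * x ^ 3 + 3 * g.tri e e q * x ^ 2 * y + 3 * g.tri e q q * x * y ^ 2 +
        g.tri q q q * y ^ 3 = 0 := by
    rw [hge]
    by_cases hb : g.tri e e q = 0
    · have hc : g.tri e q q ≠ 0 := fun hc => h e he (kr_of hq hge hb hc)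
      refine ⟨-g.tri q q q, 3 * g.tri e q q, mul_ne_zero three_ne_zero hc, ?_⟩
      rw [hb]
      ring
    · obtain ⟨s, hs⟩ := IsAlgClosed.exists_pow_nat_eq
        (9 * g.tri e q q ^ 2 - 12 * g.tri e e q * g.tri q q q) (n := 2) (by norm_num)
      have h6 : (6 : ℂ) * g.tri e e q ≠ 0 := mul_ne_zero (by norm_num) hb
      obtain ⟨x, hx⟩ : ∃ x : ℂ, 6 * g.tri e e q * x = -3 * g.tri e q q + s :=
        ⟨(-3 * g.tri e q q + s) / (6 * g.tri e e q), by rw [mul_div_cancel₀ _ h6]⟩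
      refine ⟨x, 1, one_ne_zero, ?_⟩
      refine mul_left_cancel₀ (mul_ne_zero (by norm_num : (12 : ℂ) ≠ 0) hb) ?_
      have h7 : (6 * g.tri e e q * x + 3 * g.tri e q q) ^ 2 = s ^ 2 := by
        rw [hx]
        ring
      rw [hs] at h7
      linear_combination h7
  obtain ⟨Q, hQ⟩ : ∃ Q : ℂ × ℂ, Q = (x * e.1 + y * q.1, x * e.2 + y * q.2) := ⟨_, rfl⟩
  have hgQ : g.tri Q Q Q = 0 := by
    rw [hQ, dsd_tri, hxy]
  have hdQ : det2 e Q ≠ 0 := by
    rw [hQ, dsd_det]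
    exact mul_ne_zero hy hq
  by_cases hb : g.tri e e Q = 0
  · have hc : g.tri e Q Q ≠ 0 := fun hc => h e he (kr_of hdQ hge hb hc)
    have s1 : g.tri Q Q e = g.tri e Q Q := by
      simp only [Bc.tri]
      ring
    have s2 : g.tri Q e e = g.tri e e Q := by
      simp only [Bc.tri]
      ring
    refine ⟨Q, e, g.tri e Q Q, g.tri e e Q, ?_, hc, ?_⟩
    · intro h0
      apply hdQ
      have : det2 e Q = -det2 Q e := by
        simp only [det2]
        ring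
      rw [this, h0, neg_zero]
    · show Bc.mk _ _ _ _ = _
      rw [hge, hgQ, s1, s2]
  · refine ⟨e, Q, g.tri e e Q, g.tri e Q Q, hdQ, hb, ?_⟩
    show Bc.mk _ _ _ _ = _
    rw [hge, hgQ]

theorem nfB {f g : Bc} (hK : NoK f g) :
    (∃ e : ℂ × ℂ, e ≠ 0 ∧ g.tri e e e = 0 ∧ f.hes e ≠ 0) ∨
      ∃ (p q : ℂ × ℂ) (a b d : ℂ), det2 p q ≠ 0 ∧ a ≠ 0 ∧ b ≠ 0 ∧ d ≠ 0 ∧
        f.sub p q = ⟨a, 0, 0, d⟩ ∧ g.sub p q = ⟨0, b, 0, 0⟩ := by
  have hg : ∀ e : ℂ × ℂ, e ≠ 0 → ¬ g.Kr e := by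
    intro e he hk
    have h1 := hK 0 1 (fun h => one_ne_zero (congrArg Prod.snd h)) e he
    have h2 : Bc.lin 0 1 f g = g := by
      ext <;> simp [Bc.lin]
    rw [h2] at h1
    exact h1 hk
  have hf : ∀ e : ℂ × ℂ, e ≠ 0 → ¬ f.Kr e := by
    intro e he hk
    have h1 := hK 1 0 (fun h => one_ne_zero (congrArg Prod.fst h)) e he
    have h2 : Bc.lin 1 0 f g = f := by
      ext <;> simp [Bc.lin]
    rw [h2] at h1
    exact h1 hk
  by_cases hex : ∃ e : ℂ × ℂ, e ≠ 0 ∧ g.tri e e e = 0 ∧ f.hes e ≠ 0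
  · exact Or.inl hex
  right
  have hall : ∀ e : ℂ × ℂ, e ≠ 0 → g.tri e e e = 0 → f.hes e = 0 := by
    intro e he h1
    by_contra h2
    exact hex ⟨e, he, h1, h2⟩
  obtain ⟨p, q, b, c, hd, hb, hs⟩ := two_roots hg
  have g1 : g.tri p p p = 0 := congrArg Bc.a hs
  have g2 : g.tri p p q = b := congrArg Bc.b hs
  have g3 : g.tri p q q = c := congrArg Bc.c hs
  have g4 : g.tri q q q = 0 := congrArg Bc.d hs
  have m1 : f.tri p p p * f.tri p q q - f.tri p p q ^ 2 = 0 := by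
    rw [dsd_hes, hall p (dsd_ne hd).1 g1, mul_zero]
  have m3 : f.tri p p q * f.tri q q q - f.tri p q q ^ 2 = 0 := by
    have h1 := dsd_hes' f p q 0 1
    have h2 : ((0 : ℂ) * p.1 + 1 * q.1, (0 : ℂ) * p.2 + 1 * q.2) = q := by
      simp
    rw [h2, hall q (dsd_ne hd).2 g4, mul_zero] at h1
    linear_combination h1
  have m2 : f.tri p p p * f.tri q q q - f.tri p p q * f.tri p q q ≠ 0 := by
    intro m2
    obtain ⟨e, he, hk⟩ := dsd_cube hd m1 m2 m3
    exact hf e he hk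
  have hc : c = 0 := by
    by_contra hc
    apply m2
    have h1 := dsd_hes' f p q (-c) b
    have h2 : g.tri (-c * p.1 + b * q.1, -c * p.2 + b * q.2) (-c * p.1 + b * q.1, -c * p.2 + b * q.2)
        (-c * p.1 + b * q.1, -c * p.2 + b * q.2) = 0 := by
      rw [dsd_tri, g1, g2, g3, g4]
      ring
    have h3 : (-c * p.1 + b * q.1, -c * p.2 + b * q.2) ≠ (0 : ℂ × ℂ) := by
      refine (dsd_ne (q := q) ?_).1
      rw [dsd_det']
      exact mul_ne_zero (neg_ne_zero.2 hc) hd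
    rw [hall _ h3 h2, mul_zero, m1, m3, zero_mul, zero_mul, zero_add, add_zero] at h1
    rcases mul_eq_zero.1 h1 with h | h
    · exact h
    · exact (mul_ne_zero (neg_ne_zero.2 hc) hb h).elim
  have hβ : f.tri p p q = 0 := by
    by_contra hβ
    apply m2
    have hA : f.tri p p p ≠ 0 := by
      intro hA
      rw [hA, zero_mul, zero_sub, neg_eq_zero] at m1
      exact hβ (pow_eq_zero_iff two_ne_zero |>.1 m1)
    -- `A² δ = β³`
    have h1 : f.tri p p p ^ 2 * f.tri q q q = f.tri p p q ^ 3 := by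
      refine mul_left_cancel₀ hβ ?_
      linear_combination f.tri p p p ^ 2 * m3 +
        (f.tri p p p * f.tri p q q + f.tri p p q ^ 2) * m1
    refine mul_left_cancel₀ hA ?_
    linear_combination h1 - f.tri p p q * m1
  have hγ : f.tri p q q = 0 := by
    rw [hβ, zero_mul, zero_sub, neg_eq_zero] at m3
    exact pow_eq_zero_iff two_ne_zero |>.1 m3
  rw [hβ, zero_mul, sub_zero] at m2
  refine ⟨p, q, f.tri p p p, b, f.tri q q q, hd, left_ne_zero_of_mul m2, hb,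
    right_ne_zero_of_mul m2, ?_, ?_⟩
  · show Bc.mk _ _ _ _ = _
    rw [hβ, hγ]
  · rw [hs, hc]

end Pool.Agent.ISB
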