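import Pool.Agent.ISB.DsA

/-!
# ISB / DsN: the explicit nodal quartic

PROOF.  Coordinates `X 0, X 1, X 2, X 3 = x, y, z, w`.
`F = a (x³ - y³) + d w³ + 3 c y z² + d₂ z³`, `F' = 3 b x² w + d' w³ + 3 b₂ y² z + 3 c₂ y z² + d₃ z³` (`poly_ds`).
Put `v = x - y`, `u = y`, `L0 = 3 (b w + b₂ z)`, `L1 = -3 a v`.  Then (`ring` after `x = u + v`)
`L0 F + L1 F' = u * 9 (b w (c z² - a v²) + b₂ z (a v² + c z²) - a c₂ v z²) + 3 (b w + b₂ z) (a v³ + d w³ + d₂ z³)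
  - 3 a v (3 b w v² + d' w³ + d₃ z³)`.
Choose `γ² = c`, `δ² = a` (`IsAlgClosed.exists_pow_nat_eq`), `γ, δ ≠ 0`, and
`l0 = γ z - δ v`, `l1 = γ z + δ v`, `l2 = u = y`, `l3 = 9 b w`.  So `l0 l1 = c z² - a v²`,
`z = (l0 + l1) / (2 γ)`, `v = (l1 - l0) / (2 δ)`, `w = l3 / (9 b)`.  With
`Z = (X 0 + X 1) / (2 γ)`, `V = (X 1 - X 0) / (2 δ)` (in `MvPolynomial (Fin 2) ℂ`),
`g = 9 (b₂ Z (a V² + c Z²) - a c₂ V Z²)` (homogeneous of degree 3) and with the same `Z`, `V` in `MvPolynomial (Fin 3) ℂ`,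
`W = X 2 / (9 b)`, `h = 3 (b W + b₂ Z) (a V³ + d W³ + d₂ Z³) - 3 a V (3 b W V² + d' W³ + d₃ Z³)` (homogeneous of
degree 4): `L0 F + L1 F' = l2 (l3 l0 l1 + g(l0, l1)) + h(l0, l1, l3)`.
Linear independence of `l0, l1, l2, l3`: if `Σ k_i l_i = 0`, the coefficients of `x`: `δ (k1 - k0) = 0`, of `z`:
`γ (k0 + k1) = 0`, of `w`: `9 b k3 = 0`, of `y`: `k2 = 0` (coefficients of `single i 1`, or evaluate at four points).
-/

set_option autoImplicit false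

noncomputable section

namespace Pool.Agent.ISB

open Matrix Pool.Agent.ISO

open MvPolynomial in
private theorem dsn_li_h75 {γ δ b : ℂ} (hγ : γ ≠ 0) (hδ : δ ≠ 0) (hb : b ≠ 0) :
    LinearIndependent ℂ (![C γ * X 2 - C δ * (X 0 - X 1), C γ * X 2 + C δ * (X 0 - X 1), X 1, C (9 * b) * X 3] :
      Fin 4 → CLU.S) := by
  rw [Fintype.linearIndependent_iff]
  intro k hk
  rw [Fin.sum_univ_four] at hk
  have key : ∀ p : Fin 4 → ℂ, k 0 * (γ * p 2 - δ * (p 0 - p 1)) + k 1 * (γ * p 2 + δ * (p 0 - p 1)) +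
      k 2 * p 1 + k 3 * (9 * b * p 3) = 0 := by
    intro p
    have h1 := congrArg (eval p) hk
    rw [map_add, map_add, map_add, smul_eval, smul_eval, smul_eval, smul_eval, map_zero] at h1
    have e0 : eval p ((![C γ * X 2 - C δ * (X 0 - X 1), C γ * X 2 + C δ * (X 0 - X 1), X 1, C (9 * b) * X 3] :
      Fin 4 → CLU.S) 0) = γ * p 2 - δ * (p 0 - p 1) := by
      show eval p (C γ * X 2 - C δ * (X 0 - X 1) : CLU.S) = _
      simp
    have e1 : eval p ((![C γ * X 2 - C δ * (X 0 - X 1), C γ * X 2 + C δ * (X 0 - X 1), X 1, C (9 * b) * X 3] :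
      Fin 4 → CLU.S) 1) = γ * p 2 + δ * (p 0 - p 1) := by
      show eval p (C γ * X 2 + C δ * (X 0 - X 1) : CLU.S) = _
      simp
    have e2 : eval p ((![C γ * X 2 - C δ * (X 0 - X 1), C γ * X 2 + C δ * (X 0 - X 1), X 1, C (9 * b) * X 3] :
      Fin 4 → CLU.S) 2) = p 1 := by
      show eval p (X 1 : CLU.S) = _
      simp
    have e3 : eval p ((![C γ * X 2 - C δ * (X 0 - X 1), C γ * X 2 + C δ * (X 0 - X 1), X 1, C (9 * b) * X 3] :
      Fin 4 → CLU.S) 3) = 9 * b * p 3 := by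
      show eval p (C (9 * b) * X 3 : CLU.S) = _
      rw [map_mul, eval_C, eval_X]
    rw [e0, e1, e2, e3] at h1
    exact h1
  have k0 := key ![1, 0, 0, 0]
  have k1 := key ![0, 1, 0, 0]
  have k2 := key ![0, 0, 1, 0]
  have k3 := key ![0, 0, 0, 1]
  simp only [Matrix.cons_val] at k0 k1 k2 k3
  have a1 : k 1 = k 0 := by
    have : δ * (k 1 - k 0) = 0 := by linear_combination k0
    exact sub_eq_zero.1 ((mul_eq_zero.1 this).resolve_left hδ)
  have a2 : k 0 = 0 := by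
    have : γ * (2 * k 0) = 0 := by
      rw [a1] at k2
      linear_combination k2
    have h2 := (mul_eq_zero.1 this).resolve_left hγ
    exact (mul_eq_zero.1 h2).resolve_left (by norm_num)
  have a3 : k 1 = 0 := by rw [a1, a2]
  have a4 : k 2 = 0 := by
    rw [a2, a3] at k1
    linear_combination k1
  have a5 : k 3 = 0 := by
    have : 9 * b * k 3 = 0 := by linear_combination k3
    exact (mul_eq_zero.1 this).resolve_left (mul_ne_zero (by norm_num) hb)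
  intro i
  fin_cases i
  · exact a2
  · exact a3
  · exact a4
  · exact a5

open MvPolynomial in
theorem ds_node (a b c d d' d2 b2 c2 d3 : ℂ) (ha : a ≠ 0) (hb : b ≠ 0) (hc : c ≠ 0) :
    NQ (ds ⟨a, 0, 0, d⟩ ⟨-a, 0, c, d2⟩) (ds ⟨0, b, 0, d'⟩ ⟨0, b2, c2, d3⟩) := by
  obtain ⟨γ, hγ⟩ := IsAlgClosed.exists_pow_nat_eq c (by norm_num : 0 < 2)
  obtain ⟨δ, hδ⟩ := IsAlgClosed.exists_pow_nat_eq a (by norm_num : 0 < 2)
  have hγ0 : γ ≠ 0 := by
    rintro rfl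
    exact hc (by rw [← hγ]; norm_num)
  have hδ0 : δ ≠ 0 := by
    rintro rfl
    exact ha (by rw [← hδ]; norm_num)
  have Hγ : (C γ : CLU.S) ^ 2 = C c := by rw [← map_pow, hγ]
  have Hδ : (C δ : CLU.S) ^ 2 = C a := by rw [← map_pow, hδ]
  have hom1 : ∀ (i : Fin 4), (X i : CLU.S).IsHomogeneous 1 := fun i => isHomogeneous_X ℂ i
  have homC : ∀ (s : ℂ) {F : CLU.S} {n : ℕ}, F.IsHomogeneous n → (C s * F).IsHomogeneous n := by
    intro s F n hF
    have := (isHomogeneous_C (Fin 4) s).mul hF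
    rwa [zero_add] at this
  have homC2 : ∀ (s : ℂ) {F : MvPolynomial (Fin 2) ℂ} {n : ℕ}, F.IsHomogeneous n → (C s * F).IsHomogeneous n := by
    intro s F n hF
    have := (isHomogeneous_C (Fin 2) s).mul hF
    rwa [zero_add] at this
  have homC3 : ∀ (s : ℂ) {F : MvPolynomial (Fin 3) ℂ} {n : ℕ}, F.IsHomogeneous n → (C s * F).IsHomogeneous n := by
    intro s F n hF
    have := (isHomogeneous_C (Fin 3) s).mul hF
    rwa [zero_add] at this
  refine ⟨C 3 * (C b * X 3 + C b2 * X 2), C (-3 * a) * (X 0 - X 1),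
    homC _ ((homC _ (hom1 3)).add (homC _ (hom1 2))), homC _ ((hom1 0).sub (hom1 1)), ?_⟩
  let Z2 : MvPolynomial (Fin 2) ℂ := C (1 / (2 * γ)) * (X 0 + X 1)
  let V2 : MvPolynomial (Fin 2) ℂ := C (1 / (2 * δ)) * (X 1 - X 0)
  let Z3 : MvPolynomial (Fin 3) ℂ := C (1 / (2 * γ)) * (X 0 + X 1)
  let V3 : MvPolynomial (Fin 3) ℂ := C (1 / (2 * δ)) * (X 1 - X 0)
  let W3 : MvPolynomial (Fin 3) ℂ := C (1 / (9 * b)) * X 2
  have hZ2 : Z2.IsHomogeneous 1 := homC2 _ ((isHomogeneous_X ℂ 0).add (isHomogeneous_X ℂ 1))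
  have hV2 : V2.IsHomogeneous 1 := homC2 _ ((isHomogeneous_X ℂ 1).sub (isHomogeneous_X ℂ 0))
  have hZ3 : Z3.IsHomogeneous 1 := homC3 _ ((isHomogeneous_X ℂ 0).add (isHomogeneous_X ℂ 1))
  have hV3 : V3.IsHomogeneous 1 := homC3 _ ((isHomogeneous_X ℂ 1).sub (isHomogeneous_X ℂ 0))
  have hW3 : W3.IsHomogeneous 1 := homC3 _ (isHomogeneous_X ℂ 2)
  refine ⟨![C γ * X 2 - C δ * (X 0 - X 1), C γ * X 2 + C δ * (X 0 - X 1), X 1, C (9 * b) * X 3],
    C 9 * (C b2 * (Z2 * (C a * V2 ^ 2 + C c * Z2 ^ 2)) - C (a * c2) * (V2 * Z2 ^ 2)),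
    C 3 * ((C b * W3 + C b2 * Z3) * (C a * V3 ^ 3 + C d * W3 ^ 3 + C d2 * Z3 ^ 3)) -
      C (3 * a) * (V3 * (C (3 * b) * (W3 * V3 ^ 2) + C d' * W3 ^ 3 + C d3 * Z3 ^ 3)),
    ?_, dsn_li_h75 hγ0 hδ0 hb, ?_, ?_, ?_⟩
  · intro i
    fin_cases i
    · exact (homC _ (hom1 2)).sub (homC _ ((hom1 0).sub (hom1 1)))
    · exact (homC _ (hom1 2)).add (homC _ ((hom1 0).sub (hom1 1)))
    · exact hom1 1
    · exact homC _ (hom1 3)
  · exact homC2 _ ((homC2 _ (hZ2.mul ((homC2 _ (hV2.pow 2)).add (homC2 _ (hZ2.pow 2))))).sub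
      (homC2 _ (hV2.mul (hZ2.pow 2))))
  · exact (homC3 _ (((homC3 _ hW3).add (homC3 _ hZ3)).mul
      (((homC3 _ (hV3.pow 3)).add (homC3 _ (hW3.pow 3))).add (homC3 _ (hZ3.pow 3))))).sub
      (homC3 _ (hV3.mul (((homC3 _ (hW3.mul (hV3.pow 2))).add (homC3 _ (hW3.pow 3))).add (homC3 _ (hZ3.pow 3)))))
  · have cg : (C (1 / (2 * γ)) : CLU.S) * (2 * C γ) = 1 := by
      have h2 : (2 : CLU.S) = C 2 := (map_ofNat C 2).symm
      rw [h2, ← map_mul, ← map_mul, one_div, inv_mul_cancel₀ (mul_ne_zero (by norm_num) hγ0), map_one]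
    have cd : (C (1 / (2 * δ)) : CLU.S) * (2 * C δ) = 1 := by
      have h2 : (2 : CLU.S) = C 2 := (map_ofNat C 2).symm
      rw [h2, ← map_mul, ← map_mul, one_div, inv_mul_cancel₀ (mul_ne_zero (by norm_num) hδ0), map_one]
    have cb : (C (1 / (9 * b)) : CLU.S) * C (9 * b) = 1 := by
      rw [← map_mul, one_div, inv_mul_cancel₀ (mul_ne_zero (by norm_num) hb), map_one]
    have eZ2 : aeval ![(C γ * X 2 - C δ * (X 0 - X 1) : CLU.S), C γ * X 2 + C δ * (X 0 - X 1)] Z2 = X 2 := by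
      show aeval _ (C (1 / (2 * γ)) * (X 0 + X 1)) = _
      rw [map_mul, map_add, aeval_X, aeval_X, aeval_C, algebraMap_eq]
      show C (1 / (2 * γ)) * ((C γ * X 2 - C δ * (X 0 - X 1)) + (C γ * X 2 + C δ * (X 0 - X 1))) = _
      linear_combination (X 2 : CLU.S) * cg
    have eV2 : aeval ![(C γ * X 2 - C δ * (X 0 - X 1) : CLU.S), C γ * X 2 + C δ * (X 0 - X 1)] V2 = X 0 - X 1 := by
      show aeval _ (C (1 / (2 * δ)) * (X 1 - X 0)) = _
      rw [map_mul, map_sub, aeval_X, aeval_X, aeval_C, algebraMap_eq]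
      show C (1 / (2 * δ)) * ((C γ * X 2 + C δ * (X 0 - X 1)) - (C γ * X 2 - C δ * (X 0 - X 1))) = _
      linear_combination (X 0 - X 1 : CLU.S) * cd
    have eZ3 : aeval ![(C γ * X 2 - C δ * (X 0 - X 1) : CLU.S), C γ * X 2 + C δ * (X 0 - X 1), C (9 * b) * X 3] Z3 =
        X 2 := by
      show aeval _ (C (1 / (2 * γ)) * (X 0 + X 1)) = _
      rw [map_mul, map_add, aeval_X, aeval_X, aeval_C, algebraMap_eq]
      show C (1 / (2 * γ)) * ((C γ * X 2 - C δ * (X 0 - X 1)) + (C γ * X 2 + C δ * (X 0 - X 1))) = _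
      linear_combination (X 2 : CLU.S) * cg
    have eV3 : aeval ![(C γ * X 2 - C δ * (X 0 - X 1) : CLU.S), C γ * X 2 + C δ * (X 0 - X 1), C (9 * b) * X 3] V3 =
        X 0 - X 1 := by
      show aeval _ (C (1 / (2 * δ)) * (X 1 - X 0)) = _
      rw [map_mul, map_sub, aeval_X, aeval_X, aeval_C, algebraMap_eq]
      show C (1 / (2 * δ)) * ((C γ * X 2 + C δ * (X 0 - X 1)) - (C γ * X 2 - C δ * (X 0 - X 1))) = _
      linear_combination (X 0 - X 1 : CLU.S) * cd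
    have eW3 : aeval ![(C γ * X 2 - C δ * (X 0 - X 1) : CLU.S), C γ * X 2 + C δ * (X 0 - X 1), C (9 * b) * X 3] W3 =
        X 3 := by
      show aeval _ (C (1 / (9 * b)) * X 2) = _
      rw [map_mul, aeval_X, aeval_C, algebraMap_eq]
      show C (1 / (9 * b)) * (C (9 * b) * X 3) = _
      linear_combination (X 3 : CLU.S) * cb
    show _ = X 1 * (C (9 * b) * X 3 * (C γ * X 2 - C δ * (X 0 - X 1)) * (C γ * X 2 + C δ * (X 0 - X 1)) +
      aeval ![(C γ * X 2 - C δ * (X 0 - X 1) : CLU.S), C γ * X 2 + C δ * (X 0 - X 1)] _) +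
      aeval ![(C γ * X 2 - C δ * (X 0 - X 1) : CLU.S), C γ * X 2 + C δ * (X 0 - X 1), C (9 * b) * X 3] _
    rw [poly_ds, poly_ds]
    obtain ⟨v3, hv3⟩ : ∃ v3 : Fin 3 → CLU.S,
      v3 = ![(C γ * X 2 - C δ * (X 0 - X 1) : CLU.S), C γ * X 2 + C δ * (X 0 - X 1), C (9 * b) * X 3] := ⟨_, rfl⟩
    rw [← hv3] at eZ3 eV3 eW3
    rw [← hv3]
    simp only [map_mul, map_sub, map_add, map_pow, eZ2, eV2, eZ3, eV3, eW3, aeval_C, algebraMap_eq, map_zero,
      map_neg, map_ofNat]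
    have h9 : (C γ * X 2 - C δ * (X 0 - X 1)) * (C γ * X 2 + C δ * (X 0 - X 1)) =
        (C c * X 2 ^ 2 - C a * (X 0 - X 1) ^ 2 : CLU.S) := by
      rw [← Hγ, ← Hδ]
      ring
    linear_combination (-(X 1 * (9 * C b * X 3)) : CLU.S) * h9

end Pool.Agent.ISB
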