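import Pool.Agent.ISB.DsB
import Pool.Agent.ISB.DsD
import Pool.Agent.ISB.DsN

/-!
# ISB / Ds: direct sums of pencils of binary cubics
-/

set_option autoImplicit false

noncomputable section

namespace Pool.Agent.ISB

open Matrix Pool.Agent.ISO

private theorem det2_one : det2 (1, 0) (0, 1) = 1 := by
  unfold det2
  norm_num

private theorem dsum3 {a b d d' : ℂ} (ha : a ≠ 0) (hb : b ≠ 0) {g g' : Bc} {e : ℂ × ℂ}
    (h0 : g'.tri e e e = 0) (h1 : g.tri e e e ≠ 0) (h2 : g.hes e ≠ 0) :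
    NQ (ds ⟨a, 0, 0, d⟩ g) (ds ⟨0, b, 0, d'⟩ g') := by
  obtain ⟨r, s, c, d2, b2, c2, d3, hrs, hc, e1, e2⟩ := frame ha h0 h1 h2
  refine NQ.of_act (blk (1, 0) (0, 1) r s) ?_ ?_
  · rw [blk_det, det2_one, one_mul]
    exact hrs
  · rw [act_ds, act_ds, Bc.sub_one, Bc.sub_one, e1, e2]
    exact ds_node a b c d d' d2 b2 c2 d3 ha hb hc

private theorem dsum2 {a b d d' : ℂ} (ha : a ≠ 0) (hb : b ≠ 0) (hd : d ≠ 0) {g g' : Bc}
    (h : Pen (ds ⟨a, 0, 0, d⟩ g) (ds ⟨0, b, 0, d'⟩ g')) :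
    NQ (ds ⟨a, 0, 0, d⟩ g) (ds ⟨0, b, 0, d'⟩ g') := by
  rcases nfB (noK_r h) with ⟨e, he, h0, h1⟩ | ⟨r, s, a2, b2, d2, hrs, ha2, hb2, hd2, e0, e1⟩
  · exact dsum3 ha hb h0 (fun h2 => noB_r h e he h2 h0) h1
  · have hdet : (blk (1, 0) (0, 1) r s).det ≠ 0 := by
      rw [blk_det, det2_one, one_mul]
      exact hrs
    have h3 := pen_act h (blk (1, 0) (0, 1) r s) hdet
    rw [act_ds, act_ds, Bc.sub_one, Bc.sub_one, e0, e1] at h3
    by_cases hd' : d' = 0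
    · exfalso
      subst hd'
      refine notBoth h3 0 1 (by simp) (0, 1) (0, 1) (by simp) (by simp) ?_ ?_
      · unfold Bc.Dr Bc.lin
        constructor <;> simp
      · unfold Bc.Dr Bc.lin
        constructor <;> simp
    · refine NQ.of_act (blk (1, 0) (0, 1) r s) hdet ?_
      rw [act_ds, act_ds, Bc.sub_one, Bc.sub_one, e0, e1]
      refine NQ.of_act Sw Sw_det ?_
      rw [act_Sw, act_Sw]
      obtain ⟨x, hx⟩ := IsAlgClosed.exists_pow_nat_eq (-d' / (3 * b)) (n := 2) (by norm_num)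
      have hx0 : x ≠ 0 := by
        rintro rfl
        rw [zero_pow (by norm_num)] at hx
        have h4 : -d' / (3 * b) ≠ 0 :=
          div_ne_zero (neg_ne_zero.2 hd') (mul_ne_zero (by norm_num) hb)
        exact h4 hx.symm
      have hx2 : 3 * b * x ^ 2 = -d' := by
        rw [hx]
        field_simp
      have h5 : (⟨0, b, 0, d'⟩ : Bc).tri (x, 1) (x, 1) (x, 1) = 0 := by
        unfold Bc.tri
        linear_combination hx2
      have he : ((x, 1) : ℂ × ℂ) ≠ 0 := by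
        intro h6
        exact hx0 (congrArg Prod.fst h6)
      refine dsum3 ha2 hb2 h5 (fun h6 => noB_l h (x, 1) he h6 h5) ?_
      unfold Bc.hes
      have h7 : (a * 0 - 0 ^ 2) * x ^ 2 + (a * d - 0 * 0) * (x * 1) + (0 * d - 0 ^ 2) * 1 ^ 2 =
          a * d * x := by ring
      show (a * 0 - 0 ^ 2) * x ^ 2 + (a * d - 0 * 0) * (x * 1) + (0 * d - 0 ^ 2) * 1 ^ 2 ≠ 0
      rw [h7]
      exact mul_ne_zero (mul_ne_zero ha hd) hx0

theorem directSum {T0 T1 : T3} (h : Pen T0 T1)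
    (hds : ∀ i j k : Fin 4, (i = 0 ∨ i = 3) → (j = 1 ∨ j = 2) → T0 i j k = 0 ∧ T1 i j k = 0) :
    NQ T0 T1 := by
  obtain ⟨f, g, rfl⟩ := ds_of h.s0 (fun i j k hi hj => (hds i j k hi hj).1)
  obtain ⟨f', g', rfl⟩ := ds_of h.s1 (fun i j k hi hj => (hds i j k hi hj).2)
  obtain ⟨s, t, s', t', p, q, a, b, d, d', hst, hpq, ha, hb, hd, e0, e1⟩ :=
    nfA (noK_l h) (noB_l h)
  have hc := h.change s t s' t' hst
  rw [lin_ds, lin_ds] at hc
  have hdet : (blk p q (1, 0) (0, 1)).det ≠ 0 := by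
    rw [blk_det, det2_one, mul_one]
    exact hpq
  have h1 := pen_act hc (blk p q (1, 0) (0, 1)) hdet
  rw [act_ds, act_ds, e0, e1] at h1
  refine NQ.of_change s t s' t' ?_
  rw [lin_ds, lin_ds]
  refine NQ.of_act (blk p q (1, 0) (0, 1)) hdet ?_
  rw [act_ds, act_ds, e0, e1]
  exact dsum2 ha hb hd h1

end Pool.Agent.ISB
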