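import Mathlib

/-!
# ISB / Jet: Laurent coefficients of the solution of a linear system depending on a parameter

PROOF.  Let `L t = L0 + t L1`, `t0` a point where `L t0` is injective.  Choose a linear left inverse
`π : W → V` of `L t0` (`LinearMap.exists_leftInverse_of_injective`), a basis of `V`, and let
`A(t)` be the matrix of `π ∘ L t` (entries polynomials of degree `≤ 1` in `t`).
`d(t) = det A(t)` is a polynomial with `d(t0) = 1`, and `P(t) = adj(A(t)) (π y)` is a
`V`-valued polynomial.  For `t ∈ S` with `d(t) ≠ 0` let `X` be the solution: `A(t) X = π y`, so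
`d(t) X = P(t)` and `L t (P t) = d(t) y`.  This holds for infinitely many `t`, so it is an identity
of polynomials (apply coordinates; `Polynomial.eq_of_infinite_eval_eq`).  Let `p n : V`, `e n : ℂ` be
the coefficients: `L0 (p 0) = e 0 • y`, `L0 (p (n+1)) + L1 (p n) = e (n+1) • y`.
Not all `e n` vanish; let `m` be minimal with `p m ≠ 0 ∨ e m ≠ 0` and put `P n = p (n + m)`,
`d n = e (n + m)` (if `m > 0` then `p (m-1) = 0`, so `L0 (p m) = e m • y`).
-/

set_option autoImplicit false

noncomputable section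

namespace Pool.Agent.ISB

open Matrix in
/-- The polynomial solution. -/
theorem jet_aux {V W : Type*} [AddCommGroup V] [Module ℂ V] [FiniteDimensional ℂ V]
    [AddCommGroup W] [Module ℂ W] [FiniteDimensional ℂ W] (L0 L1 : V →ₗ[ℂ] W) (y : W) (S : Set ℂ)
    (hS : S.Infinite) (h : ∀ t ∈ S, ∃ X : V, L0 X + t • L1 X = y)
    (hi : ∃ t : ℂ, ∀ X : V, L0 X + t • L1 X = 0 → X = 0) :
    ∃ (p : ℕ → V) (e : ℕ → ℂ), (∃ n, e n ≠ 0) ∧ L0 (p 0) = e 0 • y ∧
      ∀ n, L0 (p (n + 1)) + L1 (p n) = e (n + 1) • y := by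
  obtain ⟨t0, ht0⟩ := hi
  -- the left inverse
  have hinj : LinearMap.ker (L0 + t0 • L1) = ⊥ := by
    rw [LinearMap.ker_eq_bot']
    intro X hX
    exact ht0 X (by simpa using hX)
  obtain ⟨π, hπ⟩ := LinearMap.exists_leftInverse_of_injective (L0 + t0 • L1) hinj
  set b := Module.finBasis ℂ V with hb
  set A0 := LinearMap.toMatrix b b (π ∘ₗ L0) with hA0
  set A1 := LinearMap.toMatrix b b (π ∘ₗ L1) with hA1
  set z : Fin (Module.finrank ℂ V) → ℂ := fun i => b.repr (π y) i with hz
  set A : Matrix (Fin (Module.finrank ℂ V)) (Fin (Module.finrank ℂ V)) (Polynomial ℂ) :=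
    A0.map Polynomial.C + (Polynomial.X : Polynomial ℂ) • A1.map Polynomial.C with hA
  have hAev : ∀ t : ℂ, (Polynomial.evalRingHom t).mapMatrix A = A0 + t • A1 := by
    intro t
    ext i j
    simp [hA]
    ring
  have hAt : ∀ t : ℂ, A0 + t • A1 = LinearMap.toMatrix b b (π ∘ₗ (L0 + t • L1)) := by
    intro t
    rw [hA0, hA1, LinearMap.comp_add, LinearMap.comp_smul, map_add, map_smul]
  set d : Polynomial ℂ := A.det with hd
  have hdev : ∀ t : ℂ, d.eval t = (A0 + t • A1).det := by
    intro t
    rw [hd, ← hAev t, ← RingHom.map_det]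
    rfl
  have hd0 : d ≠ 0 := by
    intro h0
    have h1 := hdev t0
    rw [h0, hAt t0, hπ, LinearMap.toMatrix_id, Matrix.det_one] at h1
    simp at h1
  set p : Fin (Module.finrank ℂ V) → Polynomial ℂ :=
    A.adjugate *ᵥ (fun i => Polynomial.C (z i)) with hp
  have hpev : ∀ (t : ℂ) (i), (p i).eval t = ((A0 + t • A1).adjugate *ᵥ z) i := by
    intro t i
    rw [← hAev t, ← RingHom.map_adjugate]
    simp only [hp, Matrix.mulVec, dotProduct, Polynomial.eval_finsetSum, Polynomial.eval_mul,
      Polynomial.eval_C]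
    rfl
  have hmain : ∀ t ∈ S, ∀ X : V, L0 X + t • L1 X = y →
      ∑ i, (p i).eval t • b i = d.eval t • X := by
    intro t _ X hX
    have h1 : (A0 + t • A1) *ᵥ (b.repr X) = z := by
      rw [hAt t, LinearMap.toMatrix_mulVec_repr, hz]
      funext i
      congr 2
      rw [← hX]
      simp
    have h2 : ∀ i, (p i).eval t = d.eval t * b.repr X i := by
      intro i
      rw [hpev, ← h1, Matrix.mulVec_mulVec, Matrix.adjugate_mul, hdev, Matrix.smul_mulVec,
        Matrix.one_mulVec]
      rfl
    simp only [h2, mul_smul]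
    rw [← Finset.smul_sum, b.sum_repr]
  -- polynomial identity for each functional
  have hpoly : ∀ f : Module.Dual ℂ W,
      ∑ i, p i * (Polynomial.C (f (L0 (b i))) + Polynomial.X * Polynomial.C (f (L1 (b i)))) =
        d * Polynomial.C (f y) := by
    intro f
    refine Polynomial.eq_of_infinite_eval_eq _ _ (hS.mono fun t ht => ?_)
    obtain ⟨X, hX⟩ := h t ht
    have h1 := hmain t ht X hX
    have h2 : L0 (d.eval t • X) + t • L1 (d.eval t • X) = d.eval t • y := by
      rw [map_smul, map_smul, smul_comm t, ← smul_add, hX]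
    rw [← h1] at h2
    have h3 := congrArg f h2
    simp only [map_add, map_sum, map_smul, smul_eq_mul, Finset.mul_sum] at h3
    simp only [Set.mem_ofPred_eq, Polynomial.eval_finsetSum, Polynomial.eval_mul,
      Polynomial.eval_add, Polynomial.eval_C, Polynomial.eval_X]
    rw [← h3, ← Finset.sum_add_distrib]
    refine Finset.sum_congr rfl fun i _ => ?_
    ring
  refine ⟨fun n => ∑ i, (p i).coeff n • b i, fun n => d.coeff n, ?_, ?_, ?_⟩
  · by_contra hcon
    push Not at hcon
    exact hd0 (Polynomial.ext fun n => by rw [hcon n, Polynomial.coeff_zero])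
  · rw [← sub_eq_zero]
    refine (Module.forall_dual_apply_eq_zero_iff ℂ _).1 fun f => ?_
    have h1 := congrArg (fun q => Polynomial.coeff q 0) (hpoly f)
    simp only [Polynomial.finsetSum_coeff, mul_add, Polynomial.coeff_add,
      Polynomial.coeff_mul_C] at h1
    have h2 : ∀ i, (p i * (Polynomial.X * Polynomial.C (f (L1 (b i))))).coeff 0 = 0 := by
      intro i
      rw [show p i * (Polynomial.X * Polynomial.C (f (L1 (b i)))) =
        (p i * Polynomial.C (f (L1 (b i)))) * Polynomial.X by ring, Polynomial.coeff_mul_X_zero]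
    simp only [h2, add_zero] at h1
    rw [map_sub, map_sum, map_sum, map_smul, smul_eq_mul, ← h1, sub_eq_zero]
    refine Finset.sum_congr rfl fun i _ => ?_
    rw [map_smul, map_smul, smul_eq_mul]
  · intro n
    rw [← sub_eq_zero]
    refine (Module.forall_dual_apply_eq_zero_iff ℂ _).1 fun f => ?_
    have h1 := congrArg (fun q => Polynomial.coeff q (n + 1)) (hpoly f)
    simp only [Polynomial.finsetSum_coeff, mul_add, Polynomial.coeff_add,
      Polynomial.coeff_mul_C] at h1
    have h2 : ∀ i, (p i * (Polynomial.X * Polynomial.C (f (L1 (b i))))).coeff (n + 1) =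
        (p i).coeff n * f (L1 (b i)) := by
      intro i
      rw [show p i * (Polynomial.X * Polynomial.C (f (L1 (b i)))) =
        (p i * Polynomial.C (f (L1 (b i)))) * Polynomial.X by ring, Polynomial.coeff_mul_X,
        Polynomial.coeff_mul_C]
    simp only [h2] at h1
    rw [map_sub, map_add, map_sum, map_sum, map_sum, map_sum, map_smul, smul_eq_mul, ← h1,
      sub_eq_zero, Finset.sum_add_distrib]
    congr 1
    · refine Finset.sum_congr rfl fun i _ => ?_
      rw [map_smul, map_smul, smul_eq_mul]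
    · refine Finset.sum_congr rfl fun i _ => ?_
      rw [map_smul, map_smul, smul_eq_mul]

theorem jet {V W : Type*} [AddCommGroup V] [Module ℂ V] [FiniteDimensional ℂ V]
    [AddCommGroup W] [Module ℂ W] [FiniteDimensional ℂ W] (L0 L1 : V →ₗ[ℂ] W) (y : W) (S : Set ℂ)
    (hS : S.Infinite) (h : ∀ t ∈ S, ∃ X : V, L0 X + t • L1 X = y)
    (hi : ∃ t : ℂ, ∀ X : V, L0 X + t • L1 X = 0 → X = 0) :
    ∃ (P : ℕ → V) (d : ℕ → ℂ), (P 0 ≠ 0 ∨ d 0 ≠ 0) ∧ L0 (P 0) = d 0 • y ∧
      ∀ n, L0 (P (n + 1)) + L1 (P n) = d (n + 1) • y := by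
  classical
  obtain ⟨p, e, ⟨n0, hn0⟩, h0, hs⟩ := jet_aux L0 L1 y S hS h hi
  have hex : ∃ n, p n ≠ 0 ∨ e n ≠ 0 := ⟨n0, Or.inr hn0⟩
  set m := Nat.find hex with hm
  refine ⟨fun n => p (n + m), fun n => e (n + m), ?_, ?_, ?_⟩
  · simpa using Nat.find_spec hex
  · simp only [zero_add]
    rcases Nat.eq_zero_or_pos m with hm0 | hmp
    · rw [hm0]; exact h0
    · have h1 := Nat.find_min hex (m := m - 1) (by omega)
      push Not at h1
      have h2 := hs (m - 1)
      rw [h1.1, map_zero, add_zero] at h2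
      have h3 : m - 1 + 1 = m := by omega
      rw [h3] at h2
      exact h2
  · intro n
    have h2 := hs (n + m)
    have h3 : n + 1 + m = n + m + 1 := by omega
    show L0 (p (n + 1 + m)) + L1 (p (n + m)) = e (n + 1 + m) • y
    rw [h3]
    exact h2

end Pool.Agent.ISB
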