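import Pool.Agent.ISB.Ker
import Pool.Agent.ISB.Jet

/-!
# ISB / JetD4: the Laurent expansion `X(t) = R / t + X0 + t X1 + t² X2 + …` of the solution of
`lie (F0 + t f) X(t) = f` at a `D4` member, `R = diag(-1/6, 0, 0, 1/3)`

PROOF.  `jet` with `V = M4`, `W = T3`, `L0 = lie (FD δ)`, `L1 = lie f`, `y = f` (`lie` is linear in the
tensor and in the matrix).  Entry `3 3 3` of `L0 (P 0) = d 0 • f`: `0 = d 0` (`lie_FD_333`, `f 3 3 3 = 1`),
so `P 0 ≠ 0`, and `lie_FD_ker`: `P 0 = diag(r, 0, 0, -2r)`, `r ≠ 0`, `δ r = 0`, so `δ = 0`.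
Entry `3 3 3` of `L0 (P 1) + L1 (P 0) = d 1 • f`: `lie f (P 0) 3 3 3 = 3 (f 3 3 3) (-2r) = -6r`, so
`d 1 = -6 r ≠ 0` and `P 0 = d 1 • Rm`.  Put `p n = (d 1)⁻¹ • P n`, `e n = (d 1)⁻¹ * d n`:
`p 0 = Rm`, `e 1 = 1`, `L0 (p (n+1)) + L1 (p n) = e (n+1) • f`.
`X0 = p 1 - e 2 • p 0`, `X1 = p 2 - e 2 • X0 - e 3 • p 0`,
`X2 = p 3 - e 2 • X1 - e 3 • X0 - e 4 • p 0`: using `L0 (p 0) = 0`,
`L0 X0 = f - L1 Rm`; `L0 X1 = (e 2 • f - L1 (p 1)) - e 2 • (f - L1 Rm) = - L1 X0`;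
`L0 X2 = (e 3 • f - L1 (p 2)) + e 2 • L1 X0 - e 3 • (f - L1 Rm) = - L1 X1`.
-/

set_option autoImplicit false

noncomputable section

namespace Pool.Agent.ISB

open Matrix Pool.Agent.ISO

theorem lie_add_left (T T' : T3) (X : M4) : lie (T + T') X = lie T X + lie T' X := by
  funext i j k
  simp only [lie, Pi.add_apply]
  rw [← Finset.sum_add_distrib]
  refine Finset.sum_congr rfl fun a _ => ?_
  ring

theorem lie_smul_left (s : ℂ) (T : T3) (X : M4) : lie (s • T) X = s • lie T X := by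
  funext i j k
  simp only [lie, Pi.smul_apply, smul_eq_mul]
  rw [Finset.mul_sum]
  refine Finset.sum_congr rfl fun a _ => ?_
  ring

/-- `lie T` as a linear map. -/
def lieL (T : T3) : M4 →ₗ[ℂ] T3 where
  toFun X := lie T X
  map_add' := by
    intro X Y
    funext i j k
    simp only [lie, Pi.add_apply, Matrix.add_apply]
    rw [← Finset.sum_add_distrib]
    refine Finset.sum_congr rfl fun a _ => ?_
    ring
  map_smul' := by
    intro s X
    funext i j k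
    simp only [lie, Pi.smul_apply, Matrix.smul_apply, smul_eq_mul, RingHom.id_apply]
    rw [Finset.mul_sum]
    refine Finset.sum_congr rfl fun a _ => ?_
    ring

theorem lieL_apply (T : T3) (X : M4) : lieL T X = lie T X := rfl

/-- The algebra of the normalisation of the jets. -/
theorem jetsD4_alg (L0 L1 : M4 →ₗ[ℂ] T3) (f : T3) (R p1 p2 p3 : M4) (e2 e3 : ℂ) (k0 : L0 R = 0)
    (k1 : L0 p1 = f - L1 R) (k2 : L0 p2 = e2 • f - L1 p1) (k3 : L0 p3 = e3 • f - L1 p2) :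
    L0 (p1 - e2 • R) = f - L1 R ∧
    L0 (p2 - e2 • (p1 - e2 • R) - e3 • R) = - L1 (p1 - e2 • R) ∧
    L0 (p3 - e2 • (p2 - e2 • (p1 - e2 • R) - e3 • R) - e3 • (p1 - e2 • R)) =
      - L1 (p2 - e2 • (p1 - e2 • R) - e3 • R) := by
  have m0 : L0 (p1 - e2 • R) = f - L1 R := by
    rw [map_sub, map_smul, k0, k1, smul_zero, sub_zero]
  have m1 : L0 (p2 - e2 • (p1 - e2 • R) - e3 • R) = - L1 (p1 - e2 • R) := by
    rw [map_sub, map_sub, map_smul, map_smul, k0, m0, k2, map_sub, map_smul]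
    module
  refine ⟨m0, m1, ?_⟩
  have h1 : L1 (p2 - e2 • (p1 - e2 • R) - e3 • R) = L1 p2 - e2 • L1 (p1 - e2 • R) - e3 • L1 R := by
    rw [map_sub, map_sub, map_smul, map_smul]
  rw [h1, map_sub, map_sub, map_smul, map_smul, m0, m1, k3]
  module

theorem jetsD4 (δ : ℂ) (f : T3) (h3 : f 3 3 3 = 1) (S : Set ℂ) (hS : S.Infinite)
    (h : ∀ t ∈ S, ∃ X, f = lie (FD δ + t • f) X)
    (hi : ∃ t : ℂ, ∀ X, lie (FD δ + t • f) X = 0 → X = 0) :
    δ = 0 ∧ ∃ X0 X1 X2 : M4, lie (G4 0) X0 + lie f Rm = f ∧ lie (G4 0) X1 + lie f X0 = 0 ∧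
      lie (G4 0) X2 + lie f X1 = 0 := by
  obtain ⟨P, d, hP, h0, hn⟩ := jet (lieL (FD δ)) (lieL f) f S hS
    (fun t ht => by
      obtain ⟨X, hX⟩ := h t ht
      refine ⟨X, ?_⟩
      rw [lie_add_left, lie_smul_left] at hX
      exact hX.symm)
    (by
      obtain ⟨t, ht⟩ := hi
      refine ⟨t, fun X hX => ht X ?_⟩
      rw [lie_add_left, lie_smul_left]
      exact hX)
  have hd0 : d 0 = 0 := by
    have h1 := congrFun (congrFun (congrFun h0 3) 3) 3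
    have h2 : lieL (FD δ) (P 0) 3 3 3 = 0 := lie_FD_333 δ (P 0)
    have h4 : (d 0 • f) 3 3 3 = d 0 * f 3 3 3 := rfl
    rw [h2, h4, h3, mul_one] at h1
    exact h1.symm
  have hP0 : P 0 ≠ 0 := hP.resolve_right (fun h1 => h1 hd0)
  have h00 : lie (FD δ) (P 0) = 0 := by
    have h1 : lie (FD δ) (P 0) = d 0 • f := h0
    rw [h1, hd0, zero_smul]
  obtain ⟨hr1, hr2⟩ := lie_FD_ker δ (P 0) h00
  have hr : P 0 0 0 ≠ 0 := by
    intro h1
    apply hP0
    rw [hr2, h1]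
    ext i j
    fin_cases i <;> fin_cases j <;> simp [Matrix.diagonal]
  have hδ : δ = 0 := (mul_eq_zero.mp hr1).resolve_right hr
  refine ⟨hδ, ?_⟩
  subst hδ
  rw [FD_zero] at h0 hn h00
  have hL : lie f (P 0) 3 3 3 = -6 * P 0 0 0 := by
    rw [hr2]
    simp only [lie, Fin.sum_univ_four, Matrix.diagonal_apply, h3]
    simp
    ring
  have hd1 : d 1 = -6 * P 0 0 0 := by
    have h1 := congrFun (congrFun (congrFun (hn 0) 3) 3) 3
    have h2 : lieL (G4 0) (P (0 + 1)) 3 3 3 = 0 := by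
      have h5 := lie_FD_333 0 (P (0 + 1))
      rw [FD_zero] at h5
      exact h5
    have h4 : (d (0 + 1) • f) 3 3 3 = d 1 * f 3 3 3 := rfl
    have h5 : (lieL (G4 0) (P (0 + 1)) + lieL f (P 0)) 3 3 3 =
      lieL (G4 0) (P (0 + 1)) 3 3 3 + lie f (P 0) 3 3 3 := rfl
    rw [h5, h2, hL, h4, h3, mul_one, zero_add] at h1
    exact h1.symm
  have hd1' : d 1 ≠ 0 := by
    rw [hd1]
    exact mul_ne_zero (by norm_num) hr
  have hPR : P 0 = d 1 • Rm := by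
    rw [hd1, hr2, Rm]
    ext i j
    fin_cases i <;> fin_cases j <;> simp [Matrix.diagonal] <;> ring
  set c : ℂ := (d 1)⁻¹ with hc
  have hcd : c * d 1 = 1 := inv_mul_cancel₀ hd1'
  have hp0 : c • P 0 = Rm := by rw [hPR, smul_smul, hcd, one_smul]
  have k0 : lieL (G4 0) Rm = 0 := by
    rw [← hp0, map_smul]
    have h1 : lieL (G4 0) (P 0) = 0 := h00
    rw [h1, smul_zero]
  have kn : ∀ n, lieL (G4 0) (c • P (n + 1)) = (c * d (n + 1)) • f - lieL f (c • P n) := by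
    intro n
    rw [map_smul, map_smul, mul_smul, ← hn n, smul_add]
    abel
  have k1 := kn 0
  have k2 := kn 1
  have k3 := kn 2
  simp only [zero_add] at k1
  rw [hp0, hcd, one_smul] at k1
  obtain ⟨m0, m1, m2⟩ := jetsD4_alg (lieL (G4 0)) (lieL f) f Rm (c • P 1) (c • P (1 + 1))
    (c • P (2 + 1)) (c * d (1 + 1)) (c * d (2 + 1)) k0 k1 k2 k3
  generalize c • P 1 = p1 at *
  generalize c • P (1 + 1) = p2 at *
  generalize c • P (2 + 1) = p3 at *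
  generalize c * d (1 + 1) = e2 at *
  generalize c * d (2 + 1) = e3 at *
  refine ⟨p1 - e2 • Rm, p2 - e2 • (p1 - e2 • Rm) - e3 • Rm,
    p3 - e2 • (p2 - e2 • (p1 - e2 • Rm) - e3 • Rm) - e3 • (p1 - e2 • Rm), ?_, ?_, ?_⟩
  · have h1 : lie (G4 0) (p1 - e2 • Rm) = f - lie f Rm := m0
    rw [h1, sub_add_cancel]
  · have h1 : lie (G4 0) (p2 - e2 • (p1 - e2 • Rm) - e3 • Rm) = - lie f (p1 - e2 • Rm) := m1
    rw [h1, neg_add_cancel]
  · have h1 : lie (G4 0) (p3 - e2 • (p2 - e2 • (p1 - e2 • Rm) - e3 • Rm) -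
      e3 • (p1 - e2 • Rm)) = - lie f (p2 - e2 • (p1 - e2 • Rm) - e3 • Rm) := m2
    rw [h1, neg_add_cancel]

end Pool.Agent.ISB
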