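import Pool.Agent.ISB.Ker
import Pool.Agent.ISO.LocLim

/-!
# ISB / NF: normal form of a `D4` member (with the term `δ x y z`)

PROOF.  `IsD4` gives `g0` with `act T g0 = x² w + a x y² + b x y z + c x z² + y³ + z³`,
`κ = act T1 g0 3 3 3 ≠ 0`.  Substitute `y ↦ y - a x / 3`, `z ↦ z - c x / 3`,
`w ↦ w + γ x + α y + β z` with `α = a² / 3 + b c / 3`, `β = c² / 3 + a b / 3`,
`γ = -(2 a³ / 27 + 2 c³ / 27 + a b c / 9)`: matrix `g1 = !![1, 0, 0, 0; -a/3, 1, 0, 0; -c/3, 0, 1, 0;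
γ, α, β, 1]`; the result is `x² w + b x y z + y³ + z³` and the entry `3 3 3` of `T1` does not change
(`g1 e_3 = e_3`).  Then `g2 = diagonal ![λ, 1, 1, λ⁻²]`, `λ⁶ = κ`: `FD b ↦ FD (λ b)` and the entry
`3 3 3` becomes `κ λ⁻⁶ = 1`.  `g = g0 * g1 * g2` (`act_act`).
-/

set_option autoImplicit false

noncomputable section

namespace Pool.Agent.ISB

open Matrix Pool.Agent.ISO

private def nfE (a b c : Fin 4) : T3 := fun i j k =>
  (if i = a then 1 else 0) * (if j = b then 1 else 0) * (if k = c then 1 else 0)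

private theorem nf_mon3_E (a b c : Fin 4) : mon3 a b c = (1 / 6 : ℂ) •
    (nfE a b c + nfE a c b + nfE b a c + nfE b c a + nfE c a b + nfE c b a) := by
  have h : ∀ (P Q R : Prop) [Decidable P] [Decidable Q] [Decidable R],
      (if P ∧ Q ∧ R then (1 : ℂ) else 0) =
        (if P then 1 else 0) * (if Q then 1 else 0) * (if R then 1 else 0) := by
    intro P Q R _ _ _
    split_ifs with h1 h2 h3 h4 <;> simp_all
  funext i j k
  simp only [mon3, h, Pi.smul_apply, Pi.add_apply, nfE, smul_eq_mul]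
  ring

private theorem nf_act_E (a b c : Fin 4) (g : M4) (i j k : Fin 4) :
    act (nfE a b c) g i j k = g a i * g b j * g c k := by
  simp [act, nfE]

private theorem nf_act_mon3 (a b c : Fin 4) (g : M4) (i j k : Fin 4) :
    act (mon3 a b c) g i j k = (g a i * g b j * g c k + g a i * g c j * g b k +
      g b i * g a j * g c k + g b i * g c j * g a k + g c i * g a j * g b k +
      g c i * g b j * g a k) / 6 := by
  rw [nf_mon3_E, act_smul]
  simp only [act_add, Pi.smul_apply, Pi.add_apply, nf_act_E, smul_eq_mul]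
  ring

/-- The substitution. -/
private def nfG (a c α β γ : ℂ) : M4 :=
  !![1, 0, 0, 0; -(a / 3), 1, 0, 0; -(c / 3), 0, 1, 0; γ, α, β, 1]

private theorem nfG_det (a c α β γ : ℂ) : (nfG a c α β γ).det = 1 := by
  simp only [nfG]
  rw [Matrix.det_succ_row_zero]
  simp [Fin.sum_univ_succ, Matrix.det_fin_three, Fin.succAbove]

private theorem nf_sub (a b c α β γ : ℂ) (hα : α = a ^ 2 / 3 + b * c / 3)
    (hβ : β = c ^ 2 / 3 + a * b / 3)
    (hγ : γ = -(2 * a ^ 3 / 27 + 2 * c ^ 3 / 27 + a * b * c / 9)) :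
    act (mon3 0 0 3 + a • mon3 0 1 1 + b • mon3 0 1 2 + c • mon3 0 2 2 +
      (mon3 1 1 1 + mon3 2 2 2)) (nfG a c α β γ) = FD b := by
  subst hα hβ hγ
  funext i j k
  simp only [act_add, act_smul, Pi.add_apply, Pi.smul_apply, nf_act_mon3, FD, smul_eq_mul]
  fin_cases i <;> fin_cases j <;> fin_cases k <;> simp [nfG, mon3] <;> ring

private theorem nf_diag (b l : ℂ) (hl : l ≠ 0) :
    act (FD b) (Matrix.diagonal ![l, 1, 1, (l ^ 2)⁻¹]) = FD (l * b) := by
  funext i j k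
  rw [act_diagonal]
  fin_cases i <;> fin_cases j <;> fin_cases k <;> simp [FD, mon3] <;> field_simp

theorem nfD4 (T T1 : T3) (h : IsD4 T T1) :
    ∃ (g : M4) (δ : ℂ), g.det ≠ 0 ∧ act T g = FD δ ∧ act T1 g 3 3 3 = 1 := by
  obtain ⟨g0, hg0, hκ, a, b, c, hF⟩ := h
  obtain ⟨l, hl⟩ := IsAlgClosed.exists_pow_nat_eq (act T1 g0 3 3 3) (n := 6) (by norm_num)
  have hl0 : l ≠ 0 := by
    rintro rfl
    exact hκ (by rw [← hl]; norm_num)
  set α : ℂ := a ^ 2 / 3 + b * c / 3 with hα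
  set β : ℂ := c ^ 2 / 3 + a * b / 3 with hβ
  set γ : ℂ := -(2 * a ^ 3 / 27 + 2 * c ^ 3 / 27 + a * b * c / 9) with hγ
  refine ⟨g0 * nfG a c α β γ * Matrix.diagonal ![l, 1, 1, (l ^ 2)⁻¹], l * b, ?_, ?_, ?_⟩
  · rw [det_mul, det_mul, nfG_det, det_diagonal, mul_one]
    refine mul_ne_zero hg0 ?_
    rw [Fin.prod_univ_four]
    simp [hl0]
  · rw [← act_act, ← act_act, hF, nf_sub a b c α β γ hα hβ hγ, nf_diag b l hl0]
  · rw [← act_act, act_diagonal, ← act_act]
    have h1 : act (act T1 g0) (nfG a c α β γ) 3 3 3 = act T1 g0 3 3 3 := by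
      unfold act
      simp [Fin.sum_univ_four, nfG]
    rw [h1, ← hl]
    simp
    field_simp

end Pool.Agent.ISB
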