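import Pool.Agent.ISB.Cons1
import Pool.Agent.ISO.Main

/-!
# ISB / Split: the split cases contain a cone

PROOF.  `split_y`: the member `T = - r0 • G4 0 + 1 • p.T` has no monomial containing `y`
(`r3 = r0` is not needed for this; the coefficients of `y³`, `y² z`, `y z²`, `x y²`, `x² y`, `x y w`,
`y² w`, are `r0 - r0`, `r1`, `r2`, `r11`, `s1`, `B1`, `D1`), so `T 1 j k = 0` for all `j, k`:
`grad T e_1 = 0` and `pol T e_1 = 0` for `e_1 = Pi.single 1 1`, contradiction to `noC` with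
`(a, b) = (-r0, 1)`.  `split_z`: the same with `T = - r3 • G4 0 + 1 • p.T` and `e_2`.
-/

set_option autoImplicit false

noncomputable section

namespace Pool.Agent.ISB

open Matrix Pool.Agent.ISO

private theorem no_row (T0 T1 : T3) (h : Pen T0 T1) (a : ℂ) (m : Fin 4)
    (hT : ∀ j k, (a • T0 + (1 : ℂ) • T1) m j k = 0) : False := by
  have hp : (Pi.single m 1 : Fin 4 → ℂ) ≠ 0 := by
    intro h1
    have h2 := congrFun h1 m
    rw [Pi.single_eq_same] at h2
    exact one_ne_zero h2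
  obtain ⟨T, hTe⟩ : ∃ T : T3, T = a • T0 + (1 : ℂ) • T1 := ⟨_, rfl⟩
  rw [← hTe] at hT
  have hg : grad T (Pi.single m 1) = 0 := by
    funext k
    show ∑ i, ∑ j, T i j k * (Pi.single m 1 : Fin 4 → ℂ) i * (Pi.single m 1 : Fin 4 → ℂ) j = 0
    refine Finset.sum_eq_zero fun i _ => Finset.sum_eq_zero fun j _ => ?_
    by_cases hi : i = m
    · rw [hi, hT, zero_mul, zero_mul]
    · rw [Pi.single_eq_of_ne hi, mul_zero, zero_mul]
  have hq : pol T (Pi.single m 1) = 0 := by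
    ext j k
    show ∑ i, T i j k * (Pi.single m 1 : Fin 4 → ℂ) i = 0
    refine Finset.sum_eq_zero fun i _ => ?_
    by_cases hi : i = m
    · rw [hi, hT, zero_mul]
    · rw [Pi.single_eq_of_ne hi, mul_zero]
  refine h.noC a 1 (fun h1 => one_ne_zero (congrArg Prod.snd h1)) (Pi.single m 1) hp ?_ ?_
  · rw [← hTe]
    exact hg
  · rw [← hTe]
    exact hq

theorem split_y (p : Par) (h : Pen (G4 0) p.T) (hB1 : p.B1 = 0) (hD1 : p.D1 = 0) (hr1 : p.r1 = 0)
    (hr2 : p.r2 = 0) (hr11 : p.r11 = 0) (hs1 : p.s1 = 0) : False := by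
  refine no_row (G4 0) p.T h (-p.r0) 1 fun j k => ?_
  fin_cases j <;> fin_cases k <;>
    simp [G4, Par.T, mon3, hB1, hD1, hr1, hr2, hr11, hs1]

theorem split_z (p : Par) (h : Pen (G4 0) p.T) (hB2 : p.B2 = 0) (hD2 : p.D2 = 0) (hr1 : p.r1 = 0)
    (hr2 : p.r2 = 0) (hr22 : p.r22 = 0) (hs2 : p.s2 = 0) : False := by
  refine no_row (G4 0) p.T h (-p.r3) 2 fun j k => ?_
  fin_cases j <;> fin_cases k <;>
    simp [G4, Par.T, mon3, hB2, hD2, hr1, hr2, hr22, hs2]

end Pool.Agent.ISB
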