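import Pool.Agent.ISB.Cons1
import Pool.Agent.ISO.Stab
import Pool.Agent.ISO.Main

/-!
# ISB / Swap: linear substitutions; exchange of `y` and `z`

PROOF.  `lie_act`: `lie (act T g) (g⁻¹ * X * g) = act (lie T X) g`: expand; with `Y = g⁻¹ X g`,
`g Y = X g`, and `lie (act T g) Y i j k = ∑ (T a b c (g Y) a i g b j g c k + ...)`.
`Pen.act`: `ev_act`, `grad_act` (`grad (act T g) p = gᵀ grad T (g p)`), `pol_act`
(`pol (act T g) p = gᵀ pol T (g p) g`), `act_add`, `act_smul`; linear independence is preserved by the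
invertible `gᵀ`; `2 × 2` minors as in `pr1_act` (all minors of `M` vanish iff `M i k = u i * v k`), converse
direction by `g⁻¹`.
`swap_act`: `act_mon3`-type computation or `funext` + `fin_cases` with `simp [act, mon3, Fin.sum_univ_four]`
(`P` is a permutation matrix: `act T P i j k = T (σ i) (σ j) (σ k)`, `σ = swap 1 2`).
`Jt.swap`: conjugate `X0, X1, X2` by `P`; `P⁻¹ = P`, `P * Rm * P = Rm`.
-/

set_option autoImplicit false

noncomputable section

namespace Pool.Agent.ISB

open Matrix Pool.Agent.ISO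

theorem lie_act (T : T3) (g X : M4) (hg : g.det ≠ 0) :
    lie (act T g) (g⁻¹ * X * g) = act (lie T X) g := by
  apply Pool.Agent.ISO.lie_act
  rw [← Matrix.mul_assoc, ← Matrix.mul_assoc, Matrix.mul_nonsing_inv g (isUnit_iff_ne_zero.2 hg),
    Matrix.one_mul]

private theorem grad_act_eq (T : T3) (g : M4) (v : Fin 4 → ℂ) :
    grad (act T g) v = g.transpose.mulVec (grad T (g.mulVec v)) := by
  funext k
  rw [grad_act]
  rfl

private theorem mv_ne {g : M4} (hg : g.det ≠ 0) {p : Fin 4 → ℂ} (hp : p ≠ 0) :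
    g.mulVec p ≠ 0 := by
  intro h0
  apply hp
  have hu : IsUnit g := (Matrix.isUnit_iff_isUnit_det g).2 (isUnit_iff_ne_zero.2 hg)
  apply Matrix.mulVec_injective_iff_isUnit.2 hu
  rw [h0, Matrix.mulVec_zero]

private theorem tr_zero {g : M4} (hg : g.det ≠ 0) {p : Fin 4 → ℂ}
    (hp : g.transpose.mulVec p = 0) : p = 0 := by
  by_contra h
  exact mv_ne (g := g.transpose) (by rwa [Matrix.det_transpose]) h hp

private theorem minors_conj (g M : M4) (hm : ∀ i j k l, M i k * M j l = M i l * M j k) :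
    ∀ i j k l, (g.transpose * M * g) i k * (g.transpose * M * g) j l =
      (g.transpose * M * g) i l * (g.transpose * M * g) j k := by
  by_cases hz : ∀ a b, M a b = 0
  · have hM : M = 0 := by
      ext a b
      exact hz a b
    intro i j k l
    rw [hM]
    simp
  · push Not at hz
    obtain ⟨i0, k0, hne⟩ := hz
    have key : ∀ i k, (g.transpose * M * g) i k * M i0 k0 =
        (∑ a, g a i * M a k0) * (∑ b, M i0 b * g b k) := by
      intro i k
      rw [Matrix.mul_apply, Finset.sum_mul_sum, Finset.sum_mul, Finset.sum_comm]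
      refine Finset.sum_congr rfl fun b _ => ?_
      rw [Matrix.mul_apply, Finset.sum_mul, Finset.sum_mul]
      refine Finset.sum_congr rfl fun a _ => ?_
      rw [Matrix.transpose_apply]
      linear_combination g a i * g b k * hm a i0 b k0
    intro i j k l
    have h2 : M i0 k0 * M i0 k0 ≠ 0 := mul_ne_zero hne hne
    apply mul_right_cancel₀ h2
    calc (g.transpose * M * g) i k * (g.transpose * M * g) j l * (M i0 k0 * M i0 k0) =
        ((g.transpose * M * g) i k * M i0 k0) * ((g.transpose * M * g) j l * M i0 k0) := by ring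
      _ = ((g.transpose * M * g) i l * M i0 k0) * ((g.transpose * M * g) j k * M i0 k0) := by
        rw [key, key, key, key]
        ring
      _ = _ := by ring

theorem pen_act {T0 T1 : T3} (h : Pen T0 T1) (g : M4) (hg : g.det ≠ 0) :
    Pen (act T0 g) (act T1 g) := by
  have hlin : ∀ a b : ℂ, a • act T0 g + b • act T1 g = act (a • T0 + b • T1) g := by
    intro a b
    rw [act_add, act_smul, act_smul]
  refine ⟨isSym_act h.s0 g, isSym_act h.s1 g, ?_, ?_, ?_⟩
  · intro v hv e0 e1
    rw [ev_act] at e0 e1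
    have hl := h.base _ (mv_ne hg hv) e0 e1
    rw [LinearIndependent.pair_iff] at hl ⊢
    intro s t hst
    apply hl
    apply tr_zero hg
    rw [Matrix.mulVec_add, Matrix.mulVec_smul, Matrix.mulVec_smul, ← grad_act_eq, ← grad_act_eq]
    exact hst
  · intro a b hab p hp hgr
    rw [hlin] at hgr ⊢
    rw [grad_act_eq] at hgr
    have hm := h.noA a b hab _ (mv_ne hg hp) (tr_zero hg hgr)
    rw [pol_act]
    exact minors_conj g _ hm
  · intro a b hab p hp hgr
    rw [hlin] at hgr ⊢
    rw [grad_act_eq] at hgr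
    have hm := h.noC a b hab _ (mv_ne hg hp) (tr_zero hg hgr)
    rw [pol_act]
    intro h0
    apply hm
    have hu : IsUnit g.det := isUnit_iff_ne_zero.2 hg
    have hu' : IsUnit g.transpose.det := by rwa [Matrix.det_transpose]
    calc pol (a • T0 + b • T1) (g.mulVec p) =
        g.transpose⁻¹ * (g.transpose * pol (a • T0 + b • T1) (g.mulVec p) * g) * g⁻¹ := by
          rw [Matrix.mul_assoc, Matrix.mul_assoc _ g, Matrix.mul_nonsing_inv g hu, Matrix.mul_one,
            ← Matrix.mul_assoc, Matrix.nonsing_inv_mul _ hu', Matrix.one_mul]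
      _ = 0 := by rw [h0, Matrix.mul_zero, Matrix.zero_mul]

/-- The exchange of `y` and `z`. -/
def Pm : M4 := !![1, 0, 0, 0; 0, 0, 1, 0; 0, 1, 0, 0; 0, 0, 0, 1]

private theorem Pm_sq : Pm * Pm = 1 := by
  ext i j
  fin_cases i <;> fin_cases j <;> simp [Pm, Matrix.mul_apply, Fin.sum_univ_four]

theorem det_Pm : Pm.det ≠ 0 := by
  have h : Pm.det * Pm.det = 1 := by
    rw [← Matrix.det_mul, Pm_sq, Matrix.det_one]
  exact left_ne_zero_of_mul_eq_one h

/-- the exchange of `1` and `2` -/
private def sg : Fin 4 → Fin 4 := ![0, 2, 1, 3]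

private theorem sg_sg (i a : Fin 4) : sg i = a ↔ i = sg a := by
  revert i a
  decide

private theorem Pm_apply (a i : Fin 4) : Pm a i = if a = sg i then 1 else 0 := by
  fin_cases a <;> fin_cases i <;> simp [Pm, sg]

private theorem act_Pm (T : T3) (i j k : Fin 4) :
    act T Pm i j k = T (sg i) (sg j) (sg k) := by
  simp [act, Pm_apply]

private theorem act_mon3_Pm (a b c : Fin 4) :
    act (mon3 a b c) Pm = mon3 (sg a) (sg b) (sg c) := by
  funext i j k
  rw [act_Pm]
  simp only [mon3, sg_sg]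

private theorem mon3_rev (a b c : Fin 4) : mon3 a b c = mon3 c b a := by
  funext i j k
  simp only [mon3]
  ring

private theorem sg0 : sg 0 = 0 := rfl

private theorem sg1 : sg 1 = 2 := rfl

private theorem sg2 : sg 2 = 1 := rfl

private theorem sg3 : sg 3 = 3 := rfl

theorem act_G4_Pm : act (G4 0) Pm = G4 0 := by
  simp only [G4, act_add, act_smul, act_mon3_Pm, sg0, sg1, sg2, sg3]
  abel

theorem act_Par_Pm (p : Par) : act p.T Pm = p.swap.T := by
  simp only [Par.T, Par.swap, act_add, act_smul, act_mon3_Pm, sg0, sg1, sg2, sg3]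
  rw [mon3_rev 2 2 1, mon3_rev 2 1 1]
  abel

private theorem lie_Pm (T : T3) (X : M4) : lie (act T Pm) (Pm * X * Pm) = act (lie T X) Pm := by
  apply Pool.Agent.ISO.lie_act
  rw [← Matrix.mul_assoc, ← Matrix.mul_assoc, Pm_sq, Matrix.one_mul]

private theorem lie_Rm_Pm (T : T3) : lie (act T Pm) Rm = act (lie T Rm) Pm := by
  apply Pool.Agent.ISO.lie_act
  ext i j
  fin_cases i <;> fin_cases j <;> simp [Pm, Rm, Matrix.mul_apply, Fin.sum_univ_four]

private theorem act_zero_Pm : act (0 : T3) Pm = 0 := by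
  funext i j k
  rw [act_Pm]
  rfl

theorem Jt.swap (p : Par) (h : Jt p.T) : Jt p.swap.T := by
  obtain ⟨X0, X1, X2, h0, h1, h2⟩ := h
  have hG : ∀ X : M4, lie (G4 0) (Pm * X * Pm) = act (lie (G4 0) X) Pm := by
    intro X
    rw [← lie_Pm, act_G4_Pm]
  refine ⟨Pm * X0 * Pm, Pm * X1 * Pm, Pm * X2 * Pm, ?_, ?_, ?_⟩
  · rw [hG, ← act_Par_Pm, lie_Rm_Pm, ← act_add, h0]
  · rw [hG, ← act_Par_Pm, lie_Pm, ← act_add, h1, act_zero_Pm]
  · rw [hG, ← act_Par_Pm, lie_Pm, ← act_add, h2, act_zero_Pm]

end Pool.Agent.ISB
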