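import Pool.Agent.ISB.Alg
import Pool.Agent.ISB.Swap
import Pool.Agent.ISB.Split
import Pool.Agent.ISB.NF
import Pool.Agent.ISB.JetD4
import Pool.Agent.ISB.Ds
import Pool.Agent.ISO.LieInj

/-!
# ISB / D4nf: every `D4` member of a pencil without nodal quartic is bad

PROOF.  `nfD4` for `T = T0 + z T1`: `g0`, `δ` with `act T g0 = FD δ`, `f = act T1 g0`, `f 3 3 3 = 1`.
For `t ∈ S`: `FD δ + (t - z) • f = act (T0 + t T1) g0` is smooth (`sm_act`), so `lie _ X = 0 → X = 0`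
(`lie_inj`), and `f = lie (FD δ + (t - z) f) (g0⁻¹ X g0)` (`lie_act`).  The set
`{t - z | t ∈ S}` is infinite.  `jetsD4`: `δ = 0` (`FD_zero`) and `Jt f`; `cons0`: `f = p.T`.
`¬ NQ (G4 0) p.T`: `NQ.of_act` and `NQ.of_change 1 z 0 1`.  `bad1`: `B1 B2 = 0`.
If `B2 = 0`, use `g = g0` and `bad2`.  If `B2 ≠ 0` then `B1 = 0`; use `g = g0 * Pm`, `p.swap`,
`Jt.swap`, `act_G4_Pm`, `act_Par_Pm` and `bad2` for `p.swap` (`(p.swap).B2 = p.B1 = 0`).
The other alternatives of `bad2` are impossible: `Pen (G4 0) p.T` by `Pen.change 1 z 0 1` and `pen_act`;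
`split_y`, `split_z`, and in the last case all entries of `G4 0`, `p.T` with one index in `{0, 3}` and
one in `{1, 2}` vanish (also the third index arbitrary), so `directSum` gives `NQ`.
-/

set_option autoImplicit false

noncomputable section

namespace Pool.Agent.ISB

open Matrix Pool.Agent.ISO

private theorem d4_pen {T0 T1 : T3} (h : Pen T0 T1) (z : ℂ) : Pen (T0 + z • T1) T1 := by
  have h1 := h.change 1 z 0 1 (by norm_num)
  rwa [one_smul, one_smul, zero_smul, zero_add] at h1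

private theorem d4_nq {T0 T1 : T3} (z : ℂ) (g : M4) (hg : g.det ≠ 0) (p : Par)
    (e0 : act (T0 + z • T1) g = G4 0) (e1 : act T1 g = p.T) (hn : ¬ NQ T0 T1) :
    ¬ NQ (G4 0) p.T := by
  intro h
  apply hn
  refine NQ.of_change 1 z 0 1 ?_
  rw [one_smul, one_smul, zero_smul, zero_add]
  refine NQ.of_act g hg ?_
  rw [e0, e1]
  exact h

private theorem d4_ds (p : Par) (hB1 : p.B1 = 0) (hB2 : p.B2 = 0) (hD1 : p.D1 = 0)
    (hD2 : p.D2 = 0) (hr11 : p.r11 = 0) (hr22 : p.r22 = 0) (hs1 : p.s1 = 0) (hs2 : p.s2 = 0)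
    (i j k : Fin 4) (hi : i = 0 ∨ i = 3) (hj : j = 1 ∨ j = 2) :
    G4 0 i j k = 0 ∧ p.T i j k = 0 := by
  unfold Par.T G4
  simp only [hB1, hB2, hD1, hD2, hr11, hr22, hs1, hs2, zero_smul, add_zero, Pi.add_apply,
    Pi.smul_apply, mon3, smul_eq_mul]
  rcases hi with rfl | rfl <;> rcases hj with rfl | rfl <;> fin_cases k <;> simp

private theorem d4_bad {T0 T1 : T3} (h : Pen T0 T1) (z : ℂ) (g : M4) (hg : g.det ≠ 0) (p : Par)
    (e0 : act (T0 + z • T1) g = G4 0) (e1 : act T1 g = p.T) (hn : ¬ NQ T0 T1) (hJ : Jt p.T)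
    (hB2 : p.B2 = 0) : Bad p := by
  have hn' := d4_nq z g hg p e0 e1 hn
  have hP : Pen (G4 0) p.T := by
    have h1 := pen_act (d4_pen h z) g hg
    rwa [e0, e1] at h1
  rcases bad2 p hJ hn' hB2 with h2 | ⟨hB1, hD1, -, hr1, hr2, hr11, hs1⟩ |
    ⟨hD2, hr1, hr2, hr22, hs2⟩ | ⟨hB1, hD1, hD2, hr11, hr22, hs1, hs2⟩
  · exact h2
  · exact (split_y p hP hB1 hD1 hr1 hr2 hr11 hs1).elim
  · exact (split_z p hP hB2 hD2 hr1 hr2 hr22 hs2).elim
  · exact absurd (directSum hP (d4_ds p hB1 hB2 hD1 hD2 hr11 hr22 hs1 hs2)) hn'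

theorem d4nf {T0 T1 : T3} (h : Pen T0 T1) (z : ℂ) (h4 : IsD4 (T0 + z • T1) T1) (S : Set ℂ)
    (hS : S.Infinite) (hSt : ∀ t ∈ S, Sm (T0 + t • T1) ∧ ∃ X, T1 = lie (T0 + t • T1) X)
    (hn : ¬ NQ T0 T1) :
    ∃ (g : M4) (p : Par), g.det ≠ 0 ∧ act (T0 + z • T1) g = G4 0 ∧ act T1 g = p.T ∧ Bad p := by
  obtain ⟨g, δ, hg, e0, e3⟩ := nfD4 _ _ h4
  have key : ∀ t : ℂ, act (T0 + t • T1) g = FD δ + (t - z) • act T1 g := by
    intro t
    rw [← e0, ← act_smul, ← act_add]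
    congr 1
    rw [sub_smul]
    abel
  have hsym : IsSym (act T1 g) := (pen_act h g hg).s1
  have hS' : ((fun t : ℂ => t - z) '' S).Infinite :=
    hS.image (fun a _ b _ hab => sub_left_injective hab)
  obtain ⟨hδ, hJ⟩ := jetsD4 δ (act T1 g) e3 _ hS' (by
    rintro _ ⟨t, ht, rfl⟩
    obtain ⟨hsm, X, hX⟩ := hSt t ht
    refine ⟨g⁻¹ * X * g, ?_⟩
    show act T1 g = lie (FD δ + (t - z) • act T1 g) (g⁻¹ * X * g)
    rw [← key, lie_act _ _ _ hg, ← hX]) (by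
    obtain ⟨t, ht⟩ := hS.nonempty
    obtain ⟨hsm, -⟩ := hSt t ht
    refine ⟨t - z, fun X hX => ?_⟩
    rw [← key] at hX
    exact lie_inj (sm_act hsm g hg) X hX)
  rw [hδ, FD_zero] at e0
  have hJt : Jt (act T1 g) := hJ
  obtain ⟨X0, X1, X2, hX0, -, -⟩ := hJ
  obtain ⟨p, hp⟩ := cons0 _ hsym e3 X0 hX0
  rw [hp] at hJt
  obtain ⟨hB, -, -, -⟩ := bad1 p hJt (d4_nq z g hg p e0 hp hn)
  by_cases hB2 : p.B2 = 0
  · exact ⟨g, p, hg, e0, hp, d4_bad h z g hg p e0 hp hn hJt hB2⟩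
  · have hB1 : p.B1 = 0 := (mul_eq_zero.1 hB).resolve_right hB2
    have hg' : (g * Pm).det ≠ 0 := by
      rw [Matrix.det_mul]
      exact mul_ne_zero hg det_Pm
    have e0' : act (T0 + z • T1) (g * Pm) = G4 0 := by
      rw [← act_act, e0, act_G4_Pm]
    have e1' : act T1 (g * Pm) = p.swap.T := by
      rw [← act_act, hp, act_Par_Pm]
    exact ⟨g * Pm, p.swap, hg', e0', e1', d4_bad h z (g * Pm) hg' p.swap e0' e1' hn
      (Jt.swap p hJt) hB1⟩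

end Pool.Agent.ISB
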