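import Pool.Agent.ISB.NQAct

/-!
# ISB / DsA: binary cubics and direct sums (definitions, tensor computations)

`Bc` = binary cubics `a X³ + 3 b X² Y + 3 c X Y² + d Y³`; `tri` the symmetric trilinear form;
`sub p q` the form in the basis `p, q`; `lin s t f g = s f + t g`; `hes` the Hessian;
`Kr e`: the vector `e` is in the kernel of the trilinear form (then `f` is a cube or zero);
`Dr e`: `e` is a double root.  `ds f g` is the tensor of `f (x, w) + g (y, z)` (indices `0, 3` and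
`1, 2`), `blk p q r s` the block matrix `e_0 ↦ p, e_3 ↦ q, e_1 ↦ r, e_2 ↦ s`.

PROOFS.
`act_ds_gen`: unfold, `Fin.sum_univ_four`, values of `cx`, `cy`, `ring` (no case distinction on `i j k`).
`act_ds`: `act_ds_gen`, then `funext i j k`, `fin_cases i, j, k`; the pairs `(M 0 i, M 3 i)` are `p, 0, 0, q` and the
pairs `(M 1 i, M 2 i)` are `0, r, s, 0`; `tri` vanishes if one argument is `0`.
`act_Sw`: the same.  `lin_ds`: `funext`, `ring`.  `blk_det`: `Matrix.det_succ_row_zero` or `simp` with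
`Matrix.det_fin_three`.  `ev_ds`, `grad_ds`, `pol_ds`: unfold, `Fin.sum_univ_four`, values of `cx`, `cy`, `ring`
(`grad_ds`: the four values of `k`; `pol_ds`: entries).  `poly_ds`: `Fin.sum_univ_four` and `ring`.
`ds_of`: take `f = ⟨T 0 0 0, T 0 0 3, T 0 3 3, T 3 3 3⟩`, `g = ⟨T 1 1 1, T 1 1 2, T 1 2 2, T 2 2 2⟩`; a mixed entry
`T i j k` has two indices of different kinds, bring them to the places 1, 2 by symmetry (`IsSym`), the entry is `0`;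
other entries agree by symmetry.  `sub_one`: `ring`.
-/

set_option autoImplicit false

noncomputable section

namespace Pool.Agent.ISB

open Matrix Pool.Agent.ISO

/-- The binary cubic `a X³ + 3 b X² Y + 3 c X Y² + d Y³`. -/
@[ext] structure Bc where
  (a b c d : ℂ)

/-- The determinant of two vectors. -/
def det2 (p q : ℂ × ℂ) : ℂ := p.1 * q.2 - p.2 * q.1

namespace Bc

/-- The symmetric trilinear form. -/
def tri (f : Bc) (u v w : ℂ × ℂ) : ℂ :=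
  f.a * (u.1 * v.1 * w.1) + f.b * (u.1 * v.1 * w.2 + u.1 * v.2 * w.1 + u.2 * v.1 * w.1) +
    f.c * (u.1 * v.2 * w.2 + u.2 * v.1 * w.2 + u.2 * v.2 * w.1) + f.d * (u.2 * v.2 * w.2)

/-- The form in the basis `p, q`. -/
def sub (f : Bc) (p q : ℂ × ℂ) : Bc := ⟨f.tri p p p, f.tri p p q, f.tri p q q, f.tri q q q⟩

/-- Linear combinations. -/
def lin (s t : ℂ) (f g : Bc) : Bc :=
  ⟨s * f.a + t * g.a, s * f.b + t * g.b, s * f.c + t * g.c, s * f.d + t * g.d⟩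

/-- The Hessian. -/
def hes (f : Bc) (e : ℂ × ℂ) : ℂ :=
  (f.a * f.c - f.b ^ 2) * e.1 ^ 2 + (f.a * f.d - f.b * f.c) * (e.1 * e.2) +
    (f.b * f.d - f.c ^ 2) * e.2 ^ 2

/-- `e` is in the kernel of the trilinear form. -/
def Kr (f : Bc) (e : ℂ × ℂ) : Prop :=
  f.a * e.1 + f.b * e.2 = 0 ∧ f.b * e.1 + f.c * e.2 = 0 ∧ f.c * e.1 + f.d * e.2 = 0

/-- `e` is a double root. -/
def Dr (f : Bc) (e : ℂ × ℂ) : Prop :=
  f.a * e.1 ^ 2 + 2 * f.b * (e.1 * e.2) + f.c * e.2 ^ 2 = 0 ∧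
    f.b * e.1 ^ 2 + 2 * f.c * (e.1 * e.2) + f.d * e.2 ^ 2 = 0

theorem sub_one (f : Bc) : f.sub (1, 0) (0, 1) = f := by
  ext <;> simp [sub, tri]

theorem tri_sub (f : Bc) (p q u v w : ℂ × ℂ) :
    (f.sub p q).tri u v w = f.tri (u.1 * p.1 + u.2 * q.1, u.1 * p.2 + u.2 * q.2)
      (v.1 * p.1 + v.2 * q.1, v.1 * p.2 + v.2 * q.2)
      (w.1 * p.1 + w.2 * q.1, w.1 * p.2 + w.2 * q.2) := by
  simp only [sub, tri]
  ring

theorem lin_sub (s t : ℂ) (f g : Bc) (p q : ℂ × ℂ) :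
    (lin s t f g).sub p q = lin s t (f.sub p q) (g.sub p q) := by
  ext <;> simp only [sub, lin, tri] <;> ring

end Bc

/-- No member of the pencil is a cube or zero. -/
def NoK (f g : Bc) : Prop :=
  ∀ s t : ℂ, (s, t) ≠ (0, 0) → ∀ e : ℂ × ℂ, e ≠ 0 → ¬ (Bc.lin s t f g).Kr e

/-- The pencil has no base points. -/
def NoB (f g : Bc) : Prop := ∀ e : ℂ × ℂ, e ≠ 0 → f.tri e e e = 0 → g.tri e e e ≠ 0

/-- The `x, w`-part of the basis vectors. -/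
def cx : Fin 4 → ℂ × ℂ := ![(1, 0), (0, 0), (0, 0), (0, 1)]

/-- The `y, z`-part of the basis vectors. -/
def cy : Fin 4 → ℂ × ℂ := ![(0, 0), (1, 0), (0, 1), (0, 0)]

/-- The tensor of `f (x, w) + g (y, z)`. -/
def ds (f g : Bc) : T3 := fun i j k => f.tri (cx i) (cx j) (cx k) + g.tri (cy i) (cy j) (cy k)

/-- `e_0 ↦ p, e_3 ↦ q` in the `x, w`-plane, `e_1 ↦ r, e_2 ↦ s` in the `y, z`-plane. -/
def blk (p q r s : ℂ × ℂ) : M4 :=
  !![p.1, 0, 0, q.1; 0, r.1, s.1, 0; 0, r.2, s.2, 0; p.2, 0, 0, q.2]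

/-- The exchange of the planes. -/
def Sw : M4 := !![0, 1, 0, 0; 1, 0, 0, 0; 0, 0, 0, 1; 0, 0, 1, 0]

theorem blk_det (p q r s : ℂ × ℂ) : (blk p q r s).det = det2 p q * det2 r s := by
  simp [blk, det2, Matrix.det_succ_row_zero, Fin.sum_univ_succ, Fin.succAbove]
  ring

theorem Sw_det : Sw.det ≠ 0 := by
  have h : Sw.det = 1 := by
    simp [Sw, Matrix.det_succ_row_zero, Fin.sum_univ_succ, Fin.succAbove]
  rw [h]
  exact one_ne_zero

theorem act_ds_gen (f g : Bc) (M : M4) (i j k : Fin 4) : act (ds f g) M i j k =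
    f.tri (M 0 i, M 3 i) (M 0 j, M 3 j) (M 0 k, M 3 k) +
      g.tri (M 1 i, M 2 i) (M 1 j, M 2 j) (M 1 k, M 2 k) := by
  have c0 : cx 0 = (1, 0) := rfl
  have c1 : cx 1 = (0, 0) := rfl
  have c2 : cx 2 = (0, 0) := rfl
  have c3 : cx 3 = (0, 1) := rfl
  have d0 : cy 0 = (0, 0) := rfl
  have d1 : cy 1 = (1, 0) := rfl
  have d2 : cy 2 = (0, 1) := rfl
  have d3 : cy 3 = (0, 0) := rfl
  simp only [act, ds, Fin.sum_univ_four, c0, c1, c2, c3, d0, d1, d2, d3, Bc.tri, mul_zero,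
    zero_mul, mul_one, add_zero, zero_add]
  ring

theorem act_ds (f g : Bc) (p q r s : ℂ × ℂ) :
    act (ds f g) (blk p q r s) = ds (f.sub p q) (g.sub r s) := by
  funext i j k
  have h1 : ∀ i, ((blk p q r s) 0 i, (blk p q r s) 3 i) =
      ((cx i).1 * p.1 + (cx i).2 * q.1, (cx i).1 * p.2 + (cx i).2 * q.2) := by
    intro i
    fin_cases i <;> simp [blk, cx]
  have h2 : ∀ i, ((blk p q r s) 1 i, (blk p q r s) 2 i) =
      ((cy i).1 * r.1 + (cy i).2 * s.1, (cy i).1 * r.2 + (cy i).2 * s.2) := by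
    intro i
    fin_cases i <;> simp [blk, cy]
  rw [act_ds_gen, h1, h1, h1, h2, h2, h2]
  simp only [ds, Bc.tri_sub]

theorem act_Sw (f g : Bc) : act (ds f g) Sw = ds g f := by
  funext i j k
  have h1 : ∀ i, (Sw 0 i, Sw 3 i) = cy i := by
    intro i
    fin_cases i <;> simp [Sw, cy]
  have h2 : ∀ i, (Sw 1 i, Sw 2 i) = cx i := by
    intro i
    fin_cases i <;> simp [Sw, cx]
  rw [act_ds_gen, h1, h1, h1, h2, h2, h2]
  simp only [ds]
  ring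

theorem lin_ds (s t : ℂ) (f g f' g' : Bc) :
    s • ds f g + t • ds f' g' = ds (Bc.lin s t f f') (Bc.lin s t g g') := by
  funext i j k
  simp only [Pi.add_apply, Pi.smul_apply, smul_eq_mul, ds, Bc.lin, Bc.tri]
  ring

theorem ev_ds (f g : Bc) (p : Fin 4 → ℂ) : ev (ds f g) p =
    f.tri (p 0, p 3) (p 0, p 3) (p 0, p 3) + g.tri (p 1, p 2) (p 1, p 2) (p 1, p 2) := by
  have c0 : cx 0 = (1, 0) := rfl
  have c1 : cx 1 = (0, 0) := rfl
  have c2 : cx 2 = (0, 0) := rfl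
  have c3 : cx 3 = (0, 1) := rfl
  have d0 : cy 0 = (0, 0) := rfl
  have d1 : cy 1 = (1, 0) := rfl
  have d2 : cy 2 = (0, 1) := rfl
  have d3 : cy 3 = (0, 0) := rfl
  simp only [ev, ds, Fin.sum_univ_four, c0, c1, c2, c3, d0, d1, d2, d3, Bc.tri, mul_zero,
    zero_mul, mul_one, add_zero, zero_add]
  ring

theorem grad_ds (f g : Bc) (p : Fin 4 → ℂ) : grad (ds f g) p =
    ![f.a * p 0 ^ 2 + 2 * f.b * (p 0 * p 3) + f.c * p 3 ^ 2,
      g.a * p 1 ^ 2 + 2 * g.b * (p 1 * p 2) + g.c * p 2 ^ 2,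
      g.b * p 1 ^ 2 + 2 * g.c * (p 1 * p 2) + g.d * p 2 ^ 2,
      f.b * p 0 ^ 2 + 2 * f.c * (p 0 * p 3) + f.d * p 3 ^ 2] := by
  have c0 : cx 0 = (1, 0) := rfl
  have c1 : cx 1 = (0, 0) := rfl
  have c2 : cx 2 = (0, 0) := rfl
  have c3 : cx 3 = (0, 1) := rfl
  have d0 : cy 0 = (0, 0) := rfl
  have d1 : cy 1 = (1, 0) := rfl
  have d2 : cy 2 = (0, 1) := rfl
  have d3 : cy 3 = (0, 0) := rfl
  funext k
  fin_cases k <;>
  simp [grad, ds, Fin.sum_univ_four, c0, c1, c2, c3, d0, d1, d2, d3, Bc.tri] <;>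
  ring

theorem pol_ds (f g : Bc) (p : Fin 4 → ℂ) : pol (ds f g) p =
    !![f.a * p 0 + f.b * p 3, 0, 0, f.b * p 0 + f.c * p 3;
      0, g.a * p 1 + g.b * p 2, g.b * p 1 + g.c * p 2, 0;
      0, g.b * p 1 + g.c * p 2, g.c * p 1 + g.d * p 2, 0;
      f.b * p 0 + f.c * p 3, 0, 0, f.c * p 0 + f.d * p 3] := by
  have c0 : cx 0 = (1, 0) := rfl
  have c1 : cx 1 = (0, 0) := rfl
  have c2 : cx 2 = (0, 0) := rfl
  have c3 : cx 3 = (0, 1) := rfl
  have d0 : cy 0 = (0, 0) := rfl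
  have d1 : cy 1 = (1, 0) := rfl
  have d2 : cy 2 = (0, 1) := rfl
  have d3 : cy 3 = (0, 0) := rfl
  ext j k
  fin_cases j <;> fin_cases k <;>
  simp [pol, ds, Fin.sum_univ_four, c0, c1, c2, c3, d0, d1, d2, d3, Bc.tri] 

open MvPolynomial in
theorem poly_ds (f g : Bc) : poly (ds f g) =
    (C f.a * X 0 ^ 3 + 3 * C f.b * X 0 ^ 2 * X 3 + 3 * C f.c * X 0 * X 3 ^ 2 + C f.d * X 3 ^ 3) +
      (C g.a * X 1 ^ 3 + 3 * C g.b * X 1 ^ 2 * X 2 + 3 * C g.c * X 1 * X 2 ^ 2 +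
        C g.d * X 2 ^ 3) := by
  have c0 : cx 0 = (1, 0) := rfl
  have c1 : cx 1 = (0, 0) := rfl
  have c2 : cx 2 = (0, 0) := rfl
  have c3 : cx 3 = (0, 1) := rfl
  have d0 : cy 0 = (0, 0) := rfl
  have d1 : cy 1 = (1, 0) := rfl
  have d2 : cy 2 = (0, 1) := rfl
  have d3 : cy 3 = (0, 0) := rfl
  simp only [poly, ds, Fin.sum_univ_four, c0, c1, c2, c3, d0, d1, d2, d3, Bc.tri, mul_zero,
    zero_mul, mul_one, add_zero, zero_add, map_zero]
  ring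

theorem ds_of {T : T3} (hT : IsSym T)
    (h : ∀ i j k : Fin 4, (i = 0 ∨ i = 3) → (j = 1 ∨ j = 2) → T i j k = 0) :
    ∃ f g : Bc, T = ds f g := by
  have e1 : ∀ i j k, T i j k = T j i k := fun i j k => (hT i j k).1
  have e2 : ∀ i j k, T i j k = T i k j := fun i j k => (hT i j k).2
  have z1 : ∀ i j k : Fin 4, (i = 0 ∨ i = 3) → (k = 1 ∨ k = 2) → T i j k = 0 := by
    intro i j k hi hk
    rw [e2]
    exact h _ _ _ hi hk
  have z2 : ∀ i j k : Fin 4, (j = 0 ∨ j = 3) → (i = 1 ∨ i = 2) → T i j k = 0 := by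
    intro i j k hj hi
    rw [e1]
    exact h _ _ _ hj hi
  have z3 : ∀ i j k : Fin 4, (k = 0 ∨ k = 3) → (i = 1 ∨ i = 2) → T i j k = 0 := by
    intro i j k hk hi
    rw [e2]
    exact z2 _ _ _ hk hi
  refine ⟨⟨T 0 0 0, T 0 0 3, T 0 3 3, T 3 3 3⟩, ⟨T 1 1 1, T 1 1 2, T 1 2 2, T 2 2 2⟩, ?_⟩
  funext i j k
  have c0 : cx 0 = (1, 0) := rfl
  have c1 : cx 1 = (0, 0) := rfl
  have c2 : cx 2 = (0, 0) := rfl
  have c3 : cx 3 = (0, 1) := rfl
  have d0 : cy 0 = (0, 0) := rfl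
  have d1 : cy 1 = (1, 0) := rfl
  have d2 : cy 2 = (0, 1) := rfl
  have d3 : cy 3 = (0, 0) := rfl
  have a1 : T 0 3 0 = T 0 0 3 := e2 _ _ _
  have a2 : T 3 0 0 = T 0 0 3 := by rw [e1, a1]
  have a3 : T 3 0 3 = T 0 3 3 := e1 _ _ _
  have a4 : T 3 3 0 = T 0 3 3 := by rw [e2, a3]
  have b1 : T 1 2 1 = T 1 1 2 := e2 _ _ _
  have b2 : T 2 1 1 = T 1 1 2 := by rw [e1, b1]
  have b3 : T 2 1 2 = T 1 2 2 := e1 _ _ _
  have b4 : T 2 2 1 = T 1 2 2 := by rw [e2, b3]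
  fin_cases i <;> fin_cases j <;> fin_cases k <;>
  simp [ds, c0, c1, c2, c3, d0, d1, d2, d3, Bc.tri, a1, a2, a3, a4, b1, b2, b3, b4, h, z1, z2, z3]

end Pool.Agent.ISB
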