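import Pool.Agent.ISB.DsA
import Pool.Agent.ISB.Swap

/-!
# ISB / DsB: the conditions on the pencils of binary cubics

PROOF.  By `lin_ds` the member `s T0 + t T1` is `ds F G` with `F = lin s t f f'`, `G = lin s t g g'`.

`noK_l`: if `F.Kr e`, `e ≠ 0`, put `p = ![e.1, 0, 0, e.2]` (`p ≠ 0`).  By `pol_ds` the matrix `pol (ds F G) p` is `0`
(the entries are `F.a e.1 + F.b e.2`, `F.b e.1 + F.c e.2`, `F.c e.1 + F.d e.2` and `0`), and `grad (ds F G) p = 0`
(`grad_ds`: `F.a e.1² + 2 F.b e.1 e.2 + F.c e.2² = e.1 (F.a e.1 + F.b e.2) + e.2 (F.b e.1 + F.c e.2) = 0`, and in the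
same way the last one).  This contradicts `h.noC`.

`noB_l`: if `f.tri e e e = 0 = f'.tri e e e`, `e ≠ 0`, put `p = ![e.1, 0, 0, e.2]`; by `ev_ds` both values are `0`, so
`h.base` gives linear independence of the gradients `(A, 0, 0, B)`, `(A', 0, 0, B')` (`grad_ds`) with
`e.1 A + e.2 B = f.tri e e e = 0`, `e.1 A' + e.2 B' = 0`.  If `e.1 ≠ 0`: `A = - e.2 B / e.1`, `A' = - e.2 B' / e.1`, so
`B' • grad - B • grad' = 0`; linear independence (`LinearIndependent.pair_iff`) gives `B = B' = 0`, so both gradients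
vanish (`1 • grad + 0 • grad' = 0`), contradiction.  If `e.2 ≠ 0`: the same with `A`, `A'`.

`noK_r`, `noB_r`: apply the previous ones to `pen_act h Sw Sw_det` (`act_Sw`).

`notBoth`: if `F.Dr e`, `G.Dr e'` put `p = ![e.1, e'.1, e'.2, e.2]`; `grad_ds`: the gradient is `0`.  `h.noA` says that
the `2 × 2` minors of `M = pol (ds F G) p` vanish.  By `noK_l` not `F.Kr e`, so some `M i k ≠ 0` with `i, k ∈ {0, 3}`
(`pol_ds`); by `noK_r` some `M j l ≠ 0` with `j, l ∈ {1, 2}`; the minor `M i k * M j l = M i l * M j k = 0` (mixed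
entries are `0`): contradiction.
-/

set_option autoImplicit false

noncomputable section

namespace Pool.Agent.ISB

open Matrix Pool.Agent.ISO

private theorem pe_ne {e : ℂ × ℂ} (he : e ≠ 0) : (![e.1, 0, 0, e.2] : Fin 4 → ℂ) ≠ 0 := by
  intro h
  apply he
  have h0 : e.1 = 0 := congrFun h 0
  have h3 : e.2 = 0 := congrFun h 3
  exact Prod.ext h0 h3

theorem noK_l {f g f' g' : Bc} (h : Pen (ds f g) (ds f' g')) : NoK f f' := by
  intro s t hst e he hK
  obtain ⟨k1, k2, k3⟩ := hK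
  refine h.noC s t hst ![e.1, 0, 0, e.2] (pe_ne he) ?_ ?_
  · rw [lin_ds, grad_ds]
    funext k
    fin_cases k
    · change (Bc.lin s t f f').a * e.1 ^ 2 + 2 * (Bc.lin s t f f').b * (e.1 * e.2) +
        (Bc.lin s t f f').c * e.2 ^ 2 = 0
      linear_combination e.1 * k1 + e.2 * k2
    · change (Bc.lin s t g g').a * 0 ^ 2 + 2 * (Bc.lin s t g g').b * (0 * 0) +
        (Bc.lin s t g g').c * 0 ^ 2 = 0
      ring
    · change (Bc.lin s t g g').b * 0 ^ 2 + 2 * (Bc.lin s t g g').c * (0 * 0) +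
        (Bc.lin s t g g').d * 0 ^ 2 = 0
      ring
    · change (Bc.lin s t f f').b * e.1 ^ 2 + 2 * (Bc.lin s t f f').c * (e.1 * e.2) +
        (Bc.lin s t f f').d * e.2 ^ 2 = 0
      linear_combination e.1 * k2 + e.2 * k3
  · rw [lin_ds, pol_ds]
    ext i j
    fin_cases i <;> fin_cases j <;> simp [k1, k2, k3]

theorem noB_l {f g f' g' : Bc} (h : Pen (ds f g) (ds f' g')) : NoB f f' := by
  intro e he h0 h1
  have g0 : ∀ u : Bc, u.tri (0, 0) (0, 0) (0, 0) = 0 := by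
    intro u
    simp [Bc.tri]
  have e0 : ev (ds f g) ![e.1, 0, 0, e.2] = 0 := by
    rw [ev_ds]
    change f.tri e e e + g.tri (0, 0) (0, 0) (0, 0) = 0
    rw [h0, g0, add_zero]
  have e1 : ev (ds f' g') ![e.1, 0, 0, e.2] = 0 := by
    rw [ev_ds]
    change f'.tri e e e + g'.tri (0, 0) (0, 0) (0, 0) = 0
    rw [h1, g0, add_zero]
  have hl := h.base _ (pe_ne he) e0 e1
  rw [LinearIndependent.pair_iff] at hl
  have q : ∀ u v : Bc, grad (ds u v) ![e.1, 0, 0, e.2] =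
      ![u.a * e.1 ^ 2 + 2 * u.b * (e.1 * e.2) + u.c * e.2 ^ 2, 0, 0,
        u.b * e.1 ^ 2 + 2 * u.c * (e.1 * e.2) + u.d * e.2 ^ 2] := by
    intro u v
    rw [grad_ds]
    funext k
    fin_cases k
    · rfl
    · change v.a * 0 ^ 2 + 2 * v.b * (0 * 0) + v.c * 0 ^ 2 = 0
      ring
    · change v.b * 0 ^ 2 + 2 * v.c * (0 * 0) + v.d * 0 ^ 2 = 0
      ring
    · rfl
  rw [q, q] at hl
  have r0 : e.1 * (f.a * e.1 ^ 2 + 2 * f.b * (e.1 * e.2) + f.c * e.2 ^ 2) +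
      e.2 * (f.b * e.1 ^ 2 + 2 * f.c * (e.1 * e.2) + f.d * e.2 ^ 2) = 0 := by
    rw [← h0]
    unfold Bc.tri
    ring
  have r1 : e.1 * (f'.a * e.1 ^ 2 + 2 * f'.b * (e.1 * e.2) + f'.c * e.2 ^ 2) +
      e.2 * (f'.b * e.1 ^ 2 + 2 * f'.c * (e.1 * e.2) + f'.d * e.2 ^ 2) = 0 := by
    rw [← h1]
    unfold Bc.tri
    ring
  generalize f.a * e.1 ^ 2 + 2 * f.b * (e.1 * e.2) + f.c * e.2 ^ 2 = A at hl r0
  generalize f.b * e.1 ^ 2 + 2 * f.c * (e.1 * e.2) + f.d * e.2 ^ 2 = B at hl r0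
  generalize f'.a * e.1 ^ 2 + 2 * f'.b * (e.1 * e.2) + f'.c * e.2 ^ 2 = A' at hl r1
  generalize f'.b * e.1 ^ 2 + 2 * f'.c * (e.1 * e.2) + f'.d * e.2 ^ 2 = B' at hl r1
  have hfin : ∀ x y : ℂ, x * A + y * A' = 0 → x * B + y * B' = 0 → x = 0 ∧ y = 0 := by
    intro x y hx hy
    apply hl
    funext k
    fin_cases k
    · exact hx
    · change x * 0 + y * 0 = 0
      ring
    · change x * 0 + y * 0 = 0
      ring
    · exact hy
  by_cases c1 : e.1 = 0
  · have c2 : e.2 ≠ 0 := fun c2 => he (Prod.ext c1 c2)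
    rw [c1, zero_mul, zero_add] at r0 r1
    have b0 : B = 0 := (mul_eq_zero.1 r0).resolve_left c2
    have b1 : B' = 0 := (mul_eq_zero.1 r1).resolve_left c2
    obtain ⟨a1, a0⟩ := hfin A' (-A) (by ring) (by rw [b0, b1]; ring)
    obtain ⟨w, -⟩ := hfin 1 0 (by rw [neg_eq_zero.1 a0]; ring) (by rw [b0]; ring)
    exact one_ne_zero w
  · have hc : B' * A + -B * A' = 0 := by
      have : e.1 * (B' * A + -B * A') = 0 := by
        linear_combination B' * r0 - B * r1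
      exact (mul_eq_zero.1 this).resolve_left c1
    obtain ⟨b1, b0⟩ := hfin B' (-B) hc (by ring)
    have b0' : B = 0 := neg_eq_zero.1 b0
    rw [b0', mul_zero, add_zero] at r0
    have a0 : A = 0 := (mul_eq_zero.1 r0).resolve_left c1
    obtain ⟨w, -⟩ := hfin 1 0 (by rw [a0]; ring) (by rw [b0']; ring)
    exact one_ne_zero w

theorem pen_Sw {f g f' g' : Bc} (h : Pen (ds f g) (ds f' g')) : Pen (ds g f) (ds g' f') := by
  have h1 := pen_act h Sw Sw_det
  rwa [act_Sw, act_Sw] at h1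

theorem noK_r {f g f' g' : Bc} (h : Pen (ds f g) (ds f' g')) : NoK g g' := noK_l (pen_Sw h)

theorem noB_r {f g f' g' : Bc} (h : Pen (ds f g) (ds f' g')) : NoB g g' := noB_l (pen_Sw h)

theorem notBoth {f g f' g' : Bc} (h : Pen (ds f g) (ds f' g')) (s t : ℂ) (hst : (s, t) ≠ (0, 0))
    (e e' : ℂ × ℂ) (he : e ≠ 0) (he' : e' ≠ 0) (h1 : (Bc.lin s t f f').Dr e)
    (h2 : (Bc.lin s t g g').Dr e') : False := by
  have kl := noK_l h s t hst e he
  have kr := noK_r h s t hst e' he'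
  have hp : (![e.1, e'.1, e'.2, e.2] : Fin 4 → ℂ) ≠ 0 := by
    intro hp
    apply he
    have h0 : e.1 = 0 := congrFun hp 0
    have h3 : e.2 = 0 := congrFun hp 3
    exact Prod.ext h0 h3
  have hg : grad (s • ds f g + t • ds f' g') ![e.1, e'.1, e'.2, e.2] = 0 := by
    rw [lin_ds, grad_ds]
    funext k
    fin_cases k
    · exact h1.1
    · exact h2.1
    · exact h2.2
    · exact h1.2
  have hm := h.noA s t hst _ hp hg
  rw [lin_ds, pol_ds] at hm
  generalize Bc.lin s t f f' = F at hm kl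
  generalize Bc.lin s t g g' = G at hm kr
  have m11 : (F.a * e.1 + F.b * e.2) * (G.a * e'.1 + G.b * e'.2) = 0 := (hm 0 1 0 1).trans (zero_mul _)
  have m12 : (F.a * e.1 + F.b * e.2) * (G.b * e'.1 + G.c * e'.2) = 0 := (hm 0 1 0 2).trans (zero_mul _)
  have m13 : (F.a * e.1 + F.b * e.2) * (G.c * e'.1 + G.d * e'.2) = 0 := (hm 0 2 0 2).trans (zero_mul _)
  have m21 : (F.b * e.1 + F.c * e.2) * (G.a * e'.1 + G.b * e'.2) = 0 := (hm 0 1 3 1).trans (zero_mul _)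
  have m22 : (F.b * e.1 + F.c * e.2) * (G.b * e'.1 + G.c * e'.2) = 0 := (hm 0 1 3 2).trans (zero_mul _)
  have m23 : (F.b * e.1 + F.c * e.2) * (G.c * e'.1 + G.d * e'.2) = 0 := (hm 0 2 3 2).trans (zero_mul _)
  have m31 : (F.c * e.1 + F.d * e.2) * (G.a * e'.1 + G.b * e'.2) = 0 := (hm 3 1 3 1).trans (zero_mul _)
  have m32 : (F.c * e.1 + F.d * e.2) * (G.b * e'.1 + G.c * e'.2) = 0 := (hm 3 1 3 2).trans (zero_mul _)
  have m33 : (F.c * e.1 + F.d * e.2) * (G.c * e'.1 + G.d * e'.2) = 0 := (hm 3 2 3 2).trans (zero_mul _)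
  have kk : ∀ x : ℂ, x * (G.a * e'.1 + G.b * e'.2) = 0 → x * (G.b * e'.1 + G.c * e'.2) = 0 →
      x * (G.c * e'.1 + G.d * e'.2) = 0 → x = 0 := by
    intro x x1 x2 x3
    by_contra hx
    exact kr ⟨(mul_eq_zero.1 x1).resolve_left hx, (mul_eq_zero.1 x2).resolve_left hx,
      (mul_eq_zero.1 x3).resolve_left hx⟩
  exact kl ⟨kk _ m11 m12 m13, kk _ m21 m22 m23, kk _ m31 m32 m33⟩

end Pool.Agent.ISB
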