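import Pool.Agent.ISB.DsA

/-!
# ISB / DsC: normal form of a pencil of binary cubics

PROOF of `nfA`.  For `e = (x, y)` let `Hff = f.hes e`, `Hgg = g.hes e` and
`Hfg = (f.a g.c + g.a f.c - 2 f.b g.b) x² + (f.a g.d + g.a f.d - f.b g.c - g.b f.c) x y + (f.b g.d + g.b f.d - 2 f.c g.c) y²`,
so `(lin s t f g).hes e = s² Hff + s t Hfg + t² Hgg` (`ring`).  `disc_root`: there is `e ≠ 0` with
`Hfg² - 4 Hff Hgg = 0`: this is a binary quartic form `A x⁴ + B x³ y + C x² y² + D x y³ + E y⁴`; if `A = 0` take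
`(1, 0)`, otherwise a root `x` of the polynomial with `y = 1` (`IsAlgClosed.exists_root`, degree `4`).
`dbl_root`: a binary quadratic form `u s² + v s t + w t²` with `v² = 4 u w` is `(s, t) ↦` a form which, for some
`(σ, τ) ≠ (0, 0)`, satisfies `2 u σ + v τ = 0` and `v σ + 2 w τ = 0` (if `(u, v) ≠ (0, 0)` take `(σ, τ) = (-v, 2 u)`,
otherwise `(σ, τ) = (1, 0)`).  Take it for `u = Hff, v = Hfg, w = Hgg` at `e`.  Complete `(σ, τ)` by `(σ', τ')` with
`σ τ' - σ' τ ≠ 0` (`(σ', τ') = (0, 1)` or `(1, 0)`), put `f₁ = lin σ τ f g`, `g₁ = lin σ' τ' f g`.  Then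
(1) `f₁.hes e = 0` (`2 (u σ² + v σ τ + w τ²) = σ (2 u σ + v τ) + τ (v σ + 2 w τ)`) and
(2) the mixed term `Hfg` of the pair `(f₁, g₁)` at `e` is `0` (`= σ' (2 u σ + v τ) + τ' (v σ + 2 w τ)`).
The pair `(f₁, g₁)` also has no cubes (`lin s t f₁ g₁ = lin (s σ + t σ') (s τ + t τ') f g`) and no base points.
`stepB` (pairs with (1), (2)).  The matrix `P = (A, B; B, C)`, `A = f₁.a x + f₁.b y`, `B = f₁.b x + f₁.c y`,
`C = f₁.c x + f₁.d y` (polar of `f₁` at `e`) has determinant `f₁.hes e = 0` and is not `0` (`NoK` with `s = 1, t = 0`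
and the vector `e`).  So it has a kernel vector `k ≠ 0`: `k = (-B, A)` if `(A, B) ≠ (0, 0)`, else `k = (1, 0)`.
So `f₁.tri e k v = 0` for all `v`.
If `det2 e k = 0`: then `k = m e`, `m ≠ 0`, so `A x + B y = 0`, `B x + C y = 0`; take any `q` with `det2 e q ≠ 0`
(`(0, 1)` or `(1, 0)`): `F = f₁.sub e q = ⟨0, 0, c, d⟩`, `G = g₁.sub e q = ⟨a', b', c', d'⟩`; the mixed term in the new
basis at `(1, 0)` is `a' c` and equals `(det2 e q)²` times the mixed term at `e`, i.e. `0` (`ring`); if `a' = 0` then `e` is a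
base point; if `c = 0` then `F = ⟨0, 0, 0, d⟩`, so `f₁` is a cube: `f₁.Kr e` (all `f₁.tri e v w` with `v, w ∈ {e, q}` vanish,
solve the linear equations with `det2 e q ≠ 0`).  Contradiction.
If `det2 e k ≠ 0`: `F = f₁.sub e k = ⟨a, 0, 0, d⟩`; `a ≠ 0` (otherwise `f₁.Kr e`), `d ≠ 0` (otherwise `f₁.Kr k`);
`G = g₁.sub e k = ⟨a', b', c', d'⟩`: the mixed term in the new basis at `(1, 0)` is `a c'`, so `c' = 0`.  `b' ≠ 0`: if `b' = 0`
then `g₂ = g₁ - (a'/a) f₁` has `g₂.sub e k = ⟨0, 0, 0, d''⟩`, so `g₂.Kr e`: a cube of the pencil, contradiction.  The result is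
the pair `f₁`, `g₂ = g₁ - (a'/a) f₁` (`g₂.sub e k = ⟨0, b', 0, d''⟩`), in terms of `f, g`:
`(s, t) = (σ, τ)`, `(s', t') = (σ' - (a'/a) σ, τ' - (a'/a) τ)`, `s t' - s' t = σ τ' - σ' τ`.
Useful: `kr_of`: if `det2 p q ≠ 0`, `F = f.sub p q` and `F.a = F.b = F.c = 0` (that is `f.tri p p p = f.tri p p q =
f.tri p q q = 0`) then `f.Kr p` (the three coordinates of `Kr p` are the `f.tri p u v` with `u, v` standard basis vectors, and
`det2 p q • (1, 0) = q.2 • p - p.2 • q`, `det2 p q • (0, 1) = p.1 • q - q.1 • p`).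
-/

set_option autoImplicit false

noncomputable section

namespace Pool.Agent.ISB

open Matrix Pool.Agent.ISO

private theorem tri_exp (f : Bc) (p u v : ℂ × ℂ) : f.tri p u v =
    (f.a * p.1 + f.b * p.2) * (u.1 * v.1) + (f.b * p.1 + f.c * p.2) * (u.1 * v.2 + u.2 * v.1) +
      (f.c * p.1 + f.d * p.2) * (u.2 * v.2) := by
  simp only [Bc.tri]; ring

theorem kr_of {f : Bc} {p q : ℂ × ℂ} (hd : det2 p q ≠ 0) (h1 : f.tri p p p = 0)
    (h2 : f.tri p p q = 0) (h3 : f.tri p q q = 0) : f.Kr p := by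
  have hD : det2 p q ^ 2 ≠ 0 := pow_ne_zero 2 hd
  rw [tri_exp] at h1 h2 h3
  refine ⟨?_, ?_, ?_⟩
  · apply mul_left_cancel₀ hD
    simp only [det2]
    linear_combination q.2 ^ 2 * h1 - 2 * p.2 * q.2 * h2 + p.2 ^ 2 * h3
  · apply mul_left_cancel₀ hD
    simp only [det2]
    linear_combination (-(q.1 * q.2)) * h1 + (q.2 * p.1 + p.2 * q.1) * h2 - p.1 * p.2 * h3
  · apply mul_left_cancel₀ hD
    simp only [det2]
    linear_combination q.1 ^ 2 * h1 - 2 * p.1 * q.1 * h2 + p.1 ^ 2 * h3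

/-- The mixed term of the Hessian of `s f + t g` at `e`. -/
def mix (f g : Bc) (e : ℂ × ℂ) : ℂ :=
  (f.a * g.c + g.a * f.c - 2 * f.b * g.b) * e.1 ^ 2 +
    (f.a * g.d + g.a * f.d - f.b * g.c - g.b * f.c) * (e.1 * e.2) +
    (f.b * g.d + g.b * f.d - 2 * f.c * g.c) * e.2 ^ 2

private theorem quartic_root (a4 a3 a2 a1 a0 : ℂ) (h : a4 ≠ 0) :
    ∃ t : ℂ, a4 * t ^ 4 + a3 * t ^ 3 + a2 * t ^ 2 + a1 * t + a0 = 0 := by
  have hdeg : (Polynomial.C a4 * Polynomial.X ^ 4 + Polynomial.C a3 * Polynomial.X ^ 3 +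
      Polynomial.C a2 * Polynomial.X ^ 2 + Polynomial.C a1 * Polynomial.X +
      Polynomial.C a0 : Polynomial ℂ).degree ≠ 0 := by
    intro h0
    have h1 := Polynomial.eq_C_of_degree_eq_zero h0
    have h2 := congrArg (fun P => Polynomial.coeff P 4) h1
    simp [Polynomial.coeff_X, Polynomial.coeff_C] at h2
    exact h h2
  obtain ⟨t, ht⟩ := IsAlgClosed.exists_root _ hdeg
  refine ⟨t, ?_⟩
  simpa [Polynomial.IsRoot] using ht

theorem disc_root (f g : Bc) : ∃ e : ℂ × ℂ, e ≠ 0 ∧ mix f g e ^ 2 - 4 * f.hes e * g.hes e = 0 := by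
  by_cases hA : (f.a * g.c + g.a * f.c - 2 * f.b * g.b) ^ 2 -
      4 * (f.a * f.c - f.b ^ 2) * (g.a * g.c - g.b ^ 2) = 0
  · refine ⟨(1, 0), by simp, ?_⟩
    simp only [mix, Bc.hes]
    linear_combination hA
  · obtain ⟨t, ht⟩ := quartic_root
      ((f.a * g.c + g.a * f.c - 2 * f.b * g.b) ^ 2 -
        4 * (f.a * f.c - f.b ^ 2) * (g.a * g.c - g.b ^ 2))
      (2 * (f.a * g.c + g.a * f.c - 2 * f.b * g.b) * (f.a * g.d + g.a * f.d - f.b * g.c - g.b * f.c)
        - 4 * ((f.a * f.c - f.b ^ 2) * (g.a * g.d - g.b * g.c) +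
          (f.a * f.d - f.b * f.c) * (g.a * g.c - g.b ^ 2)))
      ((f.a * g.d + g.a * f.d - f.b * g.c - g.b * f.c) ^ 2 +
        2 * (f.a * g.c + g.a * f.c - 2 * f.b * g.b) * (f.b * g.d + g.b * f.d - 2 * f.c * g.c)
        - 4 * ((f.a * f.c - f.b ^ 2) * (g.b * g.d - g.c ^ 2) +
          (f.a * f.d - f.b * f.c) * (g.a * g.d - g.b * g.c) +
          (f.b * f.d - f.c ^ 2) * (g.a * g.c - g.b ^ 2)))
      (2 * (f.a * g.d + g.a * f.d - f.b * g.c - g.b * f.c) * (f.b * g.d + g.b * f.d - 2 * f.c * g.c)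
        - 4 * ((f.a * f.d - f.b * f.c) * (g.b * g.d - g.c ^ 2) +
          (f.b * f.d - f.c ^ 2) * (g.a * g.d - g.b * g.c)))
      ((f.b * g.d + g.b * f.d - 2 * f.c * g.c) ^ 2 -
        4 * ((f.b * f.d - f.c ^ 2) * (g.b * g.d - g.c ^ 2))) hA
    refine ⟨(t, 1), by simp, ?_⟩
    simp only [mix, Bc.hes]
    linear_combination ht

theorem dbl_root (u v w : ℂ) (h : v ^ 2 - 4 * u * w = 0) :
    ∃ s t : ℂ, (s, t) ≠ (0, 0) ∧ 2 * u * s + v * t = 0 ∧ v * s + 2 * w * t = 0 := by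
  by_cases h0 : u = 0 ∧ v = 0
  · refine ⟨1, 0, by simp, ?_, ?_⟩
    · rw [h0.1]; ring
    · rw [h0.2]; ring
  · refine ⟨-v, 2 * u, ?_, by ring, by linear_combination -h⟩
    intro hc
    apply h0
    rw [Prod.mk.injEq] at hc
    refine ⟨?_, neg_eq_zero.1 hc.1⟩
    have := hc.2
    simpa using this

private theorem mix_sub (f g : Bc) (p q : ℂ × ℂ) :
    f.tri p p p * g.tri p q q + g.tri p p p * f.tri p q q - 2 * f.tri p p q * g.tri p p q =
      det2 p q ^ 2 * mix f g p := by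
  simp only [Bc.tri, det2, mix]; ring

private theorem noK_one {f g : Bc} (hK : NoK f g) {e : ℂ × ℂ} (he : e ≠ 0) : ¬ f.Kr e := by
  intro h
  refine hK 1 0 (by simp) e he ?_
  obtain ⟨h1, h2, h3⟩ := h
  refine ⟨?_, ?_, ?_⟩
  · simpa [Bc.lin] using h1
  · simpa [Bc.lin] using h2
  · simpa [Bc.lin] using h3

private theorem exists_compl {e : ℂ × ℂ} (he : e ≠ 0) : ∃ q : ℂ × ℂ, det2 e q ≠ 0 := by
  by_cases h : e.1 = 0
  · refine ⟨(1, 0), ?_⟩
    intro h0
    simp only [det2, mul_zero, mul_one, zero_sub, neg_eq_zero] at h0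
    exact he (Prod.ext h h0)
  · refine ⟨(0, 1), ?_⟩
    simpa [det2] using h

private theorem tri_lin (s t : ℂ) (f g : Bc) (u v w : ℂ × ℂ) :
    (Bc.lin s t f g).tri u v w = s * f.tri u v w + t * g.tri u v w := by
  simp only [Bc.lin, Bc.tri]; ring

theorem stepB {f g : Bc} (hK : NoK f g) (hB : NoB f g) {e : ℂ × ℂ} (he : e ≠ 0)
    (h1 : f.hes e = 0) (h2 : mix f g e = 0) :
    ∃ (m : ℂ) (p q : ℂ × ℂ) (a b d d' : ℂ), det2 p q ≠ 0 ∧ a ≠ 0 ∧ b ≠ 0 ∧ d ≠ 0 ∧
      f.sub p q = ⟨a, 0, 0, d⟩ ∧ (Bc.lin m 1 f g).sub p q = ⟨0, b, 0, d'⟩ := by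
  have hKe : ¬ f.Kr e := noK_one hK he
  have hAC : (f.a * e.1 + f.b * e.2) * (f.c * e.1 + f.d * e.2) =
      (f.b * e.1 + f.c * e.2) ^ 2 := by
    simp only [Bc.hes] at h1
    linear_combination h1
  obtain ⟨k, hk, hk1, hk2⟩ : ∃ k : ℂ × ℂ, k ≠ 0 ∧
      (f.a * e.1 + f.b * e.2) * k.1 + (f.b * e.1 + f.c * e.2) * k.2 = 0 ∧
      (f.b * e.1 + f.c * e.2) * k.1 + (f.c * e.1 + f.d * e.2) * k.2 = 0 := by
    by_cases h0 : f.a * e.1 + f.b * e.2 = 0 ∧ f.b * e.1 + f.c * e.2 = 0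
    · refine ⟨(1, 0), by simp, ?_, ?_⟩
      · simp only [h0.1, h0.2]; ring
      · simp only [h0.2]; ring
    · refine ⟨(-(f.b * e.1 + f.c * e.2), f.a * e.1 + f.b * e.2), ?_, ?_, ?_⟩
      · intro hc
        apply h0
        have h3 := congrArg Prod.fst hc
        have h4 := congrArg Prod.snd hc
        simp only [Prod.fst_zero, Prod.snd_zero] at h3 h4
        exact ⟨h4, neg_eq_zero.1 h3⟩
      · ring
      · simp only
        linear_combination hAC
  have htri : ∀ v, f.tri e k v = 0 := by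
    intro v
    rw [tri_exp]
    linear_combination v.1 * hk1 + v.2 * hk2
  by_cases hdet : det2 e k = 0
  · exfalso
    have hdet' : e.1 * k.2 = e.2 * k.1 := by
      simp only [det2] at hdet
      linear_combination hdet
    have hkk : k.1 ≠ 0 ∨ k.2 ≠ 0 := by
      by_contra hc
      push Not at hc
      exact hk (Prod.ext hc.1 hc.2)
    have e1 : (f.a * e.1 + f.b * e.2) * e.1 + (f.b * e.1 + f.c * e.2) * e.2 = 0 := by
      rcases hkk with h | h
      · apply mul_left_cancel₀ h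
        linear_combination e.1 * hk1 - (f.b * e.1 + f.c * e.2) * hdet'
      · apply mul_left_cancel₀ h
        linear_combination e.2 * hk1 + (f.a * e.1 + f.b * e.2) * hdet'
    have e2 : (f.b * e.1 + f.c * e.2) * e.1 + (f.c * e.1 + f.d * e.2) * e.2 = 0 := by
      rcases hkk with h | h
      · apply mul_left_cancel₀ h
        linear_combination e.1 * hk2 - (f.c * e.1 + f.d * e.2) * hdet'
      · apply mul_left_cancel₀ h
        linear_combination e.2 * hk2 + (f.b * e.1 + f.c * e.2) * hdet'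
    obtain ⟨q, hq⟩ := exists_compl he
    have t1 : f.tri e e e = 0 := by
      rw [tri_exp]
      linear_combination e.1 * e1 + e.2 * e2
    have t2 : f.tri e e q = 0 := by
      rw [tri_exp]
      linear_combination q.1 * e1 + q.2 * e2
    have t3 := mix_sub f g e q
    rw [t1, t2, h2] at t3
    have t4 : g.tri e e e * f.tri e q q = 0 := by linear_combination t3
    rcases mul_eq_zero.1 t4 with h | h
    · exact hB e he t1 h
    · exact hKe (kr_of hq t1 t2 h)
  · have hdet' : det2 k e ≠ 0 := by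
      intro h
      apply hdet
      simp only [det2] at h ⊢
      linear_combination -h
    have t2 : f.tri e e k = 0 := by
      have := htri e
      rw [← this]; simp only [Bc.tri]; ring
    have t3 : f.tri e k k = 0 := htri k
    have ha : f.tri e e e ≠ 0 := fun h => hKe (kr_of hdet h t2 t3)
    have hd : f.tri k k k ≠ 0 := by
      intro h
      refine noK_one hK hk (kr_of hdet' h ?_ ?_)
      · rw [← t3]; simp only [Bc.tri]; ring
      · rw [← t2]; simp only [Bc.tri]; ring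
    have t4 := mix_sub f g e k
    rw [t2, t3, h2] at t4
    have hc : g.tri e k k = 0 := by
      have : f.tri e e e * g.tri e k k = 0 := by linear_combination t4
      rcases mul_eq_zero.1 this with h | h
      · exact absurd h ha
      · exact h
    have s1 : (Bc.lin (-(g.tri e e e / f.tri e e e)) 1 f g).tri e e e = 0 := by
      rw [tri_lin]
      field_simp
      ring
    have s2 : (Bc.lin (-(g.tri e e e / f.tri e e e)) 1 f g).tri e e k = g.tri e e k := by
      rw [tri_lin, t2]; ring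
    have s3 : (Bc.lin (-(g.tri e e e / f.tri e e e)) 1 f g).tri e k k = 0 := by
      rw [tri_lin, t3, hc]; ring
    have hb : g.tri e e k ≠ 0 := by
      intro h
      refine hK (-(g.tri e e e / f.tri e e e)) 1 (by simp) e he ?_
      exact kr_of hdet s1 (by rw [s2, h]) s3
    refine ⟨-(g.tri e e e / f.tri e e e), e, k, f.tri e e e, g.tri e e k, f.tri k k k,
      (Bc.lin (-(g.tri e e e / f.tri e e e)) 1 f g).tri k k k, hdet, ha, hb, hd, ?_, ?_⟩
    · simp only [Bc.sub, t2, t3]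
    · simp only [Bc.sub, s1, s2, s3]

private theorem lin_lin (m n s t s' t' : ℂ) (f g : Bc) :
    Bc.lin m n (Bc.lin s t f g) (Bc.lin s' t' f g) =
      Bc.lin (m * s + n * s') (m * t + n * t') f g := by
  ext <;> simp only [Bc.lin] <;> ring

/-- **Normal form.** -/
theorem nfA {f g : Bc} (hK : NoK f g) (hB : NoB f g) :
    ∃ (s t s' t' : ℂ) (p q : ℂ × ℂ) (a b d d' : ℂ), s * t' - s' * t ≠ 0 ∧ det2 p q ≠ 0 ∧
      a ≠ 0 ∧ b ≠ 0 ∧ d ≠ 0 ∧ (Bc.lin s t f g).sub p q = ⟨a, 0, 0, d⟩ ∧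
      (Bc.lin s' t' f g).sub p q = ⟨0, b, 0, d'⟩ := by
  obtain ⟨e, he, hdisc⟩ := disc_root f g
  obtain ⟨s, t, hst, r1, r2⟩ := dbl_root (f.hes e) (mix f g e) (g.hes e) hdisc
  obtain ⟨s', t', hdt⟩ : ∃ s' t' : ℂ, s * t' - s' * t ≠ 0 := by
    by_cases h : s = 0
    · refine ⟨1, 0, ?_⟩
      intro h0
      apply hst
      have h1 : t = 0 := by linear_combination -h0
      rw [h, h1]
    · refine ⟨0, 1, ?_⟩
      intro h0
      exact h (by linear_combination h0)
  have hK' : NoK (Bc.lin s t f g) (Bc.lin s' t' f g) := by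
    intro x y hxy e' he' hkr
    rw [lin_lin] at hkr
    refine hK _ _ ?_ e' he' hkr
    intro hc
    rw [Prod.mk.injEq] at hc
    obtain ⟨c1, c2⟩ := hc
    apply hxy
    have hx : x = 0 := by
      apply mul_left_cancel₀ hdt
      linear_combination t' * c1 - s' * c2
    have hy : y = 0 := by
      apply mul_left_cancel₀ hdt
      linear_combination s * c2 - t * c1
    rw [hx, hy]
  have hB' : NoB (Bc.lin s t f g) (Bc.lin s' t' f g) := by
    intro e' he' h1 h2
    rw [tri_lin] at h1 h2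
    have hf : f.tri e' e' e' = 0 := by
      apply mul_left_cancel₀ hdt
      linear_combination t' * h1 - t * h2
    have hg : g.tri e' e' e' = 0 := by
      apply mul_left_cancel₀ hdt
      linear_combination s * h2 - s' * h1
    exact hB e' he' hf hg
  have c1 : (Bc.lin s t f g).hes e = 0 := by
    have : (Bc.lin s t f g).hes e = s ^ 2 * f.hes e + s * t * mix f g e + t ^ 2 * g.hes e := by
      simp only [Bc.lin, Bc.hes, mix]; ring
    rw [this]
    linear_combination (s / 2) * r1 + (t / 2) * r2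
  have c2 : mix (Bc.lin s t f g) (Bc.lin s' t' f g) e = 0 := by
    have : mix (Bc.lin s t f g) (Bc.lin s' t' f g) e = 2 * s * s' * f.hes e +
        (s * t' + s' * t) * mix f g e + 2 * t * t' * g.hes e := by
      simp only [Bc.lin, Bc.hes, mix]; ring
    rw [this]
    linear_combination s' * r1 + t' * r2
  obtain ⟨m, p, q, a, b, d, d', h1, h2, h3, h4, h5, h6⟩ := stepB hK' hB' he c1 c2
  rw [lin_lin] at h6
  refine ⟨s, t, m * s + 1 * s', m * t + 1 * t', p, q, a, b, d, d', ?_, h1, h2, h3, h4, h5, h6⟩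
  intro h0
  apply hdt
  linear_combination h0

end Pool.Agent.ISB
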