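import Pool.Agent.ISB.Qfun

/-!
# ISB / FrD4: the frame of `G4 (θ² / 3)` and the explicit formula for `Q`

`Mf θ` has the columns `(θ, 0, 0, 1)`, `(-θ, 0, 0, 1)`, `e_1`, `e_2`.

PROOF.  `fr_G4`: `act T U i j k = T (U_i, U_j, U_k)` (trilinear form in the columns);
with `κ = θ² / 3`: `x² w + κ w³` at `(u, u, u)`: `θ² + κ = 4 θ² / 3`; at `(u, u', e_0)`: `(θ - θ)/3 = 0`, at
`(u, u', e_3)`: `-θ²/3 + κ = 0`, so all mixed entries vanish.  `det (Mf θ) = ± 2 θ`.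
`Mf_entries`: multilinear expansion of `act f (Mf θ)` for symmetric `f`.
`qv_Mf`: with `f133 = θ² f001`, `f233 = θ² f002`: the product of the twelve entries is
`((f333 - θ² f003)² - (θ f033 - θ³ f000)²) * (4 θ² (θ² f001² - f013²)) * (4 θ² (θ² f002² - f023²)) *
(f113² - θ² f011²) * (f223² - θ² f022²) * f112 * f122`, and `(∏ l)³ = (4 θ² / 3)⁶`.  With `θ² = 3 t`.
-/

set_option autoImplicit false

noncomputable section

namespace Pool.Agent.ISB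

open Matrix Filter Topology Pool.Agent.ISO

def Mf (θ : ℂ) : M4 := !![θ, -θ, 0, 0; 0, 0, 1, 0; 0, 0, 0, 1; 1, 1, 0, 0]

def lf (t : ℂ) : Fin 4 → ℂ := ![4 * t, 4 * t, 1, 1]

set_option linter.unusedSimpArgs false

private def frE (a b c : Fin 4) : T3 := fun i j k =>
  (if i = a then 1 else 0) * (if j = b then 1 else 0) * (if k = c then 1 else 0)

private theorem fr_mon3_E (a b c : Fin 4) : mon3 a b c = (1 / 6 : ℂ) •
    (frE a b c + frE a c b + frE b a c + frE b c a + frE c a b + frE c b a) := by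
  have h : ∀ (P Q R : Prop) [Decidable P] [Decidable Q] [Decidable R],
      (if P ∧ Q ∧ R then (1 : ℂ) else 0) =
        (if P then 1 else 0) * (if Q then 1 else 0) * (if R then 1 else 0) := by
    intro P Q R _ _ _
    split_ifs with h1 h2 h3 h4 <;> simp_all
  funext i j k
  simp only [mon3, h, Pi.smul_apply, Pi.add_apply, frE, smul_eq_mul]
  ring

private theorem fr_act_E (a b c : Fin 4) (g : M4) (i j k : Fin 4) :
    act (frE a b c) g i j k = g a i * g b j * g c k := by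
  simp [act, frE]

private theorem fr_act_mon3 (a b c : Fin 4) (g : M4) (i j k : Fin 4) :
    act (mon3 a b c) g i j k = (g a i * g b j * g c k + g a i * g c j * g b k +
      g b i * g a j * g c k + g b i * g c j * g a k + g c i * g a j * g b k +
      g c i * g b j * g a k) / 6 := by
  rw [fr_mon3_E, act_smul]
  simp only [act_add, Pi.smul_apply, Pi.add_apply, fr_act_E, smul_eq_mul]
  ring

private theorem Mf_det (θ : ℂ) : (Mf θ).det = 2 * θ := by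
  simp only [Mf]
  rw [Matrix.det_succ_row_zero]
  simp [Fin.sum_univ_succ, Matrix.det_fin_three, Fin.succAbove]
  ring

theorem fr_G4 (θ t : ℂ) (hθ : θ ^ 2 = 3 * t) (ht : t ≠ 0) : Fr (G4 t) (Mf θ) (lf t) := by
  refine ⟨?_, ?_, ?_⟩
  · rw [Mf_det]
    refine mul_ne_zero two_ne_zero ?_
    rintro rfl
    apply ht
    linear_combination (-1 / 3) * hθ
  · intro i
    fin_cases i <;> simp [lf, ht]
  · funext i j k
    simp only [G4, act_add, act_smul, Pi.add_apply, Pi.smul_apply, fr_act_mon3, smul_eq_mul]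
    fin_cases i <;> fin_cases j <;> fin_cases k <;> simp [Mf, dg, lf] <;>
      first
      | ring1
      | linear_combination hθ
      | linear_combination (-1 / 3) * hθ

theorem Mf_entries (f : T3) (hf : IsSym f) (θ t : ℂ) (hθ : θ ^ 2 = 3 * t)
    (h1 : f 1 3 3 = 3 * t * f 0 0 1) (h2 : f 2 3 3 = 3 * t * f 0 0 2) :
    act f (Mf θ) 0 0 1 = f 3 3 3 - θ ^ 2 * f 0 0 3 + θ * f 0 3 3 - θ ^ 3 * f 0 0 0 ∧
    act f (Mf θ) 1 1 0 = f 3 3 3 - θ ^ 2 * f 0 0 3 - θ * f 0 3 3 + θ ^ 3 * f 0 0 0 ∧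
    act f (Mf θ) 0 0 2 = 2 * θ ^ 2 * f 0 0 1 + 2 * θ * f 0 1 3 ∧
    act f (Mf θ) 1 1 2 = 2 * θ ^ 2 * f 0 0 1 - 2 * θ * f 0 1 3 ∧
    act f (Mf θ) 0 0 3 = 2 * θ ^ 2 * f 0 0 2 + 2 * θ * f 0 2 3 ∧
    act f (Mf θ) 1 1 3 = 2 * θ ^ 2 * f 0 0 2 - 2 * θ * f 0 2 3 ∧
    act f (Mf θ) 2 2 0 = f 1 1 3 + θ * f 0 1 1 ∧ act f (Mf θ) 2 2 1 = f 1 1 3 - θ * f 0 1 1 ∧
    act f (Mf θ) 3 3 0 = f 2 2 3 + θ * f 0 2 2 ∧ act f (Mf θ) 3 3 1 = f 2 2 3 - θ * f 0 2 2 ∧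
    act f (Mf θ) 2 2 3 = f 1 1 2 ∧ act f (Mf θ) 3 3 2 = f 1 2 2 := by
  have p1 : ∀ i j k, f i j k = f j i k := fun i j k => (hf i j k).1
  have p2 : ∀ i j k, f i j k = f i k j := fun i j k => (hf i j k).2
  have p4 : ∀ i j k, f i j k = f j k i := fun i j k => (p1 i j k).trans (p2 j i k)
  have p5 : ∀ i j k, f i j k = f k i j := fun i j k => (p2 i j k).trans (p1 i k j)
  have p3 : ∀ i j k, f i j k = f k j i := fun i j k => (p4 i j k).trans (p1 j k i)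
  have s010 : f 0 1 0 = f 0 0 1 := p2 _ _ _
  have s020 : f 0 2 0 = f 0 0 2 := p2 _ _ _
  have s021 : f 0 2 1 = f 0 1 2 := p2 _ _ _
  have s030 : f 0 3 0 = f 0 0 3 := p2 _ _ _
  have s031 : f 0 3 1 = f 0 1 3 := p2 _ _ _
  have s032 : f 0 3 2 = f 0 2 3 := p2 _ _ _
  have s100 : f 1 0 0 = f 0 0 1 := p3 _ _ _
  have s101 : f 1 0 1 = f 0 1 1 := p1 _ _ _
  have s102 : f 1 0 2 = f 0 1 2 := p1 _ _ _
  have s103 : f 1 0 3 = f 0 1 3 := p1 _ _ _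
  have s110 : f 1 1 0 = f 0 1 1 := p3 _ _ _
  have s120 : f 1 2 0 = f 0 1 2 := p5 _ _ _
  have s121 : f 1 2 1 = f 1 1 2 := p2 _ _ _
  have s130 : f 1 3 0 = f 0 1 3 := p5 _ _ _
  have s131 : f 1 3 1 = f 1 1 3 := p2 _ _ _
  have s132 : f 1 3 2 = f 1 2 3 := p2 _ _ _
  have s200 : f 2 0 0 = f 0 0 2 := p3 _ _ _
  have s201 : f 2 0 1 = f 0 1 2 := p4 _ _ _
  have s202 : f 2 0 2 = f 0 2 2 := p1 _ _ _
  have s203 : f 2 0 3 = f 0 2 3 := p1 _ _ _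
  have s210 : f 2 1 0 = f 0 1 2 := p3 _ _ _
  have s211 : f 2 1 1 = f 1 1 2 := p3 _ _ _
  have s212 : f 2 1 2 = f 1 2 2 := p1 _ _ _
  have s213 : f 2 1 3 = f 1 2 3 := p1 _ _ _
  have s220 : f 2 2 0 = f 0 2 2 := p3 _ _ _
  have s221 : f 2 2 1 = f 1 2 2 := p3 _ _ _
  have s230 : f 2 3 0 = f 0 2 3 := p5 _ _ _
  have s231 : f 2 3 1 = f 1 2 3 := p5 _ _ _
  have s232 : f 2 3 2 = f 2 2 3 := p2 _ _ _
  have s300 : f 3 0 0 = f 0 0 3 := p3 _ _ _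
  have s301 : f 3 0 1 = f 0 1 3 := p4 _ _ _
  have s302 : f 3 0 2 = f 0 2 3 := p4 _ _ _
  have s303 : f 3 0 3 = f 0 3 3 := p1 _ _ _
  have s310 : f 3 1 0 = f 0 1 3 := p3 _ _ _
  have s311 : f 3 1 1 = f 1 1 3 := p3 _ _ _
  have s312 : f 3 1 2 = f 1 2 3 := p4 _ _ _
  have s313 : f 3 1 3 = f 1 3 3 := p1 _ _ _
  have s320 : f 3 2 0 = f 0 2 3 := p3 _ _ _
  have s321 : f 3 2 1 = f 1 2 3 := p3 _ _ _
  have s322 : f 3 2 2 = f 2 2 3 := p3 _ _ _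
  have s323 : f 3 2 3 = f 2 3 3 := p1 _ _ _
  have s330 : f 3 3 0 = f 0 3 3 := p3 _ _ _
  have s331 : f 3 3 1 = f 1 3 3 := p3 _ _ _
  have s332 : f 3 3 2 = f 2 3 3 := p3 _ _ _
  refine ⟨?_, ?_, ?_, ?_, ?_, ?_, ?_, ?_, ?_, ?_, ?_, ?_⟩ <;>
    simp [act, Mf, Fin.sum_univ_four, s010, s020, s021, s030, s031, s032, s100, s101, s102, s103, s110, s120, s121, s130, s131, s132, s200, s201, s202, s203, s210, s211, s212, s213, s220, s221, s230, s231, s232, s300, s301, s302, s303, s310, s311, s312, s313, s320, s321, s322, s323, s330, s331, s332, h1, h2] <;>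
      first
      | ring1
      | linear_combination (-f 0 0 1) * hθ
      | linear_combination (-f 0 0 2) * hθ

theorem qv_Mf (f : T3) (hf : IsSym f) (θ t : ℂ) (hθ : θ ^ 2 = 3 * t) (ht : t ≠ 0)
    (h1 : f 1 3 3 = 3 * t * f 0 0 1) (h2 : f 2 3 3 = 3 * t * f 0 0 2) :
    qv (act f (Mf θ)) (lf t) = 9 / 256 / t ^ 4 *
      ((f 3 3 3 - 3 * t * f 0 0 3) ^ 2 - 3 * t * (f 0 3 3 - 3 * t * f 0 0 0) ^ 2) *
      (3 * t * f 0 0 1 ^ 2 - f 0 1 3 ^ 2) * (3 * t * f 0 0 2 ^ 2 - f 0 2 3 ^ 2) *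
      (f 1 1 3 ^ 2 - 3 * t * f 0 1 1 ^ 2) * (f 2 2 3 ^ 2 - 3 * t * f 0 2 2 ^ 2) *
      (f 1 1 2 * f 1 2 2) := by
  obtain ⟨e1, e2, e3, e4, e5, e6, e7, e8, e9, e10, e11, e12⟩ := Mf_entries f hf θ t hθ h1 h2
  have hq : qv (act f (Mf θ)) (lf t) =
      ((act f (Mf θ) 0 0 1 * act f (Mf θ) 1 1 0) * (act f (Mf θ) 0 0 2 * act f (Mf θ) 1 1 2) *
        (act f (Mf θ) 0 0 3 * act f (Mf θ) 1 1 3) * (act f (Mf θ) 2 2 0 * act f (Mf θ) 2 2 1) *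
        (act f (Mf θ) 3 3 0 * act f (Mf θ) 3 3 1) * (act f (Mf θ) 2 2 3 * act f (Mf θ) 3 3 2)) /
        (16 * t ^ 2) ^ 3 := by
    unfold qv
    have a0 : (Finset.univ : Finset (Fin 4)).erase 0 = {1, 2, 3} := by decide
    have a1 : (Finset.univ : Finset (Fin 4)).erase 1 = {0, 2, 3} := by decide
    have a2 : (Finset.univ : Finset (Fin 4)).erase 2 = {0, 1, 3} := by decide
    have a3 : (Finset.univ : Finset (Fin 4)).erase 3 = {0, 1, 2} := by decide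
    rw [Fin.prod_univ_four, Fin.prod_univ_four, a0, a1, a2, a3]
    have b : ∀ (i x y z : Fin 4), x ≠ y → x ≠ z → y ≠ z →
        ∏ j ∈ ({x, y, z} : Finset (Fin 4)), act f (Mf θ) i i j =
          act f (Mf θ) i i x * (act f (Mf θ) i i y * act f (Mf θ) i i z) := by
      intro i x y z hxy hxz hyz
      rw [Finset.prod_insert (by simp [hxy, hxz]), Finset.prod_insert (by simp [hyz]),
        Finset.prod_singleton]
    rw [b 0 1 2 3 (by decide) (by decide) (by decide), b 1 0 2 3 (by decide) (by decide) (by decide),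
      b 2 0 1 3 (by decide) (by decide) (by decide), b 3 0 1 2 (by decide) (by decide) (by decide)]
    have c : lf t 0 * lf t 1 * lf t 2 * lf t 3 = 16 * t ^ 2 := by
      simp [lf]
      ring
    rw [c]
    ring
  rw [hq, e1, e2, e3, e4, e5, e6, e7, e8, e9, e10, e11, e12]
  have q1 : (f 3 3 3 - θ ^ 2 * f 0 0 3 + θ * f 0 3 3 - θ ^ 3 * f 0 0 0) *
      (f 3 3 3 - θ ^ 2 * f 0 0 3 - θ * f 0 3 3 + θ ^ 3 * f 0 0 0) =
      (f 3 3 3 - 3 * t * f 0 0 3) ^ 2 - 3 * t * (f 0 3 3 - 3 * t * f 0 0 0) ^ 2 := by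
    rw [← hθ]
    ring
  have q2 : (2 * θ ^ 2 * f 0 0 1 + 2 * θ * f 0 1 3) * (2 * θ ^ 2 * f 0 0 1 - 2 * θ * f 0 1 3) =
      12 * t * (3 * t * f 0 0 1 ^ 2 - f 0 1 3 ^ 2) := by
    have : 12 * t = 4 * (3 * t) := by ring
    rw [this, ← hθ]
    ring
  have q3 : (2 * θ ^ 2 * f 0 0 2 + 2 * θ * f 0 2 3) * (2 * θ ^ 2 * f 0 0 2 - 2 * θ * f 0 2 3) =
      12 * t * (3 * t * f 0 0 2 ^ 2 - f 0 2 3 ^ 2) := by
    have : 12 * t = 4 * (3 * t) := by ring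
    rw [this, ← hθ]
    ring
  have q4 : (f 1 1 3 + θ * f 0 1 1) * (f 1 1 3 - θ * f 0 1 1) =
      f 1 1 3 ^ 2 - 3 * t * f 0 1 1 ^ 2 := by
    rw [← hθ]
    ring
  have q5 : (f 2 2 3 + θ * f 0 2 2) * (f 2 2 3 - θ * f 0 2 2) =
      f 2 2 3 ^ 2 - 3 * t * f 0 2 2 ^ 2 := by
    rw [← hθ]
    ring
  rw [q1, q2, q3, q4, q5]
  generalize (f 3 3 3 - 3 * t * f 0 0 3) ^ 2 - 3 * t * (f 0 3 3 - 3 * t * f 0 0 0) ^ 2 = A
  generalize 3 * t * f 0 0 1 ^ 2 - f 0 1 3 ^ 2 = B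
  generalize 3 * t * f 0 0 2 ^ 2 - f 0 2 3 ^ 2 = E
  generalize f 1 1 3 ^ 2 - 3 * t * f 0 1 1 ^ 2 = G
  generalize f 2 2 3 ^ 2 - 3 * t * f 0 2 2 ^ 2 = H
  field_simp
  ring

end Pool.Agent.ISB
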