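import Pool.Agent.ISB.NearOrb

/-!
# ISB / FrSm: holomorphic frames at the smooth members

PROOF.  Let `T = T0 + t0 T1` and `F t = T0 + t T1`.  For `t` near `t0` the form `F t` is smooth
(`ISO`: smoothness is an open condition, `Unif.sm_open` or similar), so `F t = act fermat x`, and
`T = act fermat x0`, so `F t = act T (x0⁻¹ x)` lies in the orbit of `T`.  By `near_orbit` the hypothesis
`hc` of `imm_curve` holds for `Φ = orbMap T`, `e0 = 1` (sup norm of `Fin 4 → Fin 4 → ℂ` = entrywise),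
`hinj` is `orbMap_fderiv` + `lie_inj`.  So there is an analytic `c` with `c t0 = 1`, `act T (c t) = F t`.
`U t = (c t)⁻¹ * x0⁻¹`: `act (F t) (U t) = act T x0⁻¹ = fermat = dg 1`.  The entries of `(c t)⁻¹` are
`(det c)⁻¹ * adjugate`, analytic at `t0`; `det (c t) ≠ 0` near `t0`.
-/

set_option autoImplicit false

noncomputable section

namespace Pool.Agent.ISB

open Matrix Filter Topology Pool.Agent.ISO

theorem dg_one : dg (fun _ => 1) = fermat := by
  funext i j k
  simp only [dg, fermat, Finset.sum_apply, mon3, Fin.sum_univ_four]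
  fin_cases i <;> fin_cases j <;> fin_cases k <;> simp <;> norm_num

theorem an_det {A : ℂ → M4} {t0 : ℂ} (h : ∀ i j, AnalyticAt ℂ (fun t => A t i j) t0) :
    AnalyticAt ℂ (fun t => (A t).det) t0 := by
  simp only [Matrix.det_apply']
  refine Finset.analyticAt_fun_sum _ fun σ _ => ?_
  exact analyticAt_const.mul (Finset.analyticAt_fun_prod _ fun i _ => h _ _)

theorem an_inv {A : ℂ → M4} {t0 : ℂ} (h : ∀ i j, AnalyticAt ℂ (fun t => A t i j) t0) (h0 : (A t0).det ≠ 0)
    (i j : Fin 4) : AnalyticAt ℂ (fun t => (A t)⁻¹ i j) t0 := by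
  have h1 : (fun t => (A t)⁻¹ i j) = fun t => ((A t).det)⁻¹ * (A t).adjugate i j := by
    funext t
    rw [Matrix.inv_def, Matrix.smul_apply, smul_eq_mul, Ring.inverse_eq_inv']
  rw [h1]
  refine ((an_det h).inv h0).mul ?_
  simp only [Matrix.adjugate_apply]
  refine an_det fun i' j' => ?_
  by_cases hi : i' = j
  · subst hi
    simp only [Matrix.updateRow_self]
    exact analyticAt_const
  · simp only [Matrix.updateRow_ne hi]
    exact h _ _

theorem fr_smooth (T0 T1 : T3) (h0 : IsSym T0) (h1 : IsSym T1) (t0 : ℂ)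
    (hs : Sm (T0 + t0 • T1))
    (horb : ∀ t : ℂ, Sm (T0 + t • T1) → ∃ x : M4, x.det ≠ 0 ∧ T0 + t • T1 = act fermat x) :
    ∃ U : ℂ → M4, (∀ i j, AnalyticAt ℂ (fun t => U t i j) t0) ∧
      ∀ᶠ t in 𝓝 t0, Fr (T0 + t • T1) (U t) (fun _ => 1) := by
  obtain ⟨x0, hx0, hT⟩ := horb t0 hs
  have hx0u : IsUnit x0.det := isUnit_iff_ne_zero.2 hx0
  have hFan : AnalyticAt ℂ (fun t : ℂ => T0 + t • T1) t0 :=
    analyticAt_const.add (analyticAt_id.smul analyticAt_const)
  have hfer : act (T0 + t0 • T1) x0⁻¹ = fermat := by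
    rw [hT, act_act, Matrix.mul_nonsing_inv _ hx0u, act_one]
  have hc : ∀ ε : ℝ, 0 < ε → ∀ᶠ t in 𝓝 t0, ∃ e, ‖e - (fun i j => (1 : M4) i j)‖ < ε ∧
      orbMap (T0 + t0 • T1) e = T0 + t • T1 := by
    intro ε hε
    obtain ⟨δ, hδ, H⟩ := near_orbit hs ε hε
    have hcont : Tendsto (fun t : ℂ => T0 + t • T1) (𝓝 t0) (𝓝 (T0 + t0 • T1)) :=
      hFan.continuousAt
    have e1 : ∀ᶠ t in 𝓝 t0, ‖(T0 + t • T1) - (T0 + t0 • T1)‖ < δ := by
      have h2 := hcont.eventually (Metric.ball_mem_nhds _ hδ)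
      filter_upwards [h2] with t ht
      rw [← dist_eq_norm]
      exact ht
    have e2 : ∀ᶠ t in 𝓝 t0, Sm (T0 + t • T1) := by
      filter_upwards [hcont.eventually (sm_open hs)] with t ht
      exact ht (isSym_add h0 (isSym_smul h1 t))
    filter_upwards [e1, e2] with t ht1 ht2
    obtain ⟨x, hx, hxT⟩ := horb t ht2
    obtain ⟨g, hg1, hg2⟩ := H (T0 + t • T1) ht1 ⟨x0⁻¹ * x, by
      rw [Matrix.det_mul]
      refine mul_ne_zero ?_ hx
      exact (Matrix.isUnit_nonsing_inv_det _ hx0u).ne_zero, by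
      rw [← act_act, hfer, hxT]⟩
    refine ⟨fun i j => g i j, ?_, hg2.symm⟩
    rw [pi_norm_lt_iff hε]
    intro i
    rw [pi_norm_lt_iff hε]
    intro j
    exact hg1 i j
  obtain ⟨c, hcan, hc0, hcF, -⟩ := imm_curve (orbMap (T0 + t0 • T1)) (fun i j => (1 : M4) i j)
    (orbMap_analytic _ _) (fun v hv => by
      rw [orbMap_fderiv] at hv
      have h2 := lie_inj hs _ hv
      funext i j
      exact congrFun (congrFun h2 i) j) (fun t => T0 + t • T1) t0 hFan
    (by
      show T0 + t0 • T1 = act (T0 + t0 • T1) 1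
      rw [act_one]) hc
  have hCan : ∀ i j, AnalyticAt ℂ (fun t => (Matrix.of (c t) : M4) i j) t0 := by
    intro i j
    have h2 := (analyticAt_pi_iff.1 hcan) i
    exact (analyticAt_pi_iff.1 h2) j
  have hC0 : (Matrix.of (c t0) : M4) = 1 := by
    rw [hc0]
    rfl
  have hdet0 : (Matrix.of (c t0) : M4).det ≠ 0 := by
    rw [hC0, Matrix.det_one]
    exact one_ne_zero
  have hdet : ∀ᶠ t in 𝓝 t0, (Matrix.of (c t) : M4).det ≠ 0 :=
    (an_det hCan).continuousAt.eventually_ne hdet0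
  refine ⟨fun t => (Matrix.of (c t) : M4)⁻¹ * x0⁻¹, fun i j => ?_, ?_⟩
  · simp only [Matrix.mul_apply]
    exact Finset.analyticAt_fun_sum _ fun k _ => (an_inv hCan hdet0 i k).mul analyticAt_const
  · filter_upwards [hdet, hcF] with t ht1 ht2
    have hu : IsUnit (Matrix.of (c t) : M4).det := isUnit_iff_ne_zero.2 ht1
    refine ⟨?_, fun _ => one_ne_zero, ?_⟩
    · rw [Matrix.det_mul]
      exact mul_ne_zero (Matrix.isUnit_nonsing_inv_det _ hu).ne_zero (Matrix.isUnit_nonsing_inv_det _ hx0u).ne_zero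
    · rw [← ht2]
      show act (act (T0 + t0 • T1) (Matrix.of (c t))) ((Matrix.of (c t) : M4)⁻¹ * x0⁻¹) = dg fun _ => 1
      rw [act_act, ← mul_assoc, Matrix.mul_nonsing_inv _ hu, one_mul, hfer, dg_one]

end Pool.Agent.ISB
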