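import Pool.Agent.ISB.Defs
import Pool.Agent.ISO.Act

/-!
# ISB / FrUniq: the functions `Q` and `Ψ` do not depend on the frame

PROOF.  Let `M = U⁻¹ U'`: `act (dg l) M = dg l'`, i.e. `∑ a, l a M a i M a j M a k = [i = j = k] l' i`.
For `i ≠ j` the vector `a ↦ l a M a i M a j` is orthogonal to all columns of the invertible matrix `M`,
so it vanishes: each row of `M` has at most one nonzero entry, and exactly one (invertible), and so has
each column: there are a permutation `σ` and `m : Fin 4 → ℂ` nonzero with `M a i = if a = σ i then m i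
else 0`.  So `l' i = m i ^ 3 * l (σ i)` and, with `f = act T1 U`, `f' = act T1 U' = act f M`,
`f' i j k = m i m j m k f (σ i) (σ j) (σ k)`.  Hence `f' i i j = m i ^ 2 m j f (σ i) (σ i) (σ j)`;
`∏_{i ≠ j} m i ^ 2 m j = (∏ m i) ^ 9` and `(∏ l' i) ^ 3 = (∏ m i) ^ 9 (∏ l i) ^ 3`: `qv` is unchanged
(reindex the products by `σ`).  `f' iij² / (l' i f' jji) = (m i⁴ m j²) / (m i³ m j² m i) * (...)`: `pv` is
unchanged, term by term (if the denominator vanishes both sides are `0`).
-/

set_option autoImplicit false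

noncomputable section

namespace Pool.Agent.ISB

open Matrix Pool.Agent.ISO

private theorem act_dg (l : Fin 4 → ℂ) (M : M4) (i j k : Fin 4) :
    act (dg l) M i j k = ∑ a, l a * M a i * M a j * M a k := by
  unfold act dg
  refine Finset.sum_congr rfl fun a _ => ?_
  rw [Finset.sum_eq_single a, Finset.sum_eq_single a]
  · rw [if_pos ⟨rfl, rfl⟩]
  · intro c _ hc
    rw [if_neg (fun h => hc h.2.symm)]
    ring
  · intro h
    exact absurd (Finset.mem_univ a) h
  · intro b _ hb
    refine Finset.sum_eq_zero fun c _ => ?_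
    rw [if_neg (fun h => hb h.1.symm)]
    ring
  · intro h
    exact absurd (Finset.mem_univ a) h

private theorem act_mono (f : T3) (σ : Equiv.Perm (Fin 4)) (m : Fin 4 → ℂ) (i j k : Fin 4) :
    act f (Matrix.of (fun a i => if a = σ i then m i else 0)) i j k =
      m i * m j * m k * f (σ i) (σ j) (σ k) := by
  unfold act
  rw [Finset.sum_eq_single (σ i), Finset.sum_eq_single (σ j), Finset.sum_eq_single (σ k)]
  · simp only [Matrix.of_apply, if_true]
    ring
  · intro c _ hc
    simp only [Matrix.of_apply]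
    rw [if_neg hc]
    ring
  · intro h
    exact absurd (Finset.mem_univ _) h
  · intro b _ hb
    refine Finset.sum_eq_zero fun c _ => ?_
    simp only [Matrix.of_apply]
    rw [if_neg hb]
    ring
  · intro h
    exact absurd (Finset.mem_univ _) h
  · intro a _ ha
    refine Finset.sum_eq_zero fun b _ => Finset.sum_eq_zero fun c _ => ?_
    simp only [Matrix.of_apply]
    rw [if_neg ha]
    ring
  · intro h
    exact absurd (Finset.mem_univ _) h

theorem fr_mono {T : T3} {U U' : M4} {l l' : Fin 4 → ℂ} (h : Fr T U l) (h' : Fr T U' l') :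
    ∃ (σ : Equiv.Perm (Fin 4)) (m : Fin 4 → ℂ), (∀ i, m i ≠ 0) ∧
      U' = U * Matrix.of (fun a i => if a = σ i then m i else 0) ∧
      ∀ i, l' i = m i ^ 3 * l (σ i) := by
  have hUu : IsUnit U.det := isUnit_iff_ne_zero.2 h.det
  obtain ⟨M, hM⟩ : ∃ M : M4, M = U⁻¹ * U' := ⟨_, rfl⟩
  have hUM : U * M = U' := by
    rw [hM, ← Matrix.mul_assoc, Matrix.mul_nonsing_inv U hUu, Matrix.one_mul]
  have hMdet : M.det ≠ 0 := by
    have h1 : U.det * M.det = U'.det := by rw [← Matrix.det_mul, hUM]
    intro h2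
    rw [h2, mul_zero] at h1
    exact h'.det h1.symm
  have hact : act (dg l) M = dg l' := by
    rw [← h.eq, act_act, hUM, h'.eq]
  have hsum : ∀ i j k, ∑ a, l a * M a i * M a j * M a k = dg l' i j k := by
    intro i j k
    rw [← act_dg, hact]
  -- each row has at most one nonzero entry
  have hrow : ∀ i j, i ≠ j → ∀ a, M a i * M a j = 0 := by
    intro i j hij a
    have h1 : (fun a => l a * M a i * M a j) = 0 := by
      apply Matrix.eq_zero_of_vecMul_eq_zero hMdet
      funext k
      have h2 := hsum i j k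
      unfold dg at h2
      rw [if_neg (fun h3 => hij h3.1)] at h2
      exact h2
    have h2 := congrFun h1 a
    have h3 : l a * (M a i * M a j) = 0 := by
      rw [← mul_assoc]
      exact h2
    exact (mul_eq_zero.1 h3).resolve_left (h.ne a)
  have hrow1 : ∀ a, ∃ i, M a i ≠ 0 := by
    intro a
    by_contra hcon
    push Not at hcon
    exact hMdet (Matrix.det_eq_zero_of_row_eq_zero a hcon)
  have hcol1 : ∀ i, ∃ a, M a i ≠ 0 := by
    intro i
    by_contra hcon
    push Not at hcon
    exact hMdet (Matrix.det_eq_zero_of_column_eq_zero i hcon)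
  choose τ hτ using hrow1
  have hτu : ∀ a i, M a i ≠ 0 → τ a = i := by
    intro a i hai
    by_contra hne
    rcases mul_eq_zero.1 (hrow (τ a) i hne a) with h1 | h1
    · exact hτ a h1
    · exact hai h1
  have hsurj : Function.Surjective τ := by
    intro i
    obtain ⟨a, ha⟩ := hcol1 i
    exact ⟨a, hτu a i ha⟩
  have hbij : Function.Bijective τ := ⟨Finite.injective_iff_surjective.2 hsurj, hsurj⟩
  obtain ⟨σ, hσ⟩ : ∃ σ : Equiv.Perm (Fin 4), ∀ i, τ (σ i) = i :=
    ⟨(Equiv.ofBijective τ hbij).symm, fun i => (Equiv.ofBijective τ hbij).apply_symm_apply i⟩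
  have hMe : M = Matrix.of (fun a i => if a = σ i then M (σ i) i else 0) := by
    ext a i
    rw [Matrix.of_apply]
    by_cases hai : a = σ i
    · rw [if_pos hai, hai]
    · rw [if_neg hai]
      by_contra hne
      apply hai
      apply hbij.1
      rw [hσ, hτu a i hne]
  refine ⟨σ, fun i => M (σ i) i, fun i => ?_, ?_, fun i => ?_⟩
  · have h1 := hτ (σ i)
    rw [hσ] at h1
    exact h1
  · rw [← hMe, hUM]
  · have h1 := hsum i i i
    unfold dg at h1
    rw [if_pos ⟨rfl, rfl⟩] at h1
    rw [← h1, Finset.sum_eq_single (σ i)]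
    · ring
    · intro a _ ha
      have h2 : M a i = 0 := by
        by_contra hne
        apply ha
        apply hbij.1
        rw [hσ, hτu a i hne]
      rw [h2]
      ring
    · intro h2
      exact absurd (Finset.mem_univ _) h2

private theorem prod_reidx (σ : Equiv.Perm (Fin 4)) (F : Fin 4 → Fin 4 → ℂ) :
    ∏ i, ∏ j ∈ Finset.univ.erase i, F (σ i) (σ j) = ∏ i, ∏ j ∈ Finset.univ.erase i, F i j := by
  have h1 : ∀ i, ∏ j ∈ Finset.univ.erase i, F (σ i) (σ j) =
      ∏ j ∈ Finset.univ.erase (σ i), F (σ i) j := by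
    intro i
    refine Finset.prod_equiv σ (fun j => ?_) (fun j _ => rfl)
    simp only [Finset.mem_erase, Finset.mem_univ, and_true, ne_eq, EmbeddingLike.apply_eq_iff_eq]
  rw [Finset.prod_congr rfl fun i _ => h1 i]
  exact Equiv.prod_comp σ (fun i => ∏ j ∈ Finset.univ.erase i, F i j)

private theorem sum_reidx (σ : Equiv.Perm (Fin 4)) (F : Fin 4 → Fin 4 → ℂ) :
    ∑ i, ∑ j ∈ Finset.univ.erase i, F (σ i) (σ j) = ∑ i, ∑ j ∈ Finset.univ.erase i, F i j := by
  have h1 : ∀ i, ∑ j ∈ Finset.univ.erase i, F (σ i) (σ j) =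
      ∑ j ∈ Finset.univ.erase (σ i), F (σ i) j := by
    intro i
    refine Finset.sum_equiv σ (fun j => ?_) (fun j _ => rfl)
    simp only [Finset.mem_erase, Finset.mem_univ, and_true, ne_eq, EmbeddingLike.apply_eq_iff_eq]
  rw [Finset.sum_congr rfl fun i _ => h1 i]
  exact Equiv.sum_comp σ (fun i => ∑ j ∈ Finset.univ.erase i, F i j)

private theorem prod_m (m : Fin 4 → ℂ) :
    ∏ i, ∏ j ∈ Finset.univ.erase i, (m i * m i * m j) = (∏ i, m i) ^ 9 := by
  have h1 : ∀ i, ∏ j ∈ Finset.univ.erase i, (m i * m i * m j) = m i ^ 5 * ∏ j, m j := by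
    intro i
    rw [Finset.prod_mul_distrib, Finset.prod_const, Finset.card_erase_of_mem (Finset.mem_univ i),
      Finset.card_univ, Fintype.card_fin, ← Finset.mul_prod_erase Finset.univ m (Finset.mem_univ i)]
    ring
  rw [Finset.prod_congr rfl fun i _ => h1 i, Finset.prod_mul_distrib, Finset.prod_const,
    Finset.card_univ, Fintype.card_fin, Finset.prod_pow]
  ring

theorem fr_uniq {T : T3} {U U' : M4} {l l' : Fin 4 → ℂ} (h : Fr T U l) (h' : Fr T U' l')
    (T1 : T3) : qv (act T1 U) l = qv (act T1 U') l' ∧ pv (act T1 U) l = pv (act T1 U') l' := by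
  obtain ⟨σ, m, hm, hU', hl'⟩ := fr_mono h h'
  have hf : ∀ i j k, act T1 U' i j k = m i * m j * m k * act T1 U (σ i) (σ j) (σ k) := by
    intro i j k
    rw [hU', ← act_act, act_mono]
  generalize act T1 U = f at hf ⊢
  have hmp : (∏ i, m i) ≠ 0 := Finset.prod_ne_zero_iff.2 fun i _ => hm i
  constructor
  · unfold qv
    have h1 : ∏ i, ∏ j ∈ Finset.univ.erase i, act T1 U' i i j =
        (∏ i, m i) ^ 9 * ∏ i, ∏ j ∈ Finset.univ.erase i, f i i j := by
      rw [← prod_m m, ← prod_reidx σ (fun i j => f i i j), ← Finset.prod_mul_distrib]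
      refine Finset.prod_congr rfl fun i _ => ?_
      rw [← Finset.prod_mul_distrib]
      exact Finset.prod_congr rfl fun j _ => hf i i j
    have h2 : (∏ i, l' i) ^ 3 = (∏ i, m i) ^ 9 * (∏ i, l i) ^ 3 := by
      have h3 : ∏ i, l' i = (∏ i, m i) ^ 3 * ∏ i, l i := by
        rw [← Equiv.prod_comp σ l, ← Finset.prod_pow, ← Finset.prod_mul_distrib]
        exact Finset.prod_congr rfl fun i _ => hl' i
      rw [h3]
      ring
    rw [h1, h2, mul_div_mul_left _ _ (pow_ne_zero 9 hmp)]
  · unfold pv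
    rw [← sum_reidx σ (fun i j => f i i j ^ 2 / (l i * f j j i))]
    refine Finset.sum_congr rfl fun i _ => Finset.sum_congr rfl fun j _ => ?_
    rw [hf i i j, hf j j i, hl' i]
    have h1 : (m i * m i * m j * f (σ i) (σ i) (σ j)) ^ 2 =
        (m i ^ 4 * m j ^ 2) * f (σ i) (σ i) (σ j) ^ 2 := by ring
    have h2 : m i ^ 3 * l (σ i) * (m j * m j * m i * f (σ j) (σ j) (σ i)) =
        (m i ^ 4 * m j ^ 2) * (l (σ i) * f (σ j) (σ j) (σ i)) := by ring
    rw [h1, h2, mul_div_mul_left]
    exact mul_ne_zero (pow_ne_zero 4 (hm i)) (pow_ne_zero 2 (hm j))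

end Pool.Agent.ISB
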