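import Mathlib

/-!
# ISB / Imm: curves in the image of an immersion

PROOF.  Let `A = fderiv ℂ Φ e0 : E →L[ℂ] W`, injective; choose a continuous linear left inverse
`π : W →L[ℂ] E` (`LinearMap.exists_leftInverse_of_injective`, finite dimension).  `Ψ = π ∘ Φ : E → E`
is analytic at `e0` with derivative `id`, so it has a strict derivative
(`AnalyticAt.hasStrictFDerivAt`) and is a local homeomorphism with analytic local inverse
(`HasStrictFDerivAt.toOpenPartialHomeomorph`; `ContDiffAt.to_localInverse`, or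
`AnalyticAt`-inverse in `Mathlib/Analysis/Analytic/Inverse`; over `ℂ` a local inverse which is
`ContDiffAt 1` at nearby points is differentiable near the point, hence analytic).

`imm_lip`: a map with invertible strict derivative is antilipschitz near the point
(`ApproximatesLinearOn`): `‖e - e'‖ ≤ 2 ‖Ψ e - Ψ e'‖ ≤ 2 ‖π‖ ‖Φ e - Φ e'‖`.

`imm_curve`: let `c t = Ψ⁻¹ (π (F t))` (local inverse at `π (F t0) = Ψ e0`), analytic at `t0`,
`c t0 = e0`.  Choose `ε` such that `Ψ` is injective on the ball `B(e0, ε)` and its inverse is the local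
inverse there: `Ψ e = y`, `e ∈ B(e0, ε)` implies `e = Ψ⁻¹ y`.  For `t` near `t0` there is `e ∈ B(e0, ε)` with
`Φ e = F t`, so `Ψ e = π (F t)` and `e = c t`; so `Φ (c t) = F t`, and any such `e` is `c t`.
-/

set_option autoImplicit false

noncomputable section

namespace Pool.Agent.ISB

open Filter Topology

variable {E W : Type*} [NormedAddCommGroup E] [NormedSpace ℂ E] [FiniteDimensional ℂ E]
  [NormedAddCommGroup W] [NormedSpace ℂ W] [FiniteDimensional ℂ W]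

private theorem imm_setup (Φ : E → W) (e0 : E) (hΦ : AnalyticAt ℂ Φ e0)
    (hinj : ∀ v, fderiv ℂ Φ e0 v = 0 → v = 0) :
    ∃ (π : W →L[ℂ] E) (R : OpenPartialHomeomorph E E),
      HasStrictFDerivAt (fun e => π (Φ e)) (ContinuousLinearMap.id ℂ E) e0 ∧
      (∀ e, R e = π (Φ e)) ∧ e0 ∈ R.source ∧ AnalyticAt ℂ R.symm (π (Φ e0)) := by
  have hcE : CompleteSpace E := FiniteDimensional.complete ℂ E
  have hker : LinearMap.ker ((fderiv ℂ Φ e0 : E →L[ℂ] W) : E →ₗ[ℂ] W) = ⊥ := by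
    rw [LinearMap.ker_eq_bot']
    intro v hv
    exact hinj v hv
  obtain ⟨g, hg⟩ := LinearMap.exists_leftInverse_of_injective _ hker
  let π : W →L[ℂ] E := LinearMap.toContinuousLinearMap g
  have hid : π.comp (fderiv ℂ Φ e0) = ContinuousLinearMap.id ℂ E := by
    apply ContinuousLinearMap.ext
    intro v
    exact LinearMap.congr_fun hg v
  have hA : AnalyticAt ℂ (fun e => π (Φ e)) e0 :=
    (π.analyticAt (Φ e0)).comp hΦ
  have hS : HasStrictFDerivAt (fun e => π (Φ e)) (ContinuousLinearMap.id ℂ E) e0 := by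
    have h1 := (π.hasStrictFDerivAt (x := Φ e0)).comp e0 hΦ.hasStrictFDerivAt
    rw [hid] at h1
    exact h1
  have hS' : HasStrictFDerivAt (fun e => π (Φ e))
      ((ContinuousLinearEquiv.refl ℂ E : E ≃L[ℂ] E) : E →L[ℂ] E) e0 := hS
  obtain ⟨p, hp⟩ := hA
  have hp1 : (continuousMultilinearCurryFin1 ℂ E E) (p 1) = ContinuousLinearMap.id ℂ E :=
    hp.hasStrictFDerivAt.hasFDerivAt.unique hS.hasFDerivAt
  have hp2 : p 1 = (continuousMultilinearCurryFin1 ℂ E E).symm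
      ((ContinuousLinearEquiv.refl ℂ E : E ≃L[ℂ] E) : E →L[ℂ] E) := by
    have h2 : ((ContinuousLinearEquiv.refl ℂ E : E ≃L[ℂ] E) : E →L[ℂ] E) =
        (continuousMultilinearCurryFin1 ℂ E E) (p 1) := hp1.symm
    rw [h2, LinearIsometryEquiv.symm_apply_apply]
  refine ⟨π, hS'.toOpenPartialHomeomorph _, hS, fun e => rfl,
    hS'.mem_toOpenPartialHomeomorph_source, ?_⟩
  exact (OpenPartialHomeomorph.hasFPowerSeriesAt_symm (hS'.toOpenPartialHomeomorph _)
    hS'.mem_toOpenPartialHomeomorph_source (i := ContinuousLinearEquiv.refl ℂ E) hp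
    hp2).analyticAt

theorem imm_lip (Φ : E → W) (e0 : E) (hΦ : AnalyticAt ℂ Φ e0)
    (hinj : ∀ v, fderiv ℂ Φ e0 v = 0 → v = 0) :
    ∃ C ε : ℝ, 0 < C ∧ 0 < ε ∧ ∀ e e', ‖e - e0‖ < ε → ‖e' - e0‖ < ε →
      ‖e - e'‖ ≤ C * ‖Φ e - Φ e'‖ := by
  obtain ⟨π, R, hS, -, -, -⟩ := imm_setup Φ e0 hΦ hinj
  have h1 := hS.isLittleO.def (c := 1 / 2) (by norm_num)
  obtain ⟨ε, hε, h2⟩ := Metric.eventually_nhds_iff.1 h1
  refine ⟨2 * ‖π‖ + 1, ε, by positivity, hε, fun e e' he he' => ?_⟩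
  have h3 : dist (e, e') (e0, e0) < ε := by
    rw [Prod.dist_eq]
    refine max_lt ?_ ?_
    · rw [dist_eq_norm]
      exact he
    · rw [dist_eq_norm]
      exact he'
  have h4 : ‖π (Φ e) - π (Φ e') - (e - e')‖ ≤ 1 / 2 * ‖e - e'‖ := h2 h3
  have h5 : ‖e - e'‖ ≤ ‖π (Φ e) - π (Φ e')‖ + ‖π (Φ e) - π (Φ e') - (e - e')‖ := by
    have h6 := norm_sub_le (π (Φ e) - π (Φ e')) (π (Φ e) - π (Φ e') - (e - e'))
    rw [sub_sub_cancel] at h6
    exact h6
  have h7 : ‖π (Φ e) - π (Φ e')‖ ≤ ‖π‖ * ‖Φ e - Φ e'‖ := by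
    rw [← map_sub]
    exact π.le_opNorm _
  nlinarith [norm_nonneg (Φ e - Φ e'), norm_nonneg (e - e')]

theorem imm_curve (Φ : E → W) (e0 : E) (hΦ : AnalyticAt ℂ Φ e0)
    (hinj : ∀ v, fderiv ℂ Φ e0 v = 0 → v = 0) (F : ℂ → W) (t0 : ℂ) (hF : AnalyticAt ℂ F t0)
    (hF0 : F t0 = Φ e0)
    (hc : ∀ ε : ℝ, 0 < ε → ∀ᶠ t in 𝓝 t0, ∃ e, ‖e - e0‖ < ε ∧ Φ e = F t) :
    ∃ c : ℂ → E, AnalyticAt ℂ c t0 ∧ c t0 = e0 ∧ (∀ᶠ t in 𝓝 t0, Φ (c t) = F t) ∧
      ∃ ε : ℝ, 0 < ε ∧ ∀ᶠ t in 𝓝 t0, ∀ e, ‖e - e0‖ < ε → Φ e = F t → e = c t := by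
  obtain ⟨π, R, hS, hR, hR0, hRs⟩ := imm_setup Φ e0 hΦ hinj
  have hF1 : π (F t0) = π (Φ e0) := by rw [hF0]
  have hRs' : AnalyticAt ℂ R.symm (π (F t0)) := by
    rw [hF1]
    exact hRs
  have hc0 : R.symm (π (F t0)) = e0 := by
    rw [hF1, ← hR e0]
    exact R.left_inv hR0
  have hA : AnalyticAt ℂ (fun t => R.symm (π (F t))) t0 := by
    have h1 : AnalyticAt ℂ (fun t => π (F t)) t0 := (π.analyticAt (F t0)).comp hF
    exact AnalyticAt.comp (g := R.symm) (f := fun t => π (F t)) hRs' h1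
  obtain ⟨ε, hε, hball⟩ := Metric.isOpen_iff.1 R.open_source e0 hR0
  have key : ∀ t, ∀ e, ‖e - e0‖ < ε → Φ e = F t → e = R.symm (π (F t)) := by
    intro t e he het
    have h2 : e ∈ R.source := hball (by
      rw [Metric.mem_ball, dist_eq_norm]
      exact he)
    rw [← het, ← hR e]
    exact (R.left_inv h2).symm
  refine ⟨fun t => R.symm (π (F t)), hA, hc0, ?_, ε, hε, Filter.Eventually.of_forall key⟩
  filter_upwards [hc ε hε] with t ht
  obtain ⟨e, he, het⟩ := ht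
  have h3 := key t e he het
  rw [← h3]
  exact het

end Pool.Agent.ISB
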