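import Pool.Agent.ISB.Defs

/-!
# ISB / Ker: the infinitesimal stabilizer of a `D4` cubic

PROOF.  All statements are computations of entries of
`lie T X i j k = ∑ a, (T a j k X a i + T i a k X a j + T i j a X a k)` (`simp [lie, mon3,
Fin.sum_univ_four]`, `ring`).  In polynomial terms `lie (FD δ) X` is
`(2xw + δyz) ξ0 + (3y² + δxz) ξ1 + (3z² + δxy) ξ2 + x² ξ3`, `ξ_i = ∑ j, X i j x_j`.
`lie_FD_ker`: the coefficients of `xw²`: `X 0 3 = 0`; `y²w`: `X 1 3 = 0`; `z²w`: `X 2 3 = 0`;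
`xyw`: `2 X 0 1 + δ X 2 3 = 0`; `xzw`: `2 X 0 2 + δ X 1 3 = 0`; `x²w`: `2 X 0 0 + X 3 3 = 0`;
`y³`: `X 1 1 = 0`; `z³`: `X 2 2 = 0`; `y²z`: `δ X 0 1 + 3 X 1 2 = 0`; `yz²`: `δ X 0 2 + 3 X 2 1 = 0`;
`xyz`: `δ (X 0 0 + X 1 1 + X 2 2) = 0`; `xy²`: `3 X 1 0 + δ X 2 1 = 0`; `xz²`: `3 X 2 0 + δ X 1 2 = 0`;
`x²y`: `X 3 1 + δ X 2 0 = 0`; `x²z`: `X 3 2 + δ X 1 0 = 0`; `x³`: `X 3 0 = 0`.
-/

set_option autoImplicit false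

noncomputable section

namespace Pool.Agent.ISB

open Matrix Pool.Agent.ISO

/-- `x² w + δ x y z + y³ + z³`. -/
def FD (δ : ℂ) : T3 := mon3 0 0 3 + δ • mon3 0 1 2 + mon3 1 1 1 + mon3 2 2 2

theorem FD_zero : FD 0 = G4 0 := by
  unfold FD G4
  rw [zero_smul, zero_smul, add_zero, add_zero]

theorem lie_FD_333 (δ : ℂ) (X : M4) : lie (FD δ) X 3 3 3 = 0 := by
  simp [lie, FD, mon3, Fin.sum_univ_four]

private theorem lie_FD42 (δ : ℂ) (X : M4) :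
    lie (FD δ) X 0 3 3 = 2 * X 0 3 / 3 ∧ lie (FD δ) X 1 1 3 = X 1 3 ∧ lie (FD δ) X 2 2 3 = X 2 3 ∧
    lie (FD δ) X 0 1 3 = (2 * X 0 1 + δ * X 2 3) / 6 ∧
    lie (FD δ) X 0 2 3 = (2 * X 0 2 + δ * X 1 3) / 6 ∧
    lie (FD δ) X 0 0 3 = (2 * X 0 0 + X 3 3) / 3 ∧
    lie (FD δ) X 1 1 1 = 3 * X 1 1 ∧ lie (FD δ) X 2 2 2 = 3 * X 2 2 ∧
    lie (FD δ) X 1 1 2 = (δ * X 0 1 + 3 * X 1 2) / 3 ∧
    lie (FD δ) X 1 2 2 = (δ * X 0 2 + 3 * X 2 1) / 3 ∧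
    lie (FD δ) X 0 1 2 = δ * (X 0 0 + X 1 1 + X 2 2) / 6 ∧
    lie (FD δ) X 0 1 1 = (3 * X 1 0 + δ * X 2 1) / 3 ∧
    lie (FD δ) X 0 2 2 = (3 * X 2 0 + δ * X 1 2) / 3 ∧
    lie (FD δ) X 0 0 1 = (X 3 1 + δ * X 2 0) / 3 ∧
    lie (FD δ) X 0 0 2 = (X 3 2 + δ * X 1 0) / 3 ∧ lie (FD δ) X 0 0 0 = X 3 0 := by
  refine ⟨?_, ?_, ?_, ?_, ?_, ?_, ?_, ?_, ?_, ?_, ?_, ?_, ?_, ?_, ?_, ?_⟩ <;>
  · simp [lie, FD, mon3, Fin.sum_univ_four]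
    try ring

theorem lie_FD_ker (δ : ℂ) (X : M4) (h : lie (FD δ) X = 0) :
    δ * X 0 0 = 0 ∧ X = Matrix.diagonal ![X 0 0, 0, 0, -2 * X 0 0] := by
  obtain ⟨e1, e2, e3, e4, e5, e6, e7, e8, e9, e10, e11, e12, e13, e14, e15, e16⟩ := lie_FD42 δ X
  have H : ∀ i j k, lie (FD δ) X i j k = 0 := fun i j k => by
    rw [h]
    rfl
  rw [H] at e1 e2 e3 e4 e5 e6 e7 e8 e9 e10 e11 e12 e13 e14 e15 e16
  have x03 : X 0 3 = 0 := by linear_combination (-3 / 2) * e1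
  have x13 : X 1 3 = 0 := e2.symm
  have x23 : X 2 3 = 0 := e3.symm
  have x01 : X 0 1 = 0 := by linear_combination (-3) * e4 - δ / 2 * x23
  have x02 : X 0 2 = 0 := by linear_combination (-3) * e5 - δ / 2 * x13
  have x33 : X 3 3 = -2 * X 0 0 := by linear_combination (-3) * e6
  have x11 : X 1 1 = 0 := by linear_combination (-1 / 3) * e7
  have x22 : X 2 2 = 0 := by linear_combination (-1 / 3) * e8
  have x12 : X 1 2 = 0 := by linear_combination (-1) * e9 - δ / 3 * x01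
  have x21 : X 2 1 = 0 := by linear_combination (-1) * e10 - δ / 3 * x02
  have x00 : δ * X 0 0 = 0 := by linear_combination (-6) * e11 - δ * x11 - δ * x22
  have x10 : X 1 0 = 0 := by linear_combination (-1) * e12 - δ / 3 * x21
  have x20 : X 2 0 = 0 := by linear_combination (-1) * e13 - δ / 3 * x12
  have x31 : X 3 1 = 0 := by linear_combination (-3) * e14 - δ * x20
  have x32 : X 3 2 = 0 := by linear_combination (-3) * e15 - δ * x10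
  have x30 : X 3 0 = 0 := e16.symm
  refine ⟨x00, ?_⟩
  ext i j
  fin_cases i <;> fin_cases j <;>
    simp [x03, x13, x23, x01, x02, x33, x11, x22, x12, x21, x10, x20, x31, x32, x30]

/-- The components of `lie (G4 0) X`. -/
theorem lie_G4 (X : M4) :
    lie (G4 0) X 3 3 3 = 0 ∧ lie (G4 0) X 1 3 3 = 0 ∧ lie (G4 0) X 2 3 3 = 0 ∧
    lie (G4 0) X 1 2 3 = 0 ∧ lie (G4 0) X 0 1 2 = 0 ∧
    lie (G4 0) X 0 0 0 = X 3 0 ∧ lie (G4 0) X 0 0 1 = X 3 1 / 3 ∧ lie (G4 0) X 0 0 2 = X 3 2 / 3 ∧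
    lie (G4 0) X 0 0 3 = (2 * X 0 0 + X 3 3) / 3 ∧ lie (G4 0) X 0 1 3 = X 0 1 / 3 ∧
    lie (G4 0) X 0 2 3 = X 0 2 / 3 ∧ lie (G4 0) X 0 3 3 = 2 * X 0 3 / 3 ∧
    lie (G4 0) X 1 1 1 = 3 * X 1 1 ∧ lie (G4 0) X 2 2 2 = 3 * X 2 2 ∧
    lie (G4 0) X 0 1 1 = X 1 0 ∧ lie (G4 0) X 1 1 2 = X 1 2 ∧ lie (G4 0) X 1 1 3 = X 1 3 ∧
    lie (G4 0) X 0 2 2 = X 2 0 ∧ lie (G4 0) X 1 2 2 = X 2 1 ∧ lie (G4 0) X 2 2 3 = X 2 3 := by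
  refine ⟨?_, ?_, ?_, ?_, ?_, ?_, ?_, ?_, ?_, ?_, ?_, ?_, ?_, ?_, ?_, ?_, ?_, ?_, ?_, ?_⟩ <;>
  · simp [lie, G4, mon3, Fin.sum_univ_four]
    try ring

end Pool.Agent.ISB
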