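import Pool.Agent.ISB.Close
import Pool.Agent.ISB.Ker
import Pool.Agent.ISB.Imm

/-!
# ISB / Germ: the standard form of the germ of the pencil at a `D4` member

PROOF.  `E = Fin 4 → Fin 4 → ℂ`, `m e = Matrix.of (fun i j => if i = 0 ∧ j = 0 then 1 else 1 i j + e i j)`,
`Φ e = act (G4 (e 0 0)) (m e)` (polynomial, so analytic), `Φ 0 = G4 0`.  Its derivative at `0` is
`v ↦ lie (G4 0) v' + v 0 0 • mon3 3 3 3`, `v'` = `v` with the entry `(0, 0)` replaced by `0`
(first order terms).  Injective: the entry `333` gives `v 0 0 = 0` (`lie_G4`), so `lie (FD 0) v' = 0`, and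
`lie_FD_ker`: `v' = diagonal (c, 0, 0, -2c)` with `c = v' 0 0 = 0`.
Hypothesis `hc` of `imm_curve` for `F t = G4 0 + t • p.T`, `t0 = 0`: for `t = 0` take `e = 0`; for
`t ≠ 0` small take `g` from `close_D4`, `λ = g 0 0` (near `1`), `Λ = diagonal ![λ, 1, 1, λ⁻²]`;
`act (G4 t) Λ = G4 (t λ⁻⁶)`, `Λ⁻¹ g` has the entry `(0,0)` equal to `1`, so with
`e 0 0 = t λ⁻⁶`, `e i j = (Λ⁻¹ g) i j - 1 i j` otherwise, `Φ e = act (G4 t) g = F t`, and `e` is small.
`imm_curve`: analytic `c` with `c 0 = 0`, `Φ (c t) = F t`; by the uniqueness part `c t` is the `e` just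
constructed, so `c t 0 0 = t λ⁻⁶` with `λ → 1`: `(c t 0 0) / t → 1` as `t → 0`.
So `τ t = c t 0 0` is analytic, `τ 0 = 0`, `deriv τ 0 = 1`; `τ t = t υ t` with `υ` analytic, `υ 0 = 1`
(`dslope τ 0`, analytic).  `λ t = exp (- log (υ t) / 6)`, analytic at `0`, `λ 0 = 1`, `λ⁻⁶ = υ`.
`g t = diagonal ![λ, 1, 1, λ⁻²] * m (c t)`: `act (G4 t) (g t) = act (G4 (τ t)) (m (c t)) = F t` near `0`,
`g 0 = 1`.  `k t = (g t)⁻¹`: analytic entries, `act (F t) (k t) = G4 t`.
-/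

set_option autoImplicit false

noncomputable section

namespace Pool.Agent.ISB

open Matrix Filter Topology Pool.Agent.ISO

/-- `k` transforms the pencil into the standard germ. -/
structure Std (p : Par) (k : ℂ → M4) : Prop where
  an : ∀ i j, AnalyticAt ℂ (fun t => k t i j) 0
  one : k 0 = 1
  ev : ∀ᶠ t in 𝓝 (0 : ℂ), (k t).det ≠ 0 ∧ act (G4 0 + t • p.T) (k t) = G4 t

/-- `1 + e` with the entry `(0, 0)` replaced by `1`. -/
private def gm (e : Fin 4 → Fin 4 → ℂ) : M4 :=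
  Matrix.of fun i j => if i = 0 ∧ j = 0 then 1 else (1 : M4) i j + e i j

/-- `e` with the entry `(0, 0)` replaced by `0`. -/
private def gz (e : Fin 4 → Fin 4 → ℂ) : M4 :=
  Matrix.of fun i j => if i = 0 ∧ j = 0 then 0 else e i j

/-- The immersion. -/
private def gP (e : Fin 4 → Fin 4 → ℂ) : T3 := act (G4 (e 0 0)) (gm e)

private theorem gm_zero : gm 0 = 1 := by
  ext i j
  simp only [gm, Matrix.of_apply, Pi.zero_apply, add_zero]
  split_ifs with h
  · rw [h.1, h.2, Matrix.one_apply_eq]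
  · rfl

private theorem gm_smul (s : ℂ) (v : Fin 4 → Fin 4 → ℂ) : gm (s • v) = 1 + s • gz v := by
  ext i j
  simp only [gm, gz, Matrix.of_apply, Matrix.add_apply, Matrix.smul_apply, Pi.smul_apply,
    smul_eq_mul]
  split_ifs with h
  · rw [h.1, h.2, Matrix.one_apply_eq, mul_zero, add_zero]
  · rfl

private theorem G4_add (κ : ℂ) : G4 κ = G4 0 + κ • mon3 3 3 3 := by
  unfold G4
  rw [zero_smul, add_zero]

private theorem gP_zero : gP 0 = G4 0 := by
  unfold gP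
  rw [gm_zero, act_one]
  rfl

private theorem ap_an (i j : Fin 4) (e0 : Fin 4 → Fin 4 → ℂ) :
    AnalyticAt ℂ (fun e : Fin 4 → Fin 4 → ℂ => e i j) e0 :=
  ((ContinuousLinearMap.proj (R := ℂ) (φ := fun _ : Fin 4 => ℂ) j).comp
    (ContinuousLinearMap.proj (R := ℂ) (φ := fun _ : Fin 4 => Fin 4 → ℂ) i)).analyticAt e0

private theorem act_an {X : Type*} [NormedAddCommGroup X] [NormedSpace ℂ X] (T : X → T3)
    (g : X → M4) (x0 : X) (hT : ∀ a b c, AnalyticAt ℂ (fun x => T x a b c) x0)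
    (hg : ∀ a b, AnalyticAt ℂ (fun x => g x a b) x0) :
    AnalyticAt ℂ (fun x => act (T x) (g x)) x0 := by
  refine AnalyticAt.pi fun i => AnalyticAt.pi fun j => AnalyticAt.pi fun k => ?_
  refine Finset.analyticAt_fun_sum _ fun a _ => Finset.analyticAt_fun_sum _ fun b _ =>
    Finset.analyticAt_fun_sum _ fun c _ => ?_
  exact (((hT a b c).mul (hg a i)).mul (hg b j)).mul (hg c k)

private theorem gm_an {X : Type*} [NormedAddCommGroup X] [NormedSpace ℂ X]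
    (f : X → Fin 4 → Fin 4 → ℂ) (x0 : X) (hf : ∀ a b, AnalyticAt ℂ (fun x => f x a b) x0)
    (a b : Fin 4) : AnalyticAt ℂ (fun x => gm (f x) a b) x0 := by
  by_cases h : a = 0 ∧ b = 0
  · have h1 : (fun x => gm (f x) a b) = fun _ => 1 := by
      funext e
      simp only [gm, Matrix.of_apply]
      rw [if_pos h]
    rw [h1]
    exact analyticAt_const
  · have h1 : (fun x => gm (f x) a b) = fun x => (1 : M4) a b + f x a b := by
      funext e
      simp only [gm, Matrix.of_apply]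
      rw [if_neg h]
    rw [h1]
    exact analyticAt_const.add (hf a b)

private theorem gP_an (e0 : Fin 4 → Fin 4 → ℂ) : AnalyticAt ℂ gP e0 := by
  have h0 : ∀ a b, AnalyticAt ℂ (fun x : Fin 4 → Fin 4 → ℂ => gm x a b) e0 :=
    gm_an (X := Fin 4 → Fin 4 → ℂ) (fun e => e) e0 fun a b => ap_an a b e0
  refine act_an (X := Fin 4 → Fin 4 → ℂ) (fun e => G4 (e 0 0)) gm e0 ?_ h0
  intro a b c
  have h : (fun e : Fin 4 → Fin 4 → ℂ => G4 (e 0 0) a b c) =
      fun e => G4 0 a b c + e 0 0 * mon3 3 3 3 a b c := by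
    funext e
    rw [G4_add (e 0 0)]
    rfl
  rw [h]
  exact analyticAt_const.add ((ap_an 0 0 e0).mul analyticAt_const)

private theorem poly_deriv (A B Q K : T3) :
    HasDerivAt (fun s : ℂ => A + s • B + s ^ 2 • Q + s ^ 3 • K) B 0 := by
  have h := ((((hasDerivAt_const (0 : ℂ) A).add ((hasDerivAt_id (0 : ℂ)).smul_const B)).add
    ((hasDerivAt_pow 2 (0 : ℂ)).smul_const Q)).add ((hasDerivAt_pow 3 (0 : ℂ)).smul_const K))
  have h2 : (0 : T3) + (1 : ℂ) • B + (((2 : ℕ) : ℂ) * (0 : ℂ) ^ (2 - 1)) • Q +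
      (((3 : ℕ) : ℂ) * (0 : ℂ) ^ (3 - 1)) • K = B := by
    simp
  rw [h2] at h
  exact h

private theorem gP_fderiv (v : Fin 4 → Fin 4 → ℂ) :
    fderiv ℂ gP 0 v = lie (G4 0) (gz v) + v 0 0 • mon3 3 3 3 := by
  have h1 : HasFDerivAt gP (fderiv ℂ gP 0) ((0 : ℂ) • v) := by
    rw [zero_smul]
    exact (gP_an 0).differentiableAt.hasFDerivAt
  have h2 : HasDerivAt (fun s : ℂ => s • v) v 0 := by
    have h := (hasDerivAt_id (0 : ℂ)).smul_const v
    rw [one_smul] at h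
    exact h
  have h3 : HasDerivAt (fun s : ℂ => gP (s • v)) (fderiv ℂ gP 0 v) 0 :=
    HasFDerivAt.comp_hasDerivAt (f := fun s : ℂ => s • v) (0 : ℂ) h1 h2
  obtain ⟨Q, hQ⟩ := act_one_add (G4 0) (gz v)
  obtain ⟨Q', hQ'⟩ := act_one_add (mon3 3 3 3) (gz v)
  have h4 : (fun s : ℂ => gP (s • v)) = fun s : ℂ =>
      (G4 0 + s • lie (G4 0) (gz v) + s ^ 2 • Q + s ^ 3 • act (G4 0) (gz v)) +
      (s * v 0 0) • (mon3 3 3 3 + s • lie (mon3 3 3 3) (gz v) + s ^ 2 • Q' +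
        s ^ 3 • act (mon3 3 3 3) (gz v)) := by
    funext s
    show act (G4 (s * v 0 0)) (gm (s • v)) = _
    rw [gm_smul, G4_add (s * v 0 0), act_add, act_smul, hQ, hQ']
  have h5 := poly_deriv (G4 0) (lie (G4 0) (gz v)) Q (act (G4 0) (gz v))
  have h6 := poly_deriv (mon3 3 3 3) (lie (mon3 3 3 3) (gz v)) Q' (act (mon3 3 3 3) (gz v))
  have h7 : HasDerivAt (fun s : ℂ => s * v 0 0) (v 0 0) 0 := by
    have h := (hasDerivAt_id (0 : ℂ)).mul_const (v 0 0)
    rw [one_mul] at h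
    exact h
  have h8 := h5.add (h7.smul h6)
  have h9 : HasDerivAt (fun s : ℂ => gP (s • v))
      (lie (G4 0) (gz v) + ((0 * v 0 0) • lie (mon3 3 3 3) (gz v) + v 0 0 •
        (mon3 3 3 3 + (0 : ℂ) • lie (mon3 3 3 3) (gz v) + (0 : ℂ) ^ 2 • Q' +
        (0 : ℂ) ^ 3 • act (mon3 3 3 3) (gz v)))) 0 := by
    rw [h4]
    exact h8
  rw [h3.unique h9]
  simp

private theorem gP_inj (v : Fin 4 → Fin 4 → ℂ) (h : fderiv ℂ gP 0 v = 0) : v = 0 := by
  rw [gP_fderiv] at h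
  have h1 : v 0 0 = 0 := by
    have h2 : lie (G4 0) (gz v) 3 3 3 + v 0 0 * mon3 3 3 3 3 3 3 = 0 :=
      congrFun (congrFun (congrFun h 3) 3) 3
    have h3 : (mon3 3 3 3 3 3 3 : ℂ) = 1 := by
      simp [mon3]
      norm_num
    rw [(lie_G4 (gz v)).1, h3, zero_add, mul_one] at h2
    exact h2
  rw [h1, zero_smul, add_zero, ← FD_zero] at h
  have h2 := (lie_FD_ker 0 (gz v) h).2
  have h3 : gz v 0 0 = 0 := by
    simp [gz]
  rw [h3] at h2
  funext i j
  by_cases hij : i = 0 ∧ j = 0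
  · rw [hij.1, hij.2, h1]
    rfl
  · have h4 : gz v i j = v i j := by
      simp only [gz, Matrix.of_apply]
      rw [if_neg hij]
    rw [← h4, h2]
    fin_cases i <;> fin_cases j <;> simp

private theorem G4_diag (κ lam : ℂ) (h : lam ≠ 0) :
    act (G4 κ) (Matrix.diagonal ![lam⁻¹, 1, 1, lam ^ 2]) = G4 (κ * lam ^ 6) := by
  have h1 : lam * lam⁻¹ = 1 := mul_inv_cancel₀ h
  funext i j k
  rw [act_diagonal]
  fin_cases i <;> fin_cases j <;> fin_cases k <;> simp [G4, mon3]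
  all_goals field_simp

/-- The parameters of a matrix near `1`. -/
private def eT (x : ℂ × (Fin 4 → Fin 4 → ℂ)) : Fin 4 → Fin 4 → ℂ :=
  fun i j => if i = 0 ∧ j = 0 then x.1 * (x.2 0 0)⁻¹ ^ 6 else
    (![(x.2 0 0)⁻¹, 1, 1, (x.2 0 0) ^ 2] : Fin 4 → ℂ) i * x.2 i j - (1 : M4) i j

private theorem gm_eT (t : ℂ) (g : M4) (h : g 0 0 ≠ 0) :
    gm (eT (t, g)) = Matrix.diagonal ![(g 0 0)⁻¹, 1, 1, (g 0 0) ^ 2] * g := by
  ext i j
  rw [Matrix.diagonal_mul]
  simp only [gm, eT, Matrix.of_apply]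
  by_cases hij : i = 0 ∧ j = 0
  · rw [if_pos hij, hij.1, hij.2]
    exact (inv_mul_cancel₀ h).symm
  · rw [if_neg hij, if_neg hij]
    ring

private theorem gP_eT (t : ℂ) (g : M4) (h : g 0 0 ≠ 0) : gP (eT (t, g)) = act (G4 t) g := by
  have h1 : eT (t, g) 0 0 = t * (g 0 0)⁻¹ ^ 6 := by
    simp [eT]
  unfold gP
  rw [gm_eT t g h, h1, ← act_act, G4_diag _ _ h]
  congr 2
  rw [mul_assoc, ← mul_pow, inv_mul_cancel₀ h, one_pow, mul_one]

private theorem eT_zero : eT (0, fun i j => (1 : M4) i j) = 0 := by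
  funext i j
  simp only [eT]
  split_ifs with h
  · rw [zero_mul]
    rfl
  · rw [Matrix.one_apply_eq]
    fin_cases i <;> simp

private theorem eT_cont : ContinuousAt eT (0, fun i j => (1 : M4) i j) := by
  have hp : ∀ i j : Fin 4, Continuous fun x : ℂ × (Fin 4 → Fin 4 → ℂ) => x.2 i j := fun i j =>
    (continuous_apply j).comp ((continuous_apply i).comp continuous_snd)
  have h0 : ContinuousAt (fun x : ℂ × (Fin 4 → Fin 4 → ℂ) => (x.2 0 0)⁻¹)
      (0, fun i j => (1 : M4) i j) := by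
    refine ContinuousAt.inv₀ (hp 0 0).continuousAt ?_
    simp
  refine continuousAt_pi.2 fun i => continuousAt_pi.2 fun j => ?_
  by_cases hij : i = 0 ∧ j = 0
  · have h1 : (fun x : ℂ × (Fin 4 → Fin 4 → ℂ) => eT x i j) =
        fun x => x.1 * (x.2 0 0)⁻¹ ^ 6 := by
      funext x
      simp only [eT]
      rw [if_pos hij]
    rw [h1]
    exact continuous_fst.continuousAt.mul (h0.pow 6)
  · have h1 : (fun x : ℂ × (Fin 4 → Fin 4 → ℂ) => eT x i j) =
        fun x => (![(x.2 0 0)⁻¹, 1, 1, (x.2 0 0) ^ 2] : Fin 4 → ℂ) i * x.2 i j -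
          (1 : M4) i j := by
      funext x
      simp only [eT]
      rw [if_neg hij]
    rw [h1]
    refine ContinuousAt.sub (ContinuousAt.mul ?_ (hp i j).continuousAt) continuousAt_const
    fin_cases i
    · exact h0
    · exact continuousAt_const
    · exact continuousAt_const
    · exact ((hp 0 0).pow 2).continuousAt

private theorem key (p : Par)
    (horb : ∃ ε0 : ℝ, 0 < ε0 ∧ ∀ t : ℂ, t ≠ 0 → ‖t‖ < ε0 →
      ∃ x : M4, x.det ≠ 0 ∧ G4 0 + t • p.T = act fermat x) (ε : ℝ) (hε : 0 < ε) :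
    ∃ δ : ℝ, 0 < δ ∧ ∀ t : ℂ, t ≠ 0 → ‖t‖ < δ → ∃ (lam : ℂ) (e : Fin 4 → Fin 4 → ℂ),
      ‖lam - 1‖ < ε ∧ ‖e‖ < ε ∧ gP e = G4 0 + t • p.T ∧ e 0 0 = t * lam⁻¹ ^ 6 := by
  obtain ⟨δ1, hδ1, H1⟩ := Metric.continuousAt_iff.1 eT_cont ε hε
  obtain ⟨δ2, hδ2, H2⟩ := close_D4 p horb (min (min δ1 ε) (1 / 2))
    (lt_min (lt_min hδ1 hε) (by norm_num))
  refine ⟨min δ1 δ2, lt_min hδ1 hδ2, fun t ht0 ht => ?_⟩
  obtain ⟨g, hg, hg2⟩ := H2 t ht0 (ht.trans_le (min_le_right _ _))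
  have hne : g 0 0 ≠ 0 := by
    intro h
    have h1 := (hg 0 0).trans_le (min_le_right _ _)
    rw [h, Matrix.one_apply_eq, zero_sub, norm_neg, norm_one] at h1
    norm_num at h1
  refine ⟨g 0 0, eT (t, g), ?_, ?_, ?_, ?_⟩
  · have h1 := (hg 0 0).trans_le ((min_le_left _ _).trans (min_le_right _ _))
    rw [Matrix.one_apply_eq] at h1
    exact h1
  · have h1 : dist ((t, g) : ℂ × (Fin 4 → Fin 4 → ℂ)) (0, fun i j => (1 : M4) i j) < δ1 := by
      rw [Prod.dist_eq]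
      refine max_lt ?_ ?_
      · show dist t 0 < δ1
        rw [dist_zero_right]
        exact ht.trans_le (min_le_left _ _)
      · refine (dist_pi_lt_iff hδ1).2 fun i => (dist_pi_lt_iff hδ1).2 fun j => ?_
        rw [dist_eq_norm]
        exact (hg i j).trans_le ((min_le_left _ _).trans (min_le_left _ _))
    have h2 := H1 h1
    rw [eT_zero, dist_zero_right] at h2
    exact h2
  · rw [gP_eT t g hne, hg2]
  · simp [eT]

private theorem det_an {X : Type*} [NormedAddCommGroup X] [NormedSpace ℂ X] (g : X → M4) (x0 : X)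
    (hg : ∀ a b, AnalyticAt ℂ (fun x => g x a b) x0) :
    AnalyticAt ℂ (fun x => (g x).det) x0 := by
  have h : (fun x => (g x).det) = fun x => ∑ σ : Equiv.Perm (Fin 4),
      ((Equiv.Perm.sign σ : ℤ) : ℂ) * ∏ i, g x (σ i) i := by
    funext x
    exact Matrix.det_apply' _
  rw [h]
  exact Finset.analyticAt_fun_sum _ fun σ _ => analyticAt_const.mul
    (Finset.analyticAt_fun_prod _ fun i _ => hg _ _)

private theorem inv_an {X : Type*} [NormedAddCommGroup X] [NormedSpace ℂ X] (g : X → M4) (x0 : X)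
    (hg : ∀ a b, AnalyticAt ℂ (fun x => g x a b) x0) (h0 : (g x0).det ≠ 0) (i j : Fin 4) :
    AnalyticAt ℂ (fun x => (g x)⁻¹ i j) x0 := by
  have h : (fun x => (g x)⁻¹ i j) = fun x => ((g x).det)⁻¹ *
      ((g x).updateRow j (Pi.single i 1)).det := by
    funext x
    rw [Matrix.inv_def, Matrix.smul_apply, Ring.inverse_eq_inv', Matrix.adjugate_apply,
      smul_eq_mul]
  rw [h]
  refine ((det_an g x0 hg).inv h0).mul (det_an _ x0 fun a b => ?_)
  by_cases ha : a = j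
  · subst ha
    have h1 : (fun x => (g x).updateRow a (Pi.single i 1) a b) =
        fun _ => (Pi.single i 1 : Fin 4 → ℂ) b := by
      funext x
      rw [Matrix.updateRow_self]
    rw [h1]
    exact analyticAt_const
  · have h1 : (fun x => (g x).updateRow j (Pi.single i 1) a b) = fun x => g x a b := by
      funext x
      rw [Matrix.updateRow_ne ha]
    rw [h1]
    exact hg a b

private theorem tau_deriv (p : Par)
    (horb : ∃ ε0 : ℝ, 0 < ε0 ∧ ∀ t : ℂ, t ≠ 0 → ‖t‖ < ε0 →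
      ∃ x : M4, x.det ≠ 0 ∧ G4 0 + t • p.T = act fermat x)
    (c : ℂ → Fin 4 → Fin 4 → ℂ) (hc0 : c 0 = 0) (hca : AnalyticAt ℂ (fun t => c t 0 0) 0)
    (ε : ℝ) (hε : 0 < ε)
    (hu : ∀ᶠ t in 𝓝 (0 : ℂ), ∀ e, ‖e - 0‖ < ε → gP e = G4 0 + t • p.T → e = c t) :
    deriv (fun t => c t 0 0) 0 = 1 := by
  have h1 := hasDerivAt_iff_tendsto_slope.1 hca.differentiableAt.hasDerivAt
  refine tendsto_nhds_unique h1 ?_
  rw [Metric.tendsto_nhds]
  intro η hη
  have h2 : ContinuousAt (fun z : ℂ => z⁻¹ ^ 6) 1 :=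
    (continuousAt_inv₀ one_ne_zero).pow 6
  obtain ⟨η', hη', H⟩ := Metric.continuousAt_iff.1 h2 η hη
  obtain ⟨δ, hδ, K⟩ := key p horb (min ε η') (lt_min hε hη')
  have h3 : ∀ᶠ t in 𝓝[≠] (0 : ℂ), ∀ e, ‖e - 0‖ < ε → gP e = G4 0 + t • p.T → e = c t :=
    nhdsWithin_le_nhds hu
  have h4 : ∀ᶠ t in 𝓝[≠] (0 : ℂ), ‖t‖ < δ := by
    refine nhdsWithin_le_nhds ?_
    have := Metric.ball_mem_nhds (0 : ℂ) hδ
    filter_upwards [this] with t ht
    rw [mem_ball_zero_iff] at ht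
    exact ht
  filter_upwards [h3, h4, self_mem_nhdsWithin] with t ht3 ht4 ht5
  have ht0 : t ≠ 0 := ht5
  obtain ⟨lam, e, hl, he, hge, hee⟩ := K t ht0 ht4
  have h5 : e = c t := ht3 e (by rw [sub_zero]; exact he.trans_le (min_le_left _ _)) hge
  have h6 : slope (fun t => c t 0 0) 0 t = lam⁻¹ ^ 6 := by
    rw [slope_def_field, hc0, ← h5, hee, sub_zero]
    show (t * lam⁻¹ ^ 6 - 0) / t = _
    rw [sub_zero, mul_comm, mul_div_assoc, div_self ht0, mul_one]
  rw [h6]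
  have h7 := H (x := lam) (by rw [dist_eq_norm]; exact hl.trans_le (min_le_right _ _))
  rw [inv_one, one_pow] at h7
  exact h7

theorem germ (p : Par)
    (horb : ∃ ε0 : ℝ, 0 < ε0 ∧ ∀ t : ℂ, t ≠ 0 → ‖t‖ < ε0 →
      ∃ x : M4, x.det ≠ 0 ∧ G4 0 + t • p.T = act fermat x) : ∃ k : ℂ → M4, Std p k := by
  obtain ⟨c, hca, hc0, hcF, ε, hε, hu⟩ := imm_curve gP 0 (gP_an 0) gP_inj
    (fun t : ℂ => G4 0 + t • p.T) 0 (analyticAt_const.add (analyticAt_id.smul analyticAt_const))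
    (by rw [gP_zero]; simp) (by
      intro ε hε
      obtain ⟨δ, hδ, K⟩ := key p horb ε hε
      filter_upwards [Metric.ball_mem_nhds (0 : ℂ) hδ] with t ht
      rw [mem_ball_zero_iff] at ht
      by_cases ht0 : t = 0
      · refine ⟨0, by simpa using hε, ?_⟩
        rw [gP_zero, ht0]
        simp
      · obtain ⟨lam, e, hl, he, hge, hee⟩ := K t ht0 ht
        exact ⟨e, by rw [sub_zero]; exact he, hge⟩)
  have hcij : ∀ i j, AnalyticAt ℂ (fun t => c t i j) 0 := fun i j =>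
    analyticAt_pi_iff.1 (analyticAt_pi_iff.1 hca i) j
  have hd := tau_deriv p horb c hc0 (hcij 0 0) ε hε hu
  -- the factor
  obtain ⟨q, hq⟩ := hcij 0 0
  have hua : AnalyticAt ℂ (dslope (fun t => c t 0 0) 0) 0 :=
    hq.has_fpower_series_dslope_fslope.analyticAt
  have hu0 : dslope (fun t => c t 0 0) 0 0 = 1 := by
    rw [dslope_same, hd]
  have hut : ∀ t, t * dslope (fun t => c t 0 0) 0 t = c t 0 0 := by
    intro t
    have h := sub_smul_dslope (fun t => c t 0 0) 0 t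
    rw [sub_zero, smul_eq_mul] at h
    rw [h, hc0]
    show c t 0 0 - 0 = _
    rw [sub_zero]
  obtain ⟨υ, hυ⟩ : ∃ υ : ℂ → ℂ, υ = dslope (fun t => c t 0 0) 0 := ⟨_, rfl⟩
  rw [← hυ] at hua hu0 hut
  obtain ⟨μ, hμ⟩ : ∃ μ : ℂ → ℂ, μ = fun t => Complex.exp (Complex.log (υ t) / 6) := ⟨_, rfl⟩
  have hμa : AnalyticAt ℂ μ 0 := by
    rw [hμ]
    refine AnalyticAt.cexp' ((hua.clog ?_).div analyticAt_const (by norm_num))
    rw [hu0]
    exact Complex.one_mem_slitPlane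
  have hμ0 : μ 0 = 1 := by
    rw [hμ]
    simp [hu0]
  have hμne : ∀ t, μ t ≠ 0 := fun t => by
    rw [hμ]
    exact Complex.exp_ne_zero _
  have hμ6 : ∀ t, υ t ≠ 0 → μ t ^ 6 = υ t := by
    intro t ht
    rw [hμ]
    show Complex.exp (Complex.log (υ t) / 6) ^ 6 = υ t
    rw [← Complex.exp_nat_mul]
    have h : ((6 : ℕ) : ℂ) * (Complex.log (υ t) / 6) = Complex.log (υ t) := by
      push_cast
      ring
    rw [h, Complex.exp_log ht]
  -- the transformation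
  obtain ⟨g, hg⟩ : ∃ g : ℂ → M4, g = fun t =>
    Matrix.diagonal ![(μ t)⁻¹, 1, 1, (μ t) ^ 2] * gm (c t) := ⟨_, rfl⟩
  have hga : ∀ i j, AnalyticAt ℂ (fun t => g t i j) 0 := by
    intro i j
    have h : (fun t => g t i j) = fun t =>
        (![(μ t)⁻¹, 1, 1, (μ t) ^ 2] : Fin 4 → ℂ) i * gm (c t) i j := by
      funext t
      rw [hg]
      exact Matrix.diagonal_mul _ _ _ _
    rw [h]
    refine AnalyticAt.mul ?_ (gm_an c 0 hcij i j)
    fin_cases i
    · exact hμa.inv (hμne 0)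
    · exact analyticAt_const
    · exact analyticAt_const
    · exact hμa.pow 2
  have hg0 : g 0 = 1 := by
    rw [hg]
    show Matrix.diagonal ![(μ 0)⁻¹, 1, 1, (μ 0) ^ 2] * gm (c 0) = 1
    rw [hμ0, hc0, gm_zero, mul_one, inv_one, one_pow]
    ext i j
    fin_cases i <;> fin_cases j <;> simp
  have hdet : (g 0).det ≠ 0 := by
    rw [hg0, Matrix.det_one]
    exact one_ne_zero
  refine ⟨fun t => (g t)⁻¹, fun i j => inv_an g 0 hga hdet i j, ?_, ?_⟩
  · show (g 0)⁻¹ = 1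
    rw [hg0, inv_one]
  · have e1 : ∀ᶠ t in 𝓝 (0 : ℂ), υ t ≠ 0 :=
      hua.continuousAt.eventually_ne (by rw [hu0]; exact one_ne_zero)
    have e2 : ∀ᶠ t in 𝓝 (0 : ℂ), (g t).det ≠ 0 :=
      (det_an g 0 hga).continuousAt.eventually_ne hdet
    filter_upwards [e1, e2, hcF] with t ht1 ht2 ht3
    have hun : IsUnit (g t).det := isUnit_iff_ne_zero.2 ht2
    have h1 : (g t).det * ((g t)⁻¹).det = 1 := by
      rw [← Matrix.det_mul, Matrix.mul_nonsing_inv _ hun, Matrix.det_one]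
    refine ⟨right_ne_zero_of_mul_eq_one h1, ?_⟩
    have h2 : act (G4 t) (g t) = G4 0 + t • p.T := by
      rw [← ht3, hg]
      show act (G4 t) (Matrix.diagonal ![(μ t)⁻¹, 1, 1, (μ t) ^ 2] * gm (c t)) =
        act (G4 (c t 0 0)) (gm (c t))
      rw [← act_act, G4_diag _ _ (hμne t), hμ6 t ht1, hut]
    rw [← h2, act_act, Matrix.mul_nonsing_inv _ hun, act_one]

end Pool.Agent.ISB
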