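import Pool.Agent.ISB.Defs
import Pool.Agent.ISO.Act
import Pool.Agent.CLU.LinQ

/-!
# ISB / NQAct: invariance of `NQ`

PROOF.  Let `φ g : S → S` be the substitution `X a ↦ ∑ i, C (g a i) * X i` (`aeval`).
`poly (act T g) = φ g (poly T)`: expand `act` and exchange the sums (`Finset.sum_comm`,
`Finset.mul_sum`).  `φ g (φ h F) = φ (h g) F` (check on variables), so `φ g⁻¹` is inverse to `φ g`.
`φ` preserves homogeneity (`MvPolynomial.IsHomogeneous.aeval`-type lemma or: `IsHomogeneous` of a sum of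
monomials in linear forms) and `aeval ![l0, l1] g`, `aeval ![l0, l1, l3] h` commute with the algebra
map `φ` (`MvPolynomial.aeval` composition: `φ (aeval v g) = aeval (φ ∘ v) g`).  The map `φ g` is linear
and injective (`g.det ≠ 0`), so it preserves linear independence of the four linear forms.
`NQ.of_act`: from `L0 * poly (act T0 g) + L1 * poly (act T1 g) = B` nodal; apply `φ g⁻¹`:
`φ g⁻¹ L0 * poly T0 + φ g⁻¹ L1 * poly T1 = φ g⁻¹ B`, nodal with `φ g⁻¹ (l i)`.
`NQ.of_change`: `L0 * poly (a T0 + b T1) + L1 * poly (a' T0 + b' T1) =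
(a L0 + a' L1) * poly T0 + (b L0 + b' L1) * poly T1` (`poly` is linear).
`poly_eval`: evaluation.
-/

set_option autoImplicit false

noncomputable section

namespace Pool.Agent.ISB

open MvPolynomial Matrix Pool.Agent.ISO

theorem poly_add (T T' : T3) : poly (T + T') = poly T + poly T' := by
  simp only [poly, Pi.add_apply, map_add, add_mul, Finset.sum_add_distrib]

theorem poly_smul (s : ℂ) (T : T3) : poly (s • T) = C s * poly T := by
  simp only [poly, Pi.smul_apply, smul_eq_mul, map_mul, Finset.mul_sum, mul_assoc]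

/-- an elementary tensor -/
private def dt (a b c : Fin 4) : T3 := fun i j k =>
  (if i = a then 1 else 0) * (if j = b then 1 else 0) * (if k = c then 1 else 0)

private theorem mon3_dt (a b c : Fin 4) : mon3 a b c = (1 / 6 : ℂ) •
    (dt a b c + dt a c b + dt b a c + dt b c a + dt c a b + dt c b a) := by
  have h : ∀ (P Q R : Prop) [Decidable P] [Decidable Q] [Decidable R],
      (if P ∧ Q ∧ R then (1 : ℂ) else 0) =
        (if P then 1 else 0) * (if Q then 1 else 0) * (if R then 1 else 0) := by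
    intro P Q R _ _ _
    split_ifs with h1 h2 h3 h4 <;> simp_all
  funext i j k
  simp only [mon3, h, Pi.smul_apply, Pi.add_apply, dt, smul_eq_mul]
  ring

private theorem poly_dt (a b c : Fin 4) : poly (dt a b c) = X a * X b * X c := by
  have h1 : ∀ i j k : Fin 4, (C (dt a b c i j k) : CLU.S) * X i * X j * X k =
      if i = a then (if j = b then (if k = c then X i * X j * X k else 0) else 0) else 0 := by
    intro i j k
    simp only [dt]
    split_ifs <;> simp
  simp only [poly, h1]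
  simp

theorem poly_mon3 (a b c : Fin 4) : poly (mon3 a b c) = X a * X b * X c := by
  rw [mon3_dt, poly_smul]
  simp only [poly_add, poly_dt]
  have h6 : (C (1 / 6 : ℂ) : CLU.S) * 6 = 1 := by
    have : (6 : CLU.S) = C (6 : ℂ) := (map_ofNat C 6).symm
    rw [this, ← map_mul]
    norm_num
  linear_combination (X a * X b * X c : CLU.S) * h6

theorem poly_eval (T : T3) (p : Fin 4 → ℂ) : eval p (poly T) = ev T p := by
  simp only [poly, ev, map_sum, map_mul, eval_C, eval_X]

/-- The substitution homomorphism. -/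
def sb (g : M4) : CLU.S →ₐ[ℂ] CLU.S := aeval fun a => ∑ i, C (g a i) * X i

theorem sb_X (g : M4) (a : Fin 4) : sb g (X a) = ∑ i, C (g a i) * X i := by
  simp only [sb, aeval_X]

theorem sb_C (g : M4) (c : ℂ) : sb g (C c) = C c := by
  simp only [sb, aeval_C, algebraMap_eq]

theorem poly_act (T : T3) (g : M4) : poly (act T g) = sb g (poly T) := by
  have h1 : ∀ i j k : Fin 4, (C (act T g i j k) : CLU.S) * X i * X j * X k =
      ∑ a, ∑ b, ∑ c, C (T a b c) * (C (g a i) * X i) * (C (g b j) * X j) * (C (g c k) * X k) := by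
    intro i j k
    simp only [act, map_sum, map_mul, Finset.sum_mul]
    refine Finset.sum_congr rfl fun a _ => Finset.sum_congr rfl fun b _ =>
      Finset.sum_congr rfl fun c _ => ?_
    ring
  have h2 : ∀ a b c : Fin 4, sb g (C (T a b c) * X a * X b * X c) =
      ∑ i, ∑ j, ∑ k, C (T a b c) * (C (g a i) * X i) * (C (g b j) * X j) * (C (g c k) * X k) := by
    intro a b c
    simp only [map_mul, sb_X, sb_C, Finset.mul_sum, Finset.sum_mul]
    rw [Finset.sum_comm]
    conv_lhs =>
      enter [2, x]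
      rw [Finset.sum_comm]
    rw [Finset.sum_comm]
  simp only [poly, map_sum, h1, h2]
  -- exchange `i j k` with `a b c`
  have hx : ∀ F : Fin 4 → Fin 4 → Fin 4 → Fin 4 → Fin 4 → Fin 4 → CLU.S,
      ∑ i, ∑ j, ∑ k, ∑ a, ∑ b, ∑ c, F i j k a b c =
        ∑ a, ∑ b, ∑ c, ∑ i, ∑ j, ∑ k, F i j k a b c := by
    intro F
    have e1 : ∑ i, ∑ j, ∑ k, ∑ a, ∑ b, ∑ c, F i j k a b c =
        ∑ q : Fin 4 × Fin 4 × Fin 4, ∑ r : Fin 4 × Fin 4 × Fin 4,
          F q.1 q.2.1 q.2.2 r.1 r.2.1 r.2.2 := by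
      simp only [Fintype.sum_prod_type]
    have e2 : ∑ a, ∑ b, ∑ c, ∑ i, ∑ j, ∑ k, F i j k a b c =
        ∑ r : Fin 4 × Fin 4 × Fin 4, ∑ q : Fin 4 × Fin 4 × Fin 4,
          F q.1 q.2.1 q.2.2 r.1 r.2.1 r.2.2 := by
      simp only [Fintype.sum_prod_type]
    rw [e1, e2, Finset.sum_comm]
  exact hx _

theorem sb_lf (g : M4) (c : Fin 4 → ℂ) : sb g (CLU.lf c) = CLU.lf (c ᵥ* g) := by
  simp only [CLU.lf_apply, map_sum, map_mul, sb_C, sb_X, Matrix.vecMul, dotProduct,
    Finset.mul_sum, Finset.sum_mul]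
  rw [Finset.sum_comm]
  refine Finset.sum_congr rfl fun i _ => Finset.sum_congr rfl fun j _ => ?_
  ring

theorem sb_hom (g : M4) {F : CLU.S} (hF : F.IsHomogeneous 1) : (sb g F).IsHomogeneous 1 := by
  obtain ⟨c, rfl⟩ := CLU.exists_lf F hF
  rw [sb_lf]
  exact CLU.lf_hom _

theorem nodal_sb (g : M4) (hg : g.det ≠ 0) (B : CLU.S) (h : CLU.NodalQuartic B) :
    CLU.NodalQuartic (sb g B) := by
  obtain ⟨l, q, r, hl, hli, hq, hr, rfl⟩ := h
  refine ⟨fun i => sb g (l i), q, r, fun i => sb_hom g (hl i), ?_, hq, hr, ?_⟩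
  · choose c hc using fun i => CLU.exists_lf (l i) (hl i)
    have h1 : l = fun i => CLU.lf (c i) := funext hc
    have h2 : LinearIndependent ℂ c := by
      rw [h1] at hli
      exact (CLU.li_lf c).1 hli
    have h3 : (fun i => sb g (l i)) = fun i => CLU.lf (c i ᵥ* g) := by
      funext i
      rw [hc i, sb_lf]
    rw [h3, CLU.li_lf]
    have hu : IsUnit g := (Matrix.isUnit_iff_isUnit_det g).2 (isUnit_iff_ne_zero.2 hg)
    have hinj : Function.Injective (Matrix.vecMulLinear g) := by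
      intro x y hxy
      exact Matrix.vecMul_injective_iff_isUnit.2 hu hxy
    exact h2.map' (Matrix.vecMulLinear g) (LinearMap.ker_eq_bot.2 hinj)
  · have e1 : sb g (aeval ![l 0, l 1] q) = aeval ![sb g (l 0), sb g (l 1)] q := by
      rw [comp_aeval_apply]
      congr 2
      funext i
      fin_cases i <;> rfl
    have e2 : sb g (aeval ![l 0, l 1, l 3] r) = aeval ![sb g (l 0), sb g (l 1), sb g (l 3)] r := by
      rw [comp_aeval_apply]
      congr 2
      funext i
      fin_cases i <;> rfl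
    rw [map_add, map_mul, map_add, map_mul, map_mul, e1, e2]

theorem NQ.of_act {T0 T1 : T3} (g : M4) (hg : g.det ≠ 0) (h : NQ (act T0 g) (act T1 g)) :
    NQ T0 T1 := by
  obtain ⟨L0, L1, h0, h1, hB⟩ := h
  have hu : IsUnit g.det := isUnit_iff_ne_zero.2 hg
  have hg' : (g⁻¹).det ≠ 0 := by
    have h2 : (g⁻¹).det * g.det = 1 := by
      rw [← Matrix.det_mul, Matrix.nonsing_inv_mul g hu, Matrix.det_one]
    exact left_ne_zero_of_mul_eq_one h2
  have hT : ∀ T : T3, sb g⁻¹ (poly (act T g)) = poly T := by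
    intro T
    rw [← poly_act, act_act, Matrix.mul_nonsing_inv g hu, act_one]
  refine ⟨sb g⁻¹ L0, sb g⁻¹ L1, sb_hom _ h0, sb_hom _ h1, ?_⟩
  have h3 := nodal_sb g⁻¹ hg' _ hB
  rw [map_add, map_mul, map_mul, hT, hT] at h3
  exact h3

theorem NQ.of_change {T0 T1 : T3} (a b a' b' : ℂ)
    (h : NQ (a • T0 + b • T1) (a' • T0 + b' • T1)) : NQ T0 T1 := by
  obtain ⟨L0, L1, h0, h1, hB⟩ := h
  have hc : ∀ (s : ℂ) {F : CLU.S}, F.IsHomogeneous 1 → (C s * F).IsHomogeneous 1 := by
    intro s F hF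
    have := (isHomogeneous_C (Fin 4) s).mul hF
    simpa using this
  refine ⟨C a * L0 + C a' * L1, C b * L0 + C b' * L1, (hc a h0).add (hc a' h1),
    (hc b h0).add (hc b' h1), ?_⟩
  have e : (C a * L0 + C a' * L1) * poly T0 + (C b * L0 + C b' * L1) * poly T1 =
      L0 * poly (a • T0 + b • T1) + L1 * poly (a' • T0 + b' • T1) := by
    simp only [poly_add, poly_smul]
    ring
  rw [e]
  exact hB

end Pool.Agent.ISB
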