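import Pool.Agent.ISB.Imm
import Pool.Agent.ISB.Defs
import Pool.Agent.ISO.Grow
import Pool.Agent.ISO.LieInj
import Pool.Agent.ISO.Svd

/-!
# ISB / NearOrb: the orbit map of a smooth cubic is open onto the orbit, with a Lipschitz estimate

Matrices near `1` are measured entrywise: `∀ i j, ‖g i j - (1 : M4) i j‖ < ε`.

PROOF of `near_orbit`.  Suppose not: there are `ε > 0` and `T n = act T (g n) → T`, `det (g n) ≠ 0`, such
that no `h` with entries `ε`-close to `1` has `act T h = T n`.  The set `{T} ∪ {T n}` is compact and consists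
of smooth forms, so by `grow` (proof of `ISO.limit_orbit`: singular value decomposition
`g n = U dexp(r) W`, the inequality for `act T (g n)` bounds `r` from above on one side, and the one for
`T = act (act T (g n)) (g n)⁻¹` on the other side) the matrices `g n` stay in a compact subset of
`GL_4`; pass to a convergent subsequence `g n → g`, `det g ≠ 0`, `act T g = T` (continuity,
`continuous_act`).  Then `h n = g⁻¹ * g n → 1` and `act T (h n) = act (act T g⁻¹) (g n) =
act T (g n) = T n`, contradiction.  (You may copy or generalize the private parts of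
`ISO/Grow.lean`.)

PROOF of `orb_lip`.  `Φ e = act T (Matrix.of e)`, `E = Fin 4 → Fin 4 → ℂ`, is polynomial, so analytic,
with derivative `lie T` at `1`, injective by `lie_inj`; `imm_lip` with `e' = 1`.
-/

set_option autoImplicit false

noncomputable section

namespace Pool.Agent.ISB

open Matrix Filter Topology Pool.Agent.ISO

/-- The orbit map as a map between normed spaces. -/
def orbMap (T : T3) (e : Fin 4 → Fin 4 → ℂ) : T3 := act T (Matrix.of e)

theorem orbMap_analytic (T : T3) (e0 : Fin 4 → Fin 4 → ℂ) : AnalyticAt ℂ (orbMap T) e0 := by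
  rw [analyticAt_pi_iff]
  intro i
  rw [analyticAt_pi_iff]
  intro j
  rw [analyticAt_pi_iff]
  intro k
  have hc : ∀ a b : Fin 4, AnalyticAt ℂ (fun e : Fin 4 → Fin 4 → ℂ => e a b) e0 := by
    intro a b
    exact ((ContinuousLinearMap.proj (R := ℂ) (φ := fun _ : Fin 4 => ℂ) b).comp
      (ContinuousLinearMap.proj (R := ℂ) (φ := fun _ : Fin 4 => Fin 4 → ℂ) a)).analyticAt e0
  have hs : AnalyticAt ℂ (fun e : Fin 4 → Fin 4 → ℂ =>
      ∑ a, ∑ b, ∑ c, T a b c * e a i * e b j * e c k) e0 := by
    refine Finset.analyticAt_fun_sum _ fun a _ => Finset.analyticAt_fun_sum _ fun b _ =>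
      Finset.analyticAt_fun_sum _ fun c _ => ?_
    exact ((analyticAt_const.mul (hc a i)).mul (hc b j)).mul (hc c k)
  exact hs

private theorem nob_sum (T : T3) (v : Fin 4 → Fin 4 → ℂ) (i j k : Fin 4) :
    ∑ a, ∑ b, ∑ c, T a b c * (v a i * (1 : M4) b j * (1 : M4) c k +
      (1 : M4) a i * v b j * (1 : M4) c k + (1 : M4) a i * (1 : M4) b j * v c k) =
      ∑ a, (T a j k * v a i + T i a k * v a j + T i j a * v a k) := by
  have e1 : ∑ a, ∑ b, ∑ c, T a b c * (v a i * (1 : M4) b j * (1 : M4) c k) =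
      ∑ a, T a j k * v a i := by
    refine Finset.sum_congr rfl fun a _ => ?_
    rw [Finset.sum_eq_single j]
    · rw [Finset.sum_eq_single k]
      · rw [Matrix.one_apply_eq, Matrix.one_apply_eq, mul_one, mul_one]
      · intro c _ hc
        rw [Matrix.one_apply_ne hc, mul_zero, mul_zero]
      · intro hc
        exact absurd (Finset.mem_univ k) hc
    · intro b _ hb
      refine Finset.sum_eq_zero fun c _ => ?_
      rw [Matrix.one_apply_ne hb, mul_zero, zero_mul, mul_zero]
    · intro hc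
      exact absurd (Finset.mem_univ j) hc
  have e2 : ∑ a, ∑ b, ∑ c, T a b c * ((1 : M4) a i * v b j * (1 : M4) c k) =
      ∑ a, T i a k * v a j := by
    rw [Finset.sum_eq_single i]
    · refine Finset.sum_congr rfl fun b _ => ?_
      rw [Finset.sum_eq_single k]
      · rw [Matrix.one_apply_eq, Matrix.one_apply_eq, one_mul, mul_one]
      · intro c _ hc
        rw [Matrix.one_apply_ne hc, mul_zero, mul_zero]
      · intro hc
        exact absurd (Finset.mem_univ k) hc
    · intro a _ ha
      refine Finset.sum_eq_zero fun b _ => Finset.sum_eq_zero fun c _ => ?_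
      rw [Matrix.one_apply_ne ha, zero_mul, zero_mul, mul_zero]
    · intro hc
      exact absurd (Finset.mem_univ i) hc
  have e3 : ∑ a, ∑ b, ∑ c, T a b c * ((1 : M4) a i * (1 : M4) b j * v c k) =
      ∑ a, T i j a * v a k := by
    rw [Finset.sum_eq_single i]
    · rw [Finset.sum_eq_single j]
      · refine Finset.sum_congr rfl fun c _ => ?_
        rw [Matrix.one_apply_eq, Matrix.one_apply_eq, one_mul, one_mul]
      · intro b _ hb
        refine Finset.sum_eq_zero fun c _ => ?_
        rw [Matrix.one_apply_ne hb, mul_zero, zero_mul, mul_zero]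
      · intro hc
        exact absurd (Finset.mem_univ j) hc
    · intro a _ ha
      refine Finset.sum_eq_zero fun b _ => Finset.sum_eq_zero fun c _ => ?_
      rw [Matrix.one_apply_ne ha, zero_mul, zero_mul, mul_zero]
    · intro hc
      exact absurd (Finset.mem_univ i) hc
  simp only [mul_add, Finset.sum_add_distrib]
  rw [e1, e2, e3]

theorem orbMap_fderiv (T : T3) (v : Fin 4 → Fin 4 → ℂ) :
    fderiv ℂ (orbMap T) (fun i j => (1 : M4) i j) v = lie T (Matrix.of v) := by
  set e1 : Fin 4 → Fin 4 → ℂ := fun i j => (1 : M4) i j with he1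
  have hl : HasDerivAt (fun t : ℂ => e1 + t • v) v 0 := by
    have := ((hasDerivAt_id (0 : ℂ)).smul_const v).const_add e1
    rwa [one_smul] at this
  have hd : HasFDerivAt (orbMap T) (fderiv ℂ (orbMap T) e1) (e1 + (0 : ℂ) • v) := by
    rw [zero_smul, add_zero]
    exact (orbMap_analytic T e1).differentiableAt.hasFDerivAt
  have h1 := hd.comp_hasDerivAt (0 : ℂ) hl
  have ha : ∀ p q : ℂ, HasDerivAt (fun t : ℂ => p + t * q) q 0 := by
    intro p q
    have := ((hasDerivAt_id (0 : ℂ)).mul_const q).const_add p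
    rwa [one_mul] at this
  have h2 : HasDerivAt (orbMap T ∘ fun t : ℂ => e1 + t • v) (lie T (Matrix.of v)) 0 := by
    rw [hasDerivAt_pi]
    intro i
    rw [hasDerivAt_pi]
    intro j
    rw [hasDerivAt_pi]
    intro k
    have h3 : ∀ a b c : Fin 4, HasDerivAt (fun t : ℂ => T a b c * (e1 a i + t * v a i) *
        (e1 b j + t * v b j) * (e1 c k + t * v c k))
        (T a b c * (v a i * e1 b j * e1 c k + e1 a i * v b j * e1 c k +
          e1 a i * e1 b j * v c k)) 0 := by
      intro a b c
      have := (((ha (e1 a i) (v a i)).const_mul (T a b c)).mul (ha (e1 b j) (v b j))).mul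
        (ha (e1 c k) (v c k))
      refine this.congr_deriv ?_
      simp only [zero_mul, add_zero, Pi.mul_apply]
      ring
    have h4 : HasDerivAt (fun t : ℂ => ∑ a, ∑ b, ∑ c, T a b c * (e1 a i + t * v a i) *
        (e1 b j + t * v b j) * (e1 c k + t * v c k))
        (∑ a, ∑ b, ∑ c, T a b c * (v a i * e1 b j * e1 c k + e1 a i * v b j * e1 c k +
          e1 a i * e1 b j * v c k)) 0 :=
      HasDerivAt.fun_sum fun a _ => HasDerivAt.fun_sum fun b _ => HasDerivAt.fun_sum fun c _ =>
        h3 a b c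
    have h5 := nob_sum T v i j k
    have h6 : lie T (Matrix.of v) i j k = ∑ a, ∑ b, ∑ c, T a b c * (v a i * e1 b j * e1 c k +
        e1 a i * v b j * e1 c k + e1 a i * e1 b j * v c k) := h5.symm
    rw [h6]
    exact h4
  exact h1.unique h2

/-- The compact set of matrices with bounded logarithms of the singular values. -/
private def nobKR (R : ℝ) : Set M4 :=
  (fun x : M4 × (Fin 4 → ℝ) × M4 => x.1 * dexp x.2.1 * x.2.2) ''
    ({U : M4 | IsU U} ×ˢ (Metric.closedBall (0 : Fin 4 → ℝ) R ×ˢ {W : M4 | IsU W}))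

private theorem nob_continuous_dexp : Continuous dexp := by
  unfold dexp
  exact Continuous.matrix_diagonal (by fun_prop)

private theorem nob_isCompact_KR (R : ℝ) : IsCompact (nobKR R) := by
  refine (isCompact_unitary.prod ((isCompact_closedBall _ _).prod isCompact_unitary)).image ?_
  exact (continuous_fst.matrix_mul (nob_continuous_dexp.comp (continuous_fst.comp
    continuous_snd))).matrix_mul (continuous_snd.comp continuous_snd)

private theorem nob_det_udw (U W : M4) (r : Fin 4 → ℝ) (hU : IsU U) (hW : IsU W) :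
    (U * dexp r * W).det ≠ 0 := by
  have h1 : ‖(U * dexp r * W).det‖ = Real.exp (∑ i, r i) := by
    rw [Matrix.det_mul, Matrix.det_mul, norm_mul, norm_mul, norm_det_of_isU U hU,
      norm_det_of_isU W hW, det_dexp, Complex.norm_real, Real.norm_of_nonneg (Real.exp_pos _).le,
      one_mul, mul_one]
  intro h
  rw [h, norm_zero] at h1
  exact (Real.exp_pos _).ne h1

private theorem nob_det_KR {R : ℝ} {x : M4} (hx : x ∈ nobKR R) : x.det ≠ 0 := by
  obtain ⟨⟨U, r, W⟩, ⟨hU, hr, hW⟩, rfl⟩ := hx
  exact nob_det_udw U W r hU hW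

private theorem nob_mem_KR {R : ℝ} {U W : M4} {r : Fin 4 → ℝ} (hU : IsU U) (hW : IsU W)
    (hr : ‖r‖ ≤ R) : U * dexp r * W ∈ nobKR R :=
  ⟨(U, r, W), ⟨hU, mem_closedBall_zero_iff.2 hr, hW⟩, rfl⟩

private theorem nob_continuous_actT (T : T3) : Continuous fun g : M4 => act T g :=
  Continuous.comp (g := fun x : T3 × M4 => act x.1 x.2) (f := fun g : M4 => (T, g))
    continuous_act (Continuous.prodMk continuous_const continuous_id)

private theorem nob_log_bound {c B x : ℝ} (hc : 0 < c) (h : c ^ 2 * Real.exp x ≤ B) :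
    x ≤ Real.log (B / c ^ 2) := by
  have h1 : Real.exp x ≤ B / c ^ 2 := by
    rw [le_div_iff₀ (by positivity), mul_comm]
    exact h
  have h2 := Real.log_le_log (Real.exp_pos x) h1
  rwa [Real.log_exp] at h2

/-- Matrices moving a smooth form to a convergent sequence of forms with a smooth limit stay in a
compact set of invertible matrices. -/
private theorem nob_bounded {T G : T3} (h : Sm T) (hG : Sm G) (g : ℕ → M4)
    (hg : ∀ n, (g n).det ≠ 0) (hlim : Tendsto (fun n => act T (g n)) atTop (𝓝 G)) :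
    ∃ R : ℝ, ∀ n, g n ∈ nobKR R := by
  set K : Set T3 := {T} ∪ insert G (Set.range fun n => act T (g n)) with hKdef
  have hK : IsCompact K := isCompact_singleton.union hlim.isCompact_insert_range
  have hTK : T ∈ K := Or.inl rfl
  have hgK : ∀ n, act T (g n) ∈ K := fun n => Or.inr (Or.inr ⟨n, rfl⟩)
  have hs : ∀ S ∈ K, Sm S := by
    rintro S (hS | hS | ⟨n, rfl⟩)
    · rw [Set.mem_singleton_iff.1 hS]
      exact h
    · rw [hS]
      exact hG
    · exact sm_act h (g n) (hg n)
  obtain ⟨c, hc, H⟩ := grow K hK hs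
  obtain ⟨B, hB⟩ := (hK.image continuous_nsq).bddAbove
  have hB' : ∀ S ∈ K, nsq S ≤ B := fun S hS => hB ⟨S, hS, rfl⟩
  set L : ℝ := Real.log (B / c ^ 2) with hL
  set R : ℝ := L / (2 * c) + L / 6 with hR
  refine ⟨R, ?_⟩
  intro n
  obtain ⟨U, W, r, hU, hW, hge, hr⟩ := svd (g n) (hg n)
  set m : ℝ := (∑ i, r i) / 4 with hm
  have hm4 : ∑ i, r i = 4 * m := by
    rw [hm]
    ring
  have h1 := H T hTK U W r hU hW m hm4
  rw [← hge] at h1
  have h1' := nob_log_bound hc (h1.trans (hB' _ (hgK n)))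
  have hUs : IsU (star U) := Unitary.star_mem hU
  have hWs : IsU (star W) := Unitary.star_mem hW
  have hm4' : ∑ i, (fun i => - r i) i = 4 * (-m) := by
    simp only [Finset.sum_neg_distrib]
    rw [hm4]
    ring
  have h2 := H (act T (g n)) (hgK n) (star W) (star U) (fun i => - r i) hWs hUs (-m) hm4'
  have hdd : dexp r * dexp (fun i => - r i) = 1 := by
    unfold dexp
    rw [Matrix.diagonal_mul_diagonal, ← Matrix.diagonal_one]
    congr 1
    funext i
    rw [← Complex.ofReal_mul, ← Real.exp_add, add_neg_cancel, Real.exp_zero, Complex.ofReal_one]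
  have hWW : W * star W = 1 := Matrix.mem_unitaryGroup_iff.1 hW
  have hUU : U * star U = 1 := Matrix.mem_unitaryGroup_iff.1 hU
  have hinv : g n * (star W * dexp (fun i => - r i) * star U) = 1 := by
    rw [hge]
    calc U * dexp r * W * (star W * dexp (fun i => - r i) * star U)
        = U * dexp r * (W * star W) * dexp (fun i => - r i) * star U := by
          simp only [Matrix.mul_assoc]
      _ = U * (dexp r * dexp (fun i => - r i)) * star U := by
          rw [hWW, Matrix.mul_one, Matrix.mul_assoc U]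
      _ = 1 := by rw [hdd, Matrix.mul_one, hUU]
  rw [act_act, hinv, act_one] at h2
  have h2' := nob_log_bound hc (h2.trans (hB' _ hTK))
  have hnn : ‖fun i => (fun i => - r i) i - -m‖ = ‖fun i => r i - m‖ := by
    rw [← norm_neg]
    congr 1
    funext i
    simp only [Pi.neg_apply]
    ring
  rw [hnn] at h2'
  set ρ : ℝ := ‖fun i => r i - m‖ with hρ
  have hρ0 : 0 ≤ ρ := norm_nonneg _
  have hcρ : 0 ≤ 2 * c * ρ := by positivity
  rw [← hL] at h1' h2'
  have ha : |m| ≤ L / 6 := by
    rw [abs_le]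
    constructor <;> linarith
  have hb : ρ ≤ L / (2 * c) := by
    rw [le_div_iff₀ (by positivity)]
    linarith
  rw [hge]
  refine nob_mem_KR hU hW ?_
  have hR0 : 0 ≤ R := by
    have := abs_nonneg m
    rw [hR]
    linarith
  rw [pi_norm_le_iff_of_nonneg hR0]
  intro i
  have h3 : ‖r i - m‖ ≤ ρ := norm_le_pi_norm (fun i => r i - m) i
  rw [Real.norm_eq_abs] at h3 ⊢
  have h4 : |r i| ≤ |r i - m| + |m| := by
    have := abs_add_le (r i - m) m
    rwa [sub_add_cancel] at this
  rw [hR]
  linarith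

theorem near_orbit {T : T3} (h : Sm T) (ε : ℝ) (hε : 0 < ε) :
    ∃ δ : ℝ, 0 < δ ∧ ∀ T' : T3, ‖T' - T‖ < δ → (∃ g : M4, g.det ≠ 0 ∧ T' = act T g) →
      ∃ g : M4, (∀ i j, ‖g i j - (1 : M4) i j‖ < ε) ∧ T' = act T g := by
  by_contra hcon
  have hcon' : ∀ n : ℕ, ∃ T' : T3, ‖T' - T‖ < 1 / ((n : ℝ) + 1) ∧
      (∃ g : M4, g.det ≠ 0 ∧ T' = act T g) ∧
      ∀ g : M4, (∀ i j, ‖g i j - (1 : M4) i j‖ < ε) → T' ≠ act T g := by
    intro n
    by_contra hn
    refine hcon ⟨1 / ((n : ℝ) + 1), by positivity, ?_⟩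
    intro T' hT' hg
    by_contra hng
    refine hn ⟨T', hT', hg, ?_⟩
    intro g hge hTg
    exact hng ⟨g, hge, hTg⟩
  choose T' h1 h2 h3 using hcon'
  choose g hg hgT using h2
  have hlim' : Tendsto T' atTop (𝓝 T) := by
    rw [tendsto_iff_norm_sub_tendsto_zero]
    refine squeeze_zero (fun n => norm_nonneg _) (fun n => (h1 n).le) ?_
    exact tendsto_one_div_add_atTop_nhds_zero_nat
  have hlim : Tendsto (fun n => act T (g n)) atTop (𝓝 T) := by
    have : (fun n => act T (g n)) = T' := by
      funext n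
      exact (hgT n).symm
    rw [this]
    exact hlim'
  obtain ⟨R, hR⟩ := nob_bounded h h g hg hlim
  have : FirstCountableTopology M4 :=
    inferInstanceAs (FirstCountableTopology (Fin 4 → Fin 4 → ℂ))
  obtain ⟨x, hx, φ, hφ, hlimg⟩ := (nob_isCompact_KR R).tendsto_subseq hR
  have hdet : x.det ≠ 0 := nob_det_KR hx
  have hxT : act T x = T := by
    refine tendsto_nhds_unique (f := fun n => act T (g (φ n))) (l := atTop) ?_ ?_
    · exact ((nob_continuous_actT T).tendsto x).comp hlimg
    · exact hlim.comp hφ.tendsto_atTop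
  have hxinv : act T x⁻¹ = T := by
    calc act T x⁻¹ = act (act T x) x⁻¹ := by rw [hxT]
      _ = act T (x * x⁻¹) := act_act T x x⁻¹
      _ = T := by rw [Matrix.mul_nonsing_inv x (isUnit_iff_ne_zero.2 hdet), act_one]
  have hk : Tendsto (fun n => x⁻¹ * g (φ n)) atTop (𝓝 (1 : M4)) := by
    have hc : Continuous fun y : M4 => x⁻¹ * y := continuous_const.matrix_mul continuous_id
    have h5 := (hc.tendsto x).comp hlimg
    rw [Matrix.nonsing_inv_mul x (isUnit_iff_ne_zero.2 hdet)] at h5
    exact h5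
  have hev : ∀ᶠ n in atTop, ∀ i j, ‖(x⁻¹ * g (φ n)) i j - (1 : M4) i j‖ < ε := by
    rw [Filter.eventually_all]
    intro i
    rw [Filter.eventually_all]
    intro j
    have h6 : Tendsto (fun n => (x⁻¹ * g (φ n)) i j) atTop (𝓝 ((1 : M4) i j)) :=
      ((continuous_id.matrix_elem i j).tendsto (1 : M4)).comp hk
    have h7 := (Metric.tendsto_nhds.1 h6) ε hε
    filter_upwards [h7] with n hn
    rwa [dist_eq_norm] at hn
  obtain ⟨n, hn⟩ := hev.exists
  refine h3 (φ n) _ hn ?_
  rw [← act_act, hxinv]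
  exact hgT (φ n)

theorem orb_lip {T : T3} (h : Sm T) :
    ∃ C δ : ℝ, 0 < C ∧ 0 < δ ∧ ∀ T' : T3, ‖T' - T‖ < δ → (∃ g : M4, g.det ≠ 0 ∧ T' = act T g) →
      ∃ g : M4, (∀ i j, ‖g i j - (1 : M4) i j‖ ≤ C * ‖T' - T‖) ∧ T' = act T g := by
  set e1 : Fin 4 → Fin 4 → ℂ := fun i j => (1 : M4) i j with he1
  have hinj : ∀ v, fderiv ℂ (orbMap T) e1 v = 0 → v = 0 := by
    intro v hv
    rw [orbMap_fderiv] at hv
    have h1 := lie_inj h (Matrix.of v) hv
    funext i j
    have h2 := congrFun (congrFun h1 i) j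
    exact h2
  obtain ⟨C, ε, hC, hε, H⟩ := imm_lip (orbMap T) e1 (orbMap_analytic T e1) hinj
  obtain ⟨δ, hδ, Hδ⟩ := near_orbit h ε hε
  refine ⟨C, δ, hC, hδ, ?_⟩
  intro T' hT' hg'
  obtain ⟨g, hge, hTg⟩ := Hδ T' hT' hg'
  refine ⟨g, ?_, hTg⟩
  have hn : ‖(fun i j => g i j) - e1‖ < ε := by
    rw [pi_norm_lt_iff hε]
    intro i
    rw [pi_norm_lt_iff hε]
    intro j
    exact hge i j
  have h1 := H (fun i j => g i j) e1 hn (by rw [sub_self, norm_zero]; exact hε)
  have h2 : orbMap T (fun i j => g i j) = T' := hTg.symm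
  have h3 : orbMap T e1 = T := act_one T
  rw [h2, h3] at h1
  intro i j
  refine le_trans ?_ h1
  have h4 : ‖((fun i j => g i j) - e1) i j‖ ≤ ‖((fun i j => g i j) - e1) i‖ :=
    norm_le_pi_norm (((fun i j => g i j) - e1) i) j
  have h5 : ‖((fun i j => g i j) - e1) i‖ ≤ ‖(fun i j => g i j) - e1‖ :=
    norm_le_pi_norm ((fun i j => g i j) - e1) i
  exact h4.trans h5

end Pool.Agent.ISB
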