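import Pool.Agent.ISB.PolyB

/-!
# ISB / NoCone: case (B), final form

Pencils of cubic surfaces with smooth base curve, without double points of rank at least two and without
cones contain a nodal quartic.
-/

set_option autoImplicit false

noncomputable section

namespace Pool.Agent.ISB

open MvPolynomial Matrix Pool.Agent.ISO

theorem noCone (f0 f1 : CLU.S) (h0 : f0.IsHomogeneous 3) (h1 : f1.IsHomogeneous 3)
    (hC : SmoothBase f0 f1)
    (hA : ∀ a b : ℂ, (a, b) ≠ (0, 0) → ∀ p, ¬ CLU.DoublePoint (C a * f0 + C b * f1) p)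
    (hK : ∀ a b : ℂ, (a, b) ≠ (0, 0) → ∀ p : Fin 4 → ℂ, p ≠ 0 →
      (∀ j, eval p (pderiv j (C a * f0 + C b * f1)) = 0) → CLU.hess (C a * f0 + C b * f1) p ≠ 0) :
    ∃ B ∈ Ideal.span {f0, f1}, CLU.NodalQuartic B := by
  obtain ⟨L0, L1, -, -, hB⟩ := caseB_poly f0 f1 h0 h1 hC hA hK
  refine ⟨L0 * f0 + L1 * f1, ?_, hB⟩
  rw [Ideal.mem_span_pair]
  exact ⟨L0, L1, rfl⟩

end Pool.Agent.ISB
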