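import Pool.Agent.ISB.FinalB
import Pool.Agent.ISO.Final

/-!
# ISB / PolyB: case (B) for polynomials

PROOF.  `pen_toT` (ISO/Final), `caseB` and `poly (toT f) = f` for homogeneous cubic `f` (evaluate:
`poly_eval`, `ev_toT`, `MvPolynomial.funext`).
-/

set_option autoImplicit false

noncomputable section

namespace Pool.Agent.ISB

open MvPolynomial Matrix Pool.Agent.ISO

private theorem eval_poly_b (T : T3) (p : Fin 4 → ℂ) : eval p (poly T) = ev T p := by
  unfold poly ev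
  simp only [map_sum, map_mul, eval_C, eval_X]

theorem poly_toT (f : CLU.S) (hf : f.IsHomogeneous 3) : poly (toT f) = f := by
  apply MvPolynomial.funext
  intro p
  rw [eval_poly_b, ev_toT f hf]

theorem caseB_poly (f0 f1 : CLU.S) (h0 : f0.IsHomogeneous 3) (h1 : f1.IsHomogeneous 3)
    (hC : SmoothBase f0 f1)
    (hA : ∀ a b : ℂ, (a, b) ≠ (0, 0) → ∀ p, ¬ CLU.DoublePoint (C a * f0 + C b * f1) p)
    (hK : ∀ a b : ℂ, (a, b) ≠ (0, 0) → ∀ p : Fin 4 → ℂ, p ≠ 0 →
      (∀ j, eval p (pderiv j (C a * f0 + C b * f1)) = 0) → CLU.hess (C a * f0 + C b * f1) p ≠ 0) :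
    ∃ L0 L1 : CLU.S, L0.IsHomogeneous 1 ∧ L1.IsHomogeneous 1 ∧
      CLU.NodalQuartic (L0 * f0 + L1 * f1) := by
  have h := caseB (pen_toT f0 f1 h0 h1 hC hA hK)
  unfold NQ at h
  rw [poly_toT f0 h0, poly_toT f1 h1] at h
  exact h

end Pool.Agent.ISB
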