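import Pool.Agent.ISB.Germ
import Pool.Agent.ISB.Swap

/-!
# ISB / Tan: the second generator in the standard germ

`φ t = act p.T (k t)` is the second generator of the pencil in the coordinates of the standard germ.

PROOF.  `tan_entries`: entries of `lie (G4 κ) X` (`133`: `κ X 3 1`, `001`: `X 3 1 / 3`, similarly with `2`;
`123` and `012`: `0`), as in `lie_G4`.
`phi_tan`: for small `t ≠ 0`: `p.T = lie (G4 0 + t p.T) X`, so `φ t = act (lie _ X) (k t) =
lie (G4 t) ((k t)⁻¹ X (k t))` (`lie_act`).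
`phi_an`: `act` is polynomial in the entries of the matrix.
`phi_deriv`: differentiate `act (G4 0 + t p.T) (k t) = G4 t` at `0` (`k 0 = 1`, `K = k'(0)` entrywise):
`lie (G4 0) K + p.T = mon3 3 3 3`, and `φ'(0) = lie p.T K`; compute `K` by `lie_G4` and `parT`:
`K 1 0 = - r11/3`, `K 1 1 = - r0/3`, `K 1 2 = - r1/3`, `K 1 3 = - D1/3`, `K 2 0 = - r22/3`,
`K 2 1 = - r2/3`, `K 2 2 = - r3/3`, `K 2 3 = - D2/3`, `K 0 1 = - B1/2`, `K 0 2 = - B2/2`,
`K 0 3 = - e/2`, `K 3 1 = - s1`, `K 3 2 = - s2`; the entry `122` of `lie p.T K` is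
`(r22/3) K01 + (r2/3) K11 + r3 K21 + (D2/3) K31 + 2 ((r1/3) K12 + (r2/3) K22)`.
-/

set_option autoImplicit false

noncomputable section

namespace Pool.Agent.ISB

open Matrix Filter Topology Pool.Agent.ISO

private theorem one_sum (f : Fin 4 → ℂ) (i : Fin 4) : ∑ a, f a * (1 : M4) a i = f i := by
  simp [Matrix.one_apply]

private theorem one_sum' (f : Fin 4 → Fin 4 → ℂ) (g : Fin 4 → ℂ) (i : Fin 4) :
    ∑ a, ∑ b, f a b * (1 : M4) a i * g b = ∑ b, f i b * g b := by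
  rw [Finset.sum_comm]
  refine Finset.sum_congr rfl fun b _ => ?_
  rw [← one_sum (fun a => f a b * g b) i]
  refine Finset.sum_congr rfl fun a _ => ?_
  ring

private theorem act_deriv {T : ℂ → T3} {T' : T3} {k : ℂ → M4} {K : M4}
    (hT : ∀ a b c, HasDerivAt (fun t => T t a b c) (T' a b c) 0)
    (hk : ∀ i j, HasDerivAt (fun t => k t i j) (K i j) 0) (h1 : k 0 = 1) (i j l : Fin 4) :
    HasDerivAt (fun t => act (T t) (k t) i j l) (T' i j l + lie (T 0) K i j l) 0 := by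
  have h : HasDerivAt (fun t => ∑ a, ∑ b, ∑ c, T t a b c * k t a i * k t b j * k t c l)
    (∑ a, ∑ b, ∑ c, (((T' a b c * k 0 a i + T 0 a b c * K a i) * k 0 b j +
      T 0 a b c * k 0 a i * K b j) * k 0 c l + T 0 a b c * k 0 a i * k 0 b j * K c l)) 0 := by
    refine HasDerivAt.fun_sum fun a _ => HasDerivAt.fun_sum fun b _ =>
      HasDerivAt.fun_sum fun c _ => ?_
    exact (((hT a b c).mul (hk a i)).mul (hk b j)).mul (hk c l)
  rw [h1] at h
  have e : (∑ a, ∑ b, ∑ c, (((T' a b c * (1 : M4) a i + T 0 a b c * K a i) * (1 : M4) b j +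
      T 0 a b c * (1 : M4) a i * K b j) * (1 : M4) c l +
        T 0 a b c * (1 : M4) a i * (1 : M4) b j * K c l)) =
      T' i j l + lie (T 0) K i j l := by
    simp only [add_mul, Finset.sum_add_distrib, one_sum, lie, one_sum']
    ring
  rw [← e]
  exact h

private theorem std_eq {p : Par} {k : ℂ → M4} (hk : Std p k) {K : M4}
    (hK : ∀ i j, HasDerivAt (fun t => k t i j) (K i j) 0) (i j l : Fin 4) :
    p.T i j l + lie (G4 0) K i j l = mon3 3 3 3 i j l := by
  have h1 : HasDerivAt (fun t => act (G4 0 + t • p.T) (k t) i j l)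
      (p.T i j l + lie (G4 0 + (0 : ℂ) • p.T) K i j l) 0 := by
    refine act_deriv (T := fun t => G4 0 + t • p.T) (T' := p.T) (fun a b c => ?_) hK hk.one i j l
    have h2 : HasDerivAt (fun t : ℂ => G4 0 a b c + t * p.T a b c) (1 * p.T a b c) 0 :=
      ((hasDerivAt_id (0 : ℂ)).mul_const (p.T a b c)).const_add (G4 0 a b c)
    rw [one_mul] at h2
    exact h2
  rw [zero_smul, add_zero] at h1
  have h3 : HasDerivAt (fun t : ℂ => G4 t i j l) (mon3 3 3 3 i j l) 0 := by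
    have h2 : HasDerivAt (fun t : ℂ => (mon3 0 0 3 + mon3 1 1 1 + mon3 2 2 2) i j l +
        t * mon3 3 3 3 i j l) (1 * mon3 3 3 3 i j l) 0 :=
      ((hasDerivAt_id (0 : ℂ)).mul_const _).const_add _
    rw [one_mul] at h2
    exact h2
  have h4 : (fun t => act (G4 0 + t • p.T) (k t) i j l) =ᶠ[𝓝 (0 : ℂ)] fun t => G4 t i j l := by
    filter_upwards [hk.ev] with t ht
    rw [ht.2]
  exact h1.unique (h3.congr_of_eventuallyEq h4)

theorem tan_entries (κ : ℂ) (X : M4) :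
    lie (G4 κ) X 1 3 3 = 3 * κ * lie (G4 κ) X 0 0 1 ∧
    lie (G4 κ) X 2 3 3 = 3 * κ * lie (G4 κ) X 0 0 2 ∧
    lie (G4 κ) X 1 2 3 = 0 ∧ lie (G4 κ) X 0 1 2 = 0 := by
  refine ⟨?_, ?_, ?_, ?_⟩ <;>
  · simp [lie, G4, mon3, Fin.sum_univ_four]
    try ring

theorem phi_an {p : Par} {k : ℂ → M4} (hk : Std p k) (i j l : Fin 4) :
    AnalyticAt ℂ (fun t => act p.T (k t) i j l) 0 ∧ act p.T (k 0) i j l = p.T i j l := by
  constructor
  · unfold act
    refine Finset.analyticAt_fun_sum _ fun a _ => Finset.analyticAt_fun_sum _ fun b _ =>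
      Finset.analyticAt_fun_sum _ fun c _ => ?_
    exact ((analyticAt_const.mul (hk.an a i)).mul (hk.an b j)).mul (hk.an c l)
  · rw [hk.one, act_one]

theorem phi_tan {p : Par} {k : ℂ → M4} (hk : Std p k)
    (hX : ∀ᶠ t in 𝓝[≠] (0 : ℂ), ∃ X, p.T = lie (G4 0 + t • p.T) X) :
    ∀ᶠ t in 𝓝[≠] (0 : ℂ), act p.T (k t) 1 3 3 = 3 * t * act p.T (k t) 0 0 1 ∧
      act p.T (k t) 2 3 3 = 3 * t * act p.T (k t) 0 0 2 ∧
      act p.T (k t) 1 2 3 = 0 ∧ act p.T (k t) 0 1 2 = 0 := by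
  filter_upwards [hX, hk.ev.filter_mono nhdsWithin_le_nhds] with t ht hev
  obtain ⟨X, hX⟩ := ht
  have h1 : act p.T (k t) = lie (G4 t) ((k t)⁻¹ * X * k t) := by
    rw [← hev.2, lie_act _ _ _ hev.1, ← hX]
  rw [h1]
  exact tan_entries t _

theorem phi_deriv {p : Par} {k : ℂ → M4} (hk : Std p k) :
    deriv (fun t => act p.T (k t) 1 2 2) 0 =
      -(p.r22 * p.B1) / 6 - p.r2 * p.r0 / 9 - p.r3 * p.r2 / 3 - p.D2 * p.s1 / 3 -
        2 * p.r1 ^ 2 / 9 - 2 * p.r2 * p.r3 / 9 := by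
  obtain ⟨K, hKd⟩ : ∃ K : M4, K = Matrix.of (fun i j => deriv (fun t => k t i j) 0) := ⟨_, rfl⟩
  have hK : ∀ i j, HasDerivAt (fun t => k t i j) (K i j) 0 := by
    intro i j
    rw [hKd]
    exact (hk.an i j).differentiableAt.hasDerivAt
  have he := std_eq hk hK
  obtain ⟨-, e1, e2, e3, e4, e5, e6, e7, e8, e9, e10, e11, e12, e13, e14, e15, e16, e17, e18, e19,
    e20⟩ := parT p
  obtain ⟨g333, g133, g233, g123, g012, g000, g001, g002, g003, g013, g023, g033, g111, g222, g011,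
    g112, g113, g022, g122, g223⟩ := lie_G4 K
  have a01 : K 0 1 = -(p.B1 / 2) := by
    have h1 := he 0 1 3
    rw [g013, e4] at h1
    simp [mon3] at h1
    linear_combination 3 * h1
  have a31 : K 3 1 = -p.s1 := by
    have h1 := he 0 0 1
    rw [g001, e14] at h1
    simp [mon3] at h1
    linear_combination 3 * h1
  have a11 : K 1 1 = -(p.r0 / 3) := by
    have h1 := he 1 1 1
    rw [g111, e8] at h1
    simp [mon3] at h1
    linear_combination (1 / 3) * h1
  have a22 : K 2 2 = -(p.r3 / 3) := by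
    have h1 := he 2 2 2
    rw [g222, e11] at h1
    simp [mon3] at h1
    linear_combination (1 / 3) * h1
  have a12 : K 1 2 = -(p.r1 / 3) := by
    have h1 := he 1 1 2
    rw [g112, e9] at h1
    simp [mon3] at h1
    linear_combination h1
  have a21 : K 2 1 = -(p.r2 / 3) := by
    have h1 := he 1 2 2
    rw [g122, e10] at h1
    simp [mon3] at h1
    linear_combination h1
  have hd : HasDerivAt (fun t => act p.T (k t) 1 2 2) ((0 : T3) 1 2 2 + lie p.T K 1 2 2) 0 :=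
    act_deriv (T := fun _ => p.T) (T' := 0) (fun a b c => hasDerivAt_const _ _) hK hk.one 1 2 2
  rw [hd.deriv]
  have hl : (0 : T3) 1 2 2 + lie p.T K 1 2 2 = p.r22 / 3 * K 0 1 + p.r2 / 3 * K 1 1 +
      p.r3 * K 2 1 + p.D2 / 3 * K 3 1 + 2 * (p.r1 / 3 * K 1 2 + p.r2 / 3 * K 2 2) := by
    simp [lie, Par.T, mon3, Fin.sum_univ_four]
    ring
  rw [hl, a01, a11, a21, a31, a12, a22]
  ring

end Pool.Agent.ISB
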