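import Pool.Agent.ISB.FrD4
import Pool.Agent.ISB.Tan
import Pool.Agent.ISB.Alg

/-!
# ISB / QAs: asymptotics of `Q` at a bad `D4` member

PROOF.  Write `φ t = act p.T (k t)` (symmetric: `isSym_act`).  For small `t ≠ 0` choose `θ` with
`θ² = 3 t` (`IsAlgClosed.exists_pow_nat_eq`); `Fr (G4 0 + t p.T) (k t * Mf θ) (lf t)` since
`act _ (k t * Mf θ) = act (G4 t) (Mf θ)` (`act_act`, `fr_G4`), and `act p.T (k t * Mf θ) = act (φ t) (Mf θ)`;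
so `q t = qv (act (φ t) (Mf θ)) (lf t)` is given by `qv_Mf`: this is `q_formula`, and
`ψ t = pv (act (φ t) (Mf θ)) (lf t)`: `psi_formula`.

`q_bound`, `q_lim`: the entries of `φ t` are analytic at `0` with the values `p.T` (`phi_an`, `parT`); as
`p.B2 = 0` the function `φ023` vanishes at `0`, so `φ023 t / t` has a limit and
`(3 t φ002² - φ023²) / t → 3 (s2/3)² = s2² / 3`.  So
`t³ q t → (9/256) * 1 * (-(B1²/36)) * (s2²/3) * (D1²/9) * (D2²/9) * (r1 r2 / 9)`.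

`q_ne`: first alternative of `Bad` with `B1 ≠ 0`: the limit is nonzero.  With `B1 = 0`: `φ013` also vanishes
at `0`, `(3 t φ001² - φ013²)/t → s1²/3 ≠ 0`, so `t² q t` has a nonzero limit.  Second alternative:
`D1 = 0`, so `φ113 (0) = 0` and `(φ113² - 3 t φ011²)/t → - r11²/3 ≠ 0`; `φ122 (0) = r2/3 = 0` and
`φ122 t / t → deriv φ122 0 = - 2 r1² / 9 ≠ 0` (`phi_deriv` with `r2 = 0`, `s1 = - e B1/6`,
`3 r22 = e D2`: `- r22 B1/6 - D2 s1/3 = 0`); so `t q t` has a nonzero limit.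
-/

set_option autoImplicit false

noncomputable section

namespace Pool.Agent.ISB

open Matrix Filter Topology Pool.Agent.ISO

private theorem qa_fr {p : Par} {k : ℂ → M4} (hk : Std p k) {q ψ : ℂ → ℂ}
    (hq : IsQ (G4 0) p.T q ψ) :
    ∀ᶠ t in 𝓝[≠] (0 : ℂ), ∀ θ : ℂ, θ ^ 2 = 3 * t →
      q t = qv (act (act p.T (k t)) (Mf θ)) (lf t) ∧
        ψ t = pv (act (act p.T (k t)) (Mf θ)) (lf t) := by
  filter_upwards [hk.ev.filter_mono nhdsWithin_le_nhds, self_mem_nhdsWithin] with t ht ht0 θ hθ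
  have hF := fr_G4 θ t hθ ht0
  have h1 : Fr (G4 0 + t • p.T) (k t * Mf θ) (lf t) := by
    refine ⟨?_, hF.ne, ?_⟩
    · rw [Matrix.det_mul]
      exact mul_ne_zero ht.1 hF.det
    · rw [← act_act, ht.2]
      exact hF.eq
  have h2 := hq t _ _ h1
  rw [← act_act] at h2
  exact h2

theorem q_formula {p : Par} {k : ℂ → M4} (hk : Std p k) {q ψ : ℂ → ℂ} (hq : IsQ (G4 0) p.T q ψ)
    (hX : ∀ᶠ t in 𝓝[≠] (0 : ℂ), ∃ X, p.T = lie (G4 0 + t • p.T) X) :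
    ∀ᶠ t in 𝓝[≠] (0 : ℂ), ∀ f : T3, f = act p.T (k t) → q t = 9 / 256 / t ^ 4 *
      ((f 3 3 3 - 3 * t * f 0 0 3) ^ 2 - 3 * t * (f 0 3 3 - 3 * t * f 0 0 0) ^ 2) *
      (3 * t * f 0 0 1 ^ 2 - f 0 1 3 ^ 2) * (3 * t * f 0 0 2 ^ 2 - f 0 2 3 ^ 2) *
      (f 1 1 3 ^ 2 - 3 * t * f 0 1 1 ^ 2) * (f 2 2 3 ^ 2 - 3 * t * f 0 2 2 ^ 2) *
      (f 1 1 2 * f 1 2 2) := by
  filter_upwards [qa_fr hk hq, phi_tan hk hX, self_mem_nhdsWithin] with t h1 h2 ht0 f hf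
  obtain ⟨θ, hθ⟩ := IsAlgClosed.exists_pow_nat_eq (3 * t) (n := 2) (by norm_num)
  rw [(h1 θ hθ).1]
  subst hf
  exact qv_Mf _ (isSym_act (parT p).1 _) θ t hθ ht0 h2.1 h2.2.1

theorem psi_formula {p : Par} {k : ℂ → M4} (hk : Std p k) {q ψ : ℂ → ℂ} (hq : IsQ (G4 0) p.T q ψ) :
    ∀ᶠ t in 𝓝[≠] (0 : ℂ), ∀ θ : ℂ, θ ^ 2 = 3 * t →
      ψ t = pv (act (act p.T (k t)) (Mf θ)) (lf t) := by
  filter_upwards [qa_fr hk hq] with t h1 θ hθ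
  exact (h1 θ hθ).2

private theorem qa_T {p : Par} {k : ℂ → M4} (hk : Std p k) (i j l : Fin 4) :
    Tendsto (fun t => act p.T (k t) i j l) (𝓝[≠] 0) (𝓝 (p.T i j l)) := by
  have h : Tendsto (fun t => act p.T (k t) i j l) (𝓝 0) (𝓝 (act p.T (k 0) i j l)) :=
    (phi_an hk i j l).1.continuousAt
  rw [(phi_an hk i j l).2] at h
  exact h.mono_left nhdsWithin_le_nhds

private theorem qa_S {p : Par} {k : ℂ → M4} (hk : Std p k) (i j l : Fin 4)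
    (h0 : p.T i j l = 0) :
    Tendsto (fun t => act p.T (k t) i j l / t) (𝓝[≠] 0)
      (𝓝 (deriv (fun t => act p.T (k t) i j l) 0)) := by
  have h1 := hasDerivAt_iff_tendsto_slope.1 (phi_an hk i j l).1.differentiableAt.hasDerivAt
  refine h1.congr fun t => ?_
  rw [slope_def_field, (phi_an hk i j l).2, h0, sub_zero, sub_zero]

private theorem qa_0 : Tendsto (fun t : ℂ => 3 * t) (𝓝[≠] 0) (𝓝 0) := by
  have h : Tendsto (fun t : ℂ => 3 * t) (𝓝[≠] 0) (𝓝 (3 * 0)) :=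
    (tendsto_id.mono_left nhdsWithin_le_nhds).const_mul 3
  rwa [mul_zero] at h

private theorem qa_L {x y : ℂ → ℂ} {x0 c : ℂ} (hx : Tendsto x (𝓝[≠] 0) (𝓝 x0))
    (hy : Tendsto y (𝓝[≠] 0) (𝓝 0)) (hy' : Tendsto (fun t => y t / t) (𝓝[≠] 0) (𝓝 c)) :
    Tendsto (fun t => 3 * x t ^ 2 - y t * (y t / t)) (𝓝[≠] 0) (𝓝 (3 * x0 ^ 2)) := by
  have h := ((hx.pow 2).const_mul 3).sub (hy.mul hy')
  rw [zero_mul, sub_zero] at h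
  exact h

private theorem qa_M {x y : ℂ → ℂ} {x0 y0 : ℂ} (hx : Tendsto x (𝓝[≠] 0) (𝓝 x0))
    (hy : Tendsto y (𝓝[≠] 0) (𝓝 y0)) :
    Tendsto (fun t => 3 * t * x t ^ 2 - y t ^ 2) (𝓝[≠] 0) (𝓝 (-(y0 ^ 2))) := by
  have h := (qa_0.mul (hx.pow 2)).sub (hy.pow 2)
  rw [zero_mul, zero_sub] at h
  exact h

private theorem qa_N {x y : ℂ → ℂ} {x0 y0 : ℂ} (hx : Tendsto x (𝓝[≠] 0) (𝓝 x0))
    (hy : Tendsto y (𝓝[≠] 0) (𝓝 y0)) :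
    Tendsto (fun t => y t ^ 2 - 3 * t * x t ^ 2) (𝓝[≠] 0) (𝓝 (y0 ^ 2)) := by
  have h := (hy.pow 2).sub (qa_0.mul (hx.pow 2))
  rw [zero_mul, sub_zero] at h
  exact h

private theorem qa_A {p : Par} {k : ℂ → M4} (hk : Std p k) :
    Tendsto (fun t => (act p.T (k t) 3 3 3 - 3 * t * act p.T (k t) 0 0 3) ^ 2 -
      3 * t * (act p.T (k t) 0 3 3 - 3 * t * act p.T (k t) 0 0 0) ^ 2) (𝓝[≠] 0) (𝓝 1) := by
  have h1 := (((qa_T hk 3 3 3).sub (qa_0.mul (qa_T hk 0 0 3))).pow 2).sub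
    (qa_0.mul (((qa_T hk 0 3 3).sub (qa_0.mul (qa_T hk 0 0 0))).pow 2))
  rw [zero_mul, zero_mul, sub_zero, sub_zero, (parT p).2.1, one_pow] at h1
  exact h1

theorem q_lim {p : Par} {k : ℂ → M4} (hk : Std p k) {q ψ : ℂ → ℂ} (hq : IsQ (G4 0) p.T q ψ)
    (hX : ∀ᶠ t in 𝓝[≠] (0 : ℂ), ∃ X, p.T = lie (G4 0 + t • p.T) X) (hB : p.B2 = 0) :
    Tendsto (fun t => t ^ 3 * q t) (𝓝[≠] 0) (𝓝 (9 / 256 * (-(p.B1 ^ 2) / 36) * (p.s2 ^ 2 / 3) *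
      (p.D1 ^ 2 / 9) * (p.D2 ^ 2 / 9) * (p.r1 * p.r2 / 9))) := by
  obtain ⟨-, e333, e033, e003, e013, e023, e113, e223, e111, e112, e122, e222, e011, e022, e001,
    e002, e000, -⟩ := parT p
  have z023 : p.T 0 2 3 = 0 := by rw [e023, hB, zero_div]
  have t1 := qa_M (qa_T hk 0 0 1) (qa_T hk 0 1 3)
  have t2 := qa_L (qa_T hk 0 0 2) (by have := qa_T hk 0 2 3; rwa [z023] at this)
    (qa_S hk 0 2 3 z023)
  have t3 := qa_N (qa_T hk 0 1 1) (qa_T hk 1 1 3)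
  have t4 := qa_N (qa_T hk 0 2 2) (qa_T hk 2 2 3)
  have t5 := (qa_T hk 1 1 2).mul (qa_T hk 1 2 2)
  have h := (((((qa_A hk).const_mul (9 / 256)).mul t1).mul t2).mul t3).mul t4 |>.mul t5
  have hv : 9 / 256 * 1 * -(p.T 0 1 3 ^ 2) * (3 * p.T 0 0 2 ^ 2) * p.T 1 1 3 ^ 2 *
      p.T 2 2 3 ^ 2 * (p.T 1 1 2 * p.T 1 2 2) = 9 / 256 * (-(p.B1 ^ 2) / 36) * (p.s2 ^ 2 / 3) *
      (p.D1 ^ 2 / 9) * (p.D2 ^ 2 / 9) * (p.r1 * p.r2 / 9) := by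
    rw [e013, e002, e113, e223, e112, e122]
    ring
  rw [hv] at h
  refine h.congr' ?_
  filter_upwards [q_formula hk hq hX, self_mem_nhdsWithin] with t h1 ht0
  have ht : t ≠ 0 := ht0
  rw [h1 _ rfl]
  field_simp

private theorem qa_case2 {p : Par} {k : ℂ → M4} (hk : Std p k) {q ψ : ℂ → ℂ}
    (hq : IsQ (G4 0) p.T q ψ)
    (hX : ∀ᶠ t in 𝓝[≠] (0 : ℂ), ∃ X, p.T = lie (G4 0 + t • p.T) X) (hB : p.B2 = 0)
    (hB1 : p.B1 = 0) :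
    Tendsto (fun t => t ^ 2 * q t) (𝓝[≠] 0) (𝓝 (9 / 256 * (p.s1 ^ 2 / 3) * (p.s2 ^ 2 / 3) *
      (p.D1 ^ 2 / 9) * (p.D2 ^ 2 / 9) * (p.r1 * p.r2 / 9))) := by
  obtain ⟨-, e333, e033, e003, e013, e023, e113, e223, e111, e112, e122, e222, e011, e022, e001,
    e002, e000, -⟩ := parT p
  have z023 : p.T 0 2 3 = 0 := by rw [e023, hB, zero_div]
  have z013 : p.T 0 1 3 = 0 := by rw [e013, hB1, zero_div]
  have t1 := qa_L (qa_T hk 0 0 1) (by have := qa_T hk 0 1 3; rwa [z013] at this)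
    (qa_S hk 0 1 3 z013)
  have t2 := qa_L (qa_T hk 0 0 2) (by have := qa_T hk 0 2 3; rwa [z023] at this)
    (qa_S hk 0 2 3 z023)
  have t3 := qa_N (qa_T hk 0 1 1) (qa_T hk 1 1 3)
  have t4 := qa_N (qa_T hk 0 2 2) (qa_T hk 2 2 3)
  have t5 := (qa_T hk 1 1 2).mul (qa_T hk 1 2 2)
  have h := (((((qa_A hk).const_mul (9 / 256)).mul t1).mul t2).mul t3).mul t4 |>.mul t5
  have hv : 9 / 256 * 1 * (3 * p.T 0 0 1 ^ 2) * (3 * p.T 0 0 2 ^ 2) * p.T 1 1 3 ^ 2 *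
      p.T 2 2 3 ^ 2 * (p.T 1 1 2 * p.T 1 2 2) = 9 / 256 * (p.s1 ^ 2 / 3) * (p.s2 ^ 2 / 3) *
      (p.D1 ^ 2 / 9) * (p.D2 ^ 2 / 9) * (p.r1 * p.r2 / 9) := by
    rw [e001, e002, e113, e223, e112, e122]
    ring
  rw [hv] at h
  refine h.congr' ?_
  filter_upwards [q_formula hk hq hX, self_mem_nhdsWithin] with t h1 ht0
  have ht : t ≠ 0 := ht0
  rw [h1 _ rfl]
  field_simp

private theorem qa_case3 {p : Par} {k : ℂ → M4} (hk : Std p k) {q ψ : ℂ → ℂ}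
    (hq : IsQ (G4 0) p.T q ψ)
    (hX : ∀ᶠ t in 𝓝[≠] (0 : ℂ), ∃ X, p.T = lie (G4 0 + t • p.T) X) (hB : p.B2 = 0)
    (hD1 : p.D1 = 0) (hr2 : p.r2 = 0) (hr22 : 3 * p.r22 = p.e * p.D2)
    (hs1 : p.s1 = -(p.e * p.B1) / 6) :
    Tendsto (fun t => t * q t) (𝓝[≠] 0) (𝓝 (9 / 256 * (-(p.B1 ^ 2) / 36) * (p.s2 ^ 2 / 3) *
      (-(p.r11 ^ 2) / 3) * (p.D2 ^ 2 / 9) * (p.r1 / 3 * (-(2 * p.r1 ^ 2) / 9)))) := by
  obtain ⟨-, e333, e033, e003, e013, e023, e113, e223, e111, e112, e122, e222, e011, e022, e001,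
    e002, e000, -⟩ := parT p
  have z023 : p.T 0 2 3 = 0 := by rw [e023, hB, zero_div]
  have z113 : p.T 1 1 3 = 0 := by rw [e113, hD1, zero_div]
  have z122 : p.T 1 2 2 = 0 := by rw [e122, hr2, zero_div]
  have t1 := qa_M (qa_T hk 0 0 1) (qa_T hk 0 1 3)
  have t2 := qa_L (qa_T hk 0 0 2) (by have := qa_T hk 0 2 3; rwa [z023] at this)
    (qa_S hk 0 2 3 z023)
  have t3 := (qa_L (qa_T hk 0 1 1) (by have := qa_T hk 1 1 3; rwa [z113] at this)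
    (qa_S hk 1 1 3 z113)).neg
  have t4 := qa_N (qa_T hk 0 2 2) (qa_T hk 2 2 3)
  have t5 := (qa_T hk 1 1 2).mul (qa_S hk 1 2 2 z122)
  rw [phi_deriv hk] at t5
  have h := (((((qa_A hk).const_mul (9 / 256)).mul t1).mul t2).mul t3).mul t4 |>.mul t5
  have hv : 9 / 256 * 1 * -(p.T 0 1 3 ^ 2) * (3 * p.T 0 0 2 ^ 2) * -(3 * p.T 0 1 1 ^ 2) *
      p.T 2 2 3 ^ 2 * (p.T 1 1 2 * (-(p.r22 * p.B1) / 6 - p.r2 * p.r0 / 9 - p.r3 * p.r2 / 3 -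
        p.D2 * p.s1 / 3 - 2 * p.r1 ^ 2 / 9 - 2 * p.r2 * p.r3 / 9)) =
      9 / 256 * (-(p.B1 ^ 2) / 36) * (p.s2 ^ 2 / 3) *
      (-(p.r11 ^ 2) / 3) * (p.D2 ^ 2 / 9) * (p.r1 / 3 * (-(2 * p.r1 ^ 2) / 9)) := by
    have h1 : -(p.r22 * p.B1) / 6 - p.r2 * p.r0 / 9 - p.r3 * p.r2 / 3 -
        p.D2 * p.s1 / 3 - 2 * p.r1 ^ 2 / 9 - 2 * p.r2 * p.r3 / 9 = -(2 * p.r1 ^ 2) / 9 := by
      rw [hr2, hs1]
      linear_combination (-p.B1 / 18) * hr22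
    rw [h1, e013, e002, e011, e223, e112]
    ring
  rw [hv] at h
  refine h.congr' ?_
  filter_upwards [q_formula hk hq hX, self_mem_nhdsWithin] with t h1 ht0
  have ht : t ≠ 0 := ht0
  rw [h1 _ rfl]
  field_simp
  ring

private theorem qa_ne {g q : ℂ → ℂ} {c : ℂ} (hc : c ≠ 0)
    (h : Tendsto (fun t => g t * q t) (𝓝[≠] 0) (𝓝 c)) : ∀ᶠ t in 𝓝[≠] (0 : ℂ), q t ≠ 0 := by
  filter_upwards [h.eventually_ne hc] with t ht h0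
  exact ht (by rw [h0, mul_zero])

theorem q_ne {p : Par} {k : ℂ → M4} (hk : Std p k) {q ψ : ℂ → ℂ} (hq : IsQ (G4 0) p.T q ψ)
    (hX : ∀ᶠ t in 𝓝[≠] (0 : ℂ), ∃ X, p.T = lie (G4 0 + t • p.T) X) (hB : Bad p) :
    ∀ᶠ t in 𝓝[≠] (0 : ℂ), q t ≠ 0 := by
  obtain ⟨hB2, hD2, hs2, hr1, h⟩ := hB
  have hs20 : p.s2 ≠ 0 := by
    rw [hs2]
    exact div_ne_zero (neg_ne_zero.2 (pow_ne_zero 2 hD2)) (by norm_num)
  have hsq : ∀ {x d : ℂ}, x ≠ 0 → d ≠ 0 → x ^ 2 / d ≠ 0 := fun hx hd =>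
    div_ne_zero (pow_ne_zero 2 hx) hd
  have hnq : ∀ {x d : ℂ}, x ≠ 0 → d ≠ 0 → -(x ^ 2) / d ≠ 0 := fun hx hd =>
    div_ne_zero (neg_ne_zero.2 (pow_ne_zero 2 hx)) hd
  have n256 : (9 / 256 : ℂ) ≠ 0 := by norm_num
  have n3 : (3 : ℂ) ≠ 0 := by norm_num
  have n9 : (9 : ℂ) ≠ 0 := by norm_num
  have n36 : (36 : ℂ) ≠ 0 := by norm_num
  rcases h with ⟨hD1, hr2, hs1⟩ | ⟨hD1, hr2, hB1, hr11, hr22, hs1⟩
  · by_cases hB1 : p.B1 = 0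
    · exact qa_ne (mul_ne_zero (mul_ne_zero (mul_ne_zero (mul_ne_zero (mul_ne_zero n256
        (hsq (hs1 hB1) n3)) (hsq hs20 n3)) (hsq hD1 n9)) (hsq hD2 n9))
        (div_ne_zero (mul_ne_zero hr1 hr2) n9)) (qa_case2 hk hq hX hB2 hB1)
    · exact qa_ne (mul_ne_zero (mul_ne_zero (mul_ne_zero (mul_ne_zero (mul_ne_zero n256
        (hnq hB1 n36)) (hsq hs20 n3)) (hsq hD1 n9)) (hsq hD2 n9))
        (div_ne_zero (mul_ne_zero hr1 hr2) n9)) (q_lim hk hq hX hB2)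
  · exact qa_ne (mul_ne_zero (mul_ne_zero (mul_ne_zero (mul_ne_zero (mul_ne_zero n256
      (hnq hB1 n36)) (hsq hs20 n3)) (hnq hr11 n3)) (hsq hD2 n9))
      (mul_ne_zero (div_ne_zero hr1 n3) (div_ne_zero (neg_ne_zero.2
        (mul_ne_zero two_ne_zero (pow_ne_zero 2 hr1))) n9)))
      (qa_case3 hk hq hX hB2 hD1 hr2 hr22 hs1)

end Pool.Agent.ISB
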