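import Pool.Agent.ISB.FrSm
import Pool.Agent.ISB.FrUniq

/-!
# ISB / Qfun: the holomorphic functions `Q` and `Ψ`

PROOF.  `IsQ T0 T1 q ψ`: `q t`, `ψ t` are the values of `qv`, `pv` in any frame of `T0 + t T1`.
Existence: define `q t` by choice of a frame (`0` if there is none), well defined by `fr_uniq`.
Analyticity at a smooth `t0`: with `U` from `fr_smooth`, near `t0`
`q t = qv (act T1 (U t)) 1`, a polynomial in the entries of `U t`; `ψ t = pv (act T1 (U t)) 1`, a quotient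
of analytic functions whose denominators `f_jji(t0)` are nonzero if `q t0 ≠ 0` (`qv ≠ 0` means that all
`f i i j ≠ 0`, `i ≠ j`).
-/

set_option autoImplicit false

noncomputable section

namespace Pool.Agent.ISB

open Matrix Filter Topology Pool.Agent.ISO

/-- `q`, `ψ` are the functions `Q`, `Ψ` of the pencil. -/
def IsQ (T0 T1 : T3) (q ψ : ℂ → ℂ) : Prop :=
  ∀ (t : ℂ) (U : M4) (l : Fin 4 → ℂ), Fr (T0 + t • T1) U l →
    q t = qv (act T1 U) l ∧ ψ t = pv (act T1 U) l

theorem exists_isQ (T0 T1 : T3) : ∃ q ψ : ℂ → ℂ, IsQ T0 T1 q ψ := by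
  classical
  refine ⟨fun t => if h : ∃ x : M4 × (Fin 4 → ℂ), Fr (T0 + t • T1) x.1 x.2 then
      qv (act T1 h.choose.1) h.choose.2 else 0,
    fun t => if h : ∃ x : M4 × (Fin 4 → ℂ), Fr (T0 + t • T1) x.1 x.2 then
      pv (act T1 h.choose.1) h.choose.2 else 0, ?_⟩
  intro t U l hF
  have h : ∃ x : M4 × (Fin 4 → ℂ), Fr (T0 + t • T1) x.1 x.2 := ⟨(U, l), hF⟩
  have h1 := fr_uniq h.choose_spec hF T1
  constructor
  · show (if h : ∃ x : M4 × (Fin 4 → ℂ), Fr (T0 + t • T1) x.1 x.2 then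
      qv (act T1 h.choose.1) h.choose.2 else 0) = _
    rw [dif_pos h]
    exact h1.1
  · show (if h : ∃ x : M4 × (Fin 4 → ℂ), Fr (T0 + t • T1) x.1 x.2 then
      pv (act T1 h.choose.1) h.choose.2 else 0) = _
    rw [dif_pos h]
    exact h1.2

theorem qv_ne {f : T3} {l : Fin 4 → ℂ} (h : qv f l ≠ 0) (i j : Fin 4) (hij : i ≠ j) :
    f i i j ≠ 0 := by
  intro h0
  apply h
  unfold qv
  rw [Finset.prod_eq_zero (Finset.mem_univ i)
    (Finset.prod_eq_zero (Finset.mem_erase.2 ⟨hij.symm, Finset.mem_univ j⟩) h0), zero_div]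

private theorem act_an {U : ℂ → M4} {t0 : ℂ} (hU : ∀ i j, AnalyticAt ℂ (fun t => U t i j) t0)
    (T : T3) (i j k : Fin 4) : AnalyticAt ℂ (fun t => act T (U t) i j k) t0 := by
  unfold act
  refine Finset.analyticAt_fun_sum _ fun a _ => Finset.analyticAt_fun_sum _ fun b _ =>
    Finset.analyticAt_fun_sum _ fun c _ => ?_
  exact ((analyticAt_const.mul (hU a i)).mul (hU b j)).mul (hU c k)

theorem isQ_analytic {T0 T1 : T3} {q ψ : ℂ → ℂ} (hq : IsQ T0 T1 q ψ) (h0 : IsSym T0)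
    (h1 : IsSym T1)
    (horb : ∀ t : ℂ, Sm (T0 + t • T1) → ∃ x : M4, x.det ≠ 0 ∧ T0 + t • T1 = act fermat x)
    (t0 : ℂ) (hs : Sm (T0 + t0 • T1)) :
    AnalyticAt ℂ q t0 ∧ (q t0 ≠ 0 → AnalyticAt ℂ ψ t0) := by
  obtain ⟨U, hU, hFr⟩ := fr_smooth T0 T1 h0 h1 t0 hs horb
  have hF0 := hFr.self_of_nhds
  constructor
  · have h2 : AnalyticAt ℂ (fun t => qv (act T1 (U t)) (fun _ => 1)) t0 := by
      unfold qv
      refine AnalyticAt.div ?_ analyticAt_const ?_
      · exact Finset.analyticAt_fun_prod _ fun i _ => Finset.analyticAt_fun_prod _ fun j _ =>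
          act_an hU T1 i i j
      · simp
    refine h2.congr ?_
    filter_upwards [hFr] with t ht
    exact (hq t (U t) _ ht).1.symm
  · intro hq0
    rw [(hq t0 (U t0) _ hF0).1] at hq0
    have h2 : AnalyticAt ℂ (fun t => pv (act T1 (U t)) (fun _ => 1)) t0 := by
      unfold pv
      refine Finset.analyticAt_fun_sum _ fun i _ => Finset.analyticAt_fun_sum _ fun j hj => ?_
      have hne : j ≠ i := (Finset.mem_erase.1 hj).1
      refine AnalyticAt.div ((act_an hU T1 i i j).pow 2) ?_ ?_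
      · exact analyticAt_const.mul (act_an hU T1 j j i)
      · show (1 : ℂ) * act T1 (U t0) j j i ≠ 0
        rw [one_mul]
        exact qv_ne hq0 j i hne
    refine h2.congr ?_
    filter_upwards [hFr] with t ht
    exact (hq t (U t) _ ht).2.symm

end Pool.Agent.ISB
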